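import Pool.Agent.MP_ae0bd0_nt.CM.Defs

set_option autoImplicit false

open scoped ComplexConjugate

namespace CM27

/-! ## [CM-B1] number of points, cubing bijective (file B1.lean) -/

theorem b1_three_ne_zero (F : Type) [Field F] [Finite F] (h : Nat.card F % 3 ≠ 0) :
    (3 : F) ≠ 0 := by
  have : Fintype F := Fintype.ofFinite F
  intro h3
  obtain ⟨p, hp⟩ := CharP.exists F
  have hpp : p.Prime := CharP.char_is_prime F p
  have h1 : p ∣ 3 := (CharP.cast_eq_zero_iff F p 3).1 (by exact_mod_cast h3)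
  have h2 : p = 3 := (Nat.prime_dvd_prime_iff_eq hpp Nat.prime_three).1 h1
  subst h2
  have h4 : 3 ∣ Nat.card F := by
    rw [← CharP.cast_eq_zero_iff F 3, Nat.card_eq_fintype_card, FiniteField.cast_card_eq_zero]
  exact h (Nat.dvd_iff_mod_eq_zero.1 h4)

theorem b1_cube_injective (F : Type) [Field F] [Finite F] (h : Nat.card F % 3 = 2) :
    Function.Injective (fun x : F => x ^ 3) := by
  have : Fintype F := Fintype.ofFinite F
  intro x y hxy
  simp only at hxy
  by_cases hy : y = 0
  · rw [hy] at hxy ⊢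
    have : x ^ 3 = 0 := by rw [hxy]; simp
    exact pow_eq_zero_iff (by norm_num) |>.1 this
  · have hx : x ≠ 0 := by
      rintro rfl
      apply hy
      have : y ^ 3 = 0 := by rw [← hxy]; simp
      exact pow_eq_zero_iff (by norm_num) |>.1 this
    have h1 : (x / y) ^ 3 = 1 := by
      rw [div_pow, hxy, div_self (pow_ne_zero _ hy)]
    have h2 : (x / y) ^ (Fintype.card F - 1) = 1 :=
      FiniteField.pow_card_sub_one_eq_one _ (div_ne_zero hx hy)
    have h3 : orderOf (x / y) ∣ Nat.gcd 3 (Fintype.card F - 1) :=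
      Nat.dvd_gcd (orderOf_dvd_of_pow_eq_one h1) (orderOf_dvd_of_pow_eq_one h2)
    have h4 : Nat.gcd 3 (Fintype.card F - 1) = 1 := by
      rw [← Nat.coprime_iff_gcd_eq_one, Nat.Prime.coprime_iff_not_dvd Nat.prime_three]
      rw [Nat.card_eq_fintype_card] at h
      omega
    rw [h4, Nat.dvd_one, orderOf_eq_one_iff] at h3
    exact (div_eq_one_iff_eq hy).1 h3

theorem b1_nonsingular_iff (F : Type) [Field F] (h3 : (3 : F) ≠ 0) (x y : F) :
    (E F).toAffine.Nonsingular x y ↔ y ^ 2 + y = x ^ 3 := by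
  have hΔ : (E F).toAffine.Δ ≠ 0 := by
    have h1 : (E F).Δ = -(3 ^ 3) := by
      simp only [E, WeierstrassCurve.Δ, WeierstrassCurve.b₂, WeierstrassCurve.b₄,
        WeierstrassCurve.b₆, WeierstrassCurve.b₈]
      ring
    rw [h1]
    exact neg_ne_zero.2 (pow_ne_zero _ h3)
  rw [← WeierstrassCurve.Affine.equation_iff_nonsingular_of_Δ_ne_zero hΔ,
    WeierstrassCurve.Affine.equation_iff]
  simp [E]

theorem card_of_two (F : Type) [Field F] [Finite F] (h : Nat.card F % 3 = 2) :
    Nat.card (E F).toAffine.Point = Nat.card F + 1 := by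
  have h3 : (3 : F) ≠ 0 := b1_three_ne_zero F (by rw [h]; norm_num)
  have hbij : Function.Bijective (fun x : F => x ^ 3) :=
    Finite.injective_iff_bijective.1 (b1_cube_injective F h)
  have e : {xy : F × F // (E F).toAffine.Nonsingular xy.1 xy.2} ≃ F := by
    refine Equiv.ofBijective (fun p => p.1.2) ⟨?_, ?_⟩
    · rintro ⟨⟨x, y⟩, hp⟩ ⟨⟨x', y'⟩, hp'⟩ heq
      simp only at heq hp hp'
      rw [b1_nonsingular_iff F h3] at hp hp'
      subst heq
      have : x = x' := hbij.1 (by simp only; rw [← hp, ← hp'])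
      subst this
      rfl
    · intro y
      obtain ⟨x, hx⟩ := hbij.2 (y ^ 2 + y)
      exact ⟨⟨(x, y), (b1_nonsingular_iff F h3 x y).2 hx.symm⟩, rfl⟩
  have h1 : Nat.card (E F).toAffine.Point = Nat.card (Option F) :=
    Nat.card_congr ((WeierstrassCurve.Affine.nonsingularPointEquiv (E F).toAffine).trans
      (Equiv.optionCongr e))
  rw [h1, Finite.card_option]

end CM27
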