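import Pool.Agent.MP_ae0bd0_nt.CM.Defs

set_option autoImplicit false

open Polynomial NumberField IsDedekindDomain
open scoped Classical

namespace CM27

/-! ## [CM-C3] the completions of a number field (file C3.lean) -/

section c3

open WithZero

variable (K : Type) [Field K] [NumberField K] (v : HeightOneSpectrum (𝓞 K))

theorem c3_val (r : 𝓞 K) :
    Valued.v ((algebraMap (𝓞 K) (v.adicCompletionIntegers K) r : v.adicCompletionIntegers K) :
      v.adicCompletion K) = v.intValuation r := by
  rw [HeightOneSpectrum.algebraMap_adicCompletionIntegers_apply,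
    HeightOneSpectrum.valuedAdicCompletion_eq_valuation', HeightOneSpectrum.valuation_of_algebraMap]

theorem c3_mem_max (x : v.adicCompletionIntegers K) :
    x ∈ IsLocalRing.maximalIdeal (v.adicCompletionIntegers K) ↔
      Valued.v (x : v.adicCompletion K) < 1 := by
  rw [IsLocalRing.mem_maximalIdeal, mem_nonunits_iff,
    HeightOneSpectrum.adicCompletionIntegers.isUnit_iff_valued_eq_one]
  have h : Valued.v (x : v.adicCompletion K) ≤ 1 := x.2
  exact ⟨fun h1 => lt_of_le_of_ne h h1, fun h1 => h1.ne⟩

theorem c3_natCast (n : ℕ) : (n : v.adicCompletionIntegers K) =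
    algebraMap (𝓞 K) (v.adicCompletionIntegers K) (n : 𝓞 K) := (map_natCast _ n).symm

/-- approximation by integers -/
theorem c3_approx (x : v.adicCompletionIntegers K) : ∃ r : 𝓞 K,
    Valued.v ((x - algebraMap (𝓞 K) (v.adicCompletionIntegers K) r :
      v.adicCompletionIntegers K) : v.adicCompletion K) < 1 := by
  obtain ⟨k, hk⟩ : ∃ k : K, Valued.v ((x : v.adicCompletion K) -
      algebraMap K (v.adicCompletion K) k) < 1 := by
    have hopen : IsOpen {y : v.adicCompletion K | Valued.v ((x : v.adicCompletion K) - y) < 1} := by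
      have h0 := Valued.isOpen_ball (v.adicCompletion K) 1
      have h1 : IsOpen {z : v.adicCompletion K | Valued.v z < 1} := by
        simpa only [Valuation.restrict_lt_one_iff] using h0
      exact h1.preimage (continuous_const.sub continuous_id)
    exact (HeightOneSpectrum.denseRange_algebraMap K v).exists_mem_open hopen
      ⟨(x : v.adicCompletion K), by
        change Valued.v ((x : v.adicCompletion K) - x) < 1
        rw [sub_self, map_zero]
        exact zero_lt_one⟩
  have hx : Valued.v (x : v.adicCompletion K) ≤ 1 := x.2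
  have hkv : Valued.v (algebraMap K (v.adicCompletion K) k) = v.valuation K k :=
    HeightOneSpectrum.valuedAdicCompletion_eq_valuation' v k
  have hk1 : v.valuation K k ≤ 1 := by
    rw [← hkv]
    have h1 : algebraMap K (v.adicCompletion K) k = (x : v.adicCompletion K) -
        ((x : v.adicCompletion K) - algebraMap K (v.adicCompletion K) k) := by ring
    rw [h1]
    exact (Valuation.map_sub _ _ _).trans (max_le hx hk.le)
  obtain ⟨r, hr⟩ := v.exists_valuation_sub_lt_of_integer hk1 1
  rw [Units.val_one] at hr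
  refine ⟨r, ?_⟩
  have h2 : ((x - algebraMap (𝓞 K) (v.adicCompletionIntegers K) r :
      v.adicCompletionIntegers K) : v.adicCompletion K) =
      ((x : v.adicCompletion K) - algebraMap K (v.adicCompletion K) k) -
        algebraMap K (v.adicCompletion K) (algebraMap (𝓞 K) K r - k) := by
    rw [map_sub]
    have h3 : ((x - algebraMap (𝓞 K) (v.adicCompletionIntegers K) r :
      v.adicCompletionIntegers K) : v.adicCompletion K) =
      (x : v.adicCompletion K) - algebraMap K (v.adicCompletion K) (algebraMap (𝓞 K) K r) := rfl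
    rw [h3]
    ring
  rw [h2]
  refine lt_of_le_of_lt (Valuation.map_sub _ _ _) (max_lt hk ?_)
  have h4 : Valued.v (algebraMap K (v.adicCompletion K) (algebraMap (𝓞 K) K r - k)) =
      v.valuation K (algebraMap (𝓞 K) K r - k) :=
    HeightOneSpectrum.valuedAdicCompletion_eq_valuation' v _
  rw [h4]
  exact hr

end c3

theorem card_residue (K : Type) [Field K] [NumberField K] (v : HeightOneSpectrum (𝓞 K)) :
    Nat.card (IsLocalRing.ResidueField (v.adicCompletionIntegers K)) = Nat.card (𝓞 K ⧸ v.asIdeal) ∧
      Finite (IsLocalRing.ResidueField (v.adicCompletionIntegers K)) := by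
  have hfin : Finite (𝓞 K ⧸ v.asIdeal) := Ideal.finiteQuotientOfFreeOfNeBot v.asIdeal v.ne_bot
  let φ : 𝓞 K →+* IsLocalRing.ResidueField (v.adicCompletionIntegers K) :=
    (IsLocalRing.residue _).comp (algebraMap (𝓞 K) (v.adicCompletionIntegers K))
  have hker : RingHom.ker φ = v.asIdeal := by
    ext r
    rw [RingHom.mem_ker, RingHom.comp_apply, IsLocalRing.residue_eq_zero_iff, c3_mem_max, c3_val,
      HeightOneSpectrum.intValuation_lt_one_iff_mem]
  have hsurj : Function.Surjective φ := by
    intro y
    obtain ⟨x, rfl⟩ := IsLocalRing.residue_surjective y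
    obtain ⟨r, hr⟩ := c3_approx K v x
    refine ⟨r, ?_⟩
    rw [RingHom.comp_apply, eq_comm, ← sub_eq_zero, ← map_sub, IsLocalRing.residue_eq_zero_iff,
      c3_mem_max]
    exact hr
  have e : (𝓞 K ⧸ v.asIdeal) ≃+* IsLocalRing.ResidueField (v.adicCompletionIntegers K) :=
    (Ideal.quotEquivOfEq hker.symm).trans (RingHom.quotientKerEquivOfSurjective hsurj)
  exact ⟨(Nat.card_congr e.toEquiv).symm, Finite.of_equiv _ e.toEquiv⟩

theorem isUnit_completion (K : Type) [Field K] [NumberField K] (v : HeightOneSpectrum (𝓞 K))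
    (n : ℕ) (h : (n : 𝓞 K) ∉ v.asIdeal) : IsUnit (n : v.adicCompletionIntegers K) := by
  rw [HeightOneSpectrum.adicCompletionIntegers.isUnit_iff_valued_eq_one, c3_natCast, c3_val]
  exact le_antisymm (v.intValuation_le_one _)
    (not_lt.1 fun h1 => h ((v.intValuation_lt_one_iff_mem _).1 h1))

theorem irreducible_completion (K : Type) [Field K] [NumberField K]
    (v : HeightOneSpectrum (𝓞 K)) (n : ℕ) (h : (n : 𝓞 K) ∈ v.asIdeal)
    (h2 : (n : 𝓞 K) ∉ v.asIdeal ^ 2) : Irreducible (n : v.adicCompletionIntegers K) := by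
  have hv : Valued.v ((n : v.adicCompletionIntegers K) : v.adicCompletion K) =
      v.intValuation (n : 𝓞 K) := by rw [c3_natCast, c3_val]
  have h3 : ¬ v.intValuation (n : 𝓞 K) ≤ WithZero.exp (-((2 : ℕ) : ℤ)) := by
    rw [v.intValuation_le_pow_iff_mem]; exact h2
  have hlt : ∀ x : WithZero (Multiplicative ℤ), x < 1 → x ≤ WithZero.exp (-1 : ℤ) := by
    intro x hx
    rcases eq_or_ne x 0 with h0 | h0
    · rw [h0]; exact zero_le
    · rw [← WithZero.exp_zero] at hx
      rw [← WithZero.log_le_iff_le_exp h0]
      have h1 := (WithZero.log_lt_iff_lt_exp h0).2 hx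
      omega
  refine ⟨?_, ?_⟩
  · rw [HeightOneSpectrum.adicCompletionIntegers.isUnit_iff_valued_eq_one, hv]
    exact ((v.intValuation_lt_one_iff_mem _).2 h).ne
  · intro a b hab
    by_contra hcon
    push Not at hcon
    obtain ⟨ha, hb⟩ := hcon
    rw [← mem_nonunits_iff, ← IsLocalRing.mem_maximalIdeal, c3_mem_max] at ha hb
    apply h3
    rw [← hv, hab]
    have h4 : Valued.v ((a * b : v.adicCompletionIntegers K) : v.adicCompletion K) =
        Valued.v (a : v.adicCompletion K) * Valued.v (b : v.adicCompletion K) := by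
      rw [← map_mul]; rfl
    rw [h4]
    have h5 : WithZero.exp (-((2 : ℕ) : ℤ)) = WithZero.exp (-1 : ℤ) * WithZero.exp (-1 : ℤ) := by
      rw [← WithZero.exp_add]; rfl
    rw [h5]
    exact mul_le_mul' (hlt _ ha) (hlt _ hb)

end CM27
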