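import Pool.Agent.MP_ae0bd0_nt.CM.B1

set_option autoImplicit false

open scoped ComplexConjugate

namespace CM27

/-! ## [CM-B2] number of points in terms of a Jacobi sum (file B2.lean) -/

section

variable {F : Type} [Field F] [Fintype F] [DecidableEq F]

theorem b2_pow_three {χ : MulChar F ℂ} (hχ : orderOf χ = 3) {t : F} (ht : t ≠ 0) :
    χ t ^ 3 = 1 := by
  have h1 : χ ^ 3 = 1 := by rw [← hχ]; exact pow_orderOf_eq_one χ
  rw [← MulChar.pow_apply' χ (by norm_num), h1, MulChar.one_apply ht.isUnit]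

theorem b2_cube_of_one {χ : MulChar F ℂ} (hχ : orderOf χ = 3) {t : F} (ht : t ≠ 0)
    (h : χ t = 1) : ∃ s : F, s ^ 3 = t := by
  obtain ⟨g, hg⟩ := IsCyclic.exists_generator (α := Fˣ)
  have hg1 : χ (g : F) ≠ 1 := by
    intro h1
    have : χ = 1 := (MulChar.eq_iff hg χ 1).2 (by rw [h1, MulChar.one_apply g.isUnit])
    rw [this, orderOf_one] at hχ
    norm_num at hχ
  have hg3 : χ (g : F) ^ 3 = 1 := b2_pow_three hχ g.ne_zero
  obtain ⟨m, hm⟩ : ∃ m : ℕ, g ^ m = Units.mk0 t ht := by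
    have hk' := mem_powers_iff_mem_zpowers.2 (hg (Units.mk0 t ht))
    exact (Submonoid.mem_powers_iff _ _).1 hk'
  have hmt : (g : F) ^ m = t := by
    have := congrArg (fun u : Fˣ => (u : F)) hm
    simpa using this
  have h2 : χ (g : F) ^ m = 1 := by rw [← map_pow, hmt, h]
  have h3 : 3 ∣ m := by
    by_contra h3
    have hcop : Nat.Coprime m 3 := ((Nat.Prime.coprime_iff_not_dvd Nat.prime_three).2 h3).symm
    have h4 : orderOf (χ (g : F)) ∣ Nat.gcd m 3 :=
      Nat.dvd_gcd (orderOf_dvd_of_pow_eq_one h2) (orderOf_dvd_of_pow_eq_one hg3)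
    rw [hcop, Nat.dvd_one, orderOf_eq_one_iff] at h4
    exact hg1 h4
  obtain ⟨j, rfl⟩ := h3
  exact ⟨(g : F) ^ j, by rw [← pow_mul, mul_comm, hmt]⟩

theorem b2_primitive (h : Nat.card F % 3 = 1) : ∃ ζ : F, IsPrimitiveRoot ζ 3 := by
  obtain ⟨g, hg⟩ := IsCyclic.exists_generator (α := Fˣ)
  have h1 : orderOf g = Nat.card Fˣ := orderOf_eq_card_of_forall_mem_zpowers hg
  have h2 : Nat.card Fˣ = Nat.card F - 1 := by
    rw [Nat.card_eq_fintype_card, Nat.card_eq_fintype_card, Fintype.card_units]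
  have hc : 1 < Nat.card F := Finite.one_lt_card
  obtain ⟨k, hk⟩ : ∃ k, Nat.card F - 1 = k * 3 := ⟨(Nat.card F - 1) / 3, by omega⟩
  have h3 : IsPrimitiveRoot g (Nat.card F - 1) := by
    rw [← h2, ← h1]; exact IsPrimitiveRoot.orderOf g
  have h4 : IsPrimitiveRoot (g ^ k) 3 := h3.pow (by omega) hk
  exact ⟨((g ^ k : Fˣ) : F), h4.map_of_injective (f := Units.coeHom F) Units.val_injective⟩

/-- the number of cube roots of `t` -/
theorem b2_count (h : Nat.card F % 3 = 1) {χ : MulChar F ℂ} (hχ : orderOf χ = 3) (t : F) :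
    ((Finset.univ.filter (fun x : F => x ^ 3 = t)).card : ℂ) = 1 + (χ t + conj (χ t)) := by
  by_cases ht : t = 0
  · subst ht
    have h1 : Finset.univ.filter (fun x : F => x ^ 3 = 0) = {0} := by
      ext x; simp
    rw [h1, MulChar.map_zero]
    simp
  · obtain ⟨ζ, hζ⟩ := b2_primitive h
    have h1 : Finset.univ.filter (fun x : F => x ^ 3 = t) = (Polynomial.nthRoots 3 t).toFinset := by
      ext x
      rw [Multiset.mem_toFinset, Polynomial.mem_nthRoots (by norm_num)]
      simp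
    have h3 := b2_pow_three hχ ht
    have hnorm : ‖χ t‖ = 1 := by
      have h4 : ‖χ t‖ ^ 3 = 1 := by rw [← norm_pow, h3, norm_one]
      exact (pow_eq_one_iff_of_nonneg (norm_nonneg _) (by norm_num)).1 h4
    have hconj : conj (χ t) = χ t ^ 2 := by
      have h5 : χ t * conj (χ t) = 1 := by
        rw [Complex.mul_conj, Complex.normSq_eq_norm_sq, hnorm]; simp
      have h6 : χ t ≠ 0 := by
        intro h0; rw [h0] at h5; simp at h5
      have h7 : χ t * conj (χ t) = χ t * χ t ^ 2 := by rw [h5, ← h3]; ring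
      exact mul_left_cancel₀ h6 h7
    rw [h1, Multiset.toFinset_card_of_nodup (hζ.nthRoots_nodup ht), hζ.card_nthRoots, hconj]
    by_cases hc : ∃ α : F, α ^ 3 = t
    · rw [if_pos hc]
      obtain ⟨s, rfl⟩ := hc
      have hs : s ≠ 0 := by rintro rfl; simp at ht
      rw [map_pow, b2_pow_three hχ hs]
      norm_num
    · rw [if_neg hc]
      have h4 : χ t ≠ 1 := fun h1 => hc (b2_cube_of_one hχ ht h1)
      have h5 : (χ t - 1) * (1 + (χ t + χ t ^ 2)) = 0 := by linear_combination h3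
      rcases mul_eq_zero.1 h5 with h6 | h6
      · exact absurd (sub_eq_zero.1 h6) h4
      · rw [h6]; simp

theorem b2_sum {χ : MulChar F ℂ} (hχ : orderOf χ = 3) :
    ∑ y : F, χ (y ^ 2 + y) = jacobiSum χ χ := by
  have h1 : χ (-1) = 1 := by
    have h2 := b2_pow_three hχ (t := (-1 : F)) (by simp)
    rw [← map_pow] at h2
    have h3 : (-1 : F) ^ 3 = -1 := by ring
    rwa [h3] at h2
  rw [jacobiSum, ← Equiv.sum_comp (Equiv.neg F)]
  refine Finset.sum_congr rfl fun y _ => ?_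
  rw [Equiv.neg_apply]
  have h2 : (-y) ^ 2 + -y = (-1) * (y * (1 - y)) := by ring
  rw [h2, map_mul, map_mul, h1, one_mul]

end

theorem card_jacobi (F : Type) [Field F] [Fintype F] (h : Nat.card F % 3 = 1) (χ : MulChar F ℂ)
    (hχ : orderOf χ = 3) :
    (Nat.card (E F).toAffine.Point : ℂ) =
      Nat.card F + 1 + (jacobiSum χ χ + conj (jacobiSum χ χ)) := by
  classical
  have h3 : (3 : F) ≠ 0 := b1_three_ne_zero F (by rw [h]; norm_num)
  have e : {xy : F × F // (E F).toAffine.Nonsingular xy.1 xy.2} ≃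
      (Σ y : F, {x : F // x ^ 3 = y ^ 2 + y}) :=
    { toFun := fun p => ⟨p.1.2, p.1.1, ((b1_nonsingular_iff F h3 _ _).1 p.2).symm⟩
      invFun := fun p => ⟨(p.2.1, p.1), (b1_nonsingular_iff F h3 _ _).2 p.2.2.symm⟩
      left_inv := fun p => rfl
      right_inv := fun p => rfl }
  have h1 : Nat.card (E F).toAffine.Point =
      Nat.card (Option (Σ y : F, {x : F // x ^ 3 = y ^ 2 + y})) :=
    Nat.card_congr ((WeierstrassCurve.Affine.nonsingularPointEquiv (E F).toAffine).trans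
      (Equiv.optionCongr e))
  rw [h1, Finite.card_option, Nat.card_eq_fintype_card, Fintype.card_sigma]
  push_cast
  have h2 : ∀ y : F, ((Fintype.card {x : F // x ^ 3 = y ^ 2 + y} : ℕ) : ℂ) =
      1 + (χ (y ^ 2 + y) + conj (χ (y ^ 2 + y))) := by
    intro y
    rw [Fintype.card_subtype, b2_count h hχ]
  have h5 : ∑ y : F, conj (χ (y ^ 2 + y)) = conj (∑ y : F, χ (y ^ 2 + y)) :=
    (map_sum (starRingEnd ℂ) _ _).symm
  rw [Finset.sum_congr rfl (fun y _ => h2 y), Finset.sum_add_distrib, Finset.sum_add_distrib,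
    h5, b2_sum hχ, Nat.card_eq_fintype_card]
  simp
  ring

end CM27
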