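import Pool.Agent.MP_ae0bd0_nt.CM.Defs

set_option autoImplicit false

open scoped ComplexConjugate

namespace CM27

/-! ## [CM-B3] the Jacobi sum is `-` (primary element of norm `q`) (file B3.lean) -/

theorem b3_w_cube : w ^ 3 = 1 := by
  have h := w_sq
  linear_combination (w - 1) * h

theorem b3_w_ne_one : w ≠ 1 := by
  intro h
  have := congrArg Complex.re h
  rw [w_re, Complex.one_re] at this
  norm_num at this

theorem b3_prim : IsPrimitiveRoot w 3 := by
  have h : orderOf w = 3 := orderOf_eq_prime b3_w_cube b3_w_ne_one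
  rw [← h]
  exact IsPrimitiveRoot.orderOf w

theorem b3_dvd (F : Type) [Fintype F] (h : Nat.card F % 3 = 1) :
    3 ∣ Fintype.card F - 1 := by
  rw [Nat.card_eq_fintype_card] at h
  omega

theorem exists_chi (F : Type) [Field F] [Fintype F] (h : Nat.card F % 3 = 1) :
    ∃ χ : MulChar F ℂ, orderOf χ = 3 :=
  MulChar.exists_mulChar_orderOf F (b3_dvd F h) b3_prim

theorem b3_adjoin {z : ℂ} (hz : z ∈ Algebra.adjoin ℤ {w}) : ∃ a : Eis, emb a = z := by
  have h : Algebra.adjoin ℤ {w} ≤ emb.toIntAlgHom.range := by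
    rw [Algebra.adjoin_le_iff]
    rintro x hx
    rw [Set.mem_singleton_iff] at hx
    subst hx
    refine ⟨⟨0, 1⟩, ?_⟩
    show emb ⟨0, 1⟩ = w
    rw [emb_apply]
    push_cast
    ring
  obtain ⟨a, ha⟩ := h hz
  exact ⟨a, ha⟩

theorem b3_conj {F : Type} [Field F] [Fintype F] (χ : MulChar F ℂ) :
    conj (jacobiSum χ χ) = jacobiSum χ⁻¹ χ⁻¹ := by
  rw [← jacobiSum_ringHomComp]
  have : χ.ringHomComp (starRingEnd ℂ) = χ⁻¹ := by
    rw [← MulChar.star_eq_inv]
    rfl
  rw [this]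

theorem b3_normSq {F : Type} [Field F] [Fintype F] 
    (χ : MulChar F ℂ) (hχ : orderOf χ = 3) :
    Complex.normSq (jacobiSum χ χ) = Fintype.card F := by
  have hne : χ ≠ 1 := by
    rintro rfl
    rw [orderOf_one] at hχ
    norm_num at hχ
  have hne2 : χ * χ ≠ 1 := by
    intro h1
    have : orderOf χ ∣ 2 := orderOf_dvd_of_pow_eq_one (by rw [pow_two]; exact h1)
    rw [hχ] at this
    norm_num at this
  have hchar : ringChar ℂ ≠ ringChar F := by
    rw [ringChar.eq_zero]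
    exact (CharP.ringChar_ne_zero_of_finite F).symm
  have key := jacobiSum_mul_jacobiSum_inv hchar hne hne hne2
  rw [← b3_conj, Complex.mul_conj] at key
  exact_mod_cast key

theorem b3_form {F : Type} [Field F] [Fintype F] (h : Nat.card F % 3 = 1)
    (χ : MulChar F ℂ) (hχ : orderOf χ = 3) :
    ∃ a : Eis, jacobiSum χ χ = - (1 + 3 * (emb a * w)) := by
  have hc : χ ^ 3 = 1 := by rw [← hχ]; exact pow_orderOf_eq_one χ
  obtain ⟨z, hz, hJ⟩ := exists_jacobiSum_eq_neg_one_add (n := 3) (by norm_num) hc hc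
    (b3_dvd F h) b3_prim
  obtain ⟨a, rfl⟩ := b3_adjoin hz
  have h2 : (w - 1) ^ 2 = -3 * w := by
    have h := w_sq
    linear_combination h
  refine ⟨a, ?_⟩
  rw [hJ, h2]
  ring

theorem b3_emb (a : Eis) : 1 + 3 * (emb a * w) = emb ⟨1 - 3 * a.im, 3 * (a.re - a.im)⟩ := by
  rw [emb_apply, emb_apply]
  push_cast
  have h := w_sq
  linear_combination (3 * (a.im : ℂ)) * h

theorem jacobi_primary (F : Type) [Field F] [Fintype F] (h : Nat.card F % 3 = 1)
    (χ : MulChar F ℂ) (hχ : orderOf χ = 3) :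
    ∃ b : Eis, Primary b ∧ b.norm = Nat.card F ∧ jacobiSum χ χ = - emb b := by
  obtain ⟨a, hJ⟩ := b3_form h χ hχ
  rw [b3_emb] at hJ
  refine ⟨⟨1 - 3 * a.im, 3 * (a.re - a.im)⟩, ?_, ?_, hJ⟩
  · rw [primary_iff]
    constructor
    · show (1 - 3 * a.im) % 3 = 1
      omega
    · show (3 * (a.re - a.im)) % 3 = 0
      omega
  · have h3 := b3_normSq χ hχ
    rw [hJ, Complex.normSq_neg, normSq_emb] at h3
    rw [Nat.card_eq_fintype_card]
    have h4 : (((⟨1 - 3 * a.im, 3 * (a.re - a.im)⟩ : Eis).norm : ℤ) : ℝ) =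
        ((Fintype.card F : ℤ) : ℝ) := by
      rw [h3, Int.cast_natCast]
    exact Int.cast_injective h4

end CM27
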