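import Pool.Agent.MP_ae0bd0_nt.CM.A3
import Pool.Agent.MP_ae0bd0_nt.CM.B3

set_option autoImplicit false

open scoped ComplexConjugate

namespace CM27

/-! ## [CM-B4] the Jacobi sum over `F_q`, `q = p ^ f`, `p ≡ 1 mod 3`, is not divisible by both primes
above `p` (file B4.lean) -/

/-- the ring homomorphism `ℤ[ω] → R` with `ω ↦ r`. -/
def b4_hom {R : Type*} [CommRing R] (r : R) (hr : r * r = -1 - r) : Eis →+* R where
  toFun a := (a.re : R) + (a.im : R) * r
  map_one' := by simp [QuadraticAlgebra.re_one, QuadraticAlgebra.im_one]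
  map_mul' a b := by
    simp only [QuadraticAlgebra.re_mul, QuadraticAlgebra.im_mul]
    push_cast
    linear_combination (-(a.im : R) * b.im) * hr
  map_zero' := by simp
  map_add' a b := by
    simp only [QuadraticAlgebra.re_add, QuadraticAlgebra.im_add]
    push_cast
    ring

theorem b4_hom_apply {R : Type*} [CommRing R] (r : R) (hr : r * r = -1 - r) (a : Eis) :
    b4_hom r hr a = (a.re : R) + (a.im : R) * r := rfl

/-- no carries: `p ∤ C(2k, k)` for `k = (p ^ f - 1) / 3`, `p ≡ 1 mod 3`. -/
theorem b4_choose (p : ℕ) (hp : p.Prime) (h : p % 3 = 1) (f : ℕ) :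
    ∀ k : ℕ, 3 * k + 1 = p ^ f → ¬ p ∣ (2 * k).choose k := by
  haveI := Fact.mk hp
  induction f with
  | zero =>
    intro k hk
    have : k = 0 := by simp at hk; omega
    subst this
    simpa using hp.one_lt.ne'
  | succ f ih =>
    intro k hk
    have h1 : p ^ f % 3 = 1 := by
      rw [Nat.pow_mod, h]; simp
    obtain ⟨k', hk'⟩ : ∃ k', 3 * k' + 1 = p ^ f := ⟨p ^ f / 3, by omega⟩
    obtain ⟨d, hd⟩ : ∃ d, 3 * d + 1 = p := ⟨p / 3, by omega⟩
    have hd0 : 0 < d := by
      have := hp.two_le
      omega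
    have hkk : k = d + p * k' := by
      have h2 : 3 * k + 1 = 3 * (d + p * k') + 1 := by
        rw [hk, pow_succ, ← hk']
        nlinarith [hd]
      omega
    have h2 : k % p = d := by
      rw [hkk, Nat.add_mul_mod_self_left, Nat.mod_eq_of_lt (by omega)]
    have h3 : k / p = k' := by
      rw [hkk, Nat.add_mul_div_left _ _ hp.pos, Nat.div_eq_of_lt (by omega), zero_add]
    have h4 : 2 * k = 2 * d + p * (2 * k') := by rw [hkk]; ring
    have h5 : (2 * k) % p = 2 * d := by
      rw [h4, Nat.add_mul_mod_self_left, Nat.mod_eq_of_lt (by omega)]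
    have h6 : (2 * k) / p = 2 * k' := by
      rw [h4, Nat.add_mul_div_left _ _ hp.pos, Nat.div_eq_of_lt (by omega), zero_add]
    have h7 := @Choose.choose_modEq_choose_mod_mul_choose_div_nat (2 * k) k p _
    rw [h2, h3, h5, h6] at h7
    rw [h7.dvd_iff (dvd_refl p)]
    intro h8
    rcases (hp.dvd_mul).1 h8 with h9 | h9
    · have h10 : p ∣ (2 * d).factorial := by
        refine h9.trans ?_
        have := Nat.choose_mul_factorial_mul_factorial (n := 2 * d) (k := d) (by omega)
        rw [← this, mul_assoc]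
        exact dvd_mul_right _ _
      rw [hp.dvd_factorial] at h10
      omega
    · exact ih k' hk' h9

/-- power sums over a finite field -/
theorem b4_sum_pow (F : Type) [Field F] [Fintype F] (n : ℕ) (hn : n ≠ 0) :
    ∑ x : F, x ^ n = if Fintype.card F - 1 ∣ n then -1 else 0 := by
  classical
  rw [← FiniteField.sum_pow_units F n]
  let φ : Fˣ ↪ F := ⟨fun x ↦ x, Units.val_injective⟩
  have : Finset.univ.map φ = Finset.univ \ {0} := by
    ext x
    simpa only [Finset.mem_map, Finset.mem_univ, Function.Embedding.coeFn_mk, true_and,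
      Finset.mem_sdiff, Finset.mem_singleton, φ] using! isUnit_iff_ne_zero
  calc
    ∑ x : F, x ^ n = ∑ x ∈ Finset.univ \ {(0 : F)}, x ^ n := by
      rw [← Finset.sum_sdiff ({0} : Finset F).subset_univ, Finset.sum_singleton, zero_pow hn,
        add_zero]
    _ = ∑ x : Fˣ, (x ^ n : F) := by simp [φ, ← this, Finset.univ.sum_map φ]

/-- the power sum `Σ x^{2k}(1-x)^{2k}` over a field with `3 k + 1` elements -/
theorem b4_sum (F : Type) [Field F] [Fintype F] (k : ℕ) (hk : 0 < k)
    (hF : Fintype.card F = 3 * k + 1) :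
    ∑ x : F, x ^ (2 * k) * (1 - x) ^ (2 * k) = - ((-1) ^ k * ((2 * k).choose k : F)) := by
  have h1 : ∀ x : F, x ^ (2 * k) * (1 - x) ^ (2 * k) =
      ∑ m ∈ Finset.range (2 * k + 1), ((-1) ^ m * ((2 * k).choose m : F)) * x ^ (2 * k + m) := by
    intro x
    have h2 : (1 - x) ^ (2 * k) = (-x + 1) ^ (2 * k) := by congr 1; ring
    rw [h2, add_pow, Finset.mul_sum]
    apply Finset.sum_congr rfl
    intro m _
    rw [one_pow, neg_pow, pow_add]
    ring
  simp_rw [h1]
  rw [Finset.sum_comm]
  simp_rw [← Finset.mul_sum]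
  rw [Finset.sum_eq_single k]
  · rw [b4_sum_pow F _ (by omega), if_pos]
    · ring
    · rw [hF]
      exact ⟨1, by omega⟩
  · intro m hm hmk
    rw [b4_sum_pow F _ (by omega), if_neg]
    · ring
    · rw [hF]
      rintro ⟨c, hc⟩
      rw [Finset.mem_range] at hm
      have h3 : 3 * k + 1 - 1 = 3 * k := by omega
      rw [h3] at hc
      have h4 : c = 1 := by
        have h5 : c < 2 := by
          by_contra h6
          have : 3 * k * 2 ≤ 3 * k * c := Nat.mul_le_mul_left _ (by omega)
          omega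
        have h6 : c ≠ 0 := by
          rintro rfl
          omega
        omega
      subst h4
      omega
  · intro h
    exact absurd (Finset.mem_range.2 (by omega)) h

theorem jacobi_split (p f : ℕ) (hp : p.Prime) (h : p % 3 = 1) (hf : 0 < f) (F : Type) [Field F]
    [Fintype F] (hF : Nat.card F = p ^ f) (χ : MulChar F ℂ) (hχ : orderOf χ = 3) (a b : Eis)
    (ha : a.norm = p) (hb : jacobiSum χ χ = - emb b) : ¬ (a ∣ b ∧ star a ∣ b) := by
  classical
  haveI := Fact.mk hp
  rintro ⟨h1, h2⟩
  have hq : Fintype.card F = p ^ f := by rw [← Nat.card_eq_fintype_card]; exact hF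
  have hpF : (p : F) = 0 := by
    have h3 := FiniteField.cast_card_eq_zero F
    rw [hq] at h3
    push_cast at h3
    exact pow_eq_zero_iff (hf.ne') |>.1 h3
  have hring : ringChar F = p := CharP.ringChar_of_prime_eq_zero hp hpF
  -- the exponent
  have hpf : p ^ f % 3 = 1 := by
    rw [Nat.pow_mod, h]; simp
  obtain ⟨k, hk⟩ : ∃ k, 3 * k + 1 = p ^ f := ⟨p ^ f / 3, by omega⟩
  have hk0 : 0 < k := by
    have h3 : 1 < p ^ f := Nat.one_lt_pow hf.ne' hp.one_lt
    omega
  -- the generator
  obtain ⟨t, ht⟩ := IsCyclic.exists_generator (α := Fˣ)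
  have hto : orderOf t = 3 * k := by
    rw [orderOf_eq_card_of_forall_mem_zpowers ht, Nat.card_units, hF]
    omega
  have htp : ∀ x : Fˣ, ∃ n : ℕ, t ^ n = x := by
    intro x
    have := mem_powers_iff_mem_zpowers.2 (ht x)
    exact this
  -- the value of χ at t
  set ζ : ℂ := χ (t : F) with hζ
  have hζ3 : ζ ^ 3 = 1 := by
    have h3 : χ ^ 3 = 1 := by rw [← hχ]; exact pow_orderOf_eq_one χ
    have h4 : (χ ^ 3) (t : F) = 1 := by
      rw [h3]; exact MulChar.one_apply_coe t
    rwa [MulChar.pow_apply_coe] at h4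
  have hζ1 : ζ ≠ 1 := by
    intro h3
    have h4 : χ = 1 := by
      apply MulChar.ext
      intro x
      obtain ⟨n, rfl⟩ := htp x
      rw [MulChar.one_apply_coe]
      push_cast
      rw [map_pow, ← hζ, h3, one_pow]
    rw [h4, orderOf_one] at hχ
    omega
  have hζ2 : ζ ^ 2 + ζ + 1 = 0 := by
    have h3 : (ζ - 1) * (ζ ^ 2 + ζ + 1) = 0 := by
      linear_combination hζ3
    rcases mul_eq_zero.1 h3 with h4 | h4
    · exact absurd (sub_eq_zero.1 h4) hζ1
    · exact h4
  -- the root in F
  set g : F := (t : F) ^ (2 * k) with hg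
  have hg3 : g ^ 3 = 1 := by
    rw [hg, ← pow_mul]
    have h3 : t ^ (2 * k * 3) = 1 := by
      rw [← orderOf_dvd_iff_pow_eq_one, hto]
      exact ⟨2, by ring⟩
    have h4 := congrArg (Units.val) h3
    push_cast at h4
    exact h4
  have hg1 : g ≠ 1 := by
    intro h3
    have h4 : t ^ (2 * k) = 1 := by
      apply Units.ext
      push_cast
      exact h3
    rw [← orderOf_dvd_iff_pow_eq_one, hto] at h4
    have := Nat.le_of_dvd (by omega) h4
    omega
  have hg2 : g ^ 2 + g + 1 = 0 := by
    have h3 : (g - 1) * (g ^ 2 + g + 1) = 0 := by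
      linear_combination hg3
    rcases mul_eq_zero.1 h3 with h4 | h4
    · exact absurd (sub_eq_zero.1 h4) hg1
    · exact h4
  -- the ring hom
  obtain ⟨φ, j, hj, hφj⟩ : ∃ (φ : Eis →+* F) (j : Eis), emb j = ζ ∧ φ j = g := by
    have h3 : (ζ - w) * (ζ - (-1 - w)) = 0 := by
      have := w_sq
      linear_combination hζ2 - this
    rcases mul_eq_zero.1 h3 with h4 | h4
    · refine ⟨b4_hom g (by linear_combination hg2), ⟨0, 1⟩, ?_, ?_⟩
      · rw [emb_apply]
        push_cast
        linear_combination -h4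
      · rw [b4_hom_apply]
        push_cast
        ring
    · refine ⟨b4_hom (-1 - g) (by linear_combination hg2), ⟨-1, -1⟩, ?_, ?_⟩
      · rw [emb_apply]
        push_cast
        linear_combination -h4
      · rw [b4_hom_apply]
        push_cast
        ring
  -- lifts of the values
  have hlift : ∀ x : F, ∃ e : Eis, emb e = χ x ∧ φ e = x ^ (2 * k) := by
    intro x
    by_cases hx : x = 0
    · subst hx
      refine ⟨0, ?_, ?_⟩
      · rw [map_zero, MulChar.map_zero]
      · rw [map_zero, zero_pow (by omega)]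
    · obtain ⟨n, hn⟩ := htp (Units.mk0 x hx)
      have hxn : x = (t : F) ^ n := by
        have := congrArg Units.val hn
        push_cast at this
        exact this.symm
      refine ⟨j ^ n, ?_, ?_⟩
      · rw [map_pow, hj, hxn, map_pow]
      · rw [map_pow, hφj, hxn, hg, ← pow_mul, ← pow_mul, mul_comm]
  choose c hc1 hc2 using hlift
  have hbc : b = - ∑ x : F, c x * c (1 - x) := by
    apply emb_injective
    rw [map_neg, map_sum]
    have h3 : jacobiSum χ χ = ∑ x : F, emb (c x * c (1 - x)) := by
      rw [jacobiSum]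
      apply Finset.sum_congr rfl
      intro x _
      rw [map_mul, hc1, hc1]
    rw [← h3, hb, neg_neg]
  have hφb : φ b = (-1) ^ k * ((2 * k).choose k : F) := by
    rw [hbc, map_neg, map_sum]
    have h3 : ∑ x : F, φ (c x * c (1 - x)) = ∑ x : F, x ^ (2 * k) * (1 - x) ^ (2 * k) := by
      apply Finset.sum_congr rfl
      intro x _
      rw [map_mul, hc2, hc2]
    rw [h3, b4_sum F k hk0 (by rw [hq, hk]), neg_neg]
  have hφ0 : φ b = 0 := by
    have h3 : φ (a * star a) = 0 := by
      have h4 : a * star a = ((p : ℕ) : Eis) := by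
        have h5 := QuadraticAlgebra.algebraMap_norm_eq_mul_star a
        rw [← h5, ha]
        simp
      rw [h4, map_natCast, hpF]
    rw [map_mul] at h3
    rcases mul_eq_zero.1 h3 with h4 | h4
    · obtain ⟨e, he⟩ := h1
      rw [he, map_mul, h4, zero_mul]
    · obtain ⟨e, he⟩ := h2
      rw [he, map_mul, h4, zero_mul]
  rw [hφ0] at hφb
  have h3 : ((2 * k).choose k : F) = 0 := by
    rcases mul_eq_zero.1 hφb.symm with h4 | h4
    · exact absurd h4 (pow_ne_zero _ (neg_ne_zero.2 one_ne_zero))
    · exact h4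
  rw [ringChar.spec, hring] at h3
  exact b4_choose p hp h f k hk h3

end CM27
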