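import Pool.Agent.MP_ae0bd0_nt.CM.A3
import Pool.Agent.MP_ae0bd0_nt.CM.B1
import Pool.Agent.MP_ae0bd0_nt.CM.B2
import Pool.Agent.MP_ae0bd0_nt.CM.B3
import Pool.Agent.MP_ae0bd0_nt.CM.B4

set_option autoImplicit false

open scoped ComplexConjugate

namespace CM27

/-! ## [CM-B5] the local data (file B5.lean; uses A3, B1-B4) -/

theorem b5_alt_sum (α : ℂ) (k : ℕ) :
    ∑ i ∈ Finset.range (k + 1), α ^ i * (-α) ^ (k - i) = if Even k then α ^ k else 0 := by
  have h1 : ∀ i ∈ Finset.range (k + 1), α ^ i * (-α) ^ (k - i) = α ^ k * (-1) ^ (k - i) := by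
    intro i hi
    rw [Finset.mem_range] at hi
    have h2 : α ^ k = α ^ i * α ^ (k - i) := by rw [← pow_add]; congr 1; omega
    rw [neg_pow α, h2]
    ring
  rw [Finset.sum_congr rfl h1, ← Finset.mul_sum]
  have h3 : ∑ i ∈ Finset.range (k + 1), (-1 : ℂ) ^ (k - i) =
      ∑ i ∈ Finset.range (k + 1), (-1 : ℂ) ^ i := by
    have := Finset.sum_range_reflect (fun i => (-1 : ℂ) ^ i) (k + 1)
    simpa using this
  rw [h3, neg_one_geom_sum]
  by_cases hk : Even k
  · rw [if_neg (by rw [Nat.even_add_one]; exact not_not.2 hk), if_pos hk, mul_one]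
  · rw [if_pos (Nat.even_add_one.2 hk), if_neg hk, mul_zero]

theorem b5_pow_mod {p : ℕ} (h : p % 3 = 2) (f : ℕ) : p ^ f % 3 = if Even f then 1 else 2 := by
  induction f with
  | zero => simp
  | succ f ih =>
    rw [pow_succ, Nat.mul_mod, ih, h]
    by_cases hf : Even f
    · rw [if_pos hf, if_neg (by rw [Nat.even_add_one]; exact not_not.2 hf)]
    · rw [if_neg hf, if_pos (Nat.even_add_one.2 hf)]

theorem b5_pow_mod_one {p : ℕ} (h : p % 3 = 1) (f : ℕ) : p ^ f % 3 = 1 := by
  rw [Nat.pow_mod, h, one_pow, Nat.one_mod]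

/-- The local data at a prime `p ≠ 3`: the numbers `α`, `β` (Frobenius eigenvalues). -/
theorem local_data (p : ℕ) (hp : p.Prime) (h3 : p ≠ 3) : ∃ α β : ℂ, α * β = p ∧
    (∀ k, psi (p ^ k) = ∑ i ∈ Finset.range (k + 1), α ^ i * β ^ (k - i)) ∧
    ∀ (f : ℕ) (F : Type) [Field F] [Finite F], 0 < f → Nat.card F = p ^ f →
      (Nat.card (E F).toAffine.Point : ℂ) = p ^ f + 1 - (α ^ f + β ^ f) := by
  have hmod : p % 3 = 1 ∨ p % 3 = 2 := by
    have h0 : p % 3 ≠ 0 := by
      intro h0
      exact h3 ((Nat.prime_dvd_prime_iff_eq Nat.prime_three hp).1 (Nat.dvd_of_mod_eq_zero h0)).symm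
    omega
  rcases hmod with hmod | hmod
  · obtain ⟨a, ha, hn⟩ := exists_primary_prime p hp hmod
    refine ⟨emb a, conj (emb a), ?_, psi_split p hp hmod a ha hn, ?_⟩
    · rw [Complex.mul_conj, normSq_emb, hn]
      push_cast; rfl
    · intro f F _ _ hf hF
      have := Fintype.ofFinite F
      have hq : Nat.card F % 3 = 1 := by rw [hF]; exact b5_pow_mod_one hmod f
      obtain ⟨χ, hχ⟩ := exists_chi F hq
      obtain ⟨b, hb, hbn, hJ⟩ := jacobi_primary F hq χ hχ
      have hsp := jacobi_split p f hp hmod hf F hF χ hχ a b hn hJ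
      rw [hF] at hbn
      obtain ⟨i, hi, hbi⟩ := eq_pow_mul_pow p hp a ha hn f b hb (by rw [hbn]; push_cast; rfl)
      have hi' : i = 0 ∨ i = f := by
        by_contra hcon
        push Not at hcon
        apply hsp
        rw [hbi]
        exact ⟨Dvd.dvd.mul_right (dvd_pow_self a hcon.1) _,
          Dvd.dvd.mul_left (dvd_pow_self _ (by omega)) _⟩
      rw [card_jacobi F hq χ hχ, hJ, hF, hbi]
      rcases hi' with rfl | rfl
      · simp only [pow_zero, one_mul, Nat.sub_zero, map_pow, emb_star, map_neg, Complex.conj_conj]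
        push_cast
        ring
      · simp only [Nat.sub_self, pow_zero, mul_one, map_pow, map_neg]
        push_cast
        ring
  · have hα : ((√(p : ℝ) : ℂ) * Complex.I) ^ 2 = -(p : ℂ) := by
      rw [mul_pow, Complex.I_sq, ← Complex.ofReal_pow, Real.sq_sqrt (by positivity)]
      push_cast; ring
    set α : ℂ := (√(p : ℝ) : ℂ) * Complex.I with hαdef
    refine ⟨α, -α, ?_, ?_, ?_⟩
    · linear_combination -hα
    · intro k
      rw [b5_alt_sum, psi_inert p hp hmod]
      by_cases hk : Even k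
      · rw [if_pos hk, if_pos hk, ← hα, ← pow_mul, Nat.mul_div_cancel' hk.two_dvd]
      · rw [if_neg hk, if_neg hk]
    · intro f F _ _ hf hF
      have := Fintype.ofFinite F
      by_cases hfe : Even f
      · have hq : Nat.card F % 3 = 1 := by rw [hF, b5_pow_mod hmod, if_pos hfe]
        obtain ⟨χ, hχ⟩ := exists_chi F hq
        obtain ⟨b, hb, hbn, hJ⟩ := jacobi_primary F hq χ hχ
        rw [hF] at hbn
        obtain ⟨-, hbe⟩ := eq_neg_pow p hp hmod f b hb (by rw [hbn]; push_cast; rfl)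
        have hαf : α ^ f = (-(p : ℂ)) ^ (f / 2) := by
          rw [← hα, ← pow_mul, Nat.mul_div_cancel' hfe.two_dvd]
        rw [card_jacobi F hq χ hχ, hJ, hF, hbe, hfe.neg_pow, hαf]
        simp only [map_pow, map_neg, map_natCast]
        push_cast
        ring
      · have hq : Nat.card F % 3 = 2 := by rw [hF, b5_pow_mod hmod, if_neg hfe]
        rw [card_of_two F hq, hF, (Nat.not_even_iff_odd.1 hfe).neg_pow]
        push_cast
        ring

end CM27
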