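import Pool.Agent.MP_ae0bd0_nt.CM.Defs

set_option autoImplicit false

open Polynomial NumberField IsDedekindDomain
open scoped Classical

namespace CM27

/-! ## [CM-C2] additive reduction (file C2.lean) -/

/-- Over a discrete valuation ring in which `3` is a uniformizer, the local polynomial is `1`. -/
theorem localPoly_three (A : Type) [CommRing A] [IsDomain A] [IsDiscreteValuationRing A]
    (K : Type) [Field K] [Algebra A K] [IsFractionRing A K] [CharZero K] (h3 : Irreducible (3 : A)) :
    (E K).localPolynomial A = 1 := by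
  obtain ⟨C, hC⟩ : ∃ C : WeierstrassCurve.VariableChange K, (E K).minimal A = C • (E K) :=
    ⟨_, rfl⟩
  have hΔ0 : (E K).Δ = -27 := by
    simp [E, WeierstrassCurve.Δ, WeierstrassCurve.b₂, WeierstrassCurve.b₄, WeierstrassCurve.b₆,
      WeierstrassCurve.b₈]
  have hc0 : (E K).c₄ = 0 := by
    simp [E, WeierstrassCurve.c₄, WeierstrassCurve.b₂, WeierstrassCurve.b₄]
  have hΔ : ((E K).minimal A).Δ = (C.u⁻¹ : Kˣ) ^ 12 * (-27) := by
    rw [hC, WeierstrassCurve.variableChange_Δ, hΔ0]
  have hc4 : ((E K).minimal A).c₄ = 0 := by
    rw [hC, WeierstrassCurve.variableChange_c₄, hc0, mul_zero]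
  have hmult : ¬ ((E K).minimal A).HasMultiplicativeReduction A := by
    intro h
    have h1 := h.multiplicativeReduction
    rw [hc4, map_zero] at h1
    exact zero_ne_one h1
  have hgood : ¬ ((E K).minimal A).HasGoodReduction A := by
    intro h
    have h1 := h.goodReduction
    rw [hΔ] at h1
    have hm : (IsDiscreteValuationRing.maximalIdeal A).asIdeal = Ideal.span {(3 : A)} :=
      (IsDiscreteValuationRing.irreducible_iff_uniformizer (3 : A)).1 h3
    have h2 : (IsDiscreteValuationRing.maximalIdeal A).valuation K (3 : K)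
        = WithZero.exp (-1 : ℤ) := by
      have h4 := HeightOneSpectrum.valuation_of_algebraMap
        (K := K) (IsDiscreteValuationRing.maximalIdeal A) (3 : A)
      rw [HeightOneSpectrum.intValuation_singleton _ h3.ne_zero hm] at h4
      have h5 : ((algebraMap A K) (3 : A)) = 3 := map_ofNat _ 3
      rw [← h5]
      exact h4
    have h27 : (-27 : K) = -(3 ^ 3) := by norm_num
    rw [map_mul, map_pow, h27, Valuation.map_neg, map_pow, h2] at h1
    have hu : (IsDiscreteValuationRing.maximalIdeal A).valuation K ((C.u⁻¹ : Kˣ) : K) ≠ 0 := by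
      rw [Valuation.ne_zero_iff]
      exact Units.ne_zero _
    have h6 := congrArg WithZero.log h1
    rw [WithZero.log_mul (pow_ne_zero _ hu) (pow_ne_zero _ (by simp)), WithZero.log_pow,
      WithZero.log_pow, WithZero.log_exp, WithZero.log_one] at h6
    simp only [nsmul_eq_mul, Nat.cast_ofNat] at h6
    omega
  unfold WeierstrassCurve.localPolynomial
  rw [if_neg hgood, if_neg (fun h => hmult h.toHasMultiplicativeReduction), if_neg hmult]

end CM27
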