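import Pool.Agent.MP_ae0bd0_nt.CM.C1
import Pool.Agent.MP_ae0bd0_nt.CM.C2
import Pool.Agent.MP_ae0bd0_nt.CM.C3

set_option autoImplicit false

open Polynomial NumberField IsDedekindDomain
open scoped Classical

namespace CM27

/-! ## [CM-C4] the coefficients of the `L`-function (file C4.lean; uses C1-C3) -/

theorem c4_baseChange (K L : Type*) [CommRing K] [CommRing L] [Algebra K L] :
    (E K).baseChange L = E L := by
  unfold WeierstrassCurve.baseChange WeierstrassCurve.map E
  simp

/-- The `L`-function as a formal Euler product, good places -/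
theorem eulerFactor_good (K : Type) [Field K] [NumberField K] (v : HeightOneSpectrum (𝓞 K))
    (h3 : (3 : 𝓞 K) ∉ v.asIdeal) (k : Type) [Field k] [Finite k]
    (hk : Nat.card k = Nat.card (𝓞 K ⧸ v.asIdeal)) :
    ((E K).baseChange (v.adicCompletion K)).localEulerFactor (v.adicCompletionIntegers K) =
      ArithmeticFunction.ofPowerSeries (Nat.card k) (PowerSeries.invOfUnit
        ((1 - C ((Nat.card k : ℤ) + 1 - Nat.card (E k).toAffine.Point) * X
      + C (Nat.card k : ℤ) * X ^ 2 : ℤ[X]) : PowerSeries ℤ) 1) := by
  obtain ⟨hc, hfin⟩ := card_residue K v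
  have h3' : IsUnit (3 : v.adicCompletionIntegers K) := by
    have := isUnit_completion K v 3 (by exact_mod_cast h3)
    exact_mod_cast this
  rw [c4_baseChange]
  unfold WeierstrassCurve.localEulerFactor WeierstrassCurve.localPowerSeries
  rw [localPoly_good (v.adicCompletionIntegers K) (v.adicCompletion K) h3' k (by rw [hk, hc]), hc,
    ← hk]

theorem eulerFactor_three (K : Type) [Field K] [NumberField K] (v : HeightOneSpectrum (𝓞 K))
    (h3 : (3 : 𝓞 K) ∈ v.asIdeal) (h9 : (3 : 𝓞 K) ∉ v.asIdeal ^ 2) :
    ((E K).baseChange (v.adicCompletion K)).localEulerFactor (v.adicCompletionIntegers K) = 1 := by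
  have h3' : Irreducible (3 : v.adicCompletionIntegers K) := by
    have := irreducible_completion K v 3 (by exact_mod_cast h3) (by exact_mod_cast h9)
    exact_mod_cast this
  have : CharZero (v.adicCompletion K) :=
    charZero_of_injective_algebraMap (algebraMap K (v.adicCompletion K)).injective
  rw [c4_baseChange]
  unfold WeierstrassCurve.localEulerFactor WeierstrassCurve.localPowerSeries
  rw [localPoly_three (v.adicCompletionIntegers K) (v.adicCompletion K) h3']
  have h1 : PowerSeries.invOfUnit ((1 : ℤ[X]) : PowerSeries ℤ) 1 = 1 := by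
    have h2 := PowerSeries.mul_invOfUnit ((1 : ℤ[X]) : PowerSeries ℤ) 1 (by simp)
    rw [Polynomial.coe_one, one_mul] at h2
    rw [Polynomial.coe_one]
    exact h2
  rw [h1, map_one]

end CM27
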