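import Pool.Agent.MP_ae0bd0_nt.CM.D1

set_option autoImplicit false

open Polynomial NumberField IsDedekindDomain
open scoped Classical

namespace CM27

/-! ## [CM-D4] reduction of ramified primes to unramified primes (file D4.lean) -/

section D4

variable {M : Type} [Field M] [NumberField M]

/-- An automorphism which fixes `ζ ^ p` acts trivially modulo the primes above `p`. -/
theorem d4_sub_mem (m : ℕ) [NeZero m] [IsCyclotomicExtension {m} ℚ M] {ζ : M}
    (hζ : IsPrimitiveRoot ζ m) (p : ℕ) (hp : p.Prime) (P : Ideal (𝓞 M)) [P.IsPrime]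
    (hpP : (p : 𝓞 M) ∈ P) (σ : Gal(M/ℚ)) (hσ : σ (ζ ^ p) = ζ ^ p) (x : 𝓞 M) :
    σ • x - x ∈ P := by
  have hchar : CharP (𝓞 M ⧸ P) p := by
    rw [CharP.charP_iff_prime_eq_zero hp]
    rw [← map_natCast (Ideal.Quotient.mk P), Ideal.Quotient.eq_zero_iff_mem]
    exact hpP
  have hfact : Fact p.Prime := ⟨hp⟩
  have h1 : (σ • hζ.toInteger) ^ p = hζ.toInteger ^ p := by
    apply RingOfIntegers.ext
    have : ((σ • hζ.toInteger : 𝓞 M) : M) = σ ζ := rfl
    rw [RingOfIntegers.coe_eq_algebraMap, RingOfIntegers.coe_eq_algebraMap, map_pow, map_pow]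
    change (σ ζ) ^ p = ζ ^ p
    rw [← map_pow, hσ]
  have h2 : σ • hζ.toInteger - hζ.toInteger ∈ P := by
    rw [← Ideal.Quotient.eq_zero_iff_mem]
    have h3 : (Ideal.Quotient.mk P (σ • hζ.toInteger - hζ.toInteger)) ^ p = 0 := by
      rw [map_sub, sub_pow_char, ← map_pow, ← map_pow, h1, sub_self]
    exact pow_eq_zero_iff (hp.ne_zero) |>.1 h3
  have hx : x ∈ Algebra.adjoin ℤ {hζ.toInteger} := by
    rw [IsCyclotomicExtension.Rat.adjoin_singleton_eq_top hζ]
    exact Algebra.mem_top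
  induction hx using Algebra.adjoin_induction with
  | mem x hx =>
    rw [Set.mem_singleton_iff] at hx
    rw [hx]
    exact h2
  | algebraMap r =>
    have : σ • (algebraMap ℤ (𝓞 M) r) = algebraMap ℤ (𝓞 M) r :=
      map_intCast (MulSemiringAction.toRingHom Gal(M/ℚ) (𝓞 M) σ) r
    rw [this, sub_self]
    exact P.zero_mem
  | add x y _ _ hx hy =>
    rw [smul_add]
    have : σ • x + σ • y - (x + y) = (σ • x - x) + (σ • y - y) := by ring
    rw [this]
    exact P.add_mem hx hy
  | mul x y _ _ hx hy =>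
    rw [smul_mul']
    have : (σ • x) * (σ • y) - x * y = (σ • x - x) * (σ • y) + x * (σ • y - y) := by ring
    rw [this]
    exact P.add_mem (P.mul_mem_right _ hx) (P.mul_mem_left _ hy)

/-- The bijection between the primes above `p` and the equality of the residue fields, for a
subfield `F'` of `F` which is the field of invariants of a group `A` of order `p - 1` acting
trivially modulo the primes above `p`. -/
theorem d4_equiv (F : IntermediateField ℚ M) (F' : Type) [Field F'] [NumberField F']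
    (j : F' →+* F) (A : Subgroup Gal(M/ℚ)) (hcomm : ∀ σ τ : Gal(M/ℚ), σ * τ = τ * σ)
    [IsGalois ℚ M]
    (hj' : ∀ x : F, (∀ σ ∈ A, σ (x : M) = x) → ∃ y, j y = x) (p : ℕ) (hp : p.Prime)
    (hA : Nat.card A = p - 1)
    (hK : ∀ P : Ideal (𝓞 M), P.IsPrime → (p : 𝓞 M) ∈ P → ∀ σ ∈ A, ∀ x : 𝓞 M, σ • x - x ∈ P) :
    ∃ e : {v : HeightOneSpectrum (𝓞 F) // (p : 𝓞 F) ∈ v.asIdeal} ≃
          {v : HeightOneSpectrum (𝓞 F') // (p : 𝓞 F') ∈ v.asIdeal},
        ∀ v, Nat.card (𝓞 F ⧸ v.1.asIdeal) = Nat.card (𝓞 F' ⧸ (e v).1.asIdeal) := by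
  set i : 𝓞 F' →+* 𝓞 F := RingOfIntegers.mapRingHom j with hi
  have hicoe : ∀ y : 𝓞 F', ((i y : 𝓞 F) : F) = j (y : F') := fun y => rfl
  have hinj : Function.Injective i := by
    intro y z hyz
    apply RingOfIntegers.ext
    apply j.injective
    rw [← hicoe, ← hicoe, hyz]
  -- lifting invariant integers
  have lift : ∀ z : 𝓞 M, (∀ h ∈ F.fixingSubgroup, h • z = z) → (∀ a ∈ A, a • z = z) →
      ∃ y : 𝓞 F', algebraMap (𝓞 F) (𝓞 M) (i y) = z := by
    intro z hz1 hz2
    have hzF : (z : M) ∈ F := by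
      rw [← IsGalois.fixedField_fixingSubgroup F, IntermediateField.mem_fixedField_iff]
      intro h hh
      exact congrArg (fun t : 𝓞 M => (t : M)) (hz1 h hh)
    obtain ⟨y, hy⟩ := hj' ⟨(z : M), hzF⟩ (fun a ha =>
      congrArg (fun t : 𝓞 M => (t : M)) (hz2 a ha))
    have hyint : IsIntegral ℤ y := by
      have h1 : IsIntegral ℤ (⟨(z : M), hzF⟩ : F) := by
        have h2 : IsIntegral ℤ (algebraMap F M ⟨(z : M), hzF⟩) := z.isIntegral_coe
        exact (isIntegral_algebraMap_iff (algebraMap F M).injective).1 h2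
      rw [← hy] at h1
      exact (isIntegral_algHom_iff (j.toIntAlgHom) j.injective).1 h1
    refine ⟨⟨y, hyint⟩, ?_⟩
    apply RingOfIntegers.ext
    change ((j y : F) : M) = z
    rw [hy]
  -- primes of `M` above a prime of `F`
  have above : ∀ v : HeightOneSpectrum (𝓞 F), (p : 𝓞 F) ∈ v.asIdeal → ∃ P : Ideal (𝓞 M),
      P.IsPrime ∧ (p : 𝓞 M) ∈ P ∧ ∀ x : 𝓞 F, x ∈ v.asIdeal ↔ algebraMap (𝓞 F) (𝓞 M) x ∈ P := by
    intro v hv
    have := v.isMaximal
    obtain ⟨P, hP, hPv⟩ := Ideal.exists_maximal_ideal_liesOver_of_isIntegral (S := 𝓞 M) v.asIdeal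
    have h1 : ∀ x : 𝓞 F, x ∈ v.asIdeal ↔ algebraMap (𝓞 F) (𝓞 M) x ∈ P := by
      intro x
      conv_lhs => rw [hPv.over]
      rfl
    refine ⟨P, hP.isPrime, ?_, h1⟩
    have h2 := (h1 (p : 𝓞 F)).1 hv
    rwa [map_natCast] at h2
  -- the contraction
  let c : {v : HeightOneSpectrum (𝓞 F) // (p : 𝓞 F) ∈ v.asIdeal} →
      {v : HeightOneSpectrum (𝓞 F') // (p : 𝓞 F') ∈ v.asIdeal} := fun v =>
    ⟨{ asIdeal := v.1.asIdeal.comap i
       isPrime := by
        have := v.1.isPrime
        exact Ideal.comap_isPrime i v.1.asIdeal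
       ne_bot := by
        intro hbot
        have h1 : (p : 𝓞 F') ∈ v.1.asIdeal.comap i := by
          rw [Ideal.mem_comap, map_natCast]
          exact v.2
        rw [hbot, Ideal.mem_bot] at h1
        exact hp.ne_zero (Nat.cast_eq_zero.1 h1) }, by
      show (p : 𝓞 F') ∈ v.1.asIdeal.comap i
      rw [Ideal.mem_comap, map_natCast]
      exact v.2⟩
  have hc : ∀ v, (c v).1.asIdeal = v.1.asIdeal.comap i := fun v => rfl
  have hfix : ∀ h ∈ F.fixingSubgroup, ∀ x : 𝓞 F,
      h • (algebraMap (𝓞 F) (𝓞 M) x) = algebraMap (𝓞 F) (𝓞 M) x := by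
    intro h hh x
    apply RingOfIntegers.ext
    change h ((x : F) : M) = ((x : F) : M)
    exact (IntermediateField.mem_fixingSubgroup_iff F h).1 hh _ (x : F).2
  -- injectivity
  have key : ∀ v₁ v₂ : {v : HeightOneSpectrum (𝓞 F) // (p : 𝓞 F) ∈ v.asIdeal}, c v₁ = c v₂ →
      v₁.1.asIdeal ≤ v₂.1.asIdeal := by
    intro v₁ v₂ h12 x hx
    obtain ⟨P, hP, hpP, hPv⟩ := above v₂.1 v₂.2
    obtain ⟨P₁, hP₁, hpP₁, hPv₁⟩ := above v₁.1 v₁.2
    set X : 𝓞 M := algebraMap (𝓞 F) (𝓞 M) x with hX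
    obtain ⟨y, hy⟩ := lift (∏ σ : A, (σ : Gal(M/ℚ)) • X) (by
      intro h hh
      rw [Finset.smul_prod']
      refine Finset.prod_congr rfl fun σ _ => ?_
      rw [smul_smul, hcomm, ← smul_smul, hX, hfix h hh]) (by
      intro a ha
      rw [Finset.smul_prod']
      refine Fintype.prod_equiv (Equiv.mulLeft (⟨a, ha⟩ : A)) _ _ fun σ => ?_
      rw [smul_smul]
      rfl)
    have hyv₁ : y ∈ (c v₁).1.asIdeal := by
      rw [hc, Ideal.mem_comap, hPv₁, hy]
      refine Ideal.mem_of_dvd P₁ ?_ ((hPv₁ x).1 hx)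
      have h3 := Finset.dvd_prod_of_mem (fun σ : A => (σ : Gal(M/ℚ)) • X)
        (Finset.mem_univ (1 : A))
      simpa using h3
    rw [h12, hc, Ideal.mem_comap, hPv, hy] at hyv₁
    rw [hPv, ← hX]
    -- modulo `P` the product is a power of `X`
    have h4 : ∀ σ : A, Ideal.Quotient.mk P ((σ : Gal(M/ℚ)) • X) = Ideal.Quotient.mk P X := by
      intro σ
      rw [Ideal.Quotient.eq]
      exact hK P hP hpP σ.1 σ.2 X
    have h5 : (Ideal.Quotient.mk P X) ^ (Fintype.card A) = 0 := by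
      rw [← Ideal.Quotient.eq_zero_iff_mem, map_prod] at hyv₁
      simp only [h4] at hyv₁
      rwa [Finset.prod_const, Finset.card_univ] at hyv₁
    rw [← Ideal.Quotient.eq_zero_iff_mem]
    exact pow_eq_zero_iff (Fintype.card_ne_zero) |>.1 h5
  have cinj : Function.Injective c := by
    intro v₁ v₂ h12
    apply Subtype.ext
    apply HeightOneSpectrum.ext
    exact le_antisymm (key v₁ v₂ h12) (key v₂ v₁ h12.symm)
  have csurj : Function.Surjective c := by
    rintro ⟨w, hw⟩
    let _ : Algebra (𝓞 F') (𝓞 F) := i.toAlgebra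
    have : Algebra.IsIntegral (𝓞 F') (𝓞 F) := Algebra.IsIntegral.tower_top ℤ
    have : FaithfulSMul (𝓞 F') (𝓞 F) := (faithfulSMul_iff_algebraMap_injective _ _).2 hinj
    have := w.isMaximal
    obtain ⟨Q, hQ, hQw⟩ := Ideal.exists_maximal_ideal_liesOver_of_isIntegral (S := 𝓞 F) w.asIdeal
    have h1 : w.asIdeal = Q.comap i := hQw.over
    have hpQ : (p : 𝓞 F) ∈ Q := by
      rw [h1, Ideal.mem_comap, map_natCast] at hw
      exact hw
    refine ⟨⟨⟨Q, hQ.isPrime, ?_⟩, hpQ⟩, ?_⟩
    · intro hbot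
      rw [hbot, Ideal.mem_bot] at hpQ
      exact hp.ne_zero (Nat.cast_eq_zero.1 hpQ)
    · apply Subtype.ext
      apply HeightOneSpectrum.ext
      exact h1.symm
  have cbij : Function.Bijective c := ⟨cinj, csurj⟩
  refine ⟨Equiv.ofBijective c cbij, fun v => ?_⟩
  rw [Equiv.ofBijective_apply]
  symm
  have hle : (c v).1.asIdeal ≤ v.1.asIdeal.comap i := le_of_eq (hc v)
  refine Nat.card_eq_of_bijective (Ideal.quotientMap v.1.asIdeal i hle) ⟨?_, ?_⟩
  · exact Ideal.quotientMap_injective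
  · intro a
    obtain ⟨x, rfl⟩ := Ideal.Quotient.mk_surjective a
    obtain ⟨P, hP, hpP, hPv⟩ := above v.1 v.2
    set X : 𝓞 M := algebraMap (𝓞 F) (𝓞 M) x with hX
    obtain ⟨y, hy⟩ := lift (-∑ σ : A, (σ : Gal(M/ℚ)) • X) (by
      intro h hh
      rw [smul_neg, Finset.smul_sum]
      congr 1
      refine Finset.sum_congr rfl fun σ _ => ?_
      rw [smul_smul, hcomm, ← smul_smul, hX, hfix h hh]) (by
      intro a ha
      rw [smul_neg, Finset.smul_sum]
      congr 1
      refine Fintype.sum_equiv (Equiv.mulLeft (⟨a, ha⟩ : A)) _ _ fun σ => ?_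
      rw [smul_smul]
      rfl)
    refine ⟨Ideal.Quotient.mk _ y, ?_⟩
    rw [Ideal.quotientMap_mk, Ideal.Quotient.eq, hPv, map_sub, hy, ← hX]
    have h6 : -∑ σ : A, (σ : Gal(M/ℚ)) • X - X =
        -(∑ σ : A, ((σ : Gal(M/ℚ)) • X - X) + (p : 𝓞 M) * X) := by
      rw [Finset.sum_sub_distrib, Finset.sum_const, Finset.card_univ, nsmul_eq_mul]
      have h7 : Fintype.card A = p - 1 := by rw [← Nat.card_eq_fintype_card, hA]
      have h8 : ((Fintype.card A : ℕ) : 𝓞 M) = (p : 𝓞 M) - 1 := by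
        rw [h7, Nat.cast_sub hp.one_le, Nat.cast_one]
      rw [h8]
      ring
    rw [h6]
    refine P.neg_mem (P.add_mem (P.sum_mem fun σ _ => hK P hP hpP σ.1 σ.2 X) ?_)
    exact P.mul_mem_right _ hpP

end D4

/-- Let `m = p * m'` with `p ∤ m'`. There is a subfield `F'` of `ℚ(ζ_{m'})` (the intersection of `F`
with `ℚ(ζ_{m'})`) with the same splitting of `p` as `F`, whose characters are those characters of `F`
which factor through `m'`. -/
theorem ram_reduction (p m' : ℕ) [NeZero m'] [NeZero (p * m')] (hp : p.Prime) (h : ¬ p ∣ m')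
    (M : Type) [Field M] [NumberField M] [IsCyclotomicExtension {p * m'} ℚ M]
    (F : IntermediateField ℚ M) :
    ∃ (M' : Type) (_ : Field M') (_ : NumberField M') (_ : IsCyclotomicExtension {m'} ℚ M')
      (F' : IntermediateField ℚ M'),
      (∃ e : {v : HeightOneSpectrum (𝓞 F) // (p : 𝓞 F) ∈ v.asIdeal} ≃
          {v : HeightOneSpectrum (𝓞 F') // (p : 𝓞 F') ∈ v.asIdeal},
        ∀ v, Nat.card (𝓞 F ⧸ v.1.asIdeal) = Nat.card (𝓞 F' ⧸ (e v).1.asIdeal)) ∧
      ∀ χ : DirichletCharacter ℂ m',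
        χ ∈ chars m' F' ↔ DirichletCharacter.changeLevel (Dvd.intro_left p rfl) χ ∈ chars (p * m') F := by
  have hgal : IsGalois ℚ M := IsCyclotomicExtension.isGalois {p * m'} ℚ M
  have hcomm : ∀ σ τ : Gal(M/ℚ), σ * τ = τ * σ := by
    intro σ τ
    apply (IsCyclotomicExtension.Rat.galEquivZMod (p * m') M).injective
    rw [map_mul, map_mul]
    exact mul_comm _ _
  have hζ := IsCyclotomicExtension.zeta_spec (p * m') ℚ M
  set ζ : M := IsCyclotomicExtension.zeta (p * m') ℚ M
  have hζ' : IsPrimitiveRoot (ζ ^ p) m' := hζ.pow (NeZero.pos _) rfl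
  let M₀ : IntermediateField ℚ M := IntermediateField.adjoin ℚ {ζ ^ p}
  have hcyc : IsCyclotomicExtension {m'} ℚ M₀ :=
    (IntermediateField.isCyclotomicExtension_singleton_iff_eq_adjoin _ _ _ _ hζ').mpr rfl
  have hgal₀ : IsGalois ℚ M₀ := IsCyclotomicExtension.isGalois {m'} ℚ M₀
  let F' : IntermediateField ℚ M₀ := F.comap M₀.val
  have hF' : ∀ x : M₀, x ∈ F' ↔ (x : M) ∈ F := fun x => Iff.rfl
  let j : F' →+* F :=
    { toFun := fun x => ⟨((x : M₀) : M), x.2⟩
      map_one' := rfl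
      map_mul' := fun _ _ => rfl
      map_zero' := rfl
      map_add' := fun _ _ => rfl }
  have hcop : p.Coprime m' := (Nat.Prime.coprime_iff_not_dvd hp).2 h
  refine ⟨M₀, inferInstance, inferInstance, hcyc, F', ?_, ?_⟩
  · refine d4_equiv F F' j M₀.fixingSubgroup hcomm ?_ p hp ?_ ?_
    · intro x hx
      have hx' : (x : M) ∈ M₀ := by
        rw [← IsGalois.fixedField_fixingSubgroup M₀, IntermediateField.mem_fixedField_iff]
        exact hx
      exact ⟨⟨⟨(x : M), hx'⟩, x.2⟩, rfl⟩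
    · rw [IsGalois.card_fixingSubgroup_eq_finrank]
      have h1 := Module.finrank_mul_finrank ℚ M₀ M
      rw [IsCyclotomicExtension.Rat.finrank m' M₀, IsCyclotomicExtension.Rat.finrank (p * m') M,
        Nat.totient_mul hcop, Nat.totient_prime hp, mul_comm (p - 1)] at h1
      exact Nat.eq_of_mul_eq_mul_left (Nat.totient_pos.2 (NeZero.pos m')) h1
    · intro P hP hpP σ hσ x
      refine d4_sub_mem (p * m') hζ p hp P hpP σ ?_ x
      exact (IntermediateField.mem_fixingSubgroup_iff M₀ σ).1 hσ _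
        (IntermediateField.mem_adjoin_simple_self ℚ (ζ ^ p))
  · intro χ
    have hval : ∀ σ : Gal(M/ℚ),
        (DirichletCharacter.changeLevel (Dvd.intro_left p rfl) χ)
          (IsCyclotomicExtension.Rat.galEquivZMod (p * m') M σ : (ZMod (p * m'))ˣ) =
        χ (IsCyclotomicExtension.Rat.galEquivZMod m' M₀ (σ.restrictNormal M₀) : (ZMod m')ˣ) := by
      intro σ
      rw [IsCyclotomicExtension.Rat.galEquivZMod_restrictNormal_apply (p * m') M M₀
        (Dvd.intro_left p rfl) σ, DirichletCharacter.changeLevel_eq_cast_of_dvd]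
      rfl
    have hmem : χ ∈ chars m' F' ↔ ∀ σ : Gal(M₀/ℚ), σ ∈ F'.fixingSubgroup →
        χ (IsCyclotomicExtension.Rat.galEquivZMod m' M₀ σ : (ZMod m')ˣ) = 1 := by
      unfold chars
      rw [Set.Finite.mem_toFinset, Set.mem_ofPred_eq]
    have hmem' : DirichletCharacter.changeLevel (Dvd.intro_left p rfl) χ ∈ chars (p * m') F ↔
        ∀ σ : Gal(M/ℚ), σ ∈ F.fixingSubgroup →
        χ (IsCyclotomicExtension.Rat.galEquivZMod m' M₀ (σ.restrictNormal M₀) : (ZMod m')ˣ) = 1 := by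
      unfold chars
      rw [Set.Finite.mem_toFinset, Set.mem_ofPred_eq]
      exact forall_congr' fun σ => by rw [hval]
    rw [hmem, hmem']
    constructor
    · intro H σ hσ
      apply H
      rw [IntermediateField.mem_fixingSubgroup_iff]
      intro x hx
      apply (algebraMap M₀ M).injective
      rw [AlgEquiv.restrictNormal_commutes]
      exact (IntermediateField.mem_fixingSubgroup_iff F σ).1 hσ _ hx
    · intro H σ' hσ'
      obtain ⟨σ, hσ⟩ := AlgEquiv.restrictNormalHom_surjective (F := ℚ) (K₁ := M₀) M σ'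
      have hσ1 : σ.restrictNormal M₀ = σ' := hσ
      have hsup : σ ∈ F.fixingSubgroup ⊔ M₀.fixingSubgroup := by
        have h2 : (F ⊓ M₀).fixingSubgroup = F.fixingSubgroup ⊔ M₀.fixingSubgroup := by
          have := (IsGalois.intermediateFieldEquivSubgroup (F := ℚ) (E := M)).map_inf F M₀
          exact this
        rw [← h2, IntermediateField.mem_fixingSubgroup_iff]
        intro x hx
        have hx1 : x ∈ F := hx.1
        have hx2 : x ∈ M₀ := hx.2
        have h3 := (IntermediateField.mem_fixingSubgroup_iff F' σ').1 hσ' ⟨x, hx2⟩ hx1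
        have h4 := AlgEquiv.restrictNormal_commutes σ M₀ ⟨x, hx2⟩
        rw [hσ1, h3] at h4
        exact h4.symm
      have hnorm : M₀.fixingSubgroup.Normal := by
        refine ⟨fun n hn g => ?_⟩
        rw [hcomm g n, mul_assoc, mul_inv_cancel, mul_one]
        exact hn
      obtain ⟨a, ha, b, hb, rfl⟩ := Subgroup.mem_sup_of_normal_right.1 hsup
      have h5 := H a ha
      have h6 : a.restrictNormal M₀ = σ' := by
        rw [← hσ1]
        apply AlgEquiv.ext
        intro x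
        apply (algebraMap M₀ M).injective
        rw [AlgEquiv.restrictNormal_commutes, AlgEquiv.restrictNormal_commutes]
        change a ((x : M₀) : M) = a (b ((x : M₀) : M))
        rw [(IntermediateField.mem_fixingSubgroup_iff M₀ b).1 hb _ x.2]
      rw [h6] at h5
      exact h5

end CM27
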