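import Pool.Agent.MP_ae0bd0_nt.CM.D3
import Pool.Agent.MP_ae0bd0_nt.CM.D4

set_option autoImplicit false

open Polynomial NumberField IsDedekindDomain
open scoped Classical

namespace CM27

/-! ## [CM-D5] splitting of all primes (file D5.lean; uses D3, D4) -/

theorem d5_pval_coprime {m : ℕ} (χ : DirichletCharacter ℂ m) (p : ℕ) (hp : p.Prime)
    (h : ¬ p ∣ m) : pval χ p = χ (p : ZMod m) := by
  have hc : IsCoprime (p : ℤ) (m : ℤ) := by
    rw [Nat.isCoprime_iff_coprime]
    exact (Nat.Prime.coprime_iff_not_dvd hp).2 h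
  have h1 := DirichletCharacter.primitiveCharacter_apply_of_isCoprime (χ := χ) hc
  unfold pval
  push_cast at h1
  exact h1

theorem d5_pval_change {m n : ℕ} [NeZero n] (hmn : m ∣ n) (χ : DirichletCharacter ℂ m) (p : ℕ)
    (hp : p.Prime) (h : ¬ p ∣ m) :
    pval (DirichletCharacter.changeLevel hmn χ) p = χ (p : ZMod m) := by
  rw [← d5_pval_coprime χ p hp h]
  have h1 := DirichletCharacter.primitiveCharacter_changeLevel_apply hmn χ (p : ℤ)
  unfold pval
  push_cast at h1
  exact h1

theorem d5_mem_chars {m : ℕ} [NeZero m] {M : Type} [Field M] [NumberField M]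
    [IsCyclotomicExtension {m} ℚ M] (F : IntermediateField ℚ M) (χ : DirichletCharacter ℂ m) :
    χ ∈ chars m F ↔ ∀ σ : Gal(M/ℚ), σ ∈ F.fixingSubgroup →
      χ (IsCyclotomicExtension.Rat.galEquivZMod m M σ : (ZMod m)ˣ) = 1 := by
  unfold chars
  simp

theorem split_all (m : ℕ) [NeZero m] (hm : Squarefree m) (M : Type) [Field M] [NumberField M]
    [IsCyclotomicExtension {m} ℚ M] (F : IntermediateField ℚ M) (p : ℕ) (hp : p.Prime) : ∃ f g : ℕ, 0 < f ∧
      {v : HeightOneSpectrum (𝓞 F) | (p : 𝓞 F) ∈ v.asIdeal}.Finite ∧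
      {v : HeightOneSpectrum (𝓞 F) | (p : 𝓞 F) ∈ v.asIdeal}.ncard = g ∧
      (∀ v : HeightOneSpectrum (𝓞 F), (p : 𝓞 F) ∈ v.asIdeal →
        Nat.card (𝓞 F ⧸ v.asIdeal) = p ^ f) ∧
      ∀ u : ℂ, ∏ χ ∈ chars m F, (1 - pval χ p * u) = (1 - u ^ f) ^ g := by
  by_cases hpm : p ∣ m
  · obtain ⟨m', rfl⟩ := hpm
    have hpm' : ¬ p ∣ m' := by
      intro hd
      obtain ⟨k, rfl⟩ := hd
      have h1 : p * p ∣ p * (p * k) := ⟨k, by ring⟩
      have h2 := hm p h1
      exact hp.one_lt.ne' (Nat.isUnit_iff.1 h2)
    have hm'0 : m' ≠ 0 := by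
      rintro rfl
      exact hpm' (dvd_zero p)
    have : NeZero m' := ⟨hm'0⟩
    obtain ⟨M', _, _, _, F', ⟨e, he⟩, hχ⟩ := ram_reduction p m' hp hpm' M F
    obtain ⟨f, g, hf, hfin, hcard, hres, hprod⟩ := split_unram m' M' F' p hp hpm'
    refine ⟨f, g, hf, ?_, ?_, ?_, ?_⟩
    · have h1 : Finite {v : HeightOneSpectrum (𝓞 F') // (p : 𝓞 F') ∈ v.asIdeal} := hfin
      have h2 : Finite {v : HeightOneSpectrum (𝓞 F) // (p : 𝓞 F) ∈ v.asIdeal} :=
        Finite.of_equiv _ e.symm
      exact h2
    · rw [← hcard]
      exact Nat.card_congr e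
    · intro v hv
      have h1 := he ⟨v, hv⟩
      rw [h1]
      exact hres _ (e ⟨v, hv⟩).2
    · intro u
      rw [← hprod u]
      have hinj : Function.Injective
          (DirichletCharacter.changeLevel (R := ℂ) (Dvd.intro_left p rfl : m' ∣ p * m')) :=
        DirichletCharacter.changeLevel_injective _
      have h1 : ∏ χ ∈ chars m' F', (1 - χ (p : ZMod m') * u) =
          ∏ χ ∈ (chars m' F').image
            (DirichletCharacter.changeLevel (R := ℂ) (Dvd.intro_left p rfl : m' ∣ p * m')),
            (1 - pval χ p * u) := by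
        rw [Finset.prod_image (fun x _ y _ h => hinj h)]
        refine Finset.prod_congr rfl ?_
        intro χ _
        rw [d5_pval_change _ χ p hp hpm']
      rw [h1]
      symm
      refine Finset.prod_subset ?_ ?_
      · intro χ hmem
        obtain ⟨χ', hχ', rfl⟩ := Finset.mem_image.1 hmem
        exact (hχ χ').1 hχ'
      · intro χ hmem hnot
        by_cases hpc : p ∣ χ.conductor
        · have h2 : pval χ p = 0 := by
            unfold pval
            have h3 := (DirichletCharacter.apply_eq_zero_iff χ.primitiveCharacter (p : ℤ)).2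
              (by
                rw [Nat.isCoprime_iff_coprime, Nat.Prime.coprime_iff_not_dvd hp]
                exact fun h => h hpc)
            push_cast at h3
            exact h3
          rw [h2]
          ring
        · exfalso
          apply hnot
          have hcm : χ.conductor ∣ m' := by
            have h2 : χ.conductor ∣ p * m' := χ.conductor_dvd_level
            exact (Nat.Coprime.dvd_mul_left
              ((Nat.Prime.coprime_iff_not_dvd hp).2 hpc).symm).1 h2
          have h3 : DirichletCharacter.changeLevel (Dvd.intro_left p rfl : m' ∣ p * m')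
              (DirichletCharacter.changeLevel hcm χ.primitiveCharacter) = χ := by
            rw [← DirichletCharacter.changeLevel_trans,
              DirichletCharacter.changeLevel_primitiveCharacter]
          refine Finset.mem_image.2 ⟨DirichletCharacter.changeLevel hcm χ.primitiveCharacter, ?_, h3⟩
          rw [hχ, h3]
          exact hmem
  · obtain ⟨f, g, hf, hfin, hcard, hres, hprod⟩ := split_unram m M F p hp hpm
    refine ⟨f, g, hf, hfin, hcard, hres, ?_⟩
    intro u
    rw [← hprod u]
    refine Finset.prod_congr rfl ?_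
    intro χ _
    rw [d5_pval_coprime χ p hp hpm]

end CM27
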