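import Pool.Agent.MP_ae0bd0_nt.CM.F1
import Pool.Agent.MP_ae0bd0_nt.CM.B5
import Pool.Agent.MP_ae0bd0_nt.CM.C4
import Pool.Agent.MP_ae0bd0_nt.CM.D5

set_option autoImplicit false

open ArithmeticFunction Filter IsDedekindDomain NumberField

namespace CM27

/-! ## [CM-F2] the local series of Mathlib's `L`-function of `E` -/

theorem loc_eulerProduct {R : Type*} [CommRing R] {ι : Type*} {p : ℕ} (hp : p.Prime) (q : ι → ℕ)
    [Northcott q] (P : ι → PowerSeries R) (hP : ∀ i, (P i).constantCoeff = 1)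
    (hq : ∀ i, 1 < q i) (S : Finset ι) (hS : ∀ i, i ∉ S → p.Coprime (q i)) :
    loc p (eulerProduct (fun i => ofPowerSeries (q i) (P i))) =
      ∏ i ∈ S, loc p (ofPowerSeries (q i) (P i)) := by
  classical
  ext k
  rw [coeff_loc]
  obtain ⟨s, hs1, hs2⟩ := ((tendsTo_eulerProduct_ofPowerSeries q P hP (p ^ k)).and
    (eventually_ge_atTop S)).exists
  rw [← hs1, ← coeff_loc, loc_prod hp, ← Finset.prod_sdiff hs2]
  rw [Finset.prod_eq_one (s := s \ S), one_mul]
  intro i hi
  rw [Finset.mem_sdiff] at hi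
  exact loc_ofPowerSeries_coprime hp (hq i) (hS i hi.2) _ (hP i)

section
variable (K : Type) [Field K] [NumberField K]

/-- the cardinality of the residue field -/
noncomputable def qv (v : HeightOneSpectrum (𝓞 K)) : ℕ :=
  Nat.card (IsLocalRing.ResidueField (v.adicCompletionIntegers K))

theorem qv_eq (v : HeightOneSpectrum (𝓞 K)) : qv K v = Ideal.absNorm v.asIdeal := by
  rw [qv, (card_residue K v).1, Ideal.absNorm_apply, Submodule.cardQuot_apply]

instance northcott_qv : Northcott (qv K) where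
  finite_le b := by
    have h1 : {I : Ideal (𝓞 K) | Ideal.absNorm I ≤ b}.Finite :=
      Ideal.finite_setOfPred_absNorm_le b
    refine Set.Finite.of_finite_image (f := fun v : HeightOneSpectrum (𝓞 K) => v.asIdeal)
      (h1.subset ?_) ?_
    · rintro _ ⟨v, hv, rfl⟩
      change Ideal.absNorm v.asIdeal ≤ b
      rw [← qv_eq]
      exact hv
    · intro v _ w _ h
      exact HeightOneSpectrum.ext h

theorem isPrimePow_qv (v : HeightOneSpectrum (𝓞 K)) : IsPrimePow (qv K v) := by
  haveI := (card_residue K v).2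
  haveI := Fintype.ofFinite (IsLocalRing.ResidueField (v.adicCompletionIntegers K))
  rw [qv, Nat.card_eq_fintype_card]
  exact FiniteField.isPrimePow_card _

theorem one_lt_qv (v : HeightOneSpectrum (𝓞 K)) : 1 < qv K v := (isPrimePow_qv K v).one_lt

theorem coprime_qv {p : ℕ} (hp : p.Prime) (v : HeightOneSpectrum (𝓞 K))
    (h : (p : 𝓞 K) ∉ v.asIdeal) : p.Coprime (qv K v) := by
  rw [hp.coprime_iff_not_dvd]
  intro hd
  apply h
  rw [qv_eq] at hd
  obtain ⟨ℓ, k, hℓ, hk, hq⟩ := isPrimePow_qv K v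
  have hℓ' : ℓ.Prime := Nat.prime_iff.2 hℓ
  rw [qv_eq] at hq
  rw [← hq] at hd
  have h1 : p = ℓ := (Nat.prime_dvd_prime_iff_eq hp hℓ').1 (hp.dvd_of_dvd_pow hd)
  have h2 : ((Ideal.absNorm v.asIdeal : ℕ) : 𝓞 K) ∈ v.asIdeal := Ideal.absNorm_mem v.asIdeal
  rw [← hq, ← h1] at h2
  push_cast at h2
  exact v.isPrime.mem_of_pow_mem _ h2

/-- The local Euler factors of `E` -/
noncomputable def fv (v : HeightOneSpectrum (𝓞 K)) : ArithmeticFunction ℤ :=
  ((E K).baseChange (v.adicCompletion K)).localEulerFactor (v.adicCompletionIntegers K)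

theorem fv_eq (v : HeightOneSpectrum (𝓞 K)) : fv K v =
    ofPowerSeries (qv K v)
      (((E K).baseChange (v.adicCompletion K)).localPowerSeries (v.adicCompletionIntegers K)) := rfl

theorem constantCoeff_localPowerSeries (v : HeightOneSpectrum (𝓞 K)) :
    PowerSeries.constantCoeff (((E K).baseChange (v.adicCompletion K)).localPowerSeries
      (v.adicCompletionIntegers K)) = 1 := by
  rw [WeierstrassCurve.localPowerSeries, PowerSeries.constantCoeff_invOfUnit]
  simp

theorem LFunction_eq : (E K).LFunction = eulerProduct (fv K) := rfl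

theorem isMultiplicative_LFunction : (E K).LFunction.IsMultiplicative := by
  rw [LFunction_eq]
  refine isMultiplicative_eulerProduct _ fun v => ?_
  exact isMultiplicative_ofPowerSeries_of_isPrimePow _ (isPrimePow_qv K v) _
    (constantCoeff_localPowerSeries K v)

theorem loc_LFunction {p : ℕ} (hp : p.Prime) (S : Finset (HeightOneSpectrum (𝓞 K)))
    (hS : ∀ v : HeightOneSpectrum (𝓞 K), (p : 𝓞 K) ∈ v.asIdeal → v ∈ S) :
    loc p (E K).LFunction = ∏ v ∈ S, loc p (fv K v) :=
  loc_eulerProduct hp (qv K) _ (constantCoeff_localPowerSeries K) (one_lt_qv K) S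
    fun v hv => coprime_qv K hp v fun h => hv (hS v h)

end

end CM27
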