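import Pool.Agent.MP_ae0bd0_nt.CM.F3

set_option autoImplicit false

open ArithmeticFunction Filter IsDedekindDomain NumberField

namespace CM27

/-! ## [CM-F4] the `L`-function of `E` over `F` is the product of the twisted `L`-functions -/

theorem not_mem_of_prime {K : Type} [Field K] [NumberField K] (v : HeightOneSpectrum (𝓞 K))
    {p : ℕ} (hp : p.Prime) (h3 : p ≠ 3) (hv : (p : 𝓞 K) ∈ v.asIdeal) : (3 : 𝓞 K) ∉ v.asIdeal := by
  intro h
  have h1 : IsCoprime (p : ℤ) (3 : ℤ) := by
    rw [Int.isCoprime_iff_gcd_eq_one]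
    have := (Nat.coprime_primes hp Nat.prime_three).2 h3
    exact_mod_cast this
  obtain ⟨a, b, hab⟩ := h1
  have h2 : ((a : 𝓞 K)) * p + b * 3 = 1 := by exact_mod_cast congrArg (Int.cast : ℤ → 𝓞 K) hab
  have h3 : (1 : 𝓞 K) ∈ v.asIdeal := by
    rw [← h2]
    exact Ideal.add_mem _ (Ideal.mul_mem_left _ _ hv) (Ideal.mul_mem_left _ _ h)
  exact v.isPrime.ne_top ((Ideal.eq_top_iff_one _).2 h3)

/-- the `L`-function with complex values -/
noncomputable def LC (K : Type) [Field K] [NumberField K] : ArithmeticFunction ℂ :=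
  ⟨fun n => ((E K).LFunction n : ℂ), by simp⟩

theorem LC_apply (K : Type) [Field K] [NumberField K] (n : ℕ) :
    LC K n = ((E K).LFunction n : ℂ) := rfl

theorem isMultiplicative_LC (K : Type) [Field K] [NumberField K] : (LC K).IsMultiplicative := by
  have h := isMultiplicative_LFunction K
  constructor
  · rw [LC_apply, h.1, Int.cast_one]
  · intro a b hab
    rw [LC_apply, LC_apply, LC_apply, h.2 hab, Int.cast_mul]

theorem loc_LC (K : Type) [Field K] [NumberField K] (p : ℕ) :
    loc p (LC K) = PowerSeries.map (Int.castRingHom ℂ) (loc p (E K).LFunction) := by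
  ext k
  rw [PowerSeries.coeff_map, coeff_loc, coeff_loc, LC_apply]
  rfl

theorem loc_LC_eq (m : ℕ) [NeZero m] (hm : GoodLevel m) (M : Type) [Field M] [NumberField M]
    [IsCyclotomicExtension {m} ℚ M] (F : IntermediateField ℚ M) {p : ℕ} (hp : p.Prime) :
    loc p (LC F) = loc p (∏ χ ∈ chars m F, tw χ) := by
  obtain ⟨f, g, hf, hfin, hcard, hres, hprod⟩ := split_all m hm.1 M F p hp
  rw [loc_LC, loc_LFunction F hp hfin.toFinset (fun v hv => by simpa using hv), loc_prod hp,
    map_prod]
  by_cases h3 : p = 3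
  · subst h3
    rw [Finset.prod_eq_one, Finset.prod_eq_one]
    · intro χ _
      exact loc_tw_three χ
    · intro v hv
      have hv3 : (3 : 𝓞 F) ∈ v.asIdeal := by simpa using hv
      have hv3' : ((3 : ℕ) : 𝓞 F) ∈ v.asIdeal := by exact_mod_cast hv3
      have h9 : (3 : 𝓞 F) ∉ v.asIdeal ^ 2 := by
        have := unram m M F 3 hp (fun h => by
          have := (hm.2 3 hp h).2.1
          norm_num at this) v hv3'
        exact_mod_cast this
      rw [fv, eulerFactor_three F v hv3 h9, loc_one hp, map_one]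
  · obtain ⟨α, β, hαβ, hpsi, hpts⟩ := local_data p hp h3
    set D : PowerSeries ℂ := (1 - (PowerSeries.C α * PowerSeries.X) ^ f) *
      (1 - (PowerSeries.C β * PowerSeries.X) ^ f) with hD
    have h1 : (∏ v ∈ hfin.toFinset, PowerSeries.map (Int.castRingHom ℂ) (loc p (fv F v))) *
        D ^ g = 1 := by
      have hc : hfin.toFinset.card = g := by
        rw [← hcard, Set.ncard_eq_toFinset_card _ hfin]
      rw [← hc, ← Finset.prod_const, ← Finset.prod_mul_distrib]
      apply Finset.prod_eq_one
      intro v hv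
      have hv1 : (p : 𝓞 F) ∈ v.asIdeal := by simpa using hv
      exact loc_fv F v hp hf (not_mem_of_prime v hp h3 hv1) (hres v hv1) α β hαβ
        (fun k _ _ hk => hpts f k hf hk)
    have h2 : (∏ χ ∈ chars m F, loc p (tw χ)) * D ^ g = 1 := by
      rw [hD, mul_pow, ← prod_subst (chars m F) (fun χ => pval χ p) f g hprod,
        ← prod_subst (chars m F) (fun χ => pval χ p) f g hprod, ← Finset.prod_mul_distrib,
        ← Finset.prod_mul_distrib]
      apply Finset.prod_eq_one
      intro χ _
      exact loc_tw χ α β hpsi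
    calc _ = (∏ v ∈ hfin.toFinset, PowerSeries.map (Int.castRingHom ℂ) (loc p (fv F v))) *
        ((∏ χ ∈ chars m F, loc p (tw χ)) * D ^ g) := by rw [h2, mul_one]
      _ = ((∏ v ∈ hfin.toFinset, PowerSeries.map (Int.castRingHom ℂ) (loc p (fv F v))) * D ^ g) *
        (∏ χ ∈ chars m F, loc p (tw χ)) := by ring
      _ = _ := by rw [h1, one_mul]

theorem LC_eq (m : ℕ) [NeZero m] (hm : GoodLevel m) (M : Type) [Field M] [NumberField M]
    [IsCyclotomicExtension {m} ℚ M] (F : IntermediateField ℚ M) :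
    LC F = ∏ χ ∈ chars m F, tw χ := by
  rw [ArithmeticFunction.IsMultiplicative.eq_iff_eq_on_prime_powers _ (isMultiplicative_LC F) _
    (isMultiplicative_finsetProd _ _ fun χ _ => isMultiplicative_tw χ)]
  intro p i hp
  rw [← coeff_loc, ← coeff_loc, loc_LC_eq m hm M F hp]

end CM27
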