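import Pool.Agent.MP_ae0bd0_nt.CM.A1

set_option autoImplicit false

open scoped ComplexConjugate

namespace CM27

/-! ## [CM-A3] prime powers (file A3.lean; uses A1) -/

theorem a3_norm_mod (a : Eis) : a.norm % 3 = (a.re + a.im) ^ 2 % 3 := by
  rw [norm_eq]
  have : a.re ^ 2 - a.re * a.im + a.im ^ 2 = (a.re + a.im) ^ 2 - 3 * (a.re * a.im) := by ring
  rw [this]
  omega

theorem a3_norm_ne_two (a : Eis) : a.norm % 3 ≠ 2 := by
  rw [a3_norm_mod, pow_two, Int.mul_emod]
  have h : (a.re + a.im) % 3 = 0 ∨ (a.re + a.im) % 3 = 1 ∨ (a.re + a.im) % 3 = 2 := by omega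
  rcases h with h | h | h <;> rw [h] <;> norm_num

theorem a3_primary_norm {a : Eis} (ha : Primary a) : a.norm % 3 = 1 := by
  rw [primary_iff] at ha
  have h : (a.re + a.im) % 3 = 1 := by omega
  rw [a3_norm_mod, pow_two, Int.mul_emod, h]
  norm_num

theorem psi_three_pow (k : ℕ) (hk : k ≠ 0) : psi (3 ^ k) = 0 := by
  rw [psi]
  apply Finset.sum_eq_zero
  intro a ha
  exfalso
  rw [mem_primSet] at ha
  have h1 := a3_primary_norm ha.2
  rw [ha.1] at h1
  obtain ⟨j, rfl⟩ := Nat.exists_eq_succ_of_ne_zero hk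
  rw [pow_succ] at h1
  push_cast at h1
  omega

theorem a3_isUnit {a : Eis} (h : a.norm = 1) : IsUnit a := (eis_isUnit_iff a).2 h

/-- a nonnegative factorization of `p ^ 2` or `p` -/
theorem a3_prime_of_norm (p : ℕ) (hp : p.Prime) (a : Eis) (hn : a.norm = p) : Prime a := by
  have := eis_isDomain
  have := eis_pid
  rw [← UniqueFactorizationMonoid.irreducible_iff_prime, irreducible_iff]
  constructor
  · intro h
    rw [eis_isUnit_iff, hn] at h
    exact hp.one_lt.ne' (by exact_mod_cast h)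
  · intro b c hbc
    have h1 : b.norm * c.norm = p := by rw [← hn, hbc, map_mul]
    obtain ⟨m, hm⟩ := Int.eq_ofNat_of_zero_le (norm_nonneg' b)
    obtain ⟨n, hn'⟩ := Int.eq_ofNat_of_zero_le (norm_nonneg' c)
    rw [hm, hn'] at h1
    have h2 : m * n = p := by exact_mod_cast h1
    rcases (Nat.dvd_prime hp).1 (Dvd.intro n h2) with h3 | h3
    · left
      apply a3_isUnit
      rw [hm, h3]; rfl
    · right
      apply a3_isUnit
      rw [hn']
      have h4 : p * n = p * 1 := by rw [mul_one, ← h3, h2, h3]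
      rw [Nat.eq_of_mul_eq_mul_left hp.pos h4]
      rfl

theorem a3_mul_star (a : Eis) : a * star a = ((a.norm : ℤ) : Eis) := by
  rw [← QuadraticAlgebra.algebraMap_norm_eq_mul_star]
  rfl

theorem exists_primary_prime (p : ℕ) (hp : p.Prime) (h : p % 3 = 1) :
    ∃ a : Eis, Primary a ∧ a.norm = p := by
  have := eis_isDomain
  have := eis_pid
  have : Fact p.Prime := ⟨hp⟩
  -- a root of `t² + t + 1`
  obtain ⟨t, ht⟩ : ∃ t : ℤ, (p : ℤ) ∣ t ^ 2 + t + 1 := by
    have hcard : 3 ∣ Fintype.card (ZMod p)ˣ := by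
      rw [ZMod.card_units p]
      have := hp.two_le
      omega
    have : Fact (Nat.Prime 3) := ⟨Nat.prime_three⟩
    obtain ⟨g, hg⟩ := exists_prime_orderOf_dvd_card 3 hcard
    have hg3 : (g : ZMod p) ^ 3 = 1 := by
      have h0 := pow_orderOf_eq_one g
      rw [hg] at h0
      have h1 := congrArg Units.val h0
      rw [Units.val_pow_eq_pow_val, Units.val_one] at h1
      exact h1
    have hg1 : (g : ZMod p) ≠ 1 := by
      intro h1
      have h2 : g = 1 := Units.ext h1
      rw [h2, orderOf_one] at hg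
      omega
    have h2 : ((g : ZMod p) - 1) * ((g : ZMod p) ^ 2 + g + 1) = 0 := by
      linear_combination hg3
    have h3 : (g : ZMod p) ^ 2 + g + 1 = 0 := by
      rcases mul_eq_zero.1 h2 with h4 | h4
      · exact absurd (sub_eq_zero.1 h4) hg1
      · exact h4
    refine ⟨((g : ZMod p).val : ℤ), ?_⟩
    rw [← ZMod.intCast_zmod_eq_zero_iff_dvd]
    push_cast
    rw [ZMod.natCast_zmod_val]
    exact h3
  set a : Eis := ⟨-t, 1⟩ with ha
  have hna : a.norm = t ^ 2 + t + 1 := by
    rw [norm_eq, ha]; ring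
  have hdvd : (p : Eis) ∣ a * star a := by
    rw [a3_mul_star, hna]
    obtain ⟨c, hc⟩ := ht
    refine ⟨(c : Eis), ?_⟩
    rw [hc]; push_cast; ring
  have him : ∀ b : Eis, (p : Eis) ∣ b → (p : ℤ) ∣ b.im := by
    rintro b ⟨c, rfl⟩
    refine ⟨c.im, ?_⟩
    rw [QuadraticAlgebra.im_mul, QuadraticAlgebra.re_natCast, QuadraticAlgebra.im_natCast]
    ring
  have hnp : ¬ Prime (p : Eis) := by
    intro hprime
    have h1 : ¬ (p : ℤ) ∣ 1 := by
      intro h2
      have := Int.eq_one_of_dvd_one (by positivity) h2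
      have := hp.one_lt
      omega
    rcases hprime.dvd_or_dvd hdvd with h2 | h2
    · exact h1 (him a h2)
    · have := him _ h2
      rw [QuadraticAlgebra.im_star] at this
      exact h1 (by simpa [ha] using this)
  have hnu : ¬ IsUnit (p : Eis) := by
    rw [eis_isUnit_iff, QuadraticAlgebra.norm_natCast]
    intro h1
    have h2 : (p : ℤ) ^ 2 = 1 := h1
    have h3 : 2 ≤ (p : ℤ) := by exact_mod_cast hp.two_le
    nlinarith
  rw [← UniqueFactorizationMonoid.irreducible_iff_prime, irreducible_iff] at hnp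
  push Not at hnp
  obtain ⟨b, c, hbc, hb, hc⟩ := hnp hnu
  have h1 : b.norm * c.norm = (p : ℤ) ^ 2 := by
    rw [← map_mul, ← hbc]
    exact QuadraticAlgebra.norm_natCast p
  have hb1 : b.norm = p := by
    obtain ⟨m, hm⟩ := Int.eq_ofNat_of_zero_le (norm_nonneg' b)
    obtain ⟨n, hn'⟩ := Int.eq_ofNat_of_zero_le (norm_nonneg' c)
    rw [hm, hn'] at h1
    have h2 : m * n = p ^ 2 := by exact_mod_cast h1
    have hm1 : m ≠ 1 := by
      intro h3
      apply hb
      rw [eis_isUnit_iff, hm, h3]; rfl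
    have hn1 : n ≠ 1 := by
      intro h3
      apply hc
      rw [eis_isUnit_iff, hn', h3]; rfl
    rw [hm]
    have := (Nat.Prime.mul_eq_prime_sq_iff hp hm1 hn1).1 h2
    exact_mod_cast this.1
  have h3 : ¬ (3 : ℤ) ∣ b.norm := by
    rw [hb1]
    omega
  obtain ⟨u, hu, hub⟩ := exists_primary b h3
  refine ⟨u * b, hub, ?_⟩
  rw [map_mul, (eis_isUnit_iff u).1 hu, one_mul, hb1]

theorem a3_primary_one : Primary 1 := by
  rw [Primary, sub_self]
  exact dvd_zero _

theorem a3_eq_one {b : Eis} (hb : Primary b) (hn : b.norm = 1) : b = 1 :=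
  primary_unique 1 b a3_primary_one (a3_isUnit hn) (by rwa [mul_one])

theorem a3_cofactor {a c : Eis} (ha : Primary a) (h : Primary (a * c)) : Primary c := by
  have h1 : c - 1 = (a * c - 1) - (a - 1) * c := by ring
  rw [Primary, h1]
  exact dvd_sub h (Dvd.dvd.mul_right ha c)

/-- primary elements of norm `p ^ f`, `p ≡ 1 mod 3` -/
theorem eq_pow_mul_pow (p : ℕ) (hp : p.Prime) (a : Eis) (ha : Primary a) (hn : a.norm = p)
    (f : ℕ) (b : Eis) (hb : Primary b) (hbn : b.norm = p ^ f) :
    ∃ i ≤ f, b = a ^ i * (star a) ^ (f - i) := by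
  have := eis_isDomain
  have := eis_pid
  have hpr := a3_prime_of_norm p hp a hn
  have hp0 : (p : ℤ) ≠ 0 := by exact_mod_cast hp.ne_zero
  induction f generalizing b with
  | zero =>
    refine ⟨0, le_rfl, ?_⟩
    rw [a3_eq_one hb (by rw [hbn, pow_zero])]
    simp
  | succ f ih =>
    have h1 : a ∣ b * star b := by
      rw [a3_mul_star, hbn]
      refine Dvd.dvd.trans (b := (p : Eis)) ?_ ?_
      · refine ⟨star a, ?_⟩
        rw [a3_mul_star, hn]
        push_cast; rfl
      · rw [pow_succ]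
        push_cast
        exact dvd_mul_left _ _
    rcases hpr.dvd_or_dvd h1 with h2 | h2
    · obtain ⟨c, rfl⟩ := h2
      have hc := a3_cofactor ha hb
      have hcn : c.norm = p ^ f := by
        rw [map_mul, hn, pow_succ, mul_comm ((p : ℤ) ^ f)] at hbn
        exact mul_left_cancel₀ hp0 hbn
      obtain ⟨i, hi, hci⟩ := ih c hc hcn
      refine ⟨i + 1, by omega, ?_⟩
      rw [hci, Nat.add_sub_add_right]
      ring
    · obtain ⟨c, hc⟩ := h2
      have hb' : b = star a * star c := by
        rw [← star_star b, hc, star_mul, mul_comm]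
      have hcp := a3_cofactor (Primary.star ha) (by rw [← hb']; exact hb)
      have hcn : (star c).norm = p ^ f := by
        rw [hb', map_mul, QuadraticAlgebra.norm_star, hn, pow_succ,
          mul_comm ((p : ℤ) ^ f)] at hbn
        exact mul_left_cancel₀ hp0 hbn
      obtain ⟨i, hi, hci⟩ := ih (star c) hcp hcn
      refine ⟨i, by omega, ?_⟩
      rw [hb', hci, Nat.succ_sub hi, pow_succ (star a)]
      ring

/-- `a ≠ star a` up to units -/
theorem not_dvd_star (p : ℕ) (hp : p.Prime) (h : p % 3 = 1) (a : Eis) (hn : a.norm = p) :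
    ¬ a ∣ star a := by
  intro hd
  have h1 : a ∣ a + star a := dvd_add dvd_rfl hd
  have h2 : a + star a = ((2 * a.re - a.im : ℤ) : Eis) := by
    ext
    · rw [QuadraticAlgebra.re_add, QuadraticAlgebra.re_star, QuadraticAlgebra.re_intCast,
        Int.cast_id]
      ring
    · rw [QuadraticAlgebra.im_add, QuadraticAlgebra.im_star, QuadraticAlgebra.im_intCast]
      ring
  rw [h2] at h1
  have h3 : (p : ℤ) ∣ (2 * a.re - a.im) ^ 2 := by
    have := map_dvd (QuadraticAlgebra.norm : Eis →* ℤ) h1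
    rw [QuadraticAlgebra.norm_intCast] at this
    rw [← hn]
    exact this
  have h4 : (p : ℤ) ∣ 2 * a.re - a.im := (Nat.prime_iff_prime_int.1 hp).dvd_of_dvd_pow h3
  have h5 : 4 * (p : ℤ) = (2 * a.re - a.im) ^ 2 + 3 * a.im ^ 2 := by
    rw [← hn, norm_eq]; ring
  have hp7 : 7 ≤ p := by
    have h2 := hp.two_le
    have h4' : p ≠ 4 := by rintro rfl; revert hp; decide
    omega
  obtain ⟨c, hc⟩ := h4
  rw [hc] at h5
  have h6 : c = 0 := by
    by_contra hc0
    have h7 : 1 ≤ c ^ 2 := by
      have := sq_nonneg c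
      have : c ^ 2 ≠ 0 := pow_ne_zero 2 hc0
      omega
    have h8 : (7 : ℤ) ≤ p := by exact_mod_cast hp7
    nlinarith [sq_nonneg a.im, mul_le_mul h8 h7 (by norm_num) (by linarith : (0 : ℤ) ≤ (p : ℤ))]
  rw [h6] at h5
  have h7 : (3 : ℤ) ∣ 4 * p := ⟨a.im ^ 2, by rw [h5]; ring⟩
  omega

theorem a3_norm_pow (a : Eis) (i : ℕ) : (a ^ i).norm = a.norm ^ i := map_pow _ _ _

theorem a3_primary_pow {a : Eis} (ha : Primary a) (i : ℕ) : Primary (a ^ i) := by
  induction i with
  | zero => rw [pow_zero]; exact a3_primary_one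
  | succ i ih => rw [pow_succ]; exact Primary.mul ih ha

theorem a3_inj_aux (p : ℕ) (hp : p.Prime) (h : p % 3 = 1) (a : Eis)
    (hn : a.norm = p) (k i j : ℕ) (hij : i < j) (hj : j ≤ k)
    (he : a ^ i * (star a) ^ (k - i) = a ^ j * (star a) ^ (k - j)) : False := by
  have := eis_isDomain
  have hpr := a3_prime_of_norm p hp a hn
  have hs : star a ≠ 0 := by
    intro h0
    have : (star a).norm = 0 := by rw [h0, QuadraticAlgebra.norm_zero]
    rw [QuadraticAlgebra.norm_star, hn] at this
    exact hp.ne_zero (by exact_mod_cast this)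
  have e1 : k - i = (j - i) + (k - j) := by omega
  have e2 : a ^ j = a ^ i * a ^ (j - i) := by rw [← pow_add]; congr 1; omega
  rw [e1, pow_add, e2, mul_assoc] at he
  have h1 := mul_left_cancel₀ (pow_ne_zero i hpr.ne_zero) he
  have h2 := mul_right_cancel₀ (pow_ne_zero (k - j) hs) h1
  have h3 : a ∣ star a ^ (j - i) := by
    rw [h2]
    exact dvd_pow_self a (by omega)
  exact not_dvd_star p hp h a hn (hpr.dvd_of_dvd_pow h3)

theorem psi_split (p : ℕ) (hp : p.Prime) (h : p % 3 = 1) (a : Eis) (ha : Primary a)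
    (hn : a.norm = p) (k : ℕ) :
    psi (p ^ k) = ∑ i ∈ Finset.range (k + 1), emb a ^ i * (conj (emb a)) ^ (k - i) := by
  classical
  rw [psi]
  symm
  refine Finset.sum_bij (fun i _ => a ^ i * (star a) ^ (k - i)) ?_ ?_ ?_ ?_
  · intro i hi
    have hi' : i ≤ k := by
      rw [Finset.mem_range] at hi; omega
    rw [mem_primSet]
    refine ⟨?_, Primary.mul (a3_primary_pow ha i) (a3_primary_pow (Primary.star ha) _)⟩
    rw [map_mul, a3_norm_pow, a3_norm_pow, QuadraticAlgebra.norm_star, hn, ← pow_add,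
      Nat.add_sub_cancel' hi']
    push_cast; rfl
  · intro i hi j hj he
    have hi' : i ≤ k := by
      rw [Finset.mem_range] at hi; omega
    have hj' : j ≤ k := by
      rw [Finset.mem_range] at hj; omega
    rcases lt_trichotomy i j with h1 | h1 | h1
    · exact (a3_inj_aux p hp h a hn k i j h1 hj' he).elim
    · exact h1
    · exact (a3_inj_aux p hp h a hn k j i h1 hi' he.symm).elim
  · intro b hb
    rw [mem_primSet] at hb
    obtain ⟨i, hi, hbi⟩ := eq_pow_mul_pow p hp a ha hn k b hb.2 (by rw [hb.1]; push_cast; rfl)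
    exact ⟨i, Finset.mem_range.2 (by omega), hbi.symm⟩
  · intro i _
    rw [map_mul, map_pow, map_pow, emb_star]

theorem a3_prime_inert (p : ℕ) (hp : p.Prime) (h : p % 3 = 2) : Prime (p : Eis) := by
  have := eis_isDomain
  have := eis_pid
  rw [← UniqueFactorizationMonoid.irreducible_iff_prime, irreducible_iff]
  constructor
  · rw [eis_isUnit_iff, QuadraticAlgebra.norm_natCast]
    intro h1
    have h2 : (p : ℤ) ^ 2 = 1 := h1
    have h3 : 2 ≤ (p : ℤ) := by exact_mod_cast hp.two_le
    nlinarith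
  · intro b c hbc
    have h1 : b.norm * c.norm = (p : ℤ) ^ 2 := by
      rw [← map_mul, ← hbc]
      exact QuadraticAlgebra.norm_natCast p
    have hb2 := a3_norm_ne_two b
    obtain ⟨m, hm⟩ := Int.eq_ofNat_of_zero_le (norm_nonneg' b)
    obtain ⟨n, hn'⟩ := Int.eq_ofNat_of_zero_le (norm_nonneg' c)
    rw [hm, hn'] at h1
    rw [hm] at hb2
    have h2 : m * n = p ^ 2 := by exact_mod_cast h1
    by_contra hcon
    push Not at hcon
    have hm1 : m ≠ 1 := by
      intro h3
      apply hcon.1
      rw [eis_isUnit_iff, hm, h3]; rfl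
    have hn1 : n ≠ 1 := by
      intro h3
      apply hcon.2
      rw [eis_isUnit_iff, hn', h3]; rfl
    have := (Nat.Prime.mul_eq_prime_sq_iff hp hm1 hn1).1 h2
    rw [this.1] at hb2
    omega

/-- primary elements of norm `p ^ f`, `p ≡ 2 mod 3` -/
theorem eq_neg_pow (p : ℕ) (hp : p.Prime) (h : p % 3 = 2) (f : ℕ) (b : Eis) (hb : Primary b)
    (hbn : b.norm = p ^ f) : Even f ∧ b = (-(p : Eis)) ^ (f / 2) := by
  have := eis_isDomain
  have := eis_pid
  have hpr := a3_prime_inert p hp h
  have hp0 : (p : ℤ) ≠ 0 := by exact_mod_cast hp.ne_zero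
  have hprim : Primary (-(p : Eis)) := by
    rw [primary_iff, QuadraticAlgebra.re_neg, QuadraticAlgebra.im_neg,
      QuadraticAlgebra.re_natCast, QuadraticAlgebra.im_natCast]
    constructor
    · omega
    · norm_num
  induction f using Nat.strong_induction_on generalizing b with
  | _ f ih =>
    rcases Nat.eq_zero_or_pos f with rfl | hf
    · refine ⟨⟨0, rfl⟩, ?_⟩
      rw [a3_eq_one hb (by rw [hbn, pow_zero])]
      simp
    · have h1 : (p : Eis) ∣ b * star b := by
        rw [a3_mul_star, hbn]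
        push_cast
        exact dvd_pow_self _ hf.ne'
      have h2 : (p : Eis) ∣ b := by
        rcases hpr.dvd_or_dvd h1 with h2 | h2
        · exact h2
        · obtain ⟨c, hc⟩ := h2
          refine ⟨star c, ?_⟩
          rw [← star_star b, hc, star_mul, star_natCast, mul_comm]
      obtain ⟨c, rfl⟩ := h2
      have hbc : (p : Eis) * c = -(p : Eis) * (-c) := by ring
      have hcp : Primary (-c) := a3_cofactor hprim (by rw [← hbc]; exact hb)
      have hcn : (p : ℤ) ^ 2 * (-c).norm = p ^ f := by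
        rw [← hbn, map_mul, QuadraticAlgebra.norm_natCast, QuadraticAlgebra.norm_neg]
      have hf2 : 2 ≤ f := by
        by_contra hlt
        have hf1 : f = 1 := by omega
        rw [hf1, pow_one, pow_two, mul_assoc] at hcn
        have h3 : (p : ℤ) * (-c).norm = 1 := mul_left_cancel₀ hp0 (by rw [hcn, mul_one])
        have h4 := Int.eq_one_or_neg_one_of_mul_eq_one h3
        have h5 : 2 ≤ (p : ℤ) := by exact_mod_cast hp.two_le
        omega
      obtain ⟨g, rfl⟩ : ∃ g, f = g + 2 := ⟨f - 2, by omega⟩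
      have hcn' : (-c).norm = p ^ g := by
        have : (p : ℤ) ^ 2 * (-c).norm = p ^ 2 * p ^ g := by rw [hcn]; ring
        exact mul_left_cancel₀ (pow_ne_zero 2 hp0) this
      obtain ⟨h3, h4⟩ := ih g (by omega) (-c) hcp hcn'
      refine ⟨h3.add (by decide), ?_⟩
      rw [hbc, h4, show (g + 2) / 2 = g / 2 + 1 by omega, pow_succ']

theorem psi_inert (p : ℕ) (hp : p.Prime) (h : p % 3 = 2) (k : ℕ) :
    psi (p ^ k) = if Even k then (-(p : ℂ)) ^ (k / 2) else 0 := by
  have hprim : Primary (-(p : Eis)) := by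
    rw [primary_iff, QuadraticAlgebra.re_neg, QuadraticAlgebra.im_neg,
      QuadraticAlgebra.re_natCast, QuadraticAlgebra.im_natCast]
    constructor
    · omega
    · norm_num
  rw [psi]
  split_ifs with hk
  · have h1 : primSet (p ^ k) = {(-(p : Eis)) ^ (k / 2)} := by
      ext b
      rw [mem_primSet, Finset.mem_singleton]
      constructor
      · rintro ⟨h1, h2⟩
        exact (eq_neg_pow p hp h k b h2 (by rw [h1]; push_cast; rfl)).2
      · rintro rfl
        refine ⟨?_, a3_primary_pow hprim _⟩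
        rw [a3_norm_pow, QuadraticAlgebra.norm_neg, QuadraticAlgebra.norm_natCast]
        push_cast
        rw [← pow_mul, Nat.mul_div_cancel' hk.two_dvd]
    rw [h1, Finset.sum_singleton, map_pow, map_neg, map_natCast]
  · apply Finset.sum_eq_zero
    intro b hb
    rw [mem_primSet] at hb
    exact absurd (eq_neg_pow p hp h k b hb.2 (by rw [hb.1]; push_cast; rfl)).1 hk

end CM27
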