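import Pool.Agent.MP_ae0bd0_nt.CM.Defs

set_option autoImplicit false

open Polynomial NumberField IsDedekindDomain
open scoped Classical

namespace CM27

/-! ## [CM-C1] good reduction models and residue fields (file C1.lean) -/

/-- The point types of two Weierstrass curves with the same nonsingular points. -/
theorem c1_card_point {F G : Type} [Field F] [Field G] (V : WeierstrassCurve F)
    (W : WeierstrassCurve G) (e : F × F ≃ G × G)
    (h : ∀ p : F × F, V.toAffine.Nonsingular p.1 p.2 ↔
      W.toAffine.Nonsingular (e p).1 (e p).2) :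
    Nat.card V.toAffine.Point = Nat.card W.toAffine.Point := by
  refine Nat.card_congr ?_
  refine (WeierstrassCurve.Affine.nonsingularPointEquiv V.toAffine).trans
    (Equiv.trans ?_ (WeierstrassCurve.Affine.nonsingularPointEquiv W.toAffine).symm)
  exact Equiv.optionCongr (Equiv.subtypeEquiv e h)

theorem c1_card_map {F G : Type} [Field F] [Field G] (φ : F ≃+* G) (V : WeierstrassCurve F) :
    Nat.card V.toAffine.Point = Nat.card (V.map φ.toRingHom).toAffine.Point := by
  refine c1_card_point V _ (Equiv.prodCongr φ.toEquiv φ.toEquiv) ?_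
  intro p
  exact (WeierstrassCurve.Affine.map_nonsingular V.toAffine (f := φ.toRingHom)
    φ.injective p.1 p.2).symm

/-- The map of points of a change of variables. -/
def c1_equiv {F : Type} [Field F] (C : WeierstrassCurve.VariableChange F) : F × F ≃ F × F where
  toFun p := ((C.u : F) ^ 2 * p.1 + C.r, (C.u : F) ^ 3 * p.2 + (C.u : F) ^ 2 * C.s * p.1 + C.t)
  invFun q := (((C.u⁻¹ : Fˣ) : F) ^ 2 * (q.1 - C.r),
    ((C.u⁻¹ : Fˣ) : F) ^ 3 * (q.2 - C.t - C.s * (q.1 - C.r)))
  left_inv p := by
    have hu : (C.u : F) ≠ 0 := C.u.ne_zero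
    ext
    · simp only [Units.val_inv_eq_inv_val]
      field_simp
      ring
    · simp only [Units.val_inv_eq_inv_val]
      field_simp
      ring
  right_inv q := by
    have hu : (C.u : F) ≠ 0 := C.u.ne_zero
    ext
    · simp only [Units.val_inv_eq_inv_val]
      field_simp
      ring
    · simp only [Units.val_inv_eq_inv_val]
      field_simp
      ring

theorem c1_card_variableChange {F : Type} [Field F] (C : WeierstrassCurve.VariableChange F)
    (W : WeierstrassCurve F) (hW : W.Δ ≠ 0) :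
    Nat.card (C • W).toAffine.Point = Nat.card W.toAffine.Point := by
  refine c1_card_point _ _ (c1_equiv C) ?_
  rintro ⟨x, y⟩
  have hu : (C.u : F) ≠ 0 := C.u.ne_zero
  have hΔ : (C • W).Δ ≠ 0 := by
    rw [WeierstrassCurve.variableChange_Δ, Units.val_inv_eq_inv_val]
    exact mul_ne_zero (pow_ne_zero _ (inv_ne_zero hu)) hW
  rw [← WeierstrassCurve.Affine.equation_iff_nonsingular_of_Δ_ne_zero (W := (C • W).toAffine) hΔ,
    ← WeierstrassCurve.Affine.equation_iff_nonsingular_of_Δ_ne_zero (W := W.toAffine) hW,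
    WeierstrassCurve.Affine.equation_iff', WeierstrassCurve.Affine.equation_iff']
  simp only [c1_equiv, Equiv.coe_fn_mk, WeierstrassCurve.variableChange_a₁,
    WeierstrassCurve.variableChange_a₂, WeierstrassCurve.variableChange_a₃,
    WeierstrassCurve.variableChange_a₄, WeierstrassCurve.variableChange_a₆,
    Units.val_inv_eq_inv_val]
  have key : ((C.u : F) ^ 3 * y + (C.u : F) ^ 2 * C.s * x + C.t) ^ 2 +
      W.a₁ * ((C.u : F) ^ 2 * x + C.r) * ((C.u : F) ^ 3 * y + (C.u : F) ^ 2 * C.s * x + C.t) +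
      W.a₃ * ((C.u : F) ^ 3 * y + (C.u : F) ^ 2 * C.s * x + C.t) -
      (((C.u : F) ^ 2 * x + C.r) ^ 3 + W.a₂ * ((C.u : F) ^ 2 * x + C.r) ^ 2 +
        W.a₄ * ((C.u : F) ^ 2 * x + C.r) + W.a₆) =
      (C.u : F) ^ 6 * (y ^ 2 + (C.u : F)⁻¹ * (W.a₁ + 2 * C.s) * x * y +
        (C.u : F)⁻¹ ^ 3 * (W.a₃ + C.r * W.a₁ + 2 * C.t) * y -
        (x ^ 3 + (C.u : F)⁻¹ ^ 2 * (W.a₂ - C.s * W.a₁ + 3 * C.r - C.s ^ 2) * x ^ 2 +
          (C.u : F)⁻¹ ^ 4 * (W.a₄ - C.s * W.a₃ + 2 * C.r * W.a₂ - (C.t + C.r * C.s) * W.a₁ +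
            3 * C.r ^ 2 - 2 * C.s * C.t) * x +
          (C.u : F)⁻¹ ^ 6 * (W.a₆ + C.r * W.a₄ + C.r ^ 2 * W.a₂ + C.r ^ 3 - C.t * W.a₃ -
            C.t ^ 2 - C.r * C.t * W.a₁))) := by
    field_simp
    ring
  rw [key]
  constructor
  · intro h
    rw [h, mul_zero]
  · intro h
    exact (mul_eq_zero.1 h).resolve_left (pow_ne_zero _ hu)

theorem c1_Δ (R : Type) [CommRing R] : (E R).Δ = -27 := by
  simp only [E, WeierstrassCurve.Δ, WeierstrassCurve.b₂, WeierstrassCurve.b₄,
    WeierstrassCurve.b₆, WeierstrassCurve.b₈]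
  ring

theorem c1_map {R S : Type} [CommRing R] [CommRing S] (φ : R →+* S) : (E R).map φ = E S := by
  ext <;> simp [E]

/-- A root of a monic polynomial is integral, hence lies in `A`. -/
theorem c1_root (A : Type) [CommRing A] [IsDomain A] [IsDiscreteValuationRing A]
    (K : Type) [Field K] [Algebra A K] [IsFractionRing A K] (P : A[X]) (hP : P.Monic) (x : K)
    (hx : Polynomial.eval₂ (algebraMap A K) x P = 0) : ∃ r : A, algebraMap A K r = x :=
  IsIntegrallyClosed.isIntegral_iff.1 ⟨P, hP, hx⟩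

/-- Integrality of the coefficients of a change of variables. -/
theorem c1_lift (A : Type) [CommRing A] [IsDomain A] [IsDiscreteValuationRing A]
    (K : Type) [Field K] [Algebra A K] [IsFractionRing A K] (h3 : IsUnit (3 : A))
    (T : WeierstrassCurve.VariableChange K) (I : WeierstrassCurve A)
    (hI : T • E K = I.map (algebraMap A K))
    (hu : (IsDiscreteValuationRing.maximalIdeal A).valuation K (T.u : K) = 1) :
    ∃ D : WeierstrassCurve.VariableChange A, D • E A = I := by
  have hinj : Function.Injective (algebraMap A K) := IsFractionRing.injective A K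
  have hmem : (T.u : K) ∈ MonoidHom.mker ((IsDiscreteValuationRing.maximalIdeal A).valuation K) :=
    hu
  rw [IsDiscreteValuationRing.mker_valuation_eq_isUnitSubmonoid] at hmem
  obtain ⟨u₀, hu₀, hu₁⟩ := hmem
  have hu₀' : IsUnit u₀ := hu₀
  obtain ⟨u, rfl⟩ := hu₀'
  obtain ⟨c, hc⟩ := h3
  have hc3 : algebraMap A K (c : A) = 3 := by rw [hc, map_ofNat]
  have hcinv : algebraMap A K ((c⁻¹ : Aˣ) : A) * 3 = 1 := by
    rw [← hc3, ← map_mul]; simp
  have hu1 : (T.u : K) = algebraMap A K u := hu₁.symm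
  have huu : algebraMap A K (u : A) * algebraMap A K ((u⁻¹ : Aˣ) : A) = 1 := by
    rw [← map_mul]; simp
  have huinv : ((T.u⁻¹ : Kˣ) : K) = algebraMap A K ((u⁻¹ : Aˣ) : A) := by
    rw [Units.val_inv_eq_inv_val, hu1]
    exact inv_eq_of_mul_eq_one_right huu
  -- the equations
  have hb8 : algebraMap A K ((u⁻¹ : Aˣ) : A) ^ 8 * (3 * T.r + 3 * T.r ^ 4) =
      algebraMap A K I.b₈ := by
    have h : (T • E K).b₈ = algebraMap A K I.b₈ := by rw [hI]; simp
    rw [← h, WeierstrassCurve.variableChange_b₈, huinv]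
    simp only [E, WeierstrassCurve.b₂, WeierstrassCurve.b₄, WeierstrassCurve.b₆,
      WeierstrassCurve.b₈]
    ring
  have ha2 : algebraMap A K ((u⁻¹ : Aˣ) : A) ^ 2 * (3 * T.r - T.s ^ 2) =
      algebraMap A K I.a₂ := by
    have h : (T • E K).a₂ = algebraMap A K I.a₂ := by rw [hI]; simp
    rw [← h, WeierstrassCurve.variableChange_a₂, huinv]
    simp only [E]
    ring
  have ha6 : algebraMap A K ((u⁻¹ : Aˣ) : A) ^ 6 * (T.r ^ 3 - T.t - T.t ^ 2) =
      algebraMap A K I.a₆ := by
    have h : (T • E K).a₆ = algebraMap A K I.a₆ := by rw [hI]; simp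
    rw [← h, WeierstrassCurve.variableChange_a₆, huinv]
    simp only [E]
    ring
  have hu8 : algebraMap A K (u : A) ^ 8 * algebraMap A K ((u⁻¹ : Aˣ) : A) ^ 8 = 1 := by
    rw [← mul_pow, huu, one_pow]
  have hu2 : algebraMap A K (u : A) ^ 2 * algebraMap A K ((u⁻¹ : Aˣ) : A) ^ 2 = 1 := by
    rw [← mul_pow, huu, one_pow]
  have hu6 : algebraMap A K (u : A) ^ 6 * algebraMap A K ((u⁻¹ : Aˣ) : A) ^ 6 = 1 := by
    rw [← mul_pow, huu, one_pow]
  -- r
  have hr : ∃ r : A, algebraMap A K r = T.r := by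
    refine c1_root A K (X ^ 4 + X - C ((u : A) ^ 8 * I.b₈ * ((c⁻¹ : Aˣ) : A))) ?_ _ ?_
    · monicity!
    · rw [eval₂_sub, eval₂_add, eval₂_pow, eval₂_X, eval₂_C]
      simp only [map_mul, map_pow]
      rw [← hb8]
      linear_combination (-(T.r + T.r ^ 4)) * hcinv - (3 * T.r + 3 * T.r ^ 4) *
        algebraMap A K ((c⁻¹ : Aˣ) : A) * hu8
  obtain ⟨r, hr⟩ := hr
  have hs : ∃ s : A, algebraMap A K s = T.s := by
    refine c1_root A K (X ^ 2 - C (3 * r - (u : A) ^ 2 * I.a₂)) ?_ _ ?_
    · monicity!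
    · rw [eval₂_sub, eval₂_pow, eval₂_X, eval₂_C]
      simp only [map_mul, map_pow, map_sub, map_ofNat]
      rw [← ha2, hr]
      linear_combination (3 * T.r - T.s ^ 2) * hu2
  obtain ⟨s, hs⟩ := hs
  have ht : ∃ t : A, algebraMap A K t = T.t := by
    refine c1_root A K (X ^ 2 + X - C (r ^ 3 - (u : A) ^ 6 * I.a₆)) ?_ _ ?_
    · monicity!
    · rw [eval₂_sub, eval₂_add, eval₂_pow, eval₂_X, eval₂_C]
      simp only [map_mul, map_pow, map_sub]
      rw [← ha6, hr]
      linear_combination (T.r ^ 3 - T.t - T.t ^ 2) * hu6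
  obtain ⟨t, ht⟩ := ht
  refine ⟨⟨u, r, s, t⟩, ?_⟩
  apply WeierstrassCurve.map_injective hinj
  show (_ • E A).map (algebraMap A K) = I.map (algebraMap A K)
  rw [← hI, ← WeierstrassCurve.map_variableChange, c1_map]
  congr 1
  ext
  · exact hu1.symm
  · exact hr
  · exact hs
  · exact ht

/-- The minimal model of `E` has good reduction, via a change of variables whose `u` is a unit. -/
theorem c1_good (A : Type) [CommRing A] [IsDomain A] [IsDiscreteValuationRing A]
    (K : Type) [Field K] [Algebra A K] [IsFractionRing A K] (h3 : IsUnit (3 : A))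
    (T : WeierstrassCurve.VariableChange K) (hT : WeierstrassCurve.IsMinimal A (T • E K)) :
    (IsDiscreteValuationRing.maximalIdeal A).valuation K (T • E K).Δ = 1 ∧
    (IsDiscreteValuationRing.maximalIdeal A).valuation K (T.u : K) = 1 := by
  have hE : WeierstrassCurve.IsIntegral A (E K) :=
    ⟨⟨E A, (c1_map (algebraMap A K)).symm⟩⟩
  have h27 : (IsDiscreteValuationRing.maximalIdeal A).valuation K (E K).Δ = 1 := by
    have h1 : (E K).Δ = algebraMap A K (-27) := by
      rw [c1_Δ, map_neg, map_ofNat]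
    rw [h1, HeightOneSpectrum.valuation_eq_one_iff_notMem]
    intro h2
    have h4 : IsUnit (-27 : A) := by
      have : (-27 : A) = -(3 ^ 3) := by norm_num
      rw [this]
      exact (h3.pow 3).neg
    have h5 : (-27 : A) ∈ IsLocalRing.maximalIdeal A := h2
    exact (IsLocalRing.mem_maximalIdeal _).1 h5 h4
  have h1 := hT.val_Δ_maximal
  have hinv : T⁻¹ • (T • E K) = E K := inv_smul_smul T (E K)
  have h2 := h1.2 (j := T⁻¹) (by show WeierstrassCurve.IsIntegral A (T⁻¹ • (T • E K)); rw [hinv]; exact hE)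
  have hle : ((WeierstrassCurve.valuation_Δ_aux A ((1 : WeierstrassCurve.VariableChange K) •
      (T • E K)) : { v : WithZero (Multiplicative ℤ) // v ≤ 1 }) : WithZero (Multiplicative ℤ)) =
      (IsDiscreteValuationRing.maximalIdeal A).valuation K (T • E K).Δ := by
    rw [one_smul]
    exact WeierstrassCurve.valuation_Δ_aux_eq_of_isIntegral A _
  have hinvv : ((WeierstrassCurve.valuation_Δ_aux A (T⁻¹ • (T • E K)) :
      { v : WithZero (Multiplicative ℤ) // v ≤ 1 }) : WithZero (Multiplicative ℤ)) = 1 := by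
    rw [hinv, WeierstrassCurve.valuation_Δ_aux_eq_of_isIntegral A _, h27]
  have hle1 : (WeierstrassCurve.valuation_Δ_aux A ((1 : WeierstrassCurve.VariableChange K) •
      (T • E K))) ≤ (WeierstrassCurve.valuation_Δ_aux A (T⁻¹ • (T • E K))) := by
    rw [← Subtype.coe_le_coe, hinvv]
    exact (WeierstrassCurve.valuation_Δ_aux A ((1 : WeierstrassCurve.VariableChange K) •
      (T • E K))).2
  have h3' := h2 hle1
  rw [← Subtype.coe_le_coe, hle] at h3'
  have hval : (IsDiscreteValuationRing.maximalIdeal A).valuation K (T • E K).Δ = 1 := by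
    refine le_antisymm ?_ ?_
    · rw [← hle]
      exact (WeierstrassCurve.valuation_Δ_aux A ((1 : WeierstrassCurve.VariableChange K) •
        (T • E K))).2
    · rw [← hinvv]
      exact h3'
  refine ⟨hval, ?_⟩
  rw [WeierstrassCurve.variableChange_Δ, map_mul, h27, mul_one, map_pow,
    Units.val_inv_eq_inv_val, map_inv₀] at hval
  have h6 : ((IsDiscreteValuationRing.maximalIdeal A).valuation K (T.u : K))⁻¹ = 1 :=
    (pow_eq_one_iff_of_nonneg zero_le (n := 12) (by norm_num)).1 hval
  exact inv_eq_one.1 h6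

/-- Over a discrete valuation ring in which `3` is a unit, the local polynomial of `y² + y = x³` is
`1 - a T + q T²` where `a = q + 1 - #E(k)` for every finite field `k` with `q` elements. -/
theorem localPoly_good (A : Type) [CommRing A] [IsDomain A] [IsDiscreteValuationRing A]
    (K : Type) [Field K] [Algebra A K] [IsFractionRing A K]
    [Finite (IsLocalRing.ResidueField A)] (h3 : IsUnit (3 : A))
    (k : Type) [Field k] [Finite k] (hk : Nat.card k = Nat.card (IsLocalRing.ResidueField A)) :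
    (E K).localPolynomial A = 1 - C ((Nat.card k : ℤ) + 1 - Nat.card (E k).toAffine.Point) * X
      + C (Nat.card k : ℤ) * X ^ 2 := by
  obtain ⟨T, hT, hTm⟩ : ∃ T : WeierstrassCurve.VariableChange K,
      (E K).minimal A = T • E K ∧ WeierstrassCurve.IsMinimal A (T • E K) :=
    ⟨_, rfl, ((E K).exists_isMinimal A).choose_spec⟩
  obtain ⟨hΔ, hu⟩ := c1_good A K h3 T hTm
  have hgood : WeierstrassCurve.HasGoodReduction A ((E K).minimal A) :=
    ⟨by rw [hT]; exact hΔ⟩
  have hI : T • E K = (WeierstrassCurve.integralModel A ((E K).minimal A)).map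
      (algebraMap A K) := by
    rw [← hT]
    exact (WeierstrassCurve.baseChange_integralModel_eq A ((E K).minimal A)).symm
  obtain ⟨D, hD⟩ := c1_lift A K h3 T _ hI hu
  have hred : ((E K).minimal A).reduction A =
      (D.map (IsLocalRing.residue A)) • E (IsLocalRing.ResidueField A) := by
    rw [WeierstrassCurve.reduction, ← hD, ← WeierstrassCurve.map_variableChange, c1_map]
  have h3κ : (3 : IsLocalRing.ResidueField A) ≠ 0 := by
    have : IsUnit (3 : IsLocalRing.ResidueField A) := by
      have h := h3.map (IsLocalRing.residue A)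
      rwa [map_ofNat] at h
    exact this.ne_zero
  have hΔκ : (E (IsLocalRing.ResidueField A)).Δ ≠ 0 := by
    rw [c1_Δ]
    have : (-27 : IsLocalRing.ResidueField A) = -(3 ^ 3) := by norm_num
    rw [this]
    exact neg_ne_zero.2 (pow_ne_zero _ h3κ)
  have hcard1 : Nat.card (((E K).minimal A).reduction A).toAffine.Point =
      Nat.card (E (IsLocalRing.ResidueField A)).toAffine.Point := by
    rw [hred]
    exact c1_card_variableChange _ _ hΔκ
  have hcard2 : Nat.card (E (IsLocalRing.ResidueField A)).toAffine.Point =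
      Nat.card (E k).toAffine.Point := by
    have : Fintype k := Fintype.ofFinite k
    have : Fintype (IsLocalRing.ResidueField A) := Fintype.ofFinite _
    have h : Fintype.card (IsLocalRing.ResidueField A) = Fintype.card k := by
      rw [← Nat.card_eq_fintype_card, ← Nat.card_eq_fintype_card, hk]
    have φ := FiniteField.ringEquivOfCardEq h
    rw [c1_card_map φ, c1_map]
  unfold WeierstrassCurve.localPolynomial
  rw [if_pos hgood, hcard1, hcard2, hk]

end CM27
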