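import Pool.Agent.MP_ae0bd0_nt.CM.A1

set_option autoImplicit false

open scoped ComplexConjugate

namespace CM27

/-! ## [CM-A2] multiplicativity of `psi` (file A2.lean; uses A1) -/

theorem a2_primary_one : Primary (1 : Eis) := ⟨0, by simp⟩

theorem psi_one : psi 1 = 1 := by
  have h : primSet 1 = {1} := by
    ext a
    rw [mem_primSet, Finset.mem_singleton]
    constructor
    · rintro ⟨h1, h2⟩
      have hu : IsUnit a := (eis_isUnit_iff a).2 (by rw [h1]; norm_num)
      exact primary_unique 1 a a2_primary_one hu (by rw [mul_one]; exact h2)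
    · rintro rfl
      exact ⟨by simp, a2_primary_one⟩
  rw [psi, h, Finset.sum_singleton, map_one]

theorem a2_cast_norm (a : Eis) : ((a.norm : ℤ) : Eis) = a * star a := by
  have h := QuadraticAlgebra.algebraMap_norm_eq_mul_star a
  rw [← h]
  rfl

/-- coprime norms -/
theorem a2_isCoprime {a b : Eis} (h : IsCoprime (a.norm : ℤ) (b.norm : ℤ)) : IsCoprime a b := by
  obtain ⟨u, v, huv⟩ := h
  refine ⟨(u : Eis) * star a, (v : Eis) * star b, ?_⟩
  have h1 : ((u * a.norm + v * b.norm : ℤ) : Eis) = ((1 : ℤ) : Eis) := by rw [huv]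
  push_cast at h1
  rw [a2_cast_norm, a2_cast_norm] at h1
  rw [← h1]
  ring

theorem a2_norm_zero {a : Eis} (h : a.norm = 0) : a = 0 := by
  have h1 : Complex.normSq (emb a) = 0 := by rw [normSq_emb, h]; simp
  rw [Complex.normSq_eq_zero] at h1
  exact emb_injective (by rw [h1, map_zero])

theorem a2_not_primary_zero : ¬ Primary (0 : Eis) := by
  rw [primary_iff]
  simp

theorem a2_norm_ne_zero {a : Eis} (h : Primary a) : a.norm ≠ 0 := by
  intro h0
  rw [a2_norm_zero h0] at h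
  exact a2_not_primary_zero h

theorem a2_norm_dvd {a b : Eis} (h : a ∣ b) : (a.norm : ℤ) ∣ b.norm := by
  obtain ⟨c, rfl⟩ := h
  rw [map_mul]
  exact dvd_mul_right _ _

/-- a divisor of the same norm is equal, for primary elements -/
theorem a2_eq_of_dvd {a a' : Eis} (ha : Primary a) (ha' : Primary a') (h : a ∣ a')
    (hn : a.norm = a'.norm) : a' = a := by
  obtain ⟨c, hc⟩ := h
  have h1 : a.norm * 1 = a.norm * c.norm := by rw [mul_one, ← map_mul, ← hc]; exact hn
  have h2 : c.norm = 1 := (mul_left_cancel₀ (a2_norm_ne_zero ha) h1).symm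
  have h3 : c = 1 := primary_unique a c ha ((eis_isUnit_iff c).2 h2) (by
    rw [mul_comm, ← hc]; exact ha')
  rw [hc, h3, mul_one]

theorem a2_norm_mod_three {a : Eis} (h : Primary a) : a.norm % 3 = 1 := by
  rw [primary_iff] at h
  obtain ⟨h1, h2⟩ := h
  obtain ⟨x, hx⟩ : ∃ x, a.re = 3 * x + 1 := ⟨a.re / 3, by omega⟩
  obtain ⟨y, hy⟩ : ∃ y, a.im = 3 * y := ⟨a.im / 3, by omega⟩
  rw [norm_eq, hx, hy]
  have : (3 * x + 1) ^ 2 - (3 * x + 1) * (3 * y) + (3 * y) ^ 2 =
      3 * (3 * x ^ 2 + 2 * x - (3 * x + 1) * y + 3 * y ^ 2) + 1 := by ring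
  rw [this]
  omega

theorem a2_gcd {c : Eis} (m : ℤ) : ∃ a x y : Eis, a ∣ c ∧ a ∣ (m : Eis) ∧ a = x * c + y * (m : Eis) := by
  haveI := eis_isDomain
  haveI := eis_pid
  obtain ⟨a, ha⟩ := (IsPrincipalIdealRing.principal (Ideal.span {c, (m : Eis)})).principal
  have hc : c ∈ Ideal.span {c, (m : Eis)} := Ideal.subset_span (by simp)
  have hm : (m : Eis) ∈ Ideal.span {c, (m : Eis)} := Ideal.subset_span (by simp)
  have haa : a ∈ Ideal.span {c, (m : Eis)} := by
    rw [ha]; exact Submodule.mem_span_singleton_self a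
  rw [ha] at hc hm
  rw [Ideal.mem_span_pair] at haa
  obtain ⟨x, y, hxy⟩ := haa
  exact ⟨a, x, y, Ideal.mem_span_singleton.1 hc, Ideal.mem_span_singleton.1 hm, hxy.symm⟩

/-- the surjectivity -/
theorem a2_split {c : Eis} (hc : Primary c) {m n : ℕ} (h : m.Coprime n)
    (hn : c.norm = ((m * n : ℕ) : ℤ)) :
    ∃ a b : Eis, Primary a ∧ Primary b ∧ a.norm = m ∧ b.norm = n ∧ a * b = c := by
  haveI := eis_isDomain
  obtain ⟨a, x, y, ha1, ha2, ha3⟩ := a2_gcd (c := c) (m : ℤ)
  obtain ⟨b, x', y', hb1, hb2, hb3⟩ := a2_gcd (c := c) (n : ℤ)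
  have hcop : IsCoprime (m : ℤ) (n : ℤ) := Nat.isCoprime_iff_coprime.2 h
  obtain ⟨u, v, huv⟩ := hcop
  have hmn : ((m * n : ℕ) : ℤ) % 3 = 1 := by rw [← hn]; exact a2_norm_mod_three hc
  have hmn0 : 0 < m * n := by
    rcases Nat.eq_zero_or_pos (m * n) with h0 | h0
    · rw [h0] at hmn; simp at hmn
    · exact h0
  have hm0 : 0 < m := Nat.pos_of_ne_zero (fun h0 => by subst h0; simp at hmn0)
  have hn0 : 0 < n := Nat.pos_of_ne_zero (fun h0 => by subst h0; simp at hmn0)
  -- `a b ∣ c`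
  have habc : a * b ∣ c := by
    have h1 : a * b ∣ (m : Eis) * c := by
      have := mul_dvd_mul ha2 hb1
      push_cast at this
      exact this
    have h2 : a * b ∣ c * (n : Eis) := by
      have := mul_dvd_mul ha1 hb2
      push_cast at this
      exact this
    have h3 : c = (u : Eis) * ((m : Eis) * c) + (v : Eis) * (c * (n : Eis)) := by
      have h4 : ((u * m + v * n : ℤ) : Eis) = ((1 : ℤ) : Eis) := by rw [huv]
      push_cast at h4
      calc c = ((u : Eis) * (m : Eis) + (v : Eis) * (n : Eis)) * c := by rw [h4, one_mul]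
        _ = _ := by ring
    rw [h3]
    exact dvd_add (Dvd.dvd.mul_left h1 _) (Dvd.dvd.mul_left h2 _)
  have hcab : c ∣ a * b := by
    have h1 : ((m : Eis) * (n : Eis)) = c * star c := by
      rw [← a2_cast_norm, hn]
      push_cast
      ring
    have h2 : a * b = c * (x * x' * c + x * y' * (n : Eis) + y * x' * (m : Eis) + y * y' * star c) := by
      rw [ha3, hb3]
      push_cast
      linear_combination (y * y') * h1
    exact ⟨_, h2⟩
  obtain ⟨e, he⟩ := associated_of_dvd_dvd habc hcab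
  -- norms
  have hnorm : a.norm * b.norm = (m : ℤ) * n := by
    have h1 : (e : Eis).norm = 1 := (eis_isUnit_iff _).1 e.isUnit
    have h2 : (a * b * (e : Eis)).norm = c.norm := by rw [he]
    rw [map_mul, map_mul, h1, mul_one, hn] at h2
    rw [h2]; push_cast; ring
  have hna : (a.norm : ℤ) ∣ (m : ℤ) ^ 2 := by
    have h1 := a2_norm_dvd ha2
    rwa [QuadraticAlgebra.norm_intCast] at h1
  have hnb : (b.norm : ℤ) ∣ (n : ℤ) ^ 2 := by
    have h1 := a2_norm_dvd hb2
    rwa [QuadraticAlgebra.norm_intCast] at h1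
  have hcop' : IsCoprime (m : ℤ) (n : ℤ) := Nat.isCoprime_iff_coprime.2 h
  have hna' : (a.norm : ℤ) ∣ m := by
    have h1 : IsCoprime (a.norm : ℤ) (n : ℤ) := (hcop'.pow_left (m := 2)).of_isCoprime_of_dvd_left hna
    exact h1.dvd_of_dvd_mul_right (Dvd.intro _ hnorm)
  have hnb' : (b.norm : ℤ) ∣ n := by
    have h1 : IsCoprime (b.norm : ℤ) (m : ℤ) :=
      (hcop'.symm.pow_left (m := 2)).of_isCoprime_of_dvd_left hnb
    exact h1.dvd_of_dvd_mul_left (Dvd.intro_left _ hnorm)
  have hm0' : (0 : ℤ) < m := by exact_mod_cast hm0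
  have hn0' : (0 : ℤ) < n := by exact_mod_cast hn0
  have hale := Int.le_of_dvd hm0' hna'
  have hble := Int.le_of_dvd hn0' hnb'
  have ha0 := norm_nonneg' a
  have hb0 := norm_nonneg' b
  have haeq : a.norm = m := by
    by_contra hne
    have hlt : a.norm < m := lt_of_le_of_ne hale hne
    nlinarith
  have hbeq : b.norm = n := by
    by_contra hne
    have hlt : b.norm < n := lt_of_le_of_ne hble hne
    nlinarith
  -- primary associates
  have h3m : ¬ (3 : ℤ) ∣ a.norm := by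
    rw [haeq]
    rintro ⟨k, hk⟩
    have : ((m * n : ℕ) : ℤ) = 3 * (k * n) := by push_cast; rw [hk]; ring
    rw [this] at hmn
    omega
  have h3n : ¬ (3 : ℤ) ∣ b.norm := by
    rw [hbeq]
    rintro ⟨k, hk⟩
    have : ((m * n : ℕ) : ℤ) = 3 * (m * k) := by push_cast; rw [hk]; ring
    rw [this] at hmn
    omega
  obtain ⟨p, hp, hpa⟩ := exists_primary a h3m
  obtain ⟨q, hq, hqb⟩ := exists_primary b h3n
  obtain ⟨pu, rfl⟩ := hp
  obtain ⟨qu, rfl⟩ := hq
  refine ⟨pu * a, qu * b, hpa, hqb, ?_, ?_, ?_⟩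
  · rw [map_mul, (eis_isUnit_iff _).1 pu.isUnit, one_mul, haeq]
  · rw [map_mul, (eis_isUnit_iff _).1 qu.isUnit, one_mul, hbeq]
  · have h1 : ((pu : Eis) * a) * ((qu : Eis) * b) = ((pu * qu * e⁻¹ : Eisˣ) : Eis) * c := by
      rw [← he]
      push_cast
      have h2 : ((e⁻¹ : Eisˣ) : Eis) * (e : Eis) = 1 := by simp
      linear_combination (-(pu : Eis) * qu * a * b) * h2
    have h2 : Primary (((pu * qu * e⁻¹ : Eisˣ) : Eis) * c) := by
      rw [← h1]; exact hpa.mul hqb
    have h3 := primary_unique c _ hc (Units.isUnit _) h2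
    rw [h1, h3, one_mul]

theorem psi_mul {m n : ℕ} (h : m.Coprime n) : psi (m * n) = psi m * psi n := by
  haveI := eis_isDomain
  rw [psi, psi, psi, Finset.sum_mul_sum, ← Finset.sum_product']
  symm
  refine Finset.sum_nbij (fun p => p.1 * p.2) ?_ ?_ ?_ ?_
  · rintro ⟨a, b⟩ hab
    rw [Finset.mem_product, mem_primSet, mem_primSet] at hab
    obtain ⟨⟨h1, h2⟩, h3, h4⟩ := hab
    simp only at h1 h2 h3 h4
    rw [mem_primSet]
    refine ⟨?_, h2.mul h4⟩
    rw [map_mul, h1, h3]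
    push_cast
    ring
  · rintro ⟨a, b⟩ hab ⟨a', b'⟩ hab' heq
    simp only [Finset.coe_product, Set.mem_prod, Finset.mem_coe, mem_primSet] at hab hab' heq
    obtain ⟨⟨h1, h2⟩, h3, h4⟩ := hab
    obtain ⟨⟨h1', h2'⟩, h3', h4'⟩ := hab'
    have hcop : IsCoprime (m : ℤ) (n : ℤ) := Nat.isCoprime_iff_coprime.2 h
    have hab : IsCoprime a b' := a2_isCoprime (by rw [h1, h3']; exact hcop)
    have h5 : a ∣ a' := hab.dvd_of_dvd_mul_right (by rw [← heq]; exact dvd_mul_right _ _)
    have h6 : a' = a := a2_eq_of_dvd h2 h2' h5 (by rw [h1, h1'])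
    subst h6
    have ha0 : a' ≠ 0 := by
      rintro rfl
      exact a2_not_primary_zero h2
    have h7 : b = b' := mul_left_cancel₀ ha0 heq
    rw [h7]
  · intro c hc
    rw [Finset.mem_coe, mem_primSet] at hc
    obtain ⟨a, b, h1, h2, h3, h4, h5⟩ := a2_split hc.2 h hc.1
    refine ⟨(a, b), ?_, h5⟩
    rw [Finset.mem_coe, Finset.mem_product, mem_primSet, mem_primSet]
    exact ⟨⟨h3, h1⟩, h4, h2⟩
  · rintro ⟨a, b⟩ _
    simp

end CM27
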