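import Pool.Agent.MP_ae0bd0_nt.CM.F2
import Pool.Agent.MP_ae0bd0_nt.CM.A2

set_option autoImplicit false

open ArithmeticFunction Filter IsDedekindDomain NumberField

namespace CM27

/-! ## [CM-F3] the `L`-function of `E` over `F` is the product of the twisted `L`-functions -/

theorem psi_zero : psi 0 = 0 := by
  rw [psi]
  apply Finset.sum_eq_zero
  intro a ha
  rw [mem_primSet] at ha
  have h1 : ‖emb a‖ ^ 2 = (a.norm : ℝ) := norm_emb_sq a
  rw [ha.1] at h1
  norm_num at h1
  exact h1

theorem pval_mul {m : ℕ} (χ : DirichletCharacter ℂ m) (a b : ℕ) :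
    pval χ (a * b) = pval χ a * pval χ b := by
  rw [pval, pval, pval]
  push_cast
  rw [map_mul]

theorem pval_one {m : ℕ} (χ : DirichletCharacter ℂ m) : pval χ 1 = 1 := by
  rw [pval]
  push_cast
  rw [map_one]

theorem pval_pow {m : ℕ} (χ : DirichletCharacter ℂ m) (a k : ℕ) :
    pval χ (a ^ k) = pval χ a ^ k := by
  rw [pval, pval]
  push_cast
  rw [map_pow]

/-- The twisted coefficients as an arithmetic function. -/
noncomputable def tw {m : ℕ} (χ : DirichletCharacter ℂ m) : ArithmeticFunction ℂ :=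
  ⟨fun n => pval χ n * psi n, by rw [psi_zero, mul_zero]⟩

theorem tw_apply {m : ℕ} (χ : DirichletCharacter ℂ m) (n : ℕ) : tw χ n = pval χ n * psi n := rfl

theorem isMultiplicative_tw {m : ℕ} (χ : DirichletCharacter ℂ m) : (tw χ).IsMultiplicative := by
  constructor
  · rw [tw_apply, pval_one, psi_one, one_mul]
  · intro a b hab
    rw [tw_apply, tw_apply, tw_apply, pval_mul, psi_mul hab]
    ring

/-- geometric series -/
theorem geom_mul (x : ℂ) :
    PowerSeries.mk (fun k => x ^ k) * (1 - PowerSeries.C x * PowerSeries.X) = 1 := by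
  ext k
  rw [mul_sub, mul_one, ← mul_assoc, mul_comm _ (PowerSeries.C x), mul_assoc, map_sub,
    PowerSeries.coeff_C_mul, PowerSeries.coeff_one]
  cases k with
  | zero => simp
  | succ k =>
    rw [PowerSeries.coeff_succ_mul_X, PowerSeries.coeff_mk, PowerSeries.coeff_mk]
    simp [pow_succ]
    ring

theorem loc_tw {m : ℕ} (χ : DirichletCharacter ℂ m) {p : ℕ} (α β : ℂ)
    (h : ∀ k, psi (p ^ k) = ∑ i ∈ Finset.range (k + 1), α ^ i * β ^ (k - i)) :
    loc p (tw χ) * ((1 - PowerSeries.C (pval χ p) * (PowerSeries.C α * PowerSeries.X)) *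
      (1 - PowerSeries.C (pval χ p) * (PowerSeries.C β * PowerSeries.X))) = 1 := by
  have h1 : loc p (tw χ) = PowerSeries.mk (fun k => (pval χ p * α) ^ k) *
      PowerSeries.mk (fun k => (pval χ p * β) ^ k) := by
    ext k
    rw [coeff_loc, tw_apply, pval_pow, h k, PowerSeries.coeff_mul,
      Finset.Nat.sum_antidiagonal_eq_sum_range_succ_mk, Finset.mul_sum]
    refine Finset.sum_congr rfl fun i hi => ?_
    rw [Finset.mem_range] at hi
    rw [PowerSeries.coeff_mk, PowerSeries.coeff_mk, mul_pow, mul_pow]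
    have : k = i + (k - i) := by omega
    conv_lhs => rw [this, pow_add, Nat.add_sub_cancel_left]
    ring
  have h2 := geom_mul (pval χ p * α)
  have h3 := geom_mul (pval χ p * β)
  rw [map_mul] at h2 h3
  rw [h1]
  linear_combination (PowerSeries.mk (fun k => (pval χ p * β) ^ k)) *
    (1 - PowerSeries.C (pval χ p) * PowerSeries.C β * PowerSeries.X) * h2 + h3

theorem loc_tw_three {m : ℕ} (χ : DirichletCharacter ℂ m) : loc 3 (tw χ) = 1 := by
  ext k
  rw [coeff_loc, tw_apply, PowerSeries.coeff_one]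
  by_cases hk : k = 0
  · rw [hk, pow_zero, pval_one, psi_one, if_pos rfl, one_mul]
  · rw [psi_three_pow k hk, mul_zero, if_neg hk]

/-- substitution in the polynomial identity -/
theorem prod_subst {ι : Type*} (s : Finset ι) (a : ι → ℂ) (f g : ℕ)
    (h : ∀ u : ℂ, ∏ i ∈ s, (1 - a i * u) = (1 - u ^ f) ^ g) (Y : PowerSeries ℂ) :
    ∏ i ∈ s, (1 - PowerSeries.C (a i) * Y) = (1 - Y ^ f) ^ g := by
  have h1 : ∏ i ∈ s, (1 - Polynomial.C (a i) * Polynomial.X) =
      (1 - (Polynomial.X : Polynomial ℂ) ^ f) ^ g := by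
    apply Polynomial.funext
    intro u
    rw [Polynomial.eval_prod]
    simpa using h u
  have h2 := congrArg (Polynomial.eval₂RingHom (PowerSeries.C) Y) h1
  rw [map_prod, map_pow, map_sub, map_one, map_pow] at h2
  simpa using h2

section
variable (K : Type) [Field K] [NumberField K]

/-- the local factor at a place of good reduction -/
theorem loc_fv (v : HeightOneSpectrum (𝓞 K)) {p f : ℕ} (hp : p.Prime) (hf : 0 < f)
    (h3 : (3 : 𝓞 K) ∉ v.asIdeal) (hq : Nat.card (𝓞 K ⧸ v.asIdeal) = p ^ f) (α β : ℂ)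
    (hαβ : α * β = p)
    (h : ∀ (F : Type) [Field F] [Finite F], Nat.card F = p ^ f →
      (Nat.card (E F).toAffine.Point : ℂ) = p ^ f + 1 - (α ^ f + β ^ f)) :
    PowerSeries.map (Int.castRingHom ℂ) (loc p (fv K v)) *
      ((1 - (PowerSeries.C α * PowerSeries.X) ^ f) * (1 - (PowerSeries.C β * PowerSeries.X) ^ f))
      = 1 := by
  obtain ⟨hc, hfin⟩ := card_residue K v
  set k := IsLocalRing.ResidueField (v.adicCompletionIntegers K) with hk
  have hkq : Nat.card k = p ^ f := by rw [hc, hq]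
  set a : ℤ := (Nat.card k : ℤ) + 1 - Nat.card (E k).toAffine.Point with ha
  have h1 : fv K v = ofPowerSeries (p ^ f) (PowerSeries.invOfUnit
        ((1 - Polynomial.C a * Polynomial.X + Polynomial.C (Nat.card k : ℤ) * Polynomial.X ^ 2 :
          Polynomial ℤ) : PowerSeries ℤ) 1) := by
    rw [fv, eulerFactor_good K v h3 k hc, ← ha, hkq]
  have h2 : ((1 - Polynomial.C a * Polynomial.X + Polynomial.C (Nat.card k : ℤ) * Polynomial.X ^ 2 :
          Polynomial ℤ) : PowerSeries ℤ) =
      1 - PowerSeries.C a * PowerSeries.X + PowerSeries.C (Nat.card k : ℤ) * PowerSeries.X ^ 2 := by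
    rw [Polynomial.coe_add, Polynomial.coe_sub, Polynomial.coe_mul, Polynomial.coe_mul,
      Polynomial.coe_pow, Polynomial.coe_C, Polynomial.coe_C, Polynomial.coe_X, Polynomial.coe_one]
  rw [h2] at h1
  have h3 : fv K v * ofPowerSeries (p ^ f) (1 - PowerSeries.C a * PowerSeries.X +
      PowerSeries.C (Nat.card k : ℤ) * PowerSeries.X ^ 2) = 1 := by
    rw [h1, ← map_mul, PowerSeries.invOfUnit_mul, map_one]
    simp
  have h4 := congrArg (loc p) h3
  rw [loc_mul hp, loc_one hp, loc_quad hp hf] at h4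
  have h5 := congrArg (PowerSeries.map (Int.castRingHom ℂ)) h4
  rw [map_mul, map_one] at h5
  have h6 : (a : ℂ) = α ^ f + β ^ f := by
    rw [ha]
    push_cast
    rw [h k hkq, hkq]
    push_cast
    ring
  have h7 : ((Nat.card k : ℤ) : ℂ) = α ^ f * β ^ f := by
    rw [hkq, ← mul_pow, hαβ]
    push_cast
    rfl
  have h8 : PowerSeries.map (Int.castRingHom ℂ) (1 - PowerSeries.C a * PowerSeries.X ^ f +
      PowerSeries.C (Nat.card k : ℤ) * (PowerSeries.X ^ f * PowerSeries.X ^ f)) =
      ((1 - (PowerSeries.C α * PowerSeries.X) ^ f) *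
        (1 - (PowerSeries.C β * PowerSeries.X) ^ f)) := by
    simp only [map_add, map_sub, map_mul, map_one, PowerSeries.map_C, map_pow, PowerSeries.map_X,
      Int.coe_castRingHom, h6, h7, mul_pow]
    ring
  rw [h8] at h5
  exact h5

end

end CM27
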