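import Pool.Agent.MP_ae0bd0_nt.CM.RDefs

set_option autoImplicit false

open Polynomial NumberField IsDedekindDomain
open scoped Classical

namespace CM27

/-! ## [CM-R1] coordinates, norm, halving (file R1.lean) -/

theorem r1_mk_eq_trip {K : Type} [Field K] (a b c : K) :
    AdjoinRoot.mk (cubPoly K) (C a + C b * X + C c * X ^ 2) = trip a b c := by
  simp only [trip, pr, map_add, map_mul, map_pow, AdjoinRoot.mk_C, AdjoinRoot.mk_X]
  rfl

theorem trip_surj {K : Type} [Field K] (z : R K) : ∃ a b c : K, z = trip a b c := by
  obtain ⟨p, rfl⟩ := AdjoinRoot.mk_surjective z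
  have hm := cubPoly_monic K
  set r := p %ₘ cubPoly K with hr
  have h1 : AdjoinRoot.mk (cubPoly K) p = AdjoinRoot.mk (cubPoly K) r := by
    rw [AdjoinRoot.mk_eq_mk]
    refine ⟨p /ₘ cubPoly K, ?_⟩
    have := Polynomial.modByMonic_add_div p (cubPoly K)
    rw [hr]
    linear_combination -this
  have hdeg : r.natDegree < 3 := by
    have := Polynomial.natDegree_modByMonic_lt p hm (by
      intro h
      have h2 := cubPoly_natDegree K
      rw [h, natDegree_one] at h2
      norm_num at h2)
    rwa [cubPoly_natDegree] at this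
  have h2 : r = C (r.coeff 0) + C (r.coeff 1) * X + C (r.coeff 2) * X ^ 2 := by
    conv_lhs => rw [Polynomial.as_sum_range' r 3 hdeg]
    simp only [Finset.sum_range_succ, Finset.sum_range_zero, zero_add,
      ← Polynomial.C_mul_X_pow_eq_monomial, pow_zero, mul_one, pow_one]
  refine ⟨r.coeff 0, r.coeff 1, r.coeff 2, ?_⟩
  rw [h1, ← r1_mk_eq_trip, ← h2]

theorem trip_inj {K : Type} [Field K] {a b c a' b' c' : K} (h : trip a b c = trip a' b' c') :
    a = a' ∧ b = b' ∧ c = c' := by
  have h1 : AdjoinRoot.mk (cubPoly K) (C (a - a') + C (b - b') * X + C (c - c') * X ^ 2) = 0 := by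
    rw [r1_mk_eq_trip]
    have : trip (a - a') (b - b') (c - c') = trip a b c - trip a' b' c' := by
      simp only [trip, map_sub]; ring
    rw [this, h, sub_self]
  rw [AdjoinRoot.mk_eq_zero] at h1
  have h2 : C (a - a') + C (b - b') * X + C (c - c') * X ^ 2 = 0 := by
    apply Polynomial.eq_zero_of_dvd_of_degree_lt h1
    rw [Polynomial.degree_eq_natDegree (cubPoly_monic K).ne_zero, cubPoly_natDegree]
    refine lt_of_le_of_lt ?_ (show ((2 : ℕ) : WithBot ℕ) < ((3 : ℕ) : WithBot ℕ) by
      exact_mod_cast (by norm_num : (2 : ℕ) < 3))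
    compute_degree!
  refine ⟨?_, ?_, ?_⟩
  · have := congrArg (fun q => Polynomial.coeff q 0) h2
    simp at this
    exact sub_eq_zero.1 this
  · have := congrArg (fun q => Polynomial.coeff q 1) h2
    simp only [Polynomial.coeff_add, Polynomial.coeff_C_mul, Polynomial.coeff_X_pow,
      Polynomial.coeff_X, Polynomial.coeff_C, Polynomial.coeff_zero] at this
    norm_num at this
    exact sub_eq_zero.1 this
  · have := congrArg (fun q => Polynomial.coeff q 2) h2
    simp only [Polynomial.coeff_add, Polynomial.coeff_C_mul, Polynomial.coeff_X_pow,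
      Polynomial.coeff_X, Polynomial.coeff_C, Polynomial.coeff_zero] at this
    norm_num at this
    exact sub_eq_zero.1 this

theorem r1_trip_mul {K : Type} [Field K] (a b c a' b' c' : K) :
    trip a b c * trip a' b' c' =
      trip (a * a' + 2 * (b * c' + c * b')) (a * b' + b * a' + 2 * (c * c'))
        (a * c' + b * b' + c * a') := by
  have h := pr_pow K
  simp only [trip, map_add, map_mul, map_ofNat]
  linear_combination ((algebraMap K (R K) b * algebraMap K (R K) c' +
    algebraMap K (R K) c * algebraMap K (R K) b') +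
    algebraMap K (R K) c * algebraMap K (R K) c' * pr K) * h

/-- The linear equivalence `K³ ≃ R K`. -/
noncomputable def r1_equiv (K : Type) [Field K] : (Fin 3 → K) ≃ₗ[K] R K :=
  LinearEquiv.ofBijective
    ({ toFun := fun v => trip (v 0) (v 1) (v 2)
       map_add' := fun v v' => by simp only [trip, Pi.add_apply, map_add]; ring
       map_smul' := fun k v => by
        simp only [trip, Pi.smul_apply, smul_eq_mul, map_mul, RingHom.id_apply,
          Algebra.smul_def]
        ring } : (Fin 3 → K) →ₗ[K] R K)
    ⟨fun v v' h => by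
      obtain ⟨h0, h1, h2⟩ := trip_inj h
      funext i
      fin_cases i
      · exact h0
      · exact h1
      · exact h2, fun z => by
      obtain ⟨a, b, c, rfl⟩ := trip_surj z
      exact ⟨![a, b, c], rfl⟩⟩

theorem r1_equiv_apply (K : Type) [Field K] (v : Fin 3 → K) :
    r1_equiv K v = trip (v 0) (v 1) (v 2) := rfl

theorem r1_equiv_symm (K : Type) [Field K] (a b c : K) :
    (r1_equiv K).symm (trip a b c) = ![a, b, c] := by
  rw [LinearEquiv.symm_apply_eq, r1_equiv_apply]
  rfl

/-- The basis `1, π, π²`. -/
noncomputable def r1_basis (K : Type) [Field K] : Module.Basis (Fin 3) K (R K) :=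
  Module.Basis.ofEquivFun (r1_equiv K).symm

theorem r1_basis_repr (K : Type) [Field K] (a b c : K) (i : Fin 3) :
    (r1_basis K).repr (trip a b c) i = (![a, b, c] : Fin 3 → K) i := by
  have : (r1_basis K).equivFun (trip a b c) = ![a, b, c] := by
    rw [r1_basis, Module.Basis.equivFun_ofEquivFun, r1_equiv_symm]
  rw [← this]
  rfl

theorem r1_basis_apply (K : Type) [Field K] (i : Fin 3) :
    (r1_basis K) i = trip ((Pi.single i 1 : Fin 3 → K) 0) ((Pi.single i 1 : Fin 3 → K) 1)
      ((Pi.single i 1 : Fin 3 → K) 2) := by
  rw [r1_basis, Module.Basis.coe_ofEquivFun]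
  rfl

theorem norm_trip {K : Type} [Field K] (a b c : K) :
    Algebra.norm K (trip a b c) = a ^ 3 + 2 * b ^ 3 + 4 * c ^ 3 - 6 * a * b * c := by
  rw [Algebra.norm_eq_matrix_det (r1_basis K), Matrix.det_fin_three]
  simp only [Algebra.leftMulMatrix_eq_repr_mul, r1_basis_apply, r1_trip_mul, r1_basis_repr]
  simp [Pi.single_apply]
  ring

theorem norm_mapR {K L : Type} [Field K] [Field L] (f : K →+* L) (z : R K) :
    Algebra.norm L (mapR f z) = f (Algebra.norm K z) := by
  obtain ⟨a, b, c, rfl⟩ := trip_surj z
  rw [mapR_trip, norm_trip, norm_trip]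
  simp only [map_sub, map_add, map_mul, map_pow, map_ofNat]

theorem r1_equation {K : Type} [Field K] {x y : K} (h : (E K).toAffine.Nonsingular x y) :
    y ^ 2 + y = x ^ 3 := by
  have h1 := h.1
  rw [WeierstrassCurve.Affine.equation_iff] at h1
  simpa [E] using h1

theorem norm_zOf {K : Type} [Field K] {x y : K} (h : (E K).toAffine.Nonsingular x y) :
    Algebra.norm K (zOf (.some x y h)) = (2 * y + 1) ^ 2 := by
  have h1 := r1_equation h
  show Algebra.norm K (trip 1 0 x) = _
  rw [norm_trip]
  linear_combination -4 * h1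

theorem zOf_ne_zero {K : Type} [Field K] [CharZero K] [Fact (Irreducible (cubPoly K))]
    (P : (E K).toAffine.Point) : zOf P ≠ 0 := by
  cases P with
  | zero => exact one_ne_zero
  | some x y h =>
    intro h0
    have h1 : trip (1 : K) 0 x = trip 0 0 0 := by
      have h2 : trip (0 : K) 0 0 = 0 := by simp [trip]
      rw [h2]; exact h0
    exact one_ne_zero (trip_inj h1).1

/-- If the class of `P` is trivial then `P` is divisible by `2`. -/
theorem exists_half {K : Type} [Field K] [CharZero K] [Fact (Irreducible (cubPoly K))]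
    (P : (E K).toAffine.Point) (s : R K) (h : zOf P = s ^ 2) : ∃ Q, P = 2 • Q := by
  cases P with
  | zero =>
    refine ⟨0, ?_⟩
    rw [smul_zero]
    rfl
  | some x y hP =>
    obtain ⟨a, b, c, rfl⟩ := trip_surj s
    have h1 : trip (1 : K) 0 x = trip a b c * trip a b c := by
      rw [← sq]; exact h
    rw [r1_trip_mul] at h1
    obtain ⟨e1, e2, e3⟩ := trip_inj h1
    have ha : a ≠ 0 := by
      rintro rfl
      have hc : c = 0 := by
        have : c ^ 2 = 0 := by linear_combination -e2 / 2
        exact pow_eq_zero_iff (two_ne_zero) |>.1 this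
      rw [hc] at e1
      simp at e1
    have hb : b = -c ^ 2 / a := by
      field_simp
      linear_combination -e2 / 2
    have hac : a ^ 3 - 4 * c ^ 3 = a := by
      have : a * (a * a + 2 * (b * c + c * b)) = a := by rw [← e1, mul_one]
      rw [hb] at this
      field_simp at this
      linear_combination this
    have hx : x = c ^ 4 / a ^ 2 + 2 * a * c := by
      rw [e3, hb]; field_simp; ring
    set u : K := -c / a with hu
    set v : K := (1 / a - 1) / 2 with hv
    have h2v : 2 * v + 1 = 1 / a := by rw [hv]; ring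
    have hQe : v ^ 2 + v = u ^ 3 := by
      have h3 : (2 * v + 1) ^ 2 = 4 * u ^ 3 + 1 := by
        rw [h2v, hu]
        field_simp
        linear_combination -hac
      linear_combination h3 / 4
    have hQ : (E K).toAffine.Nonsingular u v := by
      rw [WeierstrassCurve.Affine.nonsingular_iff]
      refine ⟨?_, Or.inr ?_⟩
      · rw [WeierstrassCurve.Affine.equation_iff]
        simpa [E] using hQe
      · simp only [E]
        intro h4
        have h5 : 2 * v + 1 = 0 := by linear_combination h4
        rw [h2v] at h5
        exact (one_div_ne_zero ha) h5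
    have hy : v ≠ (E K).toAffine.negY u v := by
      simp only [WeierstrassCurve.Affine.negY, E]
      intro h4
      have h5 : 2 * v + 1 = 0 := by linear_combination h4
      rw [h2v] at h5
      exact (one_div_ne_zero ha) h5
    have hdbl : (WeierstrassCurve.Affine.Point.some u v hQ) +
        (WeierstrassCurve.Affine.Point.some u v hQ) = _ :=
      WeierstrassCurve.Affine.Point.add_self_of_Y_ne hy
    have hX : (E K).toAffine.addX u u ((E K).toAffine.slope u u v v) = x := by
      rw [WeierstrassCurve.Affine.slope_of_Y_ne rfl hy]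
      simp only [WeierstrassCurve.Affine.addX, WeierstrassCurve.Affine.negY, E]
      have h6 : v - (-v - 0 * u - 1) = 1 / a := by linear_combination h2v
      rw [h6, hx, hu]
      field_simp
      linear_combination (-2 : K) * c * hac
    set T := (E K).toAffine.slope u u v v with hT
    have hns := WeierstrassCurve.Affine.nonsingular_add hQ hQ (fun hxy => hy hxy.right)
    have hYeq := WeierstrassCurve.Affine.Y_eq_of_X_eq hP.1 hns.1 hX.symm
    rcases hYeq with h7 | h7
    · refine ⟨.some u v hQ, ?_⟩
      rw [two_smul, hdbl]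
      simp only [WeierstrassCurve.Affine.Point.some.injEq]
      exact ⟨hX.symm, h7⟩
    · refine ⟨-.some u v hQ, ?_⟩
      rw [smul_neg, two_smul, hdbl, WeierstrassCurve.Affine.Point.neg_some]
      simp only [WeierstrassCurve.Affine.Point.some.injEq]
      exact ⟨hX.symm, h7⟩

end CM27
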