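import Pool.Agent.MP_ae0bd0_nt.CM.CDefs

set_option autoImplicit false

open Polynomial NumberField IsDedekindDomain
open scoped Classical

namespace CM27

/-! ## [CM-D2] characters: the product formula (file D2.lean) -/

/-- Finite abelian groups: the product of `1 - χ(a) u` over all characters. -/
theorem prod_char (G : Type) [CommGroup G] [Finite G] (a : G) (u : ℂ) [Fintype (G →* ℂˣ)] :
    ∏ χ : G →* ℂˣ, (1 - (χ a : ℂ) * u) = (1 - u ^ orderOf a) ^ (Nat.card G / orderOf a) := by
  have hd : 0 < orderOf a := orderOf_pos a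
  have : NeZero (orderOf a) := ⟨hd.ne'⟩
  have : NeZero (Monoid.exponent G) := ⟨Monoid.exponent_ne_zero_of_finite⟩
  have : HasEnoughRootsOfUnity ℂ (Monoid.exponent G) := inferInstance
  -- evaluation at `a`
  let ev : (G →* ℂˣ) →* ℂˣ := MonoidHom.eval a
  have hev : ∀ χ : G →* ℂˣ, ev χ = χ a := fun χ => rfl
  have hcardG : Nat.card (G →* ℂˣ) = Nat.card G :=
    CommGroup.card_monoidHom_of_hasEnoughRootsOfUnity G ℂ
  have hker : ev.ker = (MonoidHom.domRestrictHom (Subgroup.zpowers a) ℂˣ).ker := by
    ext χ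
    rw [MonoidHom.mem_ker, MonoidHom.mem_ker, MonoidHom.domRestrictHom_apply,
      MonoidHom.domRestrict_eq_one_iff, hev]
    constructor
    · intro h g hg
      obtain ⟨k, rfl⟩ := Subgroup.mem_zpowers_iff.1 hg
      rw [map_zpow, h, one_zpow]
    · intro h
      exact h a (Subgroup.mem_zpowers a)
  have hcz : Nat.card (Subgroup.zpowers a) = orderOf a := Nat.card_zpowers a
  have hmul : Nat.card G = Nat.card (G ⧸ Subgroup.zpowers a) * orderOf a := by
    rw [← hcz]
    exact Subgroup.card_eq_card_quotient_mul_card_subgroup _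
  have hkc : Nat.card ev.ker = Nat.card G / orderOf a := by
    rw [hker, CommGroup.card_domRestrictHom_ker, hmul, Nat.mul_div_cancel _ hd]
  -- fibres
  have hfib : ∀ y ∈ Finset.univ.image ev,
      (Finset.univ.filter (fun χ : G →* ℂˣ => ev χ = y)).card = Nat.card G / orderOf a := by
    intro y hy
    have hy' : y ∈ Set.range ev := by
      obtain ⟨χ, -, h⟩ := Finset.mem_image.1 hy
      exact ⟨χ, h⟩
    have h1 : (1 : ℂˣ) ∈ Set.range ev := ⟨1, map_one ev⟩
    rw [MonoidHom.card_fiber_eq_of_mem_range ev hy' h1, ← hkc]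
    rw [Nat.card_eq_fintype_card, ← Fintype.card_subtype]
    exact Fintype.card_congr (Equiv.refl _)
  have hR : (Finset.univ.image ev).card * (Nat.card G / orderOf a) = Nat.card G := by
    have h1 := Finset.card_eq_sum_card_image (f := ev) (s := (Finset.univ : Finset (G →* ℂˣ)))
    rw [Finset.sum_congr rfl hfib, Finset.sum_const, smul_eq_mul, Finset.card_univ,
      ← Nat.card_eq_fintype_card, hcardG] at h1
    exact h1.symm
  have hkpos : 0 < Nat.card G / orderOf a := by
    rw [hmul, Nat.mul_div_cancel _ hd]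
    exact Nat.card_pos
  have hcard : (Finset.univ.image ev).card = orderOf a := by
    have h2 : Nat.card G = orderOf a * (Nat.card G / orderOf a) := by
      rw [Nat.mul_div_cancel']
      exact orderOf_dvd_natCard a
    rw [h2] at hR
    have h3 : orderOf a * (Nat.card G / orderOf a) / orderOf a = Nat.card G / orderOf a := by
      rw [Nat.mul_div_cancel_left _ hd]
    rw [h3] at hR
    exact Nat.eq_of_mul_eq_mul_right hkpos hR
  have hprim : IsPrimitiveRoot (Complex.exp (2 * Real.pi * Complex.I / (orderOf a : ℂ)))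
      (orderOf a) := Complex.isPrimitiveRoot_exp _ hd.ne'
  have himg : (Finset.univ.image ev).image (fun y : ℂˣ => (y : ℂ)) =
      Polynomial.nthRootsFinset (orderOf a) (1 : ℂ) := by
    apply Finset.eq_of_subset_of_card_le
    · intro z hz
      obtain ⟨y, hy, rfl⟩ := Finset.mem_image.1 hz
      obtain ⟨χ, -, rfl⟩ := Finset.mem_image.1 hy
      rw [Polynomial.mem_nthRootsFinset hd, hev, ← Units.val_pow_eq_pow_val, ← map_pow,
        pow_orderOf_eq_one, map_one, Units.val_one]
    · rw [hprim.card_nthRootsFinset, Finset.card_image_of_injective _ Units.val_injective, hcard]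
  have hfin : ∏ χ : G →* ℂˣ, (1 - (χ a : ℂ) * u) =
      ∏ y ∈ Finset.univ.image ev, (1 - (y : ℂ) * u) ^ (Nat.card G / orderOf a) := by
    have h1 := Finset.prod_comp (s := (Finset.univ : Finset (G →* ℂˣ)))
      (fun y : ℂˣ => 1 - (y : ℂ) * u) ev
    rw [show (∏ χ : G →* ℂˣ, (1 - (χ a : ℂ) * u)) =
      ∏ χ : G →* ℂˣ, (fun y : ℂˣ => 1 - (y : ℂ) * u) (ev χ) from rfl, h1]
    refine Finset.prod_congr rfl ?_
    intro y hy
    rw [hfib y hy]
  rw [hfin, Finset.prod_pow]
  congr 1
  have h4 : ∏ y ∈ Finset.univ.image ev, (1 - (y : ℂ) * u) =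
      ∏ z ∈ (Finset.univ.image ev).image (fun y : ℂˣ => (y : ℂ)), (1 - z * u) := by
    rw [Finset.prod_image (fun x _ y _ h => Units.val_injective h)]
  rw [h4, himg]
  have h5 := hprim.pow_sub_pow_eq_prod_sub_mul 1 u hd
  rw [one_pow] at h5
  exact h5.symm

end CM27
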