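import Pool.Agent.MP_ae0bd0_nt.CM.D1
import Pool.Agent.MP_ae0bd0_nt.CM.D2

set_option autoImplicit false

open Polynomial NumberField IsDedekindDomain
open scoped Classical

namespace CM27

/-! ## [CM-D3] splitting of unramified primes (file D3.lean; uses D1, D2) -/

theorem d3_char (m : ℕ) [NeZero m] (M : Type) [Field M] [NumberField M]
    [IsCyclotomicExtension {m} ℚ M] (F : IntermediateField ℚ M) (p : ℕ)
    (hpm : p.Coprime m) (u : ℂ) :
    ∏ χ ∈ chars m F, (1 - χ (p : ZMod m) * u) =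
      (1 - u ^ orderOf ((ZMod.unitOfCoprime p hpm : (ZMod m)ˣ) :
        (ZMod m)ˣ ⧸ F.fixingSubgroup.map
          (IsCyclotomicExtension.Rat.galEquivZMod m M : Gal(M/ℚ) →* (ZMod m)ˣ))) ^
      (Nat.card ((ZMod m)ˣ ⧸ F.fixingSubgroup.map
          (IsCyclotomicExtension.Rat.galEquivZMod m M : Gal(M/ℚ) →* (ZMod m)ˣ)) /
        orderOf ((ZMod.unitOfCoprime p hpm : (ZMod m)ˣ) :
        (ZMod m)ˣ ⧸ F.fixingSubgroup.map
          (IsCyclotomicExtension.Rat.galEquivZMod m M : Gal(M/ℚ) →* (ZMod m)ˣ))) := by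
  set K : Subgroup (ZMod m)ˣ := F.fixingSubgroup.map
          (IsCyclotomicExtension.Rat.galEquivZMod m M : Gal(M/ℚ) →* (ZMod m)ˣ) with hK
  have hfin : Finite (((ZMod m)ˣ ⧸ K) →* ℂˣ) := by
    have : Function.Injective (fun ψ : ((ZMod m)ˣ ⧸ K) →* ℂˣ =>
        MulChar.ofUnitHom (ψ.comp (QuotientGroup.mk' K))) := by
      intro ψ₁ ψ₂ h
      have h2 : MulChar.equivToUnitHom.symm (ψ₁.comp (QuotientGroup.mk' K)) =
        (MulChar.equivToUnitHom.symm (ψ₂.comp (QuotientGroup.mk' K)) : MulChar (ZMod m) ℂ) := h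
      have h3 := MulChar.equivToUnitHom.symm.injective h2
      exact MonoidHom.cancel_right (QuotientGroup.mk'_surjective K) |>.1 h3
    exact Finite.of_injective _ this
  letI : Fintype (((ZMod m)ˣ ⧸ K) →* ℂˣ) := Fintype.ofFinite _
  rw [← prod_char ((ZMod m)ˣ ⧸ K) ((ZMod.unitOfCoprime p hpm : (ZMod m)ˣ) : (ZMod m)ˣ ⧸ K) u]
  symm
  refine Finset.prod_bij (fun ψ _ => MulChar.ofUnitHom (ψ.comp (QuotientGroup.mk' K))) ?_ ?_ ?_ ?_
  · intro ψ _
    rw [chars, Set.Finite.mem_toFinset, Set.mem_setOf_eq]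
    intro σ hσ
    rw [MulChar.ofUnitHom_coe]
    have : (QuotientGroup.mk' K) (IsCyclotomicExtension.Rat.galEquivZMod m M σ) = 1 := by
      rw [QuotientGroup.mk'_apply, QuotientGroup.eq_one_iff]
      exact ⟨σ, hσ, rfl⟩
    rw [MonoidHom.comp_apply, this, map_one, Units.val_one]
  · intro ψ₁ _ ψ₂ _ h
    have h2 : MulChar.equivToUnitHom.symm (ψ₁.comp (QuotientGroup.mk' K)) =
      (MulChar.equivToUnitHom.symm (ψ₂.comp (QuotientGroup.mk' K)) : MulChar (ZMod m) ℂ) := h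
    have h3 := MulChar.equivToUnitHom.symm.injective h2
    exact MonoidHom.cancel_right (QuotientGroup.mk'_surjective K) |>.1 h3
  · intro χ hχ
    rw [chars, Set.Finite.mem_toFinset, Set.mem_setOf_eq] at hχ
    refine ⟨QuotientGroup.lift K (MulChar.toUnitHom χ) ?_, Finset.mem_univ _, ?_⟩
    · rintro _ ⟨σ, hσ, rfl⟩
      ext
      rw [MulChar.coe_toUnitHom, Units.val_one]
      exact hχ σ hσ
    · have : (QuotientGroup.lift K (MulChar.toUnitHom χ) (by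
          rintro _ ⟨σ, hσ, rfl⟩
          ext
          rw [MulChar.coe_toUnitHom, Units.val_one]
          exact hχ σ hσ)).comp (QuotientGroup.mk' K) = MulChar.toUnitHom χ := by
        ext x
        simp
      rw [this]
      exact MulChar.equivToUnitHom.symm_apply_apply χ
  · intro ψ _
    rw [← ZMod.coe_unitOfCoprime p hpm, MulChar.ofUnitHom_coe]
    rfl

open scoped Pointwise in
theorem d3_main (m : ℕ) [NeZero m] (M : Type) [Field M] [NumberField M]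
    [IsCyclotomicExtension {m} ℚ M] (F : IntermediateField ℚ M) (p : ℕ)
    (hp : p.Prime) (h : ¬ p ∣ m) (hpm : p.Coprime m) :
    ∃ f g : ℕ, 0 < f ∧
      ((Ideal.span {(p : ℤ)}).primesOver (𝓞 F)).ncard = g ∧
      (∀ v : Ideal (𝓞 F), v ∈ (Ideal.span {(p : ℤ)}).primesOver (𝓞 F) →
        Nat.card (𝓞 F ⧸ v) = p ^ f) ∧
      orderOf ((ZMod.unitOfCoprime p hpm : (ZMod m)ˣ) :
        (ZMod m)ˣ ⧸ F.fixingSubgroup.map
          (IsCyclotomicExtension.Rat.galEquivZMod m M : Gal(M/ℚ) →* (ZMod m)ˣ)) = f ∧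
      Nat.card ((ZMod m)ˣ ⧸ F.fixingSubgroup.map
          (IsCyclotomicExtension.Rat.galEquivZMod m M : Gal(M/ℚ) →* (ZMod m)ˣ)) = g * f := by
  have hpf : Fact p.Prime := ⟨hp⟩
  have hab : IsAbelianGalois ℚ M := IsCyclotomicExtension.isAbelianGalois {m} ℚ M
  have hab' : IsAbelianGalois ℚ F := IsAbelianGalois.tower_bot ℚ F M
  have hp0 : (Ideal.span {(p : ℤ)}) ≠ ⊥ := by
    simp [hp.ne_zero]
  have hprime : (Ideal.span {(p : ℤ)}).IsPrime := by
    rw [Ideal.span_singleton_prime (by exact_mod_cast hp.ne_zero)]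
    exact Nat.prime_iff_prime_int.mp hp
  have hmax : (Ideal.span {(p : ℤ)}).IsMaximal := hprime.isMaximal hp0
  obtain ⟨⟨P, hP1, hP2⟩⟩ := (Ideal.span {(p : ℤ)}).nonempty_primesOver (S := 𝓞 M)
  have hPmax : P.IsMaximal := Ideal.IsMaximal.of_liesOver_isMaximal P (Ideal.span {(p : ℤ)})
  let v : Ideal (𝓞 F) := P.under (𝓞 F)
  have hvP : P.LiesOver v := inferInstance
  have hvp : v.LiesOver (Ideal.span {(p : ℤ)}) := inferInstance
  have hvmax : v.IsMaximal := Ideal.IsMaximal.of_liesOver_isMaximal v (Ideal.span {(p : ℤ)})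
  have hv0 : v ≠ ⊥ := Ideal.ne_bot_of_liesOver_of_ne_bot hp0 v
  have hfv := Ideal.inertiaDegIn_mul_inertiaDegIn (Ideal.span {(p : ℤ)}) v Gal(F/ℚ) (𝓞 M)
    Gal(M/ℚ) Gal(M/F)
  have hev := Ideal.ramificationIdxIn_mul_ramificationIdxIn (p := Ideal.span {(p : ℤ)}) v Gal(F/ℚ)
    (𝓞 M) Gal(M/ℚ) Gal(M/F)
  have he1 := IsCyclotomicExtension.Rat.ramificationIdxIn_eq_of_not_dvd p M h
  rw [he1] at hev
  have he2 := Nat.eq_one_of_mul_eq_one_right hev
  have he3 := Nat.eq_one_of_mul_eq_one_left hev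
  have hg1 := Ideal.ncard_primesOver_mul_ramificationIdxIn_mul_inertiaDegIn
    (Ideal.span {(p : ℤ)}) (𝓞 F) Gal(F/ℚ)
  refine ⟨(Ideal.span {(p : ℤ)}).inertiaDegIn (𝓞 F),
    ((Ideal.span {(p : ℤ)}).primesOver (𝓞 F)).ncard, ?_, rfl, ?_, ?_, ?_⟩
  · exact Nat.pos_of_ne_zero (Ideal.inertiaDegIn_ne_zero Gal(F/ℚ))
  · rintro w ⟨hw1, hw2⟩
    rw [Ideal.inertiaDegIn_eq_inertiaDeg (Ideal.span {(p : ℤ)}) w Gal(F/ℚ)]
    rw [Ideal.pow_inertiaDeg p w, Ideal.absNorm_apply, Submodule.cardQuot_apply]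
  · have hs1 := Ideal.card_stabilizer_eq (G := Gal(M/ℚ)) (Ideal.span {(p : ℤ)}) P
    have : Finite (𝓞 F ⧸ v) := Ring.HasFiniteQuotients.finiteQuotient hv0
    have hGal : IsGaloisGroup F.fixingSubgroup F M :=
      IsGaloisGroup.intermediateField Gal(M/ℚ) ℚ M F
    have hGal2 : IsGaloisGroup F.fixingSubgroup (𝓞 F) (𝓞 M) :=
      IsGaloisGroup.of_isFractionRing F.fixingSubgroup (𝓞 F) (𝓞 M) F M
    have hs2 := Ideal.card_stabilizer_eq (G := F.fixingSubgroup) v P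
    rw [he1, one_mul, ← hfv] at hs1
    rw [he3, one_mul] at hs2
    have hcop := IsCyclotomicExtension.Rat.galEquivZMod_stabilizer m M p P hpm
    have hs3 : Nat.card (F.fixingSubgroup.subgroupOf (MulAction.stabilizer Gal(M/ℚ) P)) =
        v.inertiaDegIn (𝓞 M) := by
      rw [← hs2]
      exact Nat.card_congr ⟨fun g => ⟨⟨g.1.1, g.2⟩, g.1.2⟩, fun g => ⟨⟨g.1.1, g.2⟩, g.1.2⟩,
        fun _ => rfl, fun _ => rfl⟩
    have hs4 := Subgroup.card_mul_index
      (F.fixingSubgroup.subgroupOf (MulAction.stabilizer Gal(M/ℚ) P))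
    rw [hs3, hs1, mul_comm] at hs4
    have hpos : v.inertiaDegIn (𝓞 M) ≠ 0 := by
      intro h0
      rw [h0, mul_zero] at hs1
      exact Nat.card_pos.ne' hs1
    have hs5 := Nat.eq_of_mul_eq_mul_right (Nat.pos_of_ne_zero hpos) hs4
    have hs6 : ((MulAction.stabilizer Gal(M/ℚ) P).map
        (IsCyclotomicExtension.Rat.galEquivZMod m M : Gal(M/ℚ) →* (ZMod m)ˣ)) =
        Subgroup.zpowers (ZMod.unitOfCoprime p hpm) := by
      rw [← hcop]
      rfl
    rw [← hs5, ← Nat.card_zpowers]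
    have hs7 : Subgroup.zpowers ((ZMod.unitOfCoprime p hpm : (ZMod m)ˣ) :
        (ZMod m)ˣ ⧸ F.fixingSubgroup.map
          (IsCyclotomicExtension.Rat.galEquivZMod m M : Gal(M/ℚ) →* (ZMod m)ˣ)) =
        (Subgroup.zpowers (ZMod.unitOfCoprime p hpm)).map (QuotientGroup.mk' _) := by
      rw [MonoidHom.map_zpowers]
      rfl
    rw [hs7, ← Subgroup.relIndex_ker, QuotientGroup.ker_mk', ← hs6,
      Subgroup.relIndex_map_map_of_injective]
    · rfl
    · exact (IsCyclotomicExtension.Rat.galEquivZMod m M).injective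
  · rw [he2, one_mul, IsGalois.card_aut_eq_finrank,
      IntermediateField.finrank_eq_fixingSubgroup_index] at hg1
    rw [hg1, ← Subgroup.index_map_equiv F.fixingSubgroup
      (IsCyclotomicExtension.Rat.galEquivZMod m M), Subgroup.index_eq_card]

theorem split_unram (m : ℕ) [NeZero m] (M : Type) [Field M] [NumberField M]
    [IsCyclotomicExtension {m} ℚ M] (F : IntermediateField ℚ M) (p : ℕ)
    (hp : p.Prime) (h : ¬ p ∣ m) : ∃ f g : ℕ, 0 < f ∧
      {v : HeightOneSpectrum (𝓞 F) | (p : 𝓞 F) ∈ v.asIdeal}.Finite ∧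
      {v : HeightOneSpectrum (𝓞 F) | (p : 𝓞 F) ∈ v.asIdeal}.ncard = g ∧
      (∀ v : HeightOneSpectrum (𝓞 F), (p : 𝓞 F) ∈ v.asIdeal →
        Nat.card (𝓞 F ⧸ v.asIdeal) = p ^ f) ∧
      ∀ u : ℂ, ∏ χ ∈ chars m F, (1 - χ (p : ZMod m) * u) = (1 - u ^ f) ^ g := by
  have hpm : p.Coprime m := (Nat.Prime.coprime_iff_not_dvd hp).mpr h
  obtain ⟨f, g, hf, h1, h2, h3, h4⟩ := d3_main m M F p hp h hpm
  haveI : Fact p.Prime := ⟨hp⟩
  have hp0 : (Ideal.span {(p : ℤ)}) ≠ ⊥ := by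
    simp [hp.ne_zero]
  have hmax : (Ideal.span {(p : ℤ)}).IsMaximal := by
    have : (Ideal.span {(p : ℤ)}).IsPrime := by
      rw [Ideal.span_singleton_prime (by exact_mod_cast hp.ne_zero)]
      exact Nat.prime_iff_prime_int.mp hp
    exact this.isMaximal hp0
  have key : ∀ v : HeightOneSpectrum (𝓞 F), (p : 𝓞 F) ∈ v.asIdeal ↔
      v.asIdeal ∈ (Ideal.span {(p : ℤ)}).primesOver (𝓞 F) := by
    intro v
    constructor
    · intro hv
      refine ⟨v.isPrime, ?_⟩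
      rw [Ideal.liesOver_iff_dvd_map v.isPrime.ne_top, Ideal.dvd_iff_le, Ideal.map_span]
      rw [Ideal.span_le]
      simpa using hv
    · rintro ⟨_, hv⟩
      have := hv.over
      have h5 : (p : ℤ) ∈ Ideal.span {(p : ℤ)} := Ideal.mem_span_singleton_self _
      rw [this, Ideal.mem_comap] at h5
      simpa using h5
  have hbij : Set.BijOn HeightOneSpectrum.asIdeal
      {v : HeightOneSpectrum (𝓞 F) | (p : 𝓞 F) ∈ v.asIdeal}
      ((Ideal.span {(p : ℤ)}).primesOver (𝓞 F)) := by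
    refine ⟨fun v hv => (key v).1 hv, fun _ _ _ _ h => HeightOneSpectrum.ext h, ?_⟩
    intro Q hQ
    have hQ0 : Q ≠ ⊥ := Ideal.ne_bot_of_mem_primesOver hp0 hQ
    exact ⟨⟨Q, hQ.1, hQ0⟩, (key ⟨Q, hQ.1, hQ0⟩).2 hQ, rfl⟩
  refine ⟨f, g, hf, ?_, ?_, ?_, ?_⟩
  · exact hbij.finite_iff_finite.2 (IsDedekindDomain.primesOver_finite _ _)
  · rw [← h1, hbij.ncard_eq]
  · intro v hv
    exact h2 _ ((key v).1 hv)
  · intro u
    rw [d3_char m M F p hpm u, h3, h4, Nat.mul_div_cancel _ hf]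

end CM27
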