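import Pool.Agent.MP_ae0bd0_nt.CM.G1

set_option autoImplicit false

open scoped ComplexConjugate
open Filter Topology

namespace CM27

/-! ## [CM-G3] the Dirichlet series as a lattice sum (file G3.lean; uses G1) -/

/-- the coordinates of `1 + 3 d`, `d = (i, j) + m a` -/
private def g3_e (m : ℕ) (p : (Fin m × Fin m) × Eis) : Eis :=
  ⟨(p.1.1 : ℤ) + m * p.2.re, (p.1.2 : ℤ) + m * p.2.im⟩

private theorem g3_e_bij {m : ℕ} (hm : m ≠ 0) : Function.Bijective (g3_e m) := by
  have hm' : (m : ℤ) ≠ 0 := by exact_mod_cast hm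
  have hm0 : (0 : ℤ) < m := by positivity
  constructor
  · rintro ⟨⟨i, j⟩, a⟩ ⟨⟨i', j'⟩, a'⟩ h
    have h1 := congrArg QuadraticAlgebra.re h
    have h2 := congrArg QuadraticAlgebra.im h
    simp only [g3_e] at h1 h2
    have key : ∀ (x x' : Fin m) (y y' : ℤ), (x : ℤ) + m * y = x' + m * y' → x = x' ∧ y = y' := by
      intro x x' y y' hxy
      have hx1 : ((x : ℕ) : ℤ) < m := by exact_mod_cast x.2
      have hx2 : ((x' : ℕ) : ℤ) < m := by exact_mod_cast x'.2
      have e1 : ((x : ℤ) + m * y) % m = x := by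
        rw [Int.add_mul_emod_self_left, Int.emod_eq_of_lt (by positivity) hx1]
      have e2 : ((x' : ℤ) + m * y') % m = x' := by
        rw [Int.add_mul_emod_self_left, Int.emod_eq_of_lt (by positivity) hx2]
      have e3 : ((x : ℕ) : ℤ) = ((x' : ℕ) : ℤ) := by rw [← e1, ← e2, hxy]
      refine ⟨Fin.ext (by exact_mod_cast e3), ?_⟩
      rw [e3] at hxy
      exact mul_left_cancel₀ hm' (add_left_cancel hxy)
    obtain ⟨r1, r2⟩ := key _ _ _ _ h1
    obtain ⟨r3, r4⟩ := key _ _ _ _ h2
    subst r1 r3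
    have : a = a' := QuadraticAlgebra.ext r2 r4
    rw [this]
  · intro d
    have hk : ∀ x : ℤ, ∃ (i : Fin m) (y : ℤ), (i : ℤ) + m * y = x := by
      intro x
      have h1 := Int.emod_nonneg x hm'
      have h2 := Int.emod_lt_of_pos x hm0
      refine ⟨⟨(x % m).toNat, by omega⟩, x / m, ?_⟩
      show (((x % m).toNat : ℕ) : ℤ) + m * (x / m) = x
      rw [Int.toNat_of_nonneg h1]
      exact Int.emod_add_mul_ediv x m
    obtain ⟨i, y, hi⟩ := hk d.re
    obtain ⟨j, y', hj⟩ := hk d.im
    exact ⟨((i, j), ⟨y, y'⟩), QuadraticAlgebra.ext hi hj⟩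

private theorem g3_norm_mod {m : ℕ} (a b : Eis) :
    (((a + 3 * ((m : Eis) * b)).norm : ℤ) : ZMod m) = ((a.norm : ℤ) : ZMod m) := by
  rw [ZMod.intCast_eq_intCast_iff, Int.modEq_iff_dvd]
  rw [norm_eq, norm_eq]
  have h3 : (3 : Eis).re = 3 := rfl
  have h4 : (3 : Eis).im = 0 := rfl
  have h5 : ((m : ℕ) : Eis).re = m := by simp
  have h6 : ((m : ℕ) : Eis).im = 0 := by simp
  simp only [QuadraticAlgebra.re_add, QuadraticAlgebra.im_add, QuadraticAlgebra.re_mul,
    QuadraticAlgebra.im_mul, h3, h4, h5, h6]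
  refine ⟨-(3 * (2 * a.re * b.re - a.re * b.im - a.im * b.re + 2 * a.im * b.im) +
    9 * m * (b.re ^ 2 - b.re * b.im + b.im ^ 2)), ?_⟩
  ring

private theorem g3_psi (n : ℕ) : psi n = ∑ a ∈ primSet n, conj (emb a) := by
  have hstar : ∀ a ∈ primSet n, star a ∈ primSet n := by
    intro a ha
    rw [mem_primSet, primary_iff] at ha ⊢
    obtain ⟨h1, h2, h3⟩ := ha
    rw [norm_eq] at h1
    simp only [norm_eq, QuadraticAlgebra.re_star, QuadraticAlgebra.im_star]
    refine ⟨?_, ?_, ?_⟩
    · rw [← h1]; ring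
    · omega
    · omega
  unfold psi
  refine Finset.sum_bij' (fun a _ => star a) (fun a _ => star a) hstar hstar ?_ ?_ ?_
  · intro a _; exact star_star a
  · intro a _; exact star_star a
  · intro a _
    rw [emb_star, Complex.conj_conj]

private theorem g3_cpow {x : ℝ} (hx : 0 < x) (s : ℂ) :
    (x : ℂ) ^ (-2 * s) = (((x ^ 2 : ℝ) : ℂ)) ^ (-s) := by
  have hx2 : (0 : ℝ) < x ^ 2 := by positivity
  rw [Complex.cpow_def_of_ne_zero (by exact_mod_cast hx.ne'),
    Complex.cpow_def_of_ne_zero (by exact_mod_cast hx2.ne'), ← Complex.ofReal_log hx.le,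
    ← Complex.ofReal_log hx2.le, Real.log_pow]
  congr 1
  push_cast
  ring

private theorem g3_gs_emb {a : Eis} {n : ℕ} (hn : n ≠ 0) (ha : a.norm = n) (s : ℂ) :
    gs s (emb a) = conj (emb a) * (n : ℂ) ^ (-s) := by
  have h1 : ‖emb a‖ ^ 2 = (n : ℝ) := by rw [norm_emb_sq, ha]; simp
  have h2 : 0 < ‖emb a‖ := by
    rw [norm_pos_iff]
    intro h
    rw [h, norm_zero] at h1
    have : (n : ℝ) ≠ 0 := by exact_mod_cast hn
    apply this
    rw [← h1]; norm_num
  unfold gs
  rw [g3_cpow h2, h1]
  simp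

open Classical in
theorem LSeries_coef {m : ℕ} (hm : m ≠ 0) (χ : DirichletCharacter ℂ m) (s : ℂ)
    (hs : 3 / 2 < s.re) : LSeriesSummable (coef χ) s ∧
      LSeries (coef χ) s = (3 * m : ℂ) ^ (1 - 2 * s) *
        ∑ i ∈ Finset.range m, ∑ j ∈ Finset.range m,
          chiN χ (cc i j) * Hs s (emb (cc i j) / (3 * m)) := by
  have hmC : (m : ℂ) ≠ 0 := by exact_mod_cast hm
  set f : Eis → ℂ := fun a => if Primary a then chiN χ a * gs s (emb a) else 0 with hf
  -- absolute summability
  have hbound : ∀ a : Eis, ‖f a‖ ≤ ‖emb a‖ ^ (-(2 * s.re - 1)) := by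
    intro a
    simp only [hf]
    split_ifs
    · rw [norm_mul, norm_gs s (emb a) (by linarith)]
      have h1 : ‖chiN χ a‖ ≤ 1 := DirichletCharacter.norm_le_one χ _
      calc ‖chiN χ a‖ * ‖emb a‖ ^ (1 - 2 * s.re) ≤ 1 * ‖emb a‖ ^ (1 - 2 * s.re) :=
            mul_le_mul_of_nonneg_right h1 (Real.rpow_nonneg (norm_nonneg _) _)
        _ = ‖emb a‖ ^ (-(2 * s.re - 1)) := by rw [one_mul, neg_sub]
    · rw [norm_zero]
      exact Real.rpow_nonneg (norm_nonneg _) _
  have hsum : Summable f :=
    Summable.of_norm_bounded (summable_norm (2 * s.re - 1) (by linarith)) hbound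
  -- sum over the fibres of the norm
  have hfib := hsum.hasSum.tsum_fiberwise (fun a : Eis => a.norm.toNat)
  have hterm : (fun n : ℕ => ∑' b : (fun a : Eis => a.norm.toNat) ⁻¹' {n}, f b)
      = LSeries.term (coef χ) s := by
    funext n
    have hfin : ∑' b : (fun a : Eis => a.norm.toNat) ⁻¹' {n}, f b
        = ∑ a ∈ primSet n, f a := by
      rw [tsum_subtype ((fun a : Eis => a.norm.toNat) ⁻¹' {n}) f]
      rw [tsum_eq_sum (s := primSet n)]
      · refine Finset.sum_congr rfl fun a ha => ?_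
        rw [Set.indicator_of_mem]
        rw [mem_primSet] at ha
        show a.norm.toNat = n
        rw [ha.1]; simp
      · intro a ha
        by_cases h1 : a ∈ (fun a : Eis => a.norm.toNat) ⁻¹' {n}
        · rw [Set.indicator_of_mem h1]
          simp only [hf]
          rw [if_neg]
          intro hp
          apply ha
          rw [mem_primSet]
          refine ⟨?_, hp⟩
          have h2 : a.norm.toNat = n := h1
          have h3 := norm_nonneg' a
          omega
        · rw [Set.indicator_of_notMem h1]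
    rw [hfin]
    by_cases hn : n = 0
    · subst hn
      rw [LSeries.term_zero]
      refine Finset.sum_eq_zero fun a ha => ?_
      rw [mem_primSet] at ha
      exfalso
      obtain ⟨h1, h2⟩ := ha
      rw [norm_eq] at h1
      rw [primary_iff] at h2
      have h3 : a.re = 0 := by
        push_cast at h1
        nlinarith [sq_nonneg (a.re - 2 * a.im), sq_nonneg a.re]
      omega
    · rw [LSeries.term_of_ne_zero hn]
      have h1 : ∀ a ∈ primSet n, f a = χ n * (n : ℂ) ^ (-s) * conj (emb a) := by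
        intro a ha
        rw [mem_primSet] at ha
        simp only [hf]
        rw [if_pos ha.2, g3_gs_emb hn ha.1, chiN, ha.1]
        push_cast
        ring
      rw [Finset.sum_congr rfl h1, ← Finset.mul_sum, ← g3_psi, coef, Complex.cpow_neg]
      ring
  rw [hterm] at hfib
  refine ⟨hfib.summable, ?_⟩
  have hL : LSeries (coef χ) s = ∑' a, f a := hfib.tsum_eq
  rw [hL]
  -- the primary elements
  let ι : Eis → Eis := fun d => 1 + 3 * d
  have h3 : (3 : Eis).re = 3 := rfl
  have h4 : (3 : Eis).im = 0 := rfl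
  have hι : Function.Injective ι := by
    intro d d' h
    have h1 := congrArg QuadraticAlgebra.re h
    have h2 := congrArg QuadraticAlgebra.im h
    simp only [ι, QuadraticAlgebra.re_add, QuadraticAlgebra.im_add, QuadraticAlgebra.re_mul,
      QuadraticAlgebra.im_mul, h3, h4] at h1 h2
    apply QuadraticAlgebra.ext <;> linarith
  have hsupp : Function.support f ⊆ Set.range ι := by
    intro a ha
    rw [Function.mem_support] at ha
    simp only [hf] at ha
    split_ifs at ha with hp
    · obtain ⟨d, hd⟩ := hp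
      exact ⟨d, by show 1 + 3 * d = a; rw [← hd]; ring⟩
    · exact absurd rfl ha
  rw [← hι.tsum_eq hsupp]
  have hsumι : Summable fun d => f (ι d) := hsum.comp_injective hι
  -- residue classes modulo `m`
  let e : ((Fin m × Fin m) × Eis) ≃ Eis := Equiv.ofBijective _ (g3_e_bij hm)
  have he : ∀ p, e p = (⟨(p.1.1 : ℤ), (p.1.2 : ℤ)⟩ : Eis) + (m : Eis) * p.2 := by
    intro p
    have h5 : ((m : ℕ) : Eis).re = m := by simp
    have h6 : ((m : ℕ) : Eis).im = 0 := by simp
    apply QuadraticAlgebra.ext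
    · simp only [QuadraticAlgebra.re_add, QuadraticAlgebra.re_mul, h5, h6]
      show (p.1.1 : ℤ) + m * p.2.re = _
      ring
    · simp only [QuadraticAlgebra.im_add, QuadraticAlgebra.im_mul, h5, h6]
      show (p.1.2 : ℤ) + m * p.2.im = _
      ring
  rw [← e.tsum_eq]
  have hsume : Summable fun p => f (ι (e p)) := (e.summable_iff (f := fun d => f (ι d))).mpr hsumι
  rw [hsume.tsum_prod, tsum_fintype, Fintype.sum_prod_type, Finset.mul_sum]
  rw [Finset.sum_range]
  refine Finset.sum_congr rfl fun i _ => ?_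
  rw [Finset.mul_sum, Finset.sum_range]
  refine Finset.sum_congr rfl fun j _ => ?_
  unfold Hs
  rw [← tsum_mul_left, ← tsum_mul_left]
  refine tsum_congr fun a => ?_
  have hα : ι (e ((i, j), a)) = cc i j + 3 * ((m : Eis) * a) := by
    show 1 + 3 * e ((i, j), a) = _
    rw [he]
    unfold cc
    ring
  have hprim : Primary (ι (e ((i, j), a))) := by
    refine ⟨e ((i, j), a), ?_⟩
    show 1 + 3 * e ((i, j), a) - 1 = _
    ring
  have hch : chiN χ (ι (e ((i, j), a))) = chiN χ (cc i j) := by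
    unfold chiN
    rw [hα, g3_norm_mod]
  have hgs : gs s (emb (ι (e ((i, j), a)))) = (3 * m : ℂ) ^ (1 - 2 * s) *
      gs s (emb (cc i j) / (3 * m) + emb a) := by
    have h5 : emb (ι (e ((i, j), a))) = (3 * m : ℂ) * (emb (cc i j) / (3 * m) + emb a) := by
      rw [hα, map_add, map_mul, map_mul, map_natCast]
      have : emb (3 : Eis) = 3 := map_ofNat emb 3
      rw [this]
      field_simp
    rw [h5, gs_mul]
    congr 1
    have hpos : (0 : ℝ) < 3 * m := by positivity
    have h6 : ((3 : ℂ) * m) = ((3 * m : ℝ) : ℂ) := by push_cast; ring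
    unfold gs
    rw [h6, Complex.conj_ofReal, Complex.norm_real, Real.norm_of_nonneg hpos.le]
    rw [sub_eq_add_neg, Complex.cpow_add _ _ (by exact_mod_cast hpos.ne'), Complex.cpow_one]
    congr 2
    ring
  simp only [hf]
  rw [if_pos hprim, hch, hgs]
  ring

end CM27
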