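import Pool.Agent.MP_ae0bd0_nt.CM.G1

set_option autoImplicit false

open scoped ComplexConjugate
open Filter Topology

namespace CM27

/-! ## [CM-G4] multiplication by `-2` (file G4.lean; uses G1) -/

theorem G4_reidx {m : ℕ} (hm : Odd m) (b : ℤ) (f : ℕ → ℂ) :
    ∑ i ∈ Finset.range m, f (((b - 2 * i) % m).toNat) = ∑ i ∈ Finset.range m, f i := by
  have hm0 : (0 : ℤ) < m := by exact_mod_cast hm.pos
  have hmaps : ∀ i ∈ Finset.range m, ((b - 2 * i) % m).toNat ∈ Finset.range m := by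
    intro i _
    rw [Finset.mem_range, Int.toNat_lt (Int.emod_nonneg _ hm0.ne')]
    exact Int.emod_lt_of_pos _ hm0
  have hinj : Set.InjOn (fun i : ℕ => ((b - 2 * i) % m).toNat) (Finset.range m : Set ℕ) := by
    intro i hi j hj h
    simp only [Finset.coe_range, Set.mem_Iio] at hi hj
    have h1 : ((b - 2 * i) % m : ℤ) = (b - 2 * j) % m := by
      have := congrArg (Nat.cast : ℕ → ℤ) h
      simpa [Int.toNat_of_nonneg (Int.emod_nonneg _ hm0.ne')] using this
    have h2 : (m : ℤ) ∣ 2 * (j - i : ℤ) := by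
      have h3 := Int.emod_emod_of_dvd
      have h4 : ((b - 2 * i) - (b - 2 * j)) % (m : ℤ) = 0 := by
        rw [Int.sub_emod, h1, sub_self, Int.zero_emod]
      have h5 := Int.dvd_of_emod_eq_zero h4
      have e : (b - 2 * i) - (b - 2 * j) = 2 * (j - i : ℤ) := by ring
      rwa [e] at h5
    have hco : IsCoprime (m : ℤ) 2 := by
      rw [Int.isCoprime_iff_gcd_eq_one]
      have : Nat.Coprime m 2 := hm.coprime_two_right
      exact_mod_cast this
    have h6 : (m : ℤ) ∣ (j - i : ℤ) := hco.dvd_of_dvd_mul_left h2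
    have h7 : (j - i : ℤ) = 0 := by
      apply Int.eq_zero_of_abs_lt_dvd h6
      rw [abs_lt]; constructor <;> omega
    omega
  refine Finset.sum_nbij (fun i : ℕ => ((b - 2 * i) % m).toNat) hmaps hinj ?_ (fun _ _ => rfl)
  exact Finset.surjOn_of_injOn_of_card_le _ hmaps hinj le_rfl

theorem G4_chi4 {m : ℕ} (hm : Odd m) (χ : DirichletCharacter ℂ m) :
    conj (χ 4) * χ 4 = 1 := by
  have hu : IsUnit (4 : ZMod m) := by
    have : ((4 : ℕ) : ZMod m) = 4 := by norm_cast
    rw [← this]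
    rw [ZMod.isUnit_iff_coprime]
    have h2 : Nat.Coprime 2 m := (hm.coprime_two_left)
    exact Nat.Coprime.pow_left 2 h2
  have h1 := DirichletCharacter.unit_norm_eq_one χ hu.unit
  rw [IsUnit.unit_spec] at h1
  have h2 : conj (χ 4) * χ 4 = ((‖χ 4‖ : ℝ) : ℂ) ^ 2 := by
    rw [mul_comm, Complex.mul_conj, Complex.normSq_eq_norm_sq]; push_cast; ring
  rw [h2, h1]; simp

theorem G4_re (i j : ℕ) : (cc i j).re = 1 + 3 * i := by
  have h3 : (3 : Eis).re = 3 := rfl
  have h4 : (3 : Eis).im = 0 := rfl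
  have h1 : (1 : Eis).re = 1 := rfl
  simp [cc, QuadraticAlgebra.re_add, QuadraticAlgebra.re_mul, h3, h4, h1]

theorem G4_im (i j : ℕ) : (cc i j).im = 3 * j := by
  have h3 : (3 : Eis).re = 3 := rfl
  have h4 : (3 : Eis).im = 0 := rfl
  have h1 : (1 : Eis).im = 0 := rfl
  simp [cc, QuadraticAlgebra.im_add, QuadraticAlgebra.im_mul, h3, h4, h1]

theorem G4_step {m : ℕ} (hm : Odd m) (χ : DirichletCharacter ℂ m) (s : ℂ) (i j : ℕ) :
    chiN χ (cc ((((-1 : ℤ) - 2 * i) % m).toNat) ((((0 : ℤ) - 2 * j) % m).toNat)) *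
      Hs s (emb (cc ((((-1 : ℤ) - 2 * i) % m).toNat) ((((0 : ℤ) - 2 * j) % m).toNat)) / (3 * m)) =
      - (χ 4 * (chiN χ (cc i j) * Hs s (2 * (emb (cc i j) / (3 * m))))) := by
  have hm0 : (0 : ℤ) < m := by exact_mod_cast hm.pos
  set a : ℤ := ((-1 : ℤ) - 2 * i) with ha
  set b : ℤ := ((0 : ℤ) - 2 * j) with hb
  have ea : ((a % m).toNat : ℤ) = a - m * (a / m) := by
    rw [Int.toNat_of_nonneg (Int.emod_nonneg _ hm0.ne'), Int.emod_def]
  have eb : ((b % m).toNat : ℤ) = b - m * (b / m) := by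
    rw [Int.toNat_of_nonneg (Int.emod_nonneg _ hm0.ne'), Int.emod_def]
  have hre := G4_re
  have him := G4_im
  set c' := cc (a % m).toNat (b % m).toNat with hc'
  have r' : c'.re = -2 * (cc i j).re + 3 * m * (-(a / m)) := by
    rw [hc', hre, hre, ea, ha]; ring
  have i' : c'.im = -2 * (cc i j).im + 3 * m * (-(b / m)) := by
    rw [hc', him, him, eb, hb]; ring
  have hn : ((c'.norm : ℤ) : ZMod m) = 4 * (((cc i j).norm : ℤ) : ZMod m) := by
    rw [norm_eq, norm_eq, r', i']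
    push_cast
    have hz : ((m : ℕ) : ZMod m) = 0 := ZMod.natCast_self m
    rw [hz]
    ring
  have hm1 : (m : ℂ) ≠ 0 := by
    have := hm.pos
    exact_mod_cast this.ne'
  have he : emb c' / (3 * m) = -(2 * (emb (cc i j) / (3 * m))) + emb ⟨-(a / m), -(b / m)⟩ := by
    rw [emb_apply, emb_apply, emb_apply, r', i']
    push_cast
    field_simp
    ring
  rw [he, Hs_add, Hs_neg]
  have h1 : chiN χ c' = χ 4 * chiN χ (cc i j) := by
    unfold chiN
    rw [hn, map_mul]
  rw [h1]; ring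

theorem sum_two {m : ℕ} (hm : Odd m) (χ : DirichletCharacter ℂ m) (s : ℂ) :
    ∑ i ∈ Finset.range m, ∑ j ∈ Finset.range m,
        chiN χ (cc i j) * Hs s (2 * (emb (cc i j) / (3 * m))) =
      - conj (χ 4) * ∑ i ∈ Finset.range m, ∑ j ∈ Finset.range m,
          chiN χ (cc i j) * Hs s (emb (cc i j) / (3 * m)) := by
  have h1 : ∑ i ∈ Finset.range m, ∑ j ∈ Finset.range m,
      chiN χ (cc i j) * Hs s (emb (cc i j) / (3 * m)) =
      ∑ i ∈ Finset.range m, ∑ j ∈ Finset.range m,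
        - (χ 4 * (chiN χ (cc i j) * Hs s (2 * (emb (cc i j) / (3 * m))))) := by
    rw [← G4_reidx hm (-1) (fun i => ∑ j ∈ Finset.range m,
      chiN χ (cc i j) * Hs s (emb (cc i j) / (3 * m)))]
    apply Finset.sum_congr rfl
    intro i _
    rw [← G4_reidx hm 0 (fun j => chiN χ (cc (((-1 : ℤ) - 2 * i) % m).toNat j) *
      Hs s (emb (cc (((-1 : ℤ) - 2 * i) % m).toNat j) / (3 * m)))]
    apply Finset.sum_congr rfl
    intro j _
    exact G4_step hm χ s i j
  rw [h1]
  simp only [Finset.sum_neg_distrib, ← Finset.mul_sum]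
  have h2 := G4_chi4 hm χ
  generalize (∑ i ∈ Finset.range m, ∑ j ∈ Finset.range m,
        chiN χ (cc i j) * Hs s (2 * (emb (cc i j) / (3 * m)))) = S
  linear_combination (-S) * h2

theorem off_cc {m : ℕ} (hm : m ≠ 0) (i j : ℕ) : Off (emb (cc i j) / (3 * m)) := by
  rintro ⟨t, ht⟩
  have hm1 : (m : ℂ) ≠ 0 := by exact_mod_cast hm
  have h1 : emb (3 * (m : Eis) * t) = emb (2 * cc i j) := by
    rw [map_mul, map_mul, map_mul, ht]
    simp only [map_ofNat, map_natCast]
    field_simp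
  have h2 := congrArg QuadraticAlgebra.re (emb_injective h1)
  have h3 : (3 : Eis).re = 3 := rfl
  have h4 : (3 : Eis).im = 0 := rfl
  have h5 : (2 : Eis).re = 2 := rfl
  have h6 : (2 : Eis).im = 0 := rfl
  simp [QuadraticAlgebra.re_mul, QuadraticAlgebra.im_mul,
    h3, h4, h5, h6, G4_re] at h2
  have h7 : (3 : ℤ) ∣ 2 := by
    refine ⟨m * t.re - 2 * i, ?_⟩
    linarith
  norm_num at h7

theorem two_add_ne {m : ℕ} (hm : Odd m) (χ : DirichletCharacter ℂ m) : 2 + conj (χ 4) ≠ 0 := by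
  intro h
  have h1 : conj (χ 4) = -2 := by linear_combination h
  have h2 : ‖χ 4‖ = 2 := by
    rw [← Complex.norm_conj, h1]; simp
  have h3 := DirichletCharacter.norm_le_one χ 4
  rw [h2] at h3
  norm_num at h3

end CM27
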