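import Pool.Agent.MP_ae0bd0_nt.CM.G2b
import Pool.Agent.MP_ae0bd0_nt.CM.G3
import Pool.Agent.MP_ae0bd0_nt.CM.G4

set_option autoImplicit false

open scoped ComplexConjugate
open Filter Topology

namespace CM27

/-! ## [CM-G5] analytic continuation and special value (file G5.lean; uses G2, G3, G4) -/

theorem G_main {m : ℕ} (hm : Odd m) (χ : DirichletCharacter ℂ m) :
    ∃ Φ : ℂ → ℂ, DifferentiableOn ℂ Φ HP ∧
      (∀ s : ℂ, 3 / 2 < s.re → LSeriesSummable (coef χ) s ∧ Φ s = LSeries (coef χ) s) ∧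
      Φ 1 = - (3 * m : ℂ)⁻¹ * (2 + conj (χ 4))⁻¹ *
        ∑ i ∈ Finset.range m, ∑ j ∈ Finset.range m,
          chiN χ (cc i j) * lam (emb (cc i j) / (3 * m)) := by
  have hm0 : m ≠ 0 := by
    rintro rfl
    exact absurd hm (by decide)
  have hmC : (3 * m : ℂ) ≠ 0 := by
    have : (m : ℂ) ≠ 0 := Nat.cast_ne_zero.2 hm0
    exact mul_ne_zero (by norm_num) this
  have h2 := two_add_ne hm χ
  choose Φ hd hΦ h1 using fun (i j : ℕ) => exists_Phi (emb (cc i j) / (3 * m)) (off_cc hm0 i j)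
  refine ⟨fun s => - (3 * m : ℂ) ^ (1 - 2 * s) * (2 + conj (χ 4))⁻¹ *
    ∑ i ∈ Finset.range m, ∑ j ∈ Finset.range m, chiN χ (cc i j) * Φ i j s, ?_, ?_, ?_⟩
  · have e1 : Differentiable ℂ (fun s : ℂ => - (3 * m : ℂ) ^ (1 - 2 * s)) := by
      apply Differentiable.neg
      apply Differentiable.const_cpow
      · fun_prop
      · left
        exact hmC
    apply DifferentiableOn.mul
    · exact (e1.mul_const _).differentiableOn
    · refine DifferentiableOn.fun_sum fun i _ => ?_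
      refine DifferentiableOn.fun_sum fun j _ => ?_
      exact (hd i j).const_mul _
  · intro s hs
    obtain ⟨g1, g2⟩ := LSeries_coef hm0 χ s hs
    refine ⟨g1, ?_⟩
    rw [g2]
    have g3 : ∑ i ∈ Finset.range m, ∑ j ∈ Finset.range m, chiN χ (cc i j) * Φ i j s =
        ∑ i ∈ Finset.range m, ∑ j ∈ Finset.range m,
          chiN χ (cc i j) * Hs s (2 * (emb (cc i j) / (3 * m))) -
        2 * ∑ i ∈ Finset.range m, ∑ j ∈ Finset.range m,
          chiN χ (cc i j) * Hs s (emb (cc i j) / (3 * m)) := by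
      rw [Finset.mul_sum, ← Finset.sum_sub_distrib]
      apply Finset.sum_congr rfl
      intro i _
      rw [Finset.mul_sum, ← Finset.sum_sub_distrib]
      apply Finset.sum_congr rfl
      intro j _
      rw [hΦ i j s hs]
      ring
    beta_reduce
    rw [g3, sum_two hm χ s]
    field_simp
    ring
  · simp only [h1]
    have e1 : (3 * m : ℂ) ^ (1 - 2 * (1 : ℂ)) = (3 * m : ℂ)⁻¹ := by
      rw [show (1 - 2 * (1 : ℂ)) = -1 by ring, Complex.cpow_neg_one]
    rw [e1]

end CM27
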