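import Pool.Agent.MP_ae0bd0_nt.CM.CDefs

set_option autoImplicit false

open Polynomial NumberField IsDedekindDomain
open scoped Classical

namespace CM27

/-! ## [CM-D6] order of the characters (file D6.lean) -/

/-- The number of characters is the degree; if the degree is a power of `2` then so are the orders
of the characters. -/
theorem chars_pow (m : ℕ) [NeZero m] (M : Type) [Field M] [NumberField M]
    [IsCyclotomicExtension {m} ℚ M] (F : IntermediateField ℚ M) (n : ℕ)
    (h : Module.finrank ℚ F = 2 ^ n) (χ : DirichletCharacter ℂ m) (hχ : χ ∈ chars m F) :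
    χ ^ (2 ^ n) = 1 := by
  have hgal : IsGalois ℚ M := IsCyclotomicExtension.isGalois {m} ℚ M
  have hmem : ∀ σ : Gal(M/ℚ), σ ∈ F.fixingSubgroup →
      χ (IsCyclotomicExtension.Rat.galEquivZMod m M σ : (ZMod m)ˣ) = 1 := by
    unfold chars at hχ
    simpa using hχ
  have hidx : F.fixingSubgroup.index = 2 ^ n := by
    have h1 := F.fixingSubgroup.index_mul_card
    have h2 : Nat.card F.fixingSubgroup = Module.finrank F M :=
      IsGalois.card_fixingSubgroup_eq_finrank F
    have h3 : Nat.card Gal(M/ℚ) = Module.finrank ℚ M := IsGalois.card_aut_eq_finrank ℚ M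
    have h4 : Module.finrank ℚ F * Module.finrank F M = Module.finrank ℚ M :=
      Module.finrank_mul_finrank ℚ F M
    rw [h2, h3, ← h4, h] at h1
    have h5 : 0 < Module.finrank F M := Module.finrank_pos
    exact Nat.eq_of_mul_eq_mul_right h5 h1
  let e := IsCyclotomicExtension.Rat.galEquivZMod m M
  have hidx' : (F.fixingSubgroup.map e.toMonoidHom).index = 2 ^ n := by
    rw [← hidx]
    exact Subgroup.index_map_equiv _ e
  ext a
  have h6 := (F.fixingSubgroup.map e.toMonoidHom).pow_index_mem a
  rw [hidx'] at h6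
  obtain ⟨σ, hσ, hσa⟩ := h6
  have h7 := hmem σ hσ
  have h8 : (IsCyclotomicExtension.Rat.galEquivZMod m M σ : (ZMod m)ˣ) = a ^ (2 ^ n) := hσa
  rw [h8, Units.val_pow_eq_pow_val, map_pow] at h7
  rw [MulChar.pow_apply_coe, MulChar.one_apply_coe]
  exact h7

theorem d6_aux (k d : ℕ) (hd : d ∣ 0) (h0 : d = 0) (ψ : DirichletCharacter ℂ d)
    (h : DirichletCharacter.changeLevel hd ψ ^ k = 1) : ψ ^ k = 1 := by
  subst h0
  rw [DirichletCharacter.changeLevel_self] at h
  exact h

theorem primitive_pow {m : ℕ} (χ : DirichletCharacter ℂ m) (k : ℕ) (h : χ ^ k = 1) :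
    χ.primitiveCharacter ^ k = 1 := by
  rcases Nat.eq_zero_or_pos m with hm | hm
  · subst hm
    have h0 : χ.conductor = 0 := DirichletCharacter.conductor_eq_zero_iff_level_eq_zero.2 rfl
    apply d6_aux k χ.conductor χ.conductor_dvd_level h0
    rw [DirichletCharacter.changeLevel_primitiveCharacter]
    exact h
  · have : NeZero m := ⟨hm.ne'⟩
    apply DirichletCharacter.changeLevel_injective χ.conductor_dvd_level
    rw [map_pow, DirichletCharacter.changeLevel_primitiveCharacter, h, map_one]

end CM27
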