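import Pool.Agent.MP_ae0bd0_nt.CM.I1

set_option autoImplicit false

open scoped ComplexConjugate
open scoped Classical

namespace CM27

/-! ## [CM-I2] integrality at the points of odd order (file I2.lean) -/

theorem i2_range_add {a b : ℂ} (ha : a ∈ Set.range emb) (hb : b ∈ Set.range emb) :
    a + b ∈ Set.range emb := by
  obtain ⟨x, rfl⟩ := ha
  obtain ⟨y, rfl⟩ := hb
  exact ⟨x + y, map_add _ _ _⟩

theorem i2_range_intmul (n : ℤ) {a : ℂ} (ha : a ∈ Set.range emb) :
    (n : ℂ) * a ∈ Set.range emb := by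
  obtain ⟨x, rfl⟩ := ha
  exact ⟨(n : Eis) * x, by rw [map_mul, map_intCast]⟩

theorem off_of_odd (N : ℕ) (hN : Odd N) (z : ℂ) (hz : (N : ℂ) * z ∈ Set.range emb)
    (hz0 : z ∉ Set.range emb) : Off z := by
  intro h
  obtain ⟨k, hk⟩ := hN
  apply hz0
  have e : z = (N : ℂ) * z + ((-k : ℤ) : ℂ) * (2 * z) := by
    rw [hk]; push_cast; ring
  rw [e]
  exact i2_range_add hz (i2_range_intmul _ h)

/-- the valuation of `x (2 z)` is strictly greater than that of `x z` if the latter is `> 1` -/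
theorem i2_step (A : ValuationSubring ℂ) (h2 : A.valuation 2 < 1) (X Y : ℂ)
    (h : Y * (4 * X ^ 3 + 1) = X * (X ^ 3 - 2)) (hX : 1 < A.valuation X) :
    A.valuation X < A.valuation Y := by
  set v := A.valuation with hv
  have hX0 : (0 : A.ValueGroup) < v X := lt_trans zero_lt_one hX
  have hX3 : 1 < v X ^ 3 := one_lt_pow₀ hX (by norm_num)
  have h3 : v (X ^ 3 - 2) = v X ^ 3 := by
    rw [← map_pow]
    apply Valuation.map_sub_eq_of_lt_left
    rw [map_pow]
    exact lt_trans h2 hX3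
  have h4 : v (4 * X ^ 3 + 1) < v X ^ 3 := by
    refine Valuation.map_add_lt _ ?_ (by rw [map_one]; exact hX3)
    rw [map_mul, map_pow]
    have h5 : v 4 < 1 := by
      have e : (4 : ℂ) = 2 * 2 := by norm_num
      rw [e, map_mul]
      calc v 2 * v 2 ≤ v 2 * 1 := mul_le_mul_right h2.le _
        _ < 1 := by rw [mul_one]; exact h2
    calc v 4 * v X ^ 3 < 1 * v X ^ 3 := mul_lt_mul_of_pos_right h5 (lt_trans zero_lt_one hX3)
      _ = v X ^ 3 := one_mul _
  have h5 := congrArg v h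
  rw [map_mul, map_mul, h3] at h5
  by_contra hn
  push Not at hn
  have h6 : v Y * v (4 * X ^ 3 + 1) < v X * v X ^ 3 := by
    calc v Y * v (4 * X ^ 3 + 1) ≤ v X * v (4 * X ^ 3 + 1) := mul_le_mul_left hn _
      _ < v X * v X ^ 3 := mul_lt_mul_of_pos_left h4 hX0
  rw [h5] at h6
  exact lt_irrefl _ h6

theorem x_val (A : ValuationSubring ℂ) (h2 : A.valuation 2 < 1) (x : ℂ → ℂ)
    (hper : ∀ z a, x (z + emb a) = x z)
    (hdup : ∀ z, Off z → x (2 * z) * (4 * x z ^ 3 + 1) = x z * (x z ^ 3 - 2))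
    (N : ℕ) (hN : Odd N) (z : ℂ) (hz : (N : ℂ) * z ∈ Set.range emb) (hz0 : z ∉ Set.range emb) :
    A.valuation (x z) ≤ 1 := by
  by_contra hx
  push Not at hx
  -- the points `2 ^ k z`
  have key : ∀ k : ℕ, (N : ℂ) * (2 ^ k * z) ∈ Set.range emb ∧ 2 ^ k * z ∉ Set.range emb ∧
      A.valuation (x z) ≤ A.valuation (x (2 ^ k * z)) ∧
      (0 < k → A.valuation (x z) < A.valuation (x (2 ^ k * z))) := by
    intro k
    induction k with
    | zero => simp [hz, hz0]
    | succ k ih =>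
      obtain ⟨i1, i2, i3, i4⟩ := ih
      have hoff := off_of_odd N hN _ i1 i2
      have e : (2 : ℂ) ^ (k + 1) * z = 2 * (2 ^ k * z) := by ring
      have hlt := i2_step A h2 _ _ (hdup _ hoff) (lt_of_lt_of_le hx i3)
      rw [e]
      refine ⟨?_, ?_, ?_, ?_⟩
      · have e2 : (N : ℂ) * (2 * (2 ^ k * z)) = ((2 : ℤ) : ℂ) * ((N : ℂ) * (2 ^ k * z)) := by
          push_cast; ring
        rw [e2]
        exact i2_range_intmul _ i1
      · exact hoff
      · exact i3.trans hlt.le
      · intro _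
        exact lt_of_le_of_lt i3 hlt
  have hN0 : 0 < N := hN.pos
  have hco : Nat.Coprime 2 N := (Nat.coprime_two_left).2 hN
  have hphi := Nat.ModEq.pow_totient hco
  have hpos : 0 < N.totient := Nat.totient_pos.2 hN0
  obtain ⟨c, hc⟩ := (Nat.modEq_iff_dvd' (Nat.one_le_two_pow)).1 hphi.symm
  have h5 : (2 : ℂ) ^ N.totient = N * c + 1 := by
    have h6 : 2 ^ N.totient = N * c + 1 := by
      have := Nat.one_le_two_pow (n := N.totient)
      omega
    exact_mod_cast congrArg (Nat.cast : ℕ → ℂ) h6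
  have h7 : x (2 ^ N.totient * z) = x z := by
    obtain ⟨a, ha⟩ := i2_range_intmul (c : ℤ) hz
    have e : (2 : ℂ) ^ N.totient * z = z + emb a := by
      rw [ha, h5]; push_cast; ring
    rw [e, hper]
  have h8 := (key N.totient).2.2.2 hpos
  rw [h7] at h8
  exact lt_irrefl _ h8

/-- If `y² = 4 x³ + 1` with `x` integral, then `y` is a unit and `3 x² / y` is integral. -/
theorem val_slope (A : ValuationSubring ℂ) (h2 : A.valuation 2 < 1) (x y : ℂ)
    (hx : A.valuation x ≤ 1) (h : y ^ 2 = 4 * x ^ 3 + 1) :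
    A.valuation y = 1 ∧ A.valuation (3 * x ^ 2 / y) ≤ 1 := by
  set v := A.valuation with hv
  have h4 : v 4 < 1 := by
    have e : (4 : ℂ) = 2 * 2 := by norm_num
    rw [e, map_mul]
    calc v 2 * v 2 ≤ v 2 * 1 := mul_le_mul_right h2.le _
      _ < 1 := by rw [mul_one]; exact h2
  have h5 : v (4 * x ^ 3) < 1 := by
    rw [map_mul, map_pow]
    calc v 4 * v x ^ 3 ≤ v 4 * 1 := mul_le_mul_right (pow_le_one₀ zero_le hx) _
      _ < 1 := by rw [mul_one]; exact h4
  have h6 : v (4 * x ^ 3 + 1) = 1 := by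
    have := Valuation.map_add_eq_of_lt_right v (x := 4 * x ^ 3) (y := 1) (by rw [map_one]; exact h5)
    rw [this, map_one]
  have hy : v y = 1 := by
    have h7 := congrArg v h
    rw [map_pow, h6] at h7
    exact (pow_eq_one_iff.1 h7).resolve_right (by norm_num)
  refine ⟨hy, ?_⟩
  rw [map_div₀, hy, div_one, map_mul, map_pow]
  have h3 : v 3 ≤ 1 := by
    have := i1_val_int A 3
    push_cast at this
    exact this
  exact mul_le_one' h3 (pow_le_one₀ zero_le hx)

end CM27
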