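import Pool.Agent.MP_ae0bd0_nt.CM.B6

set_option autoImplicit false

open scoped ComplexConjugate

namespace CM27

/-! ## [CM-B7] there are infinitely many good primes (file B7.lean; uses B6, A1, A3) -/

theorem b7_cube_inj (p : ℕ) [Fact p.Prime] (h : p % 3 = 2) (x y : ZMod p) (hxy : x ^ 3 = y ^ 3) :
    x = y := by
  have key : ∀ z : ZMod p, (z ^ 3) ^ ((2 * p - 1) / 3) = z := by
    intro z
    have h1 : 3 * ((2 * p - 1) / 3) = p + (p - 1) := by omega
    have hp1 : p - 1 + 1 = p := by omega
    rw [← pow_mul, h1, pow_add, ZMod.pow_card]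
    calc z * z ^ (p - 1) = z ^ (p - 1 + 1) := by rw [pow_succ]; ring
      _ = z := by rw [hp1, ZMod.pow_card]
  rw [← key x, ← key y, hxy]

theorem b7_inert_dvd (p : ℕ) (hp : p.Prime) (h : p % 3 = 2) (a : Eis) (hd : (p : ℤ) ∣ a.norm) :
    (p : ℤ) ∣ a.re ∧ (p : ℤ) ∣ a.im := by
  haveI : Fact p.Prime := ⟨hp⟩
  rw [norm_eq] at hd
  have h1 : ((a.re : ZMod p)) ^ 2 - a.re * a.im + (a.im : ZMod p) ^ 2 = 0 := by
    have := (ZMod.intCast_zmod_eq_zero_iff_dvd _ p).2 hd
    push_cast at this
    exact this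
  have h2 : (a.re : ZMod p) ^ 3 = (-(a.im : ZMod p)) ^ 3 := by
    have h3 : (a.re : ZMod p) ^ 3 - (-(a.im : ZMod p)) ^ 3
        = ((a.re : ZMod p) + a.im) * ((a.re : ZMod p) ^ 2 - a.re * a.im + (a.im : ZMod p) ^ 2) := by
      ring
    rw [h1, mul_zero] at h3
    exact sub_eq_zero.1 h3
  have h3 := b7_cube_inj p h _ _ h2
  have h4 : (3 : ZMod p) * (a.im : ZMod p) ^ 2 = 0 := by
    rw [h3] at h1
    linear_combination h1
  have h5 : (3 : ZMod p) ≠ 0 := by
    intro h6
    have h7 : ((3 : ℕ) : ZMod p) = 0 := by exact_mod_cast h6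
    rw [ZMod.natCast_eq_zero_iff] at h7
    have h8 := (Nat.prime_dvd_prime_iff_eq hp Nat.prime_three).1 h7
    omega
  have h6 : (a.im : ZMod p) = 0 := by
    rcases mul_eq_zero.1 h4 with h | h
    · exact absurd h h5
    · exact pow_eq_zero_iff (two_ne_zero) |>.1 h
  have h7 : (a.re : ZMod p) = 0 := by rw [h3, h6, neg_zero]
  exact ⟨(ZMod.intCast_zmod_eq_zero_iff_dvd _ p).1 h7, (ZMod.intCast_zmod_eq_zero_iff_dvd _ p).1 h6⟩

theorem b7_even_dvd (a : Eis) (hd : ¬ Odd a.norm) : (2 : Eis) ∣ a := by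
  rw [Int.not_odd_iff_even] at hd
  have h1 : ((2 : ℕ) : ℤ) ∣ a.norm := by exact_mod_cast hd.two_dvd
  obtain ⟨⟨c, hc⟩, ⟨d, hd'⟩⟩ := b7_inert_dvd 2 Nat.prime_two (by norm_num) a h1
  refine ⟨⟨c, d⟩, ?_⟩
  have h3 : (2 : Eis).re = 2 := rfl
  have h4 : (2 : Eis).im = 0 := rfl
  ext
  · simp [h3, h4]; exact_mod_cast hc
  · simp [h3, h4]; exact_mod_cast hd'

theorem b7_primary_one : Primary 1 := ⟨0, by simp⟩

theorem b7_primary_cancel {a b : Eis} (ha : Primary a) (hab : Primary (a * b)) : Primary b := by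
  obtain ⟨c, hc⟩ := ha
  obtain ⟨d, hd⟩ := hab
  refine ⟨d - c * b, ?_⟩
  linear_combination hd - b * hc

theorem b7_norm_mod (a : Eis) (ha : Primary a) : a.norm % 3 = 1 := by
  rw [primary_iff] at ha
  obtain ⟨h1, h2⟩ := ha
  obtain ⟨c, hc⟩ : (3 : ℤ) ∣ a.im := Int.dvd_of_emod_eq_zero h2
  obtain ⟨d, hd⟩ : (3 : ℤ) ∣ a.re - 1 := Int.dvd_of_emod_eq_zero (by omega)
  have hd' : a.re = 3 * d + 1 := by omega
  rw [norm_eq, hc, hd']
  have : (3 * d + 1) ^ 2 - (3 * d + 1) * (3 * c) + (3 * c) ^ 2
      = 1 + 3 * (3 * d ^ 2 + 2 * d - (3 * d + 1) * c + 3 * c ^ 2) := by ring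
  rw [this]
  omega

theorem b7_key (n : ℕ) : ∀ a : Eis, Primary a → a.norm.natAbs = n → Odd a.norm →
    (∀ p : ℕ, GoodPrime p → ¬ (p : ℤ) ∣ a.norm) → (2 : Eis) ∣ a - 1 := by
  induction n using Nat.strong_induction_on with
  | _ n ih =>
  intro a ha hn hodd hgood
  haveI := eis_isDomain
  haveI := eis_pid
  have hnn := norm_nonneg' a
  by_cases h1 : n = 1
  · have h2 : a.norm = 1 := by omega
    have h3 : IsUnit a := (eis_isUnit_iff a).2 h2
    have h4 : a = 1 := primary_unique 1 a b7_primary_one h3 (by rwa [mul_one])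
    rw [h4]; simp
  · have hn0 : n ≠ 0 := by
      intro h0
      have : a.norm = 0 := by omega
      rw [this] at hodd
      exact absurd hodd (by decide)
    set p := n.minFac with hpdef
    have hp : p.Prime := Nat.minFac_prime h1
    have hpn : p ∣ n := Nat.minFac_dvd n
    have hpa : (p : ℤ) ∣ a.norm := by
      rw [Int.natCast_dvd, hn]; exact hpn
    have hmod := b7_norm_mod a ha
    have hp3 : p ≠ 3 := by
      intro h3
      rw [h3] at hpa
      have : (3 : ℤ) ∣ a.norm := by exact_mod_cast hpa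
      omega
    have hp2 : p ≠ 2 := by
      intro h2
      rw [h2] at hpa
      have h4 : (2 : ℤ) ∣ a.norm := by exact_mod_cast hpa
      rcases hodd with ⟨k, hk⟩
      omega
    have hpodd : Odd p := hp.odd_of_ne_two hp2
    have hp0 : p % 3 ≠ 0 := by
      intro h0
      have := (Nat.prime_dvd_prime_iff_eq Nat.prime_three hp).1 (Nat.dvd_of_mod_eq_zero h0)
      exact hp3 this.symm
    have hpcases : p % 3 = 1 ∨ p % 3 = 2 := by omega
    -- the common end
    have finish : ∀ r b : Eis, Primary r → (2 : Eis) ∣ r - 1 → a = r * b → 1 < r.norm →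
        (2 : Eis) ∣ a - 1 := by
      intro r b hr hr2 hab hrn
      have hb : Primary b := b7_primary_cancel hr (hab ▸ ha)
      have hnm : a.norm = r.norm * b.norm := by rw [hab, map_mul]
      have hbn := norm_nonneg' b
      have hb0 : 0 < b.norm := by
        rcases hbn.lt_or_eq with h | h
        · exact h
        · exfalso
          rw [← h, mul_zero] at hnm
          omega
      have hlt : b.norm.natAbs < n := by
        have : b.norm < a.norm := by rw [hnm]; nlinarith
        omega
      have hbodd : Odd b.norm := by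
        rw [hnm] at hodd
        exact (Int.odd_mul.1 hodd).2
      have hbgood : ∀ p : ℕ, GoodPrime p → ¬ (p : ℤ) ∣ b.norm := fun q hq hqb =>
        hgood q hq (hnm ▸ Dvd.dvd.mul_left hqb _)
      obtain ⟨c, hc⟩ := ih _ hlt b hb rfl hbodd hbgood
      obtain ⟨d, hd⟩ := hr2
      refine ⟨r * c + d, ?_⟩
      rw [hab]
      linear_combination r * hc + hd
    rcases hpcases with hpc | hpc
    · -- split
      obtain ⟨π, hπ, hπn⟩ := exists_primary_prime p hp hpc
      have hirr : ∀ r : Eis, r.norm = p → Prime r := by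
        intro r hr
        rw [← irreducible_iff_prime]
        constructor
        · intro hu
          have := (eis_isUnit_iff r).1 hu
          rw [hr] at this
          have h7 := hp.one_lt
          omega
        · intro x y hxy
          have h8 : x.norm * y.norm = p := by rw [← map_mul, ← hxy, hr]
          have hx := norm_nonneg' x
          have hy := norm_nonneg' y
          have h9 : x.norm.natAbs * y.norm.natAbs = p := by
            rw [← Int.natAbs_mul, h8]; simp
          rcases Nat.dvd_prime hp |>.1 (Dvd.intro _ h9) with h | h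
          · left
            rw [eis_isUnit_iff]; omega
          · right
            rw [h] at h9
            have h10 : y.norm.natAbs = 1 := by
              have := hp.pos
              exact Nat.eq_of_mul_eq_mul_left this (by rw [h9, mul_one])
            rw [eis_isUnit_iff]; omega
      have hbad : ¬ GoodPrime p := fun hg => hgood p hg hpa
      have hcube : ∃ x : ZMod p, x ^ 3 = 2 := by
        by_contra hcon
        exact hbad ⟨hp, hpc, hcon⟩
      have hred : ∀ r : Eis, Primary r → r.norm = p → (2 : Eis) ∣ r - 1 := by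
        intro r hr hrn
        apply b7_even_dvd
        intro hodd'
        exact (norm_odd_iff p hp hpc r hr hrn).1 hodd' hcube
      have hstarn : (star π).norm = p := by rw [QuadraticAlgebra.norm_star, hπn]
      have hdiv : π ∣ a ∨ star π ∣ a := by
        have hmul : ∀ x : Eis, x * star x = ((x.norm : ℤ) : Eis) := by
          intro x
          have h := QuadraticAlgebra.algebraMap_norm_eq_mul_star x
          rw [← h]
          rfl
        have h11 : π ∣ a * star a := by
          rw [hmul]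
          obtain ⟨k, hk⟩ := hpa
          rw [hk]
          push_cast
          refine Dvd.dvd.mul_right ?_ _
          have h12 : π * star π = ((p : ℕ) : Eis) := by
            rw [hmul, hπn]; push_cast; rfl
          exact ⟨star π, h12.symm⟩
        rcases (hirr π hπn).dvd_or_dvd h11 with h | h
        · exact Or.inl h
        · right
          obtain ⟨c, hc⟩ := h
          refine ⟨star c, ?_⟩
          have := congrArg star hc
          rw [star_star, star_mul] at this
          rw [this, mul_comm]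
      have h1p : (1 : ℤ) < (p : ℤ) := by exact_mod_cast hp.one_lt
      rcases hdiv with ⟨b, hb⟩ | ⟨b, hb⟩
      · exact finish π b hπ (hred π hπ hπn) hb (by rw [hπn]; exact h1p)
      · exact finish (star π) b (Primary.star hπ) (hred _ (Primary.star hπ) hstarn) hb
          (by rw [hstarn]; exact h1p)
    · -- inert
      obtain ⟨⟨c, hc⟩, ⟨d, hd⟩⟩ := b7_inert_dvd p hp hpc a hpa
      have hre : ((-(p : ℤ) : ℤ) : Eis).re = -(p : ℤ) := rfl
      have him : ((-(p : ℤ) : ℤ) : Eis).im = 0 := rfl
      have hab : a = ((-(p : ℤ) : ℤ) : Eis) * (⟨-c, -d⟩ : Eis) := by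
        ext
        · rw [QuadraticAlgebra.re_mul, hre, him, hc]; ring
        · rw [QuadraticAlgebra.im_mul, hre, him, hd]; ring
      refine finish _ _ ?_ ?_ hab ?_
      · rw [primary_iff, hre, him]
        refine ⟨?_, rfl⟩
        omega
      · obtain ⟨k, hk⟩ := hpodd
        refine ⟨((-(k : ℤ) - 1 : ℤ) : Eis), ?_⟩
        have : (-(p : ℤ)) = 2 * (-(k : ℤ) - 1) + 1 := by omega
        rw [this]
        push_cast
        ring
      · rw [norm_eq, hre, him]
        have h1p : (1 : ℤ) < (p : ℤ) := by exact_mod_cast hp.one_lt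
        nlinarith

theorem infinite_good : {p : ℕ | GoodPrime p}.Infinite := by
  intro hfin
  set S := hfin.toFinset with hS
  set P : ℕ := ∏ p ∈ S, p with hP
  have hmem : ∀ p, p ∈ S ↔ GoodPrime p := by
    intro p; rw [hS, Set.Finite.mem_toFinset]; rfl
  have hPodd : Odd P := by
    rw [hP]
    apply Finset.prod_induction _ Odd (fun a b => Odd.mul) odd_one
    intro p hp
    have h := (hmem p).1 hp
    apply h.1.odd_of_ne_two
    intro h2
    have := h.2.1
    omega
  obtain ⟨k, hk⟩ := hPodd
  have hnorm : (⟨1 - 3 * (P : ℤ), 3 * P⟩ : Eis).norm = 27 * (P : ℤ) ^ 2 - 9 * P + 1 := by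
    rw [norm_eq]; ring
  have hprim : Primary (⟨1 - 3 * (P : ℤ), 3 * P⟩ : Eis) := by
    rw [primary_iff]
    dsimp only
    omega
  have hodd : Odd (⟨1 - 3 * (P : ℤ), 3 * P⟩ : Eis).norm := by
    rw [hnorm]
    have hk' : (P : ℤ) = 2 * k + 1 := by exact_mod_cast hk
    rw [hk']
    refine ⟨54 * (k : ℤ) ^ 2 + 45 * k + 9, ?_⟩
    ring
  have hgood : ∀ p : ℕ, GoodPrime p → ¬ (p : ℤ) ∣ (⟨1 - 3 * (P : ℤ), 3 * P⟩ : Eis).norm := by
    intro p hp hd
    rw [hnorm] at hd
    have hpP : (p : ℤ) ∣ (P : ℤ) := by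
      exact_mod_cast Finset.dvd_prod_of_mem (fun p => p) ((hmem p).2 hp)
    have h1 : (p : ℤ) ∣ 1 := by
      have h2 : (1 : ℤ) = (27 * (P : ℤ) ^ 2 - 9 * P + 1) - P * (27 * P - 9) := by ring
      rw [h2]
      exact dvd_sub hd (Dvd.dvd.mul_right hpP _)
    have h3 := Int.eq_one_of_dvd_one (by positivity) h1
    have h4 := hp.1.one_lt
    omega
  obtain ⟨c, hc⟩ := b7_key _ _ hprim rfl hodd hgood
  have h5 := congrArg QuadraticAlgebra.im hc
  have h3 : (2 : Eis).re = 2 := rfl
  have h4 : (2 : Eis).im = 0 := rfl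
  simp only [QuadraticAlgebra.im_sub, QuadraticAlgebra.im_mul, QuadraticAlgebra.im_one, h3, h4] at h5
  omega

end CM27
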