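import Pool.Agent.MP_ae0bd0_nt.CM.I3
import Pool.Agent.MP_ae0bd0_nt.CM.B7

set_option autoImplicit false

open scoped ComplexConjugate
open scoped Classical

namespace CM27

/-! ## [CM-I4] the level `m` (file I4.lean; uses I3) -/

theorem i4_off (g x : Eis) (hg0 : g ≠ 0) : Off (emb (1 + 3 * x) / (3 * emb g)) := by
  rintro ⟨a, ha⟩
  have hg : emb g ≠ 0 := by
    intro h
    exact hg0 (emb_injective (by rw [h, map_zero]))
  have h1 : emb (3 * g * a) = emb (2 * (1 + 3 * x)) := by
    rw [map_mul, map_mul, map_mul, ha, map_ofNat, map_ofNat]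
    field_simp
  have h2 := emb_injective h1
  have h3 : (3 : Eis).re = 3 := rfl
  have h4 : (3 : Eis).im = 0 := rfl
  have h5 : (2 : Eis).re = 2 := rfl
  have h6 : (2 : Eis).im = 0 := rfl
  have h7 := congrArg QuadraticAlgebra.re h2
  simp only [QuadraticAlgebra.re_mul, QuadraticAlgebra.re_add, QuadraticAlgebra.im_mul,
    QuadraticAlgebra.im_add, QuadraticAlgebra.re_one, QuadraticAlgebra.im_one, h3, h4, h5, h6] at h7
  ring_nf at h7
  omega

theorem i4_summand (g x k : Eis) (hg0 : g ≠ 0) :
    (if IsCoprime (1 + 3 * (x + g * k)) g then lam (emb (1 + 3 * (x + g * k)) / (3 * emb g))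
      else 0) =
    (if IsCoprime (1 + 3 * x) g then lam (emb (1 + 3 * x) / (3 * emb g)) else 0) := by
  have hg : emb g ≠ 0 := by
    intro h
    exact hg0 (emb_injective (by rw [h, map_zero]))
  have e : 1 + 3 * (x + g * k) = 1 + 3 * x + g * (3 * k) := by ring
  rw [e]
  have hc : IsCoprime (1 + 3 * x + g * (3 * k)) g ↔ IsCoprime (1 + 3 * x) g :=
    IsCoprime.add_mul_left_left_iff
  simp only [hc]
  split_ifs with h
  · have e2 : emb (1 + 3 * x + g * (3 * k)) / (3 * emb g) =
        emb (1 + 3 * x) / (3 * emb g) + emb k := by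
      rw [map_add _ (1 + 3 * x), map_mul, map_mul _ 3, map_ofNat]
      field_simp
    rw [e2, lam_add _ (i4_off g x hg0)]
  · rfl

theorem i4_norm_mul (a b : Eis) : (a * b).norm = a.norm * b.norm := map_mul _ _ _

theorem i4_norm_natCast (n : ℕ) : ((n : Eis)).norm = (n : ℤ) ^ 2 := by
  rw [norm_eq]
  simp

theorem i4_mul_star (a : Eis) : a * star a = ((a.norm : ℤ) : Eis) := by
  rw [norm_eq]
  ext
  · simp only [QuadraticAlgebra.re_mul, QuadraticAlgebra.re_star, QuadraticAlgebra.im_star,
      QuadraticAlgebra.re_intCast, Int.cast_id]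
    ring
  · simp only [QuadraticAlgebra.im_mul, QuadraticAlgebra.re_star, QuadraticAlgebra.im_star,
      QuadraticAlgebra.im_intCast]
    ring

/-- coprimality of rational integers can be tested in the Eisenstein integers -/
theorem i4_coprime_int (a b : ℤ) : IsCoprime (a : Eis) (b : Eis) ↔ IsCoprime a b := by
  constructor
  · rintro ⟨u, v, h⟩
    refine ⟨u.re, v.re, ?_⟩
    have h1 := congrArg QuadraticAlgebra.re h
    simpa only [QuadraticAlgebra.re_add, QuadraticAlgebra.re_mul, QuadraticAlgebra.re_intCast,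
      QuadraticAlgebra.im_intCast, QuadraticAlgebra.re_one, mul_zero, add_zero, Int.cast_id]
      using h1
  · intro h
    have := h.map (Int.castRingHom Eis)
    simpa using this

theorem i4_coprime_norm (a : Eis) (m : ℤ) : IsCoprime a (m : Eis) ↔ IsCoprime a.norm m := by
  rw [← i4_coprime_int, ← i4_mul_star]
  constructor
  · intro h
    refine IsCoprime.mul_left h ?_
    have h1 := h.map (starRingEnd Eis)
    have h2 : starRingEnd Eis (m : Eis) = (m : Eis) := map_intCast _ _
    rw [h2] at h1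
    exact h1
  · intro h
    exact h.of_mul_left_left

theorem i4_norm_star (a : Eis) : (star a).norm = a.norm := by
  rw [norm_eq, norm_eq]
  simp only [QuadraticAlgebra.re_star, QuadraticAlgebra.im_star]
  ring

/-- a prime of norm `p`, `p ≡ 1 mod 3`, is coprime to its conjugate -/
theorem i4_coprime_star (p : ℕ) (hp : p.Prime) (h : p % 3 = 1) (a : Eis) (hn : a.norm = p) :
    IsCoprime a (star a) := by
  have hpp : Prime (p : ℤ) := Nat.prime_iff_prime_int.1 hp
  -- the trace is prime to `p`
  have htr : IsCoprime (2 * a.re - a.im) (p : ℤ) := by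
    rw [isCoprime_comm, Prime.coprime_iff_not_dvd hpp]
    intro hd
    have e : 4 * (p : ℤ) = (2 * a.re - a.im) ^ 2 + 3 * a.im ^ 2 := by
      rw [← hn, norm_eq]
      ring
    have h1 : (p : ℤ) ∣ 3 * a.im ^ 2 := by
      have : (p : ℤ) ∣ 4 * (p : ℤ) - (2 * a.re - a.im) ^ 2 :=
        dvd_sub (dvd_mul_left _ _) (dvd_pow hd two_ne_zero)
      rw [e] at this
      simpa using this
    have h3 : ¬ (p : ℤ) ∣ 3 := by
      intro h3
      have h4 : p ∣ 3 := by exact_mod_cast h3
      have h5 := (Nat.prime_dvd_prime_iff_eq hp Nat.prime_three).1 h4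
      rw [h5] at h
      omega
    have h2 : (p : ℤ) ∣ a.im := by
      rcases hpp.dvd_or_dvd h1 with h4 | h4
      · exact absurd h4 h3
      · exact hpp.dvd_of_dvd_pow h4
    have h5 : (p : ℤ) ∣ a.re ^ 2 := by
      have e2 : a.re ^ 2 = p + a.im * (a.re - a.im) := by
        rw [← hn, norm_eq]
        ring
      rw [e2]
      exact dvd_add dvd_rfl (Dvd.dvd.mul_right h2 _)
    have h6 : (p : ℤ) ∣ a.re := hpp.dvd_of_dvd_pow h5
    obtain ⟨u, hu⟩ := h2
    obtain ⟨v, hv⟩ := h6
    have h7 : (p : ℤ) = (p : ℤ) * (p * (v ^ 2 - v * u + u ^ 2)) := by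
      conv_lhs => rw [← hn, norm_eq, hu, hv]
      ring
    have h8 : (p : ℤ) * (v ^ 2 - v * u + u ^ 2) = 1 := by
      have hp0 : (p : ℤ) ≠ 0 := hpp.ne_zero
      apply mul_left_cancel₀ hp0
      rw [← h7, mul_one]
    exact hpp.not_isUnit (IsUnit.of_mul_eq_one _ h8)
  have h1 : IsCoprime ((2 * a.re - a.im : ℤ) : Eis) ((p : ℤ) : Eis) := (i4_coprime_int _ _).2 htr
  have h2 : ((2 * a.re - a.im : ℤ) : Eis) = star a + a * 1 := by
    ext
    · simp only [QuadraticAlgebra.re_intCast, QuadraticAlgebra.re_add, QuadraticAlgebra.re_star,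
        mul_one, Int.cast_id]
      ring
    · simp only [QuadraticAlgebra.im_intCast, QuadraticAlgebra.im_add, QuadraticAlgebra.im_star,
        mul_one]
      ring
  have h3 : ((p : ℤ) : Eis) = a * star a := by rw [i4_mul_star, hn]
  rw [h2, h3] at h1
  have h4 := h1.of_mul_right_left
  exact (IsCoprime.add_mul_left_left_iff.1 h4).symm

theorem i4_pos {m : ℕ} (hm : GoodLevel m) : 0 < m := by
  rcases Nat.eq_zero_or_pos m with h | h
  · exfalso
    have := hm.1
    rw [h] at this
    exact not_squarefree_zero this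
  · exact h

theorem TT_nat (m : ℕ) (hm : GoodLevel m) : TT (m : Eis) =
    ∑ i ∈ Finset.range m, ∑ j ∈ Finset.range m,
      if IsCoprime ((cc i j).norm) (m : ℤ) then lam (emb (cc i j) / (3 * m)) else 0 := by
  have hm0 := i4_pos hm
  have hmE : (m : Eis) ≠ 0 := by
    intro h
    have h1 := congrArg QuadraticAlgebra.re h
    simp at h1
    omega
  have hmre : (m : Eis).re = m := by simp
  have hmim : (m : Eis).im = 0 := by simp
  rw [TT, ← finsum_mem_univ, ← Finset.sum_product', ← finsum_mem_coe_finset]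
  symm
  refine finsum_mem_eq_of_bijOn
    (fun p : ℕ × ℕ => Ideal.Quotient.mk (Ideal.span {(m : Eis)}) (⟨p.1, p.2⟩ : Eis))
    ⟨fun _ _ => Set.mem_univ _, ?_, ?_⟩ ?_
  · rintro ⟨i, j⟩ hij ⟨i', j'⟩ hij' h
    simp only [Finset.coe_product, Finset.coe_range, Set.mem_prod, Set.mem_Iio] at hij hij'
    simp only at h
    rw [Ideal.Quotient.mk_eq_mk_iff_sub_mem, Ideal.mem_span_singleton] at h
    obtain ⟨c, hc⟩ := h
    have h1 := congrArg QuadraticAlgebra.re hc
    have h2 := congrArg QuadraticAlgebra.im hc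
    simp only [QuadraticAlgebra.re_sub, QuadraticAlgebra.im_sub, QuadraticAlgebra.re_mul,
      QuadraticAlgebra.im_mul, hmre, hmim, zero_mul, mul_zero, add_zero] at h1 h2
    have h3 : (m : ℤ) ∣ (i : ℤ) - i' := ⟨c.re, h1⟩
    have h4 : (m : ℤ) ∣ (j : ℤ) - j' := ⟨c.im, h2⟩
    have h5 : (i : ℤ) - i' = 0 := Int.eq_zero_of_abs_lt_dvd h3 (by rw [abs_lt]; omega)
    have h6 : (j : ℤ) - j' = 0 := Int.eq_zero_of_abs_lt_dvd h4 (by rw [abs_lt]; omega)
    rw [Prod.mk.injEq]
    constructor <;> omega
  · intro d _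
    obtain ⟨a, rfl⟩ := Ideal.Quotient.mk_surjective d
    have hm1 : (0 : ℤ) < m := by exact_mod_cast hm0
    have h1 := Int.emod_nonneg a.re hm1.ne'
    have h2 := Int.emod_nonneg a.im hm1.ne'
    have h3 := Int.emod_lt_of_pos a.re hm1
    have h4 := Int.emod_lt_of_pos a.im hm1
    refine ⟨((a.re % m).toNat, (a.im % m).toNat), ?_, ?_⟩
    · simp only [Finset.coe_product, Finset.coe_range, Set.mem_prod, Set.mem_Iio]
      constructor <;> omega
    · simp only
      rw [Ideal.Quotient.mk_eq_mk_iff_sub_mem, Ideal.mem_span_singleton]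
      refine ⟨⟨-(a.re / m), -(a.im / m)⟩, ?_⟩
      have h5 := Int.emod_add_mul_ediv a.re m
      have h6 := Int.emod_add_mul_ediv a.im m
      ext
      · simp only [QuadraticAlgebra.re_sub, QuadraticAlgebra.re_mul, hmre, hmim,
          Int.toNat_of_nonneg h1, zero_mul, mul_zero, add_zero]
        linarith
      · simp only [QuadraticAlgebra.im_sub, QuadraticAlgebra.im_mul, hmre, hmim,
          Int.toNat_of_nonneg h2, zero_mul, mul_zero, add_zero]
        linarith
  · rintro ⟨i, j⟩ -
    simp only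
    have h : Ideal.Quotient.mk (Ideal.span {(m : Eis)})
        ((Ideal.Quotient.mk (Ideal.span {(m : Eis)}) (⟨i, j⟩ : Eis)).out) =
      Ideal.Quotient.mk (Ideal.span {(m : Eis)}) (⟨i, j⟩ : Eis) := Ideal.Quotient.mk_out _
    rw [Ideal.Quotient.mk_eq_mk_iff_sub_mem, Ideal.mem_span_singleton] at h
    obtain ⟨k, hk⟩ := h
    have hk' : (Ideal.Quotient.mk (Ideal.span {(m : Eis)}) (⟨i, j⟩ : Eis)).out =
        (⟨i, j⟩ : Eis) + (m : Eis) * k := by
      rw [← hk]
      ring
    rw [hk', i4_summand _ _ _ hmE]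
    have h1 : IsCoprime ((cc i j).norm) (m : ℤ) ↔ IsCoprime (1 + 3 * (⟨i, j⟩ : Eis)) (m : Eis) := by
      have := i4_coprime_norm (cc i j) (m : ℤ)
      rw [Int.cast_natCast] at this
      exact this.symm
    simp only [h1, map_natCast]
    rfl

theorem i4_primary_natCast (m : ℕ) (h : m % 3 = 1) : Primary (m : Eis) := by
  rw [primary_iff]
  constructor
  · simp
    omega
  · simp

theorem i4_mod (m : ℕ) (hm : ∀ p, p.Prime → p ∣ m → GoodPrime p) (h0 : m ≠ 0) :
    m % 3 = 1 ∧ m % 2 = 1 := by
  induction m using Nat.recOnMul with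
  | zero => exact absurd rfl h0
  | one => exact ⟨rfl, rfl⟩
  | prime p hp =>
    have h1 := hm p hp dvd_rfl
    refine ⟨h1.2.1, ?_⟩
    rcases hp.eq_two_or_odd with h2 | h2
    · exfalso
      have h3 := h1.2.1
      rw [h2] at h3
      omega
    · exact h2
  | mul a b iha ihb =>
    have ha : a ≠ 0 := left_ne_zero_of_mul h0
    have hb : b ≠ 0 := right_ne_zero_of_mul h0
    obtain ⟨h1, h2⟩ := iha (fun p hp hd => hm p hp (Dvd.dvd.mul_right hd _)) ha
    obtain ⟨h3, h4⟩ := ihb (fun p hp hd => hm p hp (Dvd.dvd.mul_left hd _)) hb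
    constructor
    · rw [Nat.mul_mod, h1, h3]
    · rw [Nat.mul_mod, h2, h4]

theorem TT_level (m : ℕ) (hm : GoodLevel m) : ∃ P : ℂ, TT (m : Eis) = P * lam (1 / 3) ∧
    ∀ A : ValuationSubring ℂ, A.valuation 2 < 1 → A.valuation P = 1 := by
  induction m using Nat.strong_induction_on with
  | _ m ih =>
    rcases Nat.eq_or_lt_of_le (i4_pos hm) with h1 | h1
    · refine ⟨1, ?_, fun A _ => map_one _⟩
      have : m = 1 := h1.symm
      subst this
      rw [Nat.cast_one, TT_one, one_mul]
    · have hp := Nat.minFac_prime (show m ≠ 1 by omega)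
      obtain ⟨m', hm'⟩ := Nat.minFac_dvd m
      set p := m.minFac with hpdef
      have hgood : GoodPrime p := hm.2 p hp ⟨m', hm'⟩
      have hsq := hm.1
      rw [hm'] at hsq
      obtain ⟨hcop, -, hsq'⟩ := Nat.squarefree_mul_iff.1 hsq
      have hlevel : GoodLevel m' :=
        ⟨hsq', fun q hq hd => hm.2 q hq (by rw [hm']; exact Dvd.dvd.mul_left hd _)⟩
      have hm'0 := i4_pos hlevel
      have hlt : m' < m := by
        have := hp.two_le
        rw [hm']
        nlinarith
      obtain ⟨P, hP, hPv⟩ := ih m' hlt hlevel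
      obtain ⟨a, ha, hn⟩ := exists_primary_prime p hp hgood.2.1
      obtain ⟨hmod3, hmod2⟩ := i4_mod m' hlevel.2 hm'0.ne'
      have hp2 : p ≠ 2 := by
        intro h
        have := hgood.2.1
        rw [h] at this
        omega
      have hodd : Odd p := hp.odd_of_ne_two hp2
      have hm'odd : Odd m' := Nat.odd_iff.2 hmod2
      have hcopE : IsCoprime ((m' : ℤ) : Eis) a := by
        rw [isCoprime_comm, i4_coprime_norm, hn]
        exact Nat.isCoprime_iff_coprime.2 hcop
      rw [Int.cast_natCast] at hcopE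
      have hcopE' : IsCoprime ((m' : ℤ) : Eis) (star a) := by
        rw [isCoprime_comm, i4_coprime_norm, i4_norm_star, hn]
        exact Nat.isCoprime_iff_coprime.2 hcop
      rw [Int.cast_natCast] at hcopE'
      have e1 := TT_mul (m' : Eis) a (i4_primary_natCast m' hmod3)
        (by
          rw [i4_norm_natCast]
          exact (by exact_mod_cast hm'odd : Odd (m' : ℤ)).pow) ha p hp hp2 hn hcopE
      have e2 := TT_mul ((m' : Eis) * a) (star a) ((i4_primary_natCast m' hmod3).mul ha)
        (by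
          rw [i4_norm_mul, i4_norm_natCast, hn]
          exact ((by exact_mod_cast hm'odd : Odd (m' : ℤ)).pow).mul (by exact_mod_cast hodd))
        ha.star p hp hp2 (by rw [i4_norm_star, hn])
        (IsCoprime.mul_left hcopE' (i4_coprime_star p hp hgood.2.1 a hn))
      have e3 : (m : Eis) = (m' : Eis) * a * star a := by
        rw [mul_assoc, i4_mul_star, hn]
        conv_lhs => rw [hm']
        push_cast
        ring
      refine ⟨(emb (star a) - 1) * (emb a - 1) * P, ?_, ?_⟩
      · rw [e3, e2, e1, hP]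
        ring
      · intro A hA
        rw [map_mul, map_mul, hPv A hA, mul_one]
        have h3 : A.valuation (emb a - 1) = 1 := by
          have h4 : emb a - 1 = emb (a - 1) := by rw [map_sub, map_one]
          rw [h4]
          exact val_odd_norm A hA _ (good_norm p hgood a ha hn)
        have h5 : A.valuation (emb (star a) - 1) = 1 := by
          have h4 : emb (star a) - 1 = emb (star a - 1) := by rw [map_sub, map_one]
          rw [h4]
          exact val_odd_norm A hA _ (good_norm p hgood (star a) ha.star (by rw [i4_norm_star, hn]))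
        rw [h3, h5, mul_one]

end CM27
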