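import Pool.Agent.MP_ae0bd0_nt.CM.H5
import Pool.Agent.MP_ae0bd0_nt.CM.I2
import Pool.Agent.MP_ae0bd0_nt.CM.I4

set_option autoImplicit false

open scoped ComplexConjugate
open scoped Classical

namespace CM27

/-! ## [CM-I5] non-vanishing (file I5.lean; uses H1, H5, I1, I2, I4) -/

theorem i5_odd (m : ℕ) (hm : GoodLevel m) : Odd m := by
  rw [← Nat.not_even_iff_odd]
  intro h
  have h2 := hm.2 2 Nat.prime_two h.two_dvd
  have h3 := h2.2.1
  omega

theorem i5_three (a : Eis) : (1 : Eis) ≠ 3 * a := by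
  intro h
  have h1 := congrArg QuadraticAlgebra.re h
  have h3 : (3 : Eis).re = 3 := rfl
  have h4 : (3 : Eis).im = 0 := rfl
  simp only [QuadraticAlgebra.re_mul, QuadraticAlgebra.re_one, h3, h4] at h1
  omega

theorem i5_emb_nat (k : ℕ) : emb (k : Eis) = (k : ℂ) := map_natCast emb k

theorem i5_emb_three : emb 3 = 3 := map_ofNat emb 3

/-- the point `emb c / (3 m)` with `c ≡ 1 mod 3` is not a lattice point -/
theorem i5_notmem (m : ℕ) (hm0 : m ≠ 0) (i j : ℕ) :
    emb (cc i j) / (3 * m) ∉ Set.range emb := by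
  rintro ⟨a, ha⟩
  have h3m : (3 * (m : ℂ)) ≠ 0 := by
    have : (m : ℂ) ≠ 0 := by exact_mod_cast hm0
    exact mul_ne_zero (by norm_num) this
  have h1 : emb (cc i j) = emb (3 * (m : Eis) * a) := by
    rw [map_mul, map_mul, i5_emb_three, i5_emb_nat, ha]
    field_simp
  have h2 := emb_injective h1
  have h3 : (1 : Eis) = 3 * ((m : Eis) * a - ⟨i, j⟩) := by
    rw [cc] at h2
    linear_combination h2
  exact i5_three _ h3

theorem i5_third_notmem : (1 / 3 : ℂ) ∉ Set.range emb := by
  have h := i5_notmem 1 one_ne_zero 0 0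
  have h1 : emb (cc 0 0) / (3 * ((1 : ℕ) : ℂ)) = 1 / 3 := by
    have : cc 0 0 = 1 := by
      rw [cc]
      have h0 : (⟨((0 : ℕ) : ℤ), ((0 : ℕ) : ℤ)⟩ : Eis) = 0 := rfl
      rw [h0]; ring
    rw [this, map_one]
    norm_num
  rwa [h1] at h

theorem sum_ne_zero (m : ℕ) (hm : GoodLevel m) (χ : DirichletCharacter ℂ m) (n : ℕ)
    (hχ : χ ^ (2 ^ n) = 1) :
    ∑ i ∈ Finset.range m, ∑ j ∈ Finset.range m,
      chiN χ (cc i j) * lam (emb (cc i j) / (3 * m)) ≠ 0 := by
  obtain ⟨A, h2⟩ := exists_val
  obtain ⟨Ω, hΩ, x, y, hx, hy, hxn, hW⟩ := exists_weier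
  obtain ⟨P, hP, hPA⟩ := TT_level m hm
  have hPA := hPA A h2
  have hmodd := i5_odd m hm
  have hm0 : m ≠ 0 := by rintro rfl; simp at hmodd
  have h3m : (3 * (m : ℂ)) ≠ 0 := by
    have : (m : ℂ) ≠ 0 := by exact_mod_cast hm0
    exact mul_ne_zero (by norm_num) this
  -- the values `lam / Ω` are integral
  have hint : ∀ i j : ℕ, A.valuation (lam (emb (cc i j) / (3 * m)) / Ω) ≤ 1 := by
    intro i j
    set z := emb (cc i j) / (3 * (m : ℂ)) with hzdef
    have hz0 : z ∉ Set.range emb := i5_notmem m hm0 i j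
    have hN : Odd (3 * m) := Odd.mul (by decide) hmodd
    have hz : ((3 * m : ℕ) : ℂ) * z ∈ Set.range emb := by
      refine ⟨cc i j, ?_⟩
      rw [hzdef]; push_cast; field_simp
    have hoff := off_of_odd (3 * m) hN z hz hz0
    obtain ⟨hw1, hw2, -⟩ := hW z hoff
    have hxv := x_val A h2 x hx (fun z hz => (hW z hz).2.2) (3 * m) hN z hz hz0
    obtain ⟨hs1, hs2⟩ := val_slope A h2 (x z) (y z) hxv hw1
    have hy0 : y z ≠ 0 := by
      intro h0; rw [h0, map_zero] at hs1; exact zero_ne_one hs1
    have : lam z / Ω = 3 * x z ^ 2 / y z := by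
      field_simp
      linear_combination hw2
    rw [this]; exact hs2
  -- the value at `1/3` is a unit
  have hthird : A.valuation (lam (1 / 3) / Ω) = 1 := by
    have hN : Odd 3 := by decide
    have hz : ((3 : ℕ) : ℂ) * (1 / 3) ∈ Set.range emb := ⟨1, by rw [map_one]; norm_num⟩
    have hoff := off_of_odd 3 hN (1 / 3) hz i5_third_notmem
    obtain ⟨hw1, hw2, hw3⟩ := hW (1 / 3) hoff
    have hx2 : x (2 * (1 / 3)) = x (1 / 3) := by
      have h := hx (-(1 / 3)) 1
      rw [map_one, hxn] at h
      rw [← h]; congr 1; norm_num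
    rw [hx2] at hw3
    set X := x (1 / 3)
    set Y := y (1 / 3)
    have hX0 : X ≠ 0 := by
      intro h0
      rw [h0] at hw1 hw2
      have hY : Y ≠ 0 := by
        intro h; rw [h] at hw1; norm_num at hw1
      have : lam (1 / 3) = 0 := by
        have h' : lam (1 / 3) * Y = 0 := by rw [hw2]; ring
        exact (mul_eq_zero.1 h').resolve_right hY
      exact lam_third_ne_zero this
    have hX3 : X ^ 3 = -1 := by
      have h1 : 4 * X ^ 3 + 1 = X ^ 3 - 2 := mul_left_cancel₀ hX0 hw3
      linear_combination h1 / 3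
    have hY2 : Y ^ 2 = -3 := by rw [hw1, hX3]; norm_num
    have hY0 : Y ≠ 0 := by
      intro h; rw [h] at hY2; norm_num at hY2
    have v3 : A.valuation (3 : ℂ) = 1 := by
      have := val_odd A h2 3 (by decide)
      simpa using this
    have vX : A.valuation X = 1 := by
      have h1 : A.valuation X ^ 3 = 1 := by
        rw [← map_pow, hX3, Valuation.map_neg, map_one]
      exact (pow_eq_one_iff_of_nonneg zero_le (by norm_num)).1 h1
    have vY : A.valuation Y = 1 := by
      have h1 : A.valuation Y ^ 2 = 1 := by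
        rw [← map_pow, hY2, Valuation.map_neg, v3]
      exact (pow_eq_one_iff_of_nonneg zero_le (by norm_num)).1 h1
    have : lam (1 / 3) / Ω = 3 * X ^ 2 / Y := by
      field_simp
      linear_combination hw2
    rw [this, map_div₀, map_mul, map_pow, v3, vX, vY]; simp
  -- comparison with the sum over the coprime classes
  have hT := TT_nat m hm
  rw [hP] at hT
  intro hS
  have hkey : A.valuation ((∑ i ∈ Finset.range m, ∑ j ∈ Finset.range m,
      (chiN χ (cc i j) * lam (emb (cc i j) / (3 * m)) / Ω -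
        (if IsCoprime ((cc i j).norm) (m : ℤ) then lam (emb (cc i j) / (3 * m)) else 0) / Ω))) < 1 := by
    refine Valuation.map_sum_lt _ one_ne_zero fun i _ => ?_
    refine Valuation.map_sum_lt _ one_ne_zero fun j _ => ?_
    by_cases hc : IsCoprime ((cc i j).norm) (m : ℤ)
    · rw [if_pos hc]
      have h1 : chiN χ (cc i j) * lam (emb (cc i j) / (3 * m)) / Ω -
          lam (emb (cc i j) / (3 * m)) / Ω =
          (chiN χ (cc i j) - 1) * (lam (emb (cc i j) / (3 * m)) / Ω) := by ring
      rw [h1, map_mul]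
      have hunit : IsUnit (((cc i j).norm : ℤ) : ZMod m) := by
        rw [ZMod.coe_int_isUnit_iff_isCoprime]
        exact hc.symm
      have hroot : (chiN χ (cc i j)) ^ 2 ^ n = 1 := by
        rw [chiN]
        have := congrArg (fun f : DirichletCharacter ℂ m => f (((cc i j).norm : ℤ) : ZMod m)) hχ
        simp only [MulChar.one_apply hunit] at this
        rw [← this, MulChar.pow_apply' _ (by positivity)]
      have hv := (val_root A h2 _ n hroot).2
      calc A.valuation (chiN χ (cc i j) - 1) * A.valuation (lam (emb (cc i j) / (3 * m)) / Ω)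
          ≤ A.valuation (chiN χ (cc i j) - 1) * 1 := mul_le_mul_right (hint i j) _
        _ < 1 := by rw [mul_one]; exact hv
    · rw [if_neg hc]
      have hnu : ¬ IsUnit (((cc i j).norm : ℤ) : ZMod m) := by
        rw [ZMod.coe_int_isUnit_iff_isCoprime]
        intro h; exact hc h.symm
      rw [chiN, MulChar.map_nonunit _ hnu]
      simp
  have hsum : (∑ i ∈ Finset.range m, ∑ j ∈ Finset.range m,
      (chiN χ (cc i j) * lam (emb (cc i j) / (3 * m)) / Ω -
        (if IsCoprime ((cc i j).norm) (m : ℤ) then lam (emb (cc i j) / (3 * m)) else 0) / Ω)) =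
      -(P * (lam (1 / 3) / Ω)) := by
    have e1 : (∑ i ∈ Finset.range m, ∑ j ∈ Finset.range m,
        chiN χ (cc i j) * lam (emb (cc i j) / (3 * m))) / Ω = 0 := by rw [hS, zero_div]
    have e2 : (∑ i ∈ Finset.range m, ∑ j ∈ Finset.range m,
        (if IsCoprime ((cc i j).norm) (m : ℤ) then lam (emb (cc i j) / (3 * m)) else 0)) / Ω =
        P * (lam (1 / 3) / Ω) := by rw [← hT]; ring
    simp only [Finset.sum_sub_distrib]
    simp only [← Finset.sum_div]
    rw [e1, e2]; ring
  rw [hsum, Valuation.map_neg, map_mul, hPA, hthird, mul_one] at hkey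
  exact lt_irrefl _ hkey

end CM27
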