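import Pool.Agent.MP_ae0bd0_nt.CM.F4
import Pool.Agent.MP_9ab903_nt.Lent
import Pool.Agent.MP_ae0bd0_nt.CM.I5
import Pool.Agent.MP_ae0bd0_nt.CM.D6

set_option autoImplicit false

open ArithmeticFunction Filter IsDedekindDomain NumberField
open scoped ComplexConjugate

namespace CM27

/-! ## [CM-F5] analytic continuation and non-vanishing of the `L`-function of `E` over `F` -/

theorem LSeries_prod {ι : Type*} (S : Finset ι) (f : ι → ArithmeticFunction ℂ) (s : ℂ)
    (h : ∀ i ∈ S, LSeriesSummable (fun n => f i n) s) :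
    LSeriesSummable (fun n => (∏ i ∈ S, f i) n) s ∧
      LSeries (fun n => (∏ i ∈ S, f i) n) s = ∏ i ∈ S, LSeries (fun n => f i n) s := by
  classical
  induction S using Finset.induction_on with
  | empty =>
    constructor
    · rw [Finset.prod_empty]
      have h1 : (fun n => (1 : ArithmeticFunction ℂ) n) = LSeries.delta :=
        ArithmeticFunction.one_eq_delta
      rw [h1]
      refine summable_of_ne_finset_zero (s := {1}) fun n hn => ?_
      rw [Finset.mem_singleton] at hn
      rw [LSeries.term_delta]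
      simp [hn]
    · rw [Finset.prod_empty, Finset.prod_empty]
      have h1 : (fun n => (1 : ArithmeticFunction ℂ) n) = LSeries.delta :=
        ArithmeticFunction.one_eq_delta
      rw [h1, LSeries_delta]
      rfl
  | insert a S ha ih =>
    obtain ⟨h1, h2⟩ := ih fun i hi => h i (Finset.mem_insert_of_mem hi)
    have h3 := h a (Finset.mem_insert_self a S)
    rw [Finset.prod_insert ha, Finset.prod_insert ha]
    exact ⟨ArithmeticFunction.LSeriesSummable_mul h3 h1, by
      rw [ArithmeticFunction.LSeries_mul' h3 h1, h2]⟩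

theorem GoodLevel.odd {m : ℕ} (hm : GoodLevel m) : Odd m := by
  rw [← Nat.not_even_iff_odd, even_iff_two_dvd]
  intro h
  have := (hm.2 2 Nat.prime_two h).2.1
  norm_num at this

theorem GoodLevel.of_dvd {m d : ℕ} (hm : GoodLevel m) (h : d ∣ m) : GoodLevel d :=
  ⟨hm.1.squarefree_of_dvd h, fun p hp hpd => hm.2 p hp (hpd.trans h)⟩

theorem analytic_part (m : ℕ) [NeZero m] (hm : GoodLevel m) (M : Type) [Field M] [NumberField M]
    [IsCyclotomicExtension {m} ℚ M] (F : IntermediateField ℚ M) (n : ℕ)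
    (h : Module.finrank ℚ F = 2 ^ n) :
    ∃ Lm : ℂ → ℂ, Differentiable ℂ Lm ∧
      (∀ s : ℂ, 3 / 2 < s.re → LSeriesSummable (fun k => ((E F).LFunction k : ℂ)) s ∧
        Lm s = (E F).LSeries s) ∧ Lm 1 ≠ 0 := by
  have key : ∀ χ ∈ chars m F, ∃ Φ : ℂ → ℂ, Differentiable ℂ Φ ∧
      (∀ s : ℂ, 3 / 2 < s.re → LSeriesSummable (fun k => tw χ k) s ∧
        Φ s = LSeries (fun k => tw χ k) s) ∧ Φ 1 ≠ 0 := by
    intro χ hχ
    have h1 : χ ^ 2 ^ n = 1 := chars_pow m M F n h χ hχ
    have h2 : χ.primitiveCharacter ^ 2 ^ n = 1 := primitive_pow χ _ h1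
    have h3 : GoodLevel χ.conductor := hm.of_dvd χ.conductor_dvd_level
    have h4 : (fun k => tw χ k) = coef χ.primitiveCharacter := by
      funext k
      rw [tw_apply, pval, coef]
    obtain ⟨Φ, hΦ, hs, h5⟩ := G_entire h3.odd χ.primitiveCharacter
    refine ⟨Φ, hΦ, ?_, ?_⟩
    · rw [h4]; exact hs
    · rw [h5]
      have h6 : (3 * (χ.conductor : ℂ)) ≠ 0 := by
        have : χ.conductor ≠ 0 := by
          intro h0
          have := h3.odd
          rw [h0] at this
          exact absurd this (by decide)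
        exact mul_ne_zero three_ne_zero (Nat.cast_ne_zero.2 this)
      refine mul_ne_zero (mul_ne_zero (neg_ne_zero.2 (inv_ne_zero h6)) (inv_ne_zero ?_)) ?_
      · exact two_add_ne h3.odd _
      · exact sum_ne_zero _ h3 _ n h2
  choose! Φ hΦ1 hΦ2 hΦ3 using key
  have hLC : (fun k => ((E F).LFunction k : ℂ)) = fun k => (∏ χ ∈ chars m F, tw χ) k := by
    funext k
    rw [← LC_apply, LC_eq m hm M F]
  refine ⟨fun s => ∏ χ ∈ chars m F, Φ χ s, ?_, ?_, ?_⟩
  · exact Differentiable.fun_finsetProd hΦ1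
  · intro s hs
    obtain ⟨h1, h2⟩ := LSeries_prod (chars m F) (fun χ => tw χ) s
      (fun χ hχ => (hΦ2 χ hχ s hs).1)
    rw [hLC]
    refine ⟨h1, ?_⟩
    have h3 : (E F).LSeries s = LSeries (fun k => ((E F).LFunction k : ℂ)) s := rfl
    rw [h3, hLC, h2]
    exact Finset.prod_congr rfl fun χ hχ => (hΦ2 χ hχ s hs).2
  · exact Finset.prod_ne_zero_iff.2 hΦ3

end CM27
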