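import Pool.Agent.MP_ae0bd0_nt.CM.R1

set_option autoImplicit false

open Polynomial NumberField IsDedekindDomain
open scoped Classical

namespace CM27

/-! ## [CM-R2b] action of homomorphisms; no points of order 2 (file R2b.lean) -/

theorem zOf_ptMap {K L : Type} [Field K] [Field L] (f : K →+* L) (P : (E K).toAffine.Point) :
    zOf (ptMap f P) = mapR f (zOf P) := by
  cases P with
  | zero => simp only [ptMap, zOf, map_one]
  | some x y h => simp only [ptMap, zOf, mapR_trip, map_one, map_zero]

theorem r2b_negY {K L : Type} [Field K] [Field L] (f : K →+* L) (x y : K) :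
    (E L).toAffine.negY (f x) (f y) = f ((E K).toAffine.negY x y) := by
  rw [← E_map f]
  exact WeierstrassCurve.Affine.map_negY f x y

theorem r2b_addX {K L : Type} [Field K] [Field L] (f : K →+* L) (x₁ x₂ l : K) :
    (E L).toAffine.addX (f x₁) (f x₂) (f l) = f ((E K).toAffine.addX x₁ x₂ l) := by
  rw [← E_map f]
  exact WeierstrassCurve.Affine.map_addX f x₁ x₂ l

theorem r2b_addY {K L : Type} [Field K] [Field L] (f : K →+* L) (x₁ x₂ y₁ l : K) :
    (E L).toAffine.addY (f x₁) (f x₂) (f y₁) (f l) = f ((E K).toAffine.addY x₁ x₂ y₁ l) := by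
  rw [← E_map f]
  exact WeierstrassCurve.Affine.map_addY f x₁ y₁ x₂ l

theorem r2b_slope {K L : Type} [Field K] [Field L] (f : K →+* L) (x₁ x₂ y₁ y₂ : K) :
    (E L).toAffine.slope (f x₁) (f x₂) (f y₁) (f y₂) = f ((E K).toAffine.slope x₁ x₂ y₁ y₂) := by
  rw [← E_map f]
  exact WeierstrassCurve.Affine.map_slope f x₁ x₂ y₁ y₂

theorem ptMap_add {K L : Type} [Field K] [Field L] (f : K →+* L) (P Q : (E K).toAffine.Point) :
    ptMap f (P + Q) = ptMap f P + ptMap f Q := by
  cases P with
  | zero =>
    have h0 : (WeierstrassCurve.Affine.Point.zero : (E K).toAffine.Point) = 0 := rfl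
    have h1 : ptMap f (0 : (E K).toAffine.Point) = 0 := rfl
    rw [h0, zero_add, h1, zero_add]
  | some x₁ y₁ h₁ =>
    cases Q with
    | zero =>
      have h0 : (WeierstrassCurve.Affine.Point.zero : (E K).toAffine.Point) = 0 := rfl
      have h1 : ptMap f (0 : (E K).toAffine.Point) = 0 := rfl
      rw [h0, add_zero, h1, add_zero]
    | some x₂ y₂ h₂ =>
      by_cases hxy : x₁ = x₂ ∧ y₁ = (E K).toAffine.negY x₂ y₂
      · rw [WeierstrassCurve.Affine.Point.add_of_Y_eq hxy.1 hxy.2]
        have h1 : ptMap f (0 : (E K).toAffine.Point) = 0 := rfl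
        rw [h1]
        symm
        apply WeierstrassCurve.Affine.Point.add_of_Y_eq
        · rw [hxy.1]
        · rw [hxy.2, r2b_negY]
      · rw [WeierstrassCurve.Affine.Point.add_some hxy]
        have hxy' : ¬ (f x₁ = f x₂ ∧ f y₁ = (E L).toAffine.negY (f x₂) (f y₂)) := by
          rintro ⟨h3, h4⟩
          rw [r2b_negY] at h4
          exact hxy ⟨f.injective h3, f.injective h4⟩
        simp only [ptMap]
        rw [WeierstrassCurve.Affine.Point.add_some hxy']
        rw [WeierstrassCurve.Affine.Point.some.injEq]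
        rw [r2b_slope, r2b_addX, r2b_addY]
        exact ⟨rfl, rfl⟩

theorem ptMap_comp {K L M : Type} [Field K] [Field L] [Field M] (f : K →+* L) (g : L →+* M)
    (P : (E K).toAffine.Point) : ptMap g (ptMap f P) = ptMap (g.comp f) P := by
  cases P <;> rfl

theorem ptMap_id {K : Type} [Field K] (P : (E K).toAffine.Point) :
    ptMap (RingHom.id K) P = P := by
  cases P <;> rfl

theorem r2b_no_root {K : Type} [Field K] (hf : Irreducible (cubPoly K)) (x : K) : x ^ 3 ≠ 2 := by
  intro hx
  have h2 : (cubPoly K).natDegree ≠ 1 := by rw [cubPoly_natDegree]; norm_num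
  apply h2
  have hr : (cubPoly K).IsRoot x := by
    rw [Polynomial.IsRoot.def, ← Polynomial.eval₂_id, eval₂_cubPoly, hx, sub_self]
  exact Polynomial.natDegree_eq_of_degree_eq_some (Polynomial.degree_eq_one_of_irreducible_of_root hf hr)

theorem r2b_no_two_torsion {K : Type} [Field K] [CharZero K] [hf : Fact (Irreducible (cubPoly K))]
    {P : (E K).toAffine.Point} (h : P + P = 0) : P = 0 := by
  have h1 : P = -P := eq_neg_of_add_eq_zero_left h
  cases P with
  | zero => rfl
  | some x y hP =>
    exfalso
    rw [WeierstrassCurve.Affine.Point.neg_some, WeierstrassCurve.Affine.Point.some.injEq] at h1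
    have h3 := h1.2
    simp only [WeierstrassCurve.Affine.negY, E] at h3
    have h4 := hP.1
    rw [WeierstrassCurve.Affine.equation_iff] at h4
    simp only [E] at h4
    apply r2b_no_root hf.out (-2 * x)
    have h5 : 2 * y = -1 := by linear_combination h3
    linear_combination (8 : K) * h4 - (2 * (2 * y + 1) : K) * h5

/-- there are no points of order `2`. -/
theorem two_smul_injective {K : Type} [Field K] [CharZero K] [Fact (Irreducible (cubPoly K))]
    {P Q : (E K).toAffine.Point} (h : 2 • P = 2 • Q) : P = Q := by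
  have h1 : (P - Q) + (P - Q) = 0 := by
    have : 2 • (P - Q) = 0 := by rw [smul_sub, h, sub_self]
    rwa [two_nsmul] at this
  exact sub_eq_zero.1 (r2b_no_two_torsion h1)

end CM27
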