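import Pool.Agent.MP_ae0bd0_nt.CM.R1

set_option autoImplicit false

open Polynomial NumberField IsDedekindDomain
open scoped Classical

namespace CM27

/-! ## [CM-R4b] units of `ℚ(∛2)` (file R4b.lean) -/

private theorem r4b_finrank : Module.finrank ℚ (R ℚ) = 3 := by
  rw [(AdjoinRoot.powerBasis' (cubPoly_monic ℚ)).finrank, AdjoinRoot.powerBasis'_dim,
    cubPoly_natDegree]

/-- No two different real embeddings. -/
private theorem r4b_real_unique (φ ψ : R ℚ →+* ℂ) (hφ : ComplexEmbedding.IsReal φ)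
    (hψ : ComplexEmbedding.IsReal ψ) : φ = ψ := by
  have key : ∀ χ : R ℚ →+* ℂ, ComplexEmbedding.IsReal χ →
      ∃ r : ℝ, χ (pr ℚ) = (r : ℂ) ∧ r ^ 3 = 2 := by
    intro χ hχ
    rw [ComplexEmbedding.isReal_iff] at hχ
    have h1 : (starRingEnd ℂ) (χ (pr ℚ)) = χ (pr ℚ) := by
      have := congrArg (fun f : R ℚ →+* ℂ => f (pr ℚ)) hχ
      simpa [ComplexEmbedding.conjugate_coe_eq] using this
    obtain ⟨r, hr⟩ := Complex.conj_eq_iff_real.1 h1
    refine ⟨r, hr, ?_⟩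
    have h2 : χ (pr ℚ) ^ 3 = 2 := by
      rw [← map_pow, pr_pow, map_ofNat]
    rw [hr] at h2
    exact_mod_cast h2
  obtain ⟨r, hr, hr3⟩ := key φ hφ
  obtain ⟨s, hs, hs3⟩ := key ψ hψ
  have hrs : r = s := by
    have hodd : Odd 3 := by decide
    exact hodd.strictMono_pow.injective (hr3.trans hs3.symm)
  apply RingHom.ext
  intro z
  obtain ⟨a, b, c, rfl⟩ := trip_surj z
  simp only [trip, map_add, map_mul, map_pow, eq_ratCast, map_ratCast, hr, hs, hrs]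

private theorem r4b_rank : Units.rank (R ℚ) = 1 := by
  have h1 : InfinitePlace.nrRealPlaces (R ℚ) ≤ 1 := by
    rw [← InfinitePlace.card_real_embeddings]
    apply Fintype.card_le_one_iff_subsingleton.2
    exact ⟨fun a b => Subtype.ext (r4b_real_unique a.1 b.1 a.2 b.2)⟩
  have h2 := InfinitePlace.card_add_two_mul_card_eq_rank (R ℚ)
  rw [r4b_finrank] at h2
  have h3 := InfinitePlace.card_eq_nrRealPlaces_add_nrComplexPlaces (K := R ℚ)
  unfold Units.rank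
  omega

/-- Every unit is `± η ^ k`. -/
private theorem r4b_gen : ∃ η : (𝓞 (R ℚ))ˣ, ∀ u : (𝓞 (R ℚ))ˣ,
    ∃ (k : ℤ), u = η ^ k ∨ u = - η ^ k := by
  have hr := r4b_rank
  let i0 : Fin (Units.rank (R ℚ)) := ⟨0, by omega⟩
  refine ⟨Units.fundSystem (R ℚ) i0, fun u => ?_⟩
  obtain ⟨⟨ζ, e⟩, he, _⟩ := Units.exist_unique_eq_mul_prod (R ℚ) u
  have huniq : ∀ i : Fin (Units.rank (R ℚ)), i = i0 := by
    intro i
    apply Fin.ext
    have := i.2
    simp only [i0]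
    omega
  have hprod : ∏ i, (Units.fundSystem (R ℚ) i) ^ (e i) = (Units.fundSystem (R ℚ) i0) ^ (e i0) := by
    apply Fintype.prod_eq_single
    intro i hi
    exact absurd (huniq i) hi
  simp only at he
  rw [hprod] at he
  refine ⟨e i0, ?_⟩
  have hodd : Odd (Module.finrank ℚ (R ℚ)) := by
    rw [r4b_finrank]
    decide
  rcases Units.torsion_eq_one_or_neg_one_of_odd_finrank hodd ζ with h | h
  · left
    rw [he, h, one_mul]
  · right
    rw [he, h, neg_one_mul]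

private theorem r4b_norm_trip (a b c : ℚ) :
    Algebra.norm ℚ (trip a b c : R ℚ) = a ^ 3 + 2 * b ^ 3 + 4 * c ^ 3 - 6 * a * b * c := by
  have h := norm_trip (K := ℚ) a b c
  convert h
  · rfl
  · rfl
  · exact Subsingleton.elim _ _

private theorem r4b_coe_zpow (u : (𝓞 (R ℚ))ˣ) (k : ℤ) :
    (((u ^ k : (𝓞 (R ℚ))ˣ) : 𝓞 (R ℚ)) : R ℚ) = ((u : 𝓞 (R ℚ)) : R ℚ) ^ k :=
  NumberField.Units.coe_zpow u k

private theorem r4b_trip_sq {K : Type} [Field K] (a b c : K) :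
    (trip a b c) ^ 2 = trip (a ^ 2 + 4 * b * c) (2 * a * b + 2 * c ^ 2)
      (b ^ 2 + 2 * a * c) := by
  have hp := pr_pow K
  simp only [trip, map_add, map_mul, map_pow, map_ofNat]
  linear_combination (2 * algebraMap K (R K) b * algebraMap K (R K) c +
      algebraMap K (R K) c ^ 2 * pr K) * hp

private theorem r4b_pr_sub {K : Type} [Field K] : pr K - 1 = trip (-1 : K) 1 0 := by
  simp only [trip, map_neg, map_one, map_zero]
  ring

private theorem r4b_norm_neg (z : R ℚ) : Algebra.norm ℚ (-z) = - Algebra.norm ℚ z := by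
  obtain ⟨a, b, c, rfl⟩ := trip_surj z
  have : -(trip a b c) = trip (-a) (-b) (-c) := by
    simp only [trip, map_neg]
    ring
  rw [this, r4b_norm_trip, r4b_norm_trip]
  ring

private theorem r4b_norm_zpow (u : (𝓞 (R ℚ))ˣ) (k : ℤ) :
    Algebra.norm ℚ (((u ^ k : (𝓞 (R ℚ))ˣ) : 𝓞 (R ℚ)) : R ℚ) =
      (Algebra.norm ℚ ((u : 𝓞 (R ℚ)) : R ℚ)) ^ k := by
  let f : (𝓞 (R ℚ))ˣ →* ℚˣ := _root_.Units.map ((Algebra.norm ℚ).comp
    ((algebraMap (𝓞 (R ℚ)) (R ℚ)) : (𝓞 (R ℚ)) →* (R ℚ)))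
  have h : ((f (u ^ k) : ℚˣ) : ℚ) = ((f u : ℚˣ) : ℚ) ^ k := by
    rw [map_zpow, Units.val_zpow_eq_zpow_val]
  exact h

private theorem r4b_norm_ne (u : (𝓞 (R ℚ))ˣ) : Algebra.norm ℚ ((u : 𝓞 (R ℚ)) : R ℚ) ≠ 0 := by
  rw [Ne, Algebra.norm_eq_zero_iff]
  exact Units.coe_ne_zero u

/-- A generator of positive norm: every unit of positive norm is a power. -/
private theorem r4b_gen_pos : ∃ η : (𝓞 (R ℚ))ˣ, ∀ u : (𝓞 (R ℚ))ˣ,
    0 < Algebra.norm ℚ ((u : 𝓞 (R ℚ)) : R ℚ) → ∃ (k : ℤ), u = η ^ k := by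
  obtain ⟨η0, h0⟩ := r4b_gen
  have hex : ∃ η : (𝓞 (R ℚ))ˣ, 0 < Algebra.norm ℚ ((η : 𝓞 (R ℚ)) : R ℚ) ∧
      (η = η0 ∨ η = -η0) := by
    rcases lt_or_gt_of_ne (r4b_norm_ne η0) with h | h
    · refine ⟨-η0, ?_, Or.inr rfl⟩
      have : (((-η0 : (𝓞 (R ℚ))ˣ) : 𝓞 (R ℚ)) : R ℚ) = - ((η0 : 𝓞 (R ℚ)) : R ℚ) := by
        rw [_root_.Units.val_neg]
        rfl
      rw [this, r4b_norm_neg]
      linarith
    · exact ⟨η0, h, Or.inl rfl⟩
  obtain ⟨η, hη, hη0⟩ := hex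
  refine ⟨η, fun u hu => ?_⟩
  have h1 : ∃ k : ℤ, u = η ^ k ∨ u = - η ^ k := by
    obtain ⟨k, hk⟩ := h0 u
    refine ⟨k, ?_⟩
    rcases hη0 with rfl | rfl
    · exact hk
    · rcases Int.even_or_odd k with he | ho
      · rw [he.neg_zpow]
        exact hk
      · rw [ho.neg_zpow, neg_neg]
        exact hk.symm
  obtain ⟨k, hk | hk⟩ := h1
  · exact ⟨k, hk⟩
  · exfalso
    have : (((u : (𝓞 (R ℚ))ˣ) : 𝓞 (R ℚ)) : R ℚ) = - (((η ^ k : (𝓞 (R ℚ))ˣ) : 𝓞 (R ℚ)) : R ℚ) := by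
      rw [hk, _root_.Units.val_neg]
      rfl
    rw [this, r4b_norm_neg, r4b_norm_zpow] at hu
    have h2 := zpow_pos hη k
    linarith

private theorem r4b_descent : ∀ (n : ℕ) (A B C D : ℤ), D.natAbs = n →
    A ^ 2 + 4 * B * C = - D ^ 2 → 2 * A * B + 2 * C ^ 2 = D ^ 2 → B ^ 2 + 2 * A * C = 0 → D = 0 := by
  intro n
  induction n using Nat.strong_induction_on with
  | _ n ih =>
    intro A B C D hn h1 h2 h3
    by_contra hD
    have hB : Even B := by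
      have : Even (B ^ 2) := ⟨-(A * C), by linarith⟩
      exact (Int.even_pow.1 this).1
    obtain ⟨B', hB'⟩ := hB
    have hDe : Even D := by
      have : Even (D ^ 2) := ⟨A * B + C ^ 2, by linarith⟩
      exact (Int.even_pow.1 this).1
    obtain ⟨D', hD'⟩ := hDe
    subst hB' hD'
    have hC : Even C := by
      have : Even (C ^ 2) := ⟨D' ^ 2 - A * B', by linarith⟩
      exact (Int.even_pow.1 this).1
    obtain ⟨C', hC'⟩ := hC
    subst hC'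
    have hA : Even A := by
      have : Even (A ^ 2) := ⟨-(8 * B' * C') - 2 * D' ^ 2, by linarith⟩
      exact (Int.even_pow.1 this).1
    obtain ⟨A', hA'⟩ := hA
    subst hA'
    have hlt : D'.natAbs < n := by
      rw [← hn]
      have : D' ≠ 0 := by
        rintro rfl
        exact hD (by norm_num)
      omega
    have := ih D'.natAbs hlt A' B' C' D' rfl (by linarith) (by linarith) (by linarith)
    exact hD (by rw [this]; norm_num)

private theorem r4b_not_square (s : R ℚ) : s ^ 2 ≠ pr ℚ - 1 := by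
  intro h
  obtain ⟨a, b, c, rfl⟩ := trip_surj s
  have h' : trip (a ^ 2 + 4 * b * c) (2 * a * b + 2 * c ^ 2) (b ^ 2 + 2 * a * c) =
      trip (-1 : ℚ) 1 0 := ((r4b_trip_sq a b c).symm.trans h).trans r4b_pr_sub
  obtain ⟨h1, h2, h3⟩ := trip_inj h'
  -- common denominator
  set D : ℤ := a.den * b.den * c.den with hD
  have hD0 : D ≠ 0 := by
    rw [hD]
    have h1 := a.den_nz
    have h2 := b.den_nz
    have h3 := c.den_nz
    positivity
  have ha : ∃ A : ℤ, (A : ℚ) = a * D := ⟨a.num * b.den * c.den, by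
    have := Rat.mul_den_eq_num a
    rw [hD]
    push_cast
    rw [← this]
    ring⟩
  have hb : ∃ B : ℤ, (B : ℚ) = b * D := ⟨b.num * a.den * c.den, by
    have := Rat.mul_den_eq_num b
    rw [hD]
    push_cast
    rw [← this]
    ring⟩
  have hc : ∃ C : ℤ, (C : ℚ) = c * D := ⟨c.num * a.den * b.den, by
    have := Rat.mul_den_eq_num c
    rw [hD]
    push_cast
    rw [← this]
    ring⟩
  obtain ⟨A, hA⟩ := ha
  obtain ⟨B, hB⟩ := hb
  obtain ⟨C, hC⟩ := hc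
  apply hD0
  apply r4b_descent _ A B C D rfl
  · have : (A : ℚ) ^ 2 + 4 * B * C = - D ^ 2 := by
      rw [hA, hB, hC]
      linear_combination (D : ℚ) ^ 2 * h1
    exact_mod_cast this
  · have : 2 * (A : ℚ) * B + 2 * C ^ 2 = D ^ 2 := by
      rw [hA, hB, hC]
      linear_combination (D : ℚ) ^ 2 * h2
    exact_mod_cast this
  · have : (B : ℚ) ^ 2 + 2 * A * C = 0 := by
      rw [hA, hB, hC]
      linear_combination (D : ℚ) ^ 2 * h3
    exact_mod_cast this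

/-- the unit `π - 1` -/
private theorem r4b_unit : ∃ v : (𝓞 (R ℚ))ˣ, ((v : 𝓞 (R ℚ)) : R ℚ) = pr ℚ - 1 := by
  have hp := pr_pow ℚ
  have hint : IsIntegral ℤ (pr ℚ) := by
    refine ⟨X ^ 3 - C 2, by monicity!, ?_⟩
    simp only [eval₂_sub, eval₂_pow, eval₂_X, eval₂_C]
    rw [hp]
    simp
  have h1 : IsIntegral ℤ (pr ℚ - 1) := hint.sub isIntegral_one
  have h2 : IsIntegral ℤ (1 + pr ℚ + pr ℚ ^ 2) := (isIntegral_one.add hint).add (hint.pow 2)
  refine ⟨⟨⟨pr ℚ - 1, h1⟩, ⟨1 + pr ℚ + pr ℚ ^ 2, h2⟩, ?_, ?_⟩, rfl⟩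
  · apply RingOfIntegers.ext
    change (pr ℚ - 1) * (1 + pr ℚ + pr ℚ ^ 2) = 1
    linear_combination hp
  · apply RingOfIntegers.ext
    change (1 + pr ℚ + pr ℚ ^ 2) * (pr ℚ - 1) = 1
    linear_combination hp

theorem cub_units (u : (𝓞 (R ℚ))ˣ) (hu : 0 < Algebra.norm ℚ ((u : 𝓞 (R ℚ)) : R ℚ)) :
    ∃ (j : ℕ) (s : R ℚ), j < 2 ∧ s ≠ 0 ∧ ((u : 𝓞 (R ℚ)) : R ℚ) = (pr ℚ - 1) ^ j * s ^ 2 := by
  obtain ⟨η, hη⟩ := r4b_gen_pos
  obtain ⟨v, hv⟩ := r4b_unit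
  have hvn : 0 < Algebra.norm ℚ ((v : 𝓞 (R ℚ)) : R ℚ) := by
    have e2 : ((v : 𝓞 (R ℚ)) : R ℚ) = trip (-1 : ℚ) 1 0 := hv.trans r4b_pr_sub
    rw [e2, r4b_norm_trip]
    norm_num
  obtain ⟨k, hk⟩ := hη u hu
  obtain ⟨l, hl⟩ := hη v hvn
  have hne : ((η : 𝓞 (R ℚ)) : R ℚ) ≠ 0 := Units.coe_ne_zero η
  have hlodd : Odd l := by
    rw [← Int.not_even_iff_odd]
    rintro ⟨m, hm⟩
    apply r4b_not_square (((η : 𝓞 (R ℚ)) : R ℚ) ^ m)
    rw [← hv, hl, r4b_coe_zpow, hm, zpow_add₀ hne]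
    ring
  rcases Int.even_or_odd k with he | ho
  · obtain ⟨m, hm⟩ := he
    refine ⟨0, ((η : 𝓞 (R ℚ)) : R ℚ) ^ m, by norm_num, zpow_ne_zero _ hne, ?_⟩
    rw [hk, r4b_coe_zpow, hm, zpow_add₀ hne]
    ring
  · obtain ⟨m, hm⟩ := ho.sub_odd hlodd
    refine ⟨1, ((η : 𝓞 (R ℚ)) : R ℚ) ^ m, by norm_num, zpow_ne_zero _ hne, ?_⟩
    have hkl : k = l + (m + m) := by omega
    rw [← hv, hl, hk, r4b_coe_zpow, r4b_coe_zpow, hkl, zpow_add₀ hne, zpow_add₀ hne]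
    ring

end CM27
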