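import Pool.Agent.MP_ae0bd0_nt.CM.R4a
import Pool.Agent.MP_ae0bd0_nt.CM.R4b

set_option autoImplicit false

open Polynomial NumberField IsDedekindDomain
open scoped Classical

namespace CM27

/-! ## [CM-R4c] elements with even valuations (file R4c.lean; uses R4a, R4b) -/

theorem R4c_sq_mul {x y : WithZero (Multiplicative ℤ)} (hy : y ≠ 0) (h : IsSquare (x * y ^ 2)) :
    IsSquare x := by
  obtain ⟨r, hr⟩ := h
  refine ⟨r / y, ?_⟩
  rw [div_mul_div_comm, ← hr, ← pow_two]
  exact (mul_div_cancel_right₀ x (pow_ne_zero 2 hy)).symm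

theorem R4c_not_sq : ¬ IsSquare (WithZero.exp (-1 : ℤ)) := by
  rintro ⟨r, hr⟩
  have hr0 : r ≠ 0 := by
    rintro rfl
    simp at hr
  have h1 := congrArg WithZero.log hr
  rw [WithZero.log_exp, WithZero.log_mul hr0 hr0] at h1
  omega

theorem R4c_pid {A : Type*} [CommRing A] [IsPrincipalIdealRing A]
    [IsDedekindDomain A] (a : A) (ha : a ≠ 0)
    (h : ∀ v : HeightOneSpectrum A, IsSquare (v.intValuation a)) :
    ∃ (u : Aˣ) (s : A), a = u * s ^ 2 := by
  revert ha h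
  induction a using (wellFounded_dvdNotUnit (α := A)).induction with
  | _ a ih =>
    intro ha h
    by_cases hu : IsUnit a
    · exact ⟨hu.unit, 1, by simp⟩
    obtain ⟨p, hp, b, hb⟩ := WfDvdMonoid.exists_irreducible_factor hu ha
    have hp0 : p ≠ 0 := hp.ne_zero
    have hprime : Prime p := hp.prime
    let v : HeightOneSpectrum A := ⟨Ideal.span {p},
      (Ideal.span_singleton_prime hp0).2 hprime, by
        rw [Ne, Ideal.span_singleton_eq_bot]; exact hp0⟩
    have hv : v.intValuation p = WithZero.exp (-1 : ℤ) := v.intValuation_singleton hp0 rfl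
    have hb0 : b ≠ 0 := by rintro rfl; simp at hb; exact ha hb
    have h1 := h v
    rw [hb, map_mul, hv] at h1
    have h2 : p ∣ b := by
      by_contra hnd
      have h3 : v.intValuation b = 1 := by
        have h4 : ¬ v.intValuation b < 1 := by
          rw [v.intValuation_lt_one_iff_mem]
          intro hmem
          exact hnd (Ideal.mem_span_singleton.1 hmem)
        exact le_antisymm (v.intValuation_le_one b) (not_lt.1 h4)
      rw [h3, mul_one] at h1
      exact R4c_not_sq h1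
    obtain ⟨c, hc⟩ := h2
    have hc0 : c ≠ 0 := by rintro rfl; simp at hc; exact hb0 hc
    have e : a = c * p ^ 2 := by rw [hb, hc]; ring
    have hdn : DvdNotUnit c a := by
      refine ⟨hc0, p ^ 2, ?_, e⟩
      intro hh
      exact hp.not_isUnit (isUnit_of_mul_isUnit_left (by rwa [pow_two] at hh))
    obtain ⟨u, s, hs⟩ := ih c hdn hc0 (by
      intro w
      have h5 := h w
      rw [e, map_mul, map_pow] at h5
      exact R4c_sq_mul (w.intValuation_ne_zero p hp0) h5)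
    refine ⟨u, s * p, ?_⟩
    rw [e, hs]; ring

theorem cub_even (z : R ℚ) (hz : z ≠ 0)
    (h : ∀ v : HeightOneSpectrum (𝓞 (R ℚ)), IsSquare (v.valuation (R ℚ) z))
    (hN : 0 < Algebra.norm ℚ z) :
    ∃ (j : ℕ) (s : R ℚ), j < 2 ∧ s ≠ 0 ∧ z = (pr ℚ - 1) ^ j * s ^ 2 := by
  have hpid := cub_pid
  obtain ⟨a, b, hb, hab⟩ := IsFractionRing.div_surjective (A := 𝓞 (R ℚ)) z
  have hb0 : b ≠ 0 := nonZeroDivisors.ne_zero hb
  have hb1 : algebraMap (𝓞 (R ℚ)) (R ℚ) b ≠ 0 := by
    intro h0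
    exact hb0 ((FaithfulSMul.algebraMap_injective (𝓞 (R ℚ)) (R ℚ)) (by rw [h0, map_zero]))
  have ha0 : a ≠ 0 := by
    rintro rfl
    rw [map_zero, zero_div] at hab
    exact hz hab.symm
  have e1 : algebraMap (𝓞 (R ℚ)) (R ℚ) (a * b) = z * (algebraMap (𝓞 (R ℚ)) (R ℚ) b) ^ 2 := by
    rw [map_mul, ← hab]
    field_simp
  obtain ⟨u, s, hs⟩ := R4c_pid (a * b) (mul_ne_zero ha0 hb0) (by
    intro v
    have h1 : v.valuation (R ℚ) (algebraMap (𝓞 (R ℚ)) (R ℚ) (a * b)) = v.intValuation (a * b) :=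
      v.valuation_of_algebraMap _
    rw [← h1, e1, map_mul, map_pow]
    exact (h v).mul (IsSquare.sq _))
  have hs0 : s ≠ 0 := by
    rintro rfl
    simp at hs
    exact hs.elim ha0 hb0
  set S := algebraMap (𝓞 (R ℚ)) (R ℚ) s with hS
  set B := algebraMap (𝓞 (R ℚ)) (R ℚ) b with hB
  have hS0 : S ≠ 0 := by
    intro h0
    exact hs0 ((FaithfulSMul.algebraMap_injective (𝓞 (R ℚ)) (R ℚ)) (by
      rw [← hS, h0, map_zero]))
  have e2 : z = ((u : 𝓞 (R ℚ)) : R ℚ) * (S / B) ^ 2 := by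
    have h3 : z * B ^ 2 = ((u : 𝓞 (R ℚ)) : R ℚ) * S ^ 2 := by
      rw [← e1, hs, map_mul, map_pow]
    rw [div_pow]
    field_simp
    exact h3
  have hq : S / B ≠ 0 := div_ne_zero hS0 hb1
  have hNu : 0 < Algebra.norm ℚ ((u : 𝓞 (R ℚ)) : R ℚ) := by
    rw [e2, map_mul, map_pow] at hN
    have hne : Algebra.norm ℚ (S / B) ≠ 0 := Algebra.norm_ne_zero_iff.2 hq
    have hpos : 0 < (Algebra.norm ℚ (S / B)) ^ 2 := by positivity
    exact (pos_iff_pos_of_mul_pos hN).2 hpos
  obtain ⟨j, t, hj, ht, htu⟩ := cub_units u hNu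
  refine ⟨j, t * (S / B), hj, mul_ne_zero ht hq, ?_⟩
  rw [e2, htu]; ring

end CM27
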