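import Pool.Agent.MP_ae0bd0_nt.CM.RDefs

set_option autoImplicit false

open Polynomial NumberField IsDedekindDomain
open scoped Classical

namespace CM27

/-! ## [CM-R4d] unramified primes (file R4d.lean) -/

/-- The evenness statement for an abstract valuation. -/
theorem even_val_trip {L : Type*} [Field L] (w : Valuation L (WithZero (Multiplicative ℤ)))
    (h2 : w 2 = 1) (h3 : w 3 = 1) (x y r : L) (hr : r ^ 3 = 2) (hxy : y ^ 2 + y = x ^ 3) :
    IsSquare (w (1 + x * r ^ 2)) := by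
  have hr1 : w r = 1 := by
    have h := congrArg w hr
    rw [map_pow, h2] at h
    exact (pow_eq_one_iff_of_nonneg zero_le (by norm_num)).1 h
  have hAB : (1 + x * r ^ 2) * (1 - x * r ^ 2 + x ^ 2 * r ^ 4) = (2 * y + 1) ^ 2 := by
    linear_combination (x ^ 3 * (r ^ 3 + 2)) * hr - 4 * hxy
  have hAB2 : (1 + x * r ^ 2) ^ 2 - (1 - x * r ^ 2 + x ^ 2 * r ^ 4) = 3 * (x * r ^ 2) := by
    ring
  have hwxr : w (x * r ^ 2) = w x := by rw [map_mul, map_pow, hr1, one_pow, mul_one]
  have hwAB := congrArg w hAB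
  rw [map_mul, map_pow] at hwAB
  rcases lt_or_ge 1 (w x) with hx | hx
  · have hA : w (1 + x * r ^ 2) = w x := by
      rw [Valuation.map_add_eq_of_lt_right w (by rw [map_one, hwxr]; exact hx), hwxr]
    have hx2 : w x < w x ^ 2 := by
      rw [sq]
      exact lt_mul_of_one_lt_left (lt_trans zero_lt_one hx) hx
    have hB : w (1 - x * r ^ 2 + x ^ 2 * r ^ 4) = w x ^ 2 := by
      have h4 : w (x ^ 2 * r ^ 4) = w x ^ 2 := by
        rw [map_mul, map_pow, map_pow, hr1, one_pow, mul_one]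
      rw [Valuation.map_add_eq_of_lt_right w, h4]
      rw [h4]
      refine lt_of_le_of_lt (Valuation.map_sub w _ _) ?_
      rw [map_one, hwxr]
      exact max_lt (lt_trans hx hx2) hx2
    rw [hA, hB] at hwAB
    rw [hA]
    have hx0 : w x ≠ 0 := (lt_trans zero_lt_one hx).ne'
    refine ⟨w (2 * y + 1) / w x, ?_⟩
    rw [div_mul_div_comm, ← sq, ← hwAB]
    field_simp
  · have hA : w (1 + x * r ^ 2) ≤ 1 := by
      refine (Valuation.map_add w _ _).trans ?_
      rw [map_one, hwxr]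
      exact max_le le_rfl hx
    have hB : w (1 - x * r ^ 2 + x ^ 2 * r ^ 4) ≤ 1 := by
      refine (Valuation.map_add w _ _).trans (max_le ?_ ?_)
      · refine (Valuation.map_sub w _ _).trans ?_
        rw [map_one, hwxr]
        exact max_le le_rfl hx
      · rw [map_mul, map_pow, map_pow, hr1, one_pow, mul_one]
        exact pow_le_one₀ zero_le hx
    rcases lt_or_eq_of_le hB with hB1 | hB1
    · rcases lt_or_eq_of_le hA with hA1 | hA1
      · exfalso
        have h5 : w (3 * (x * r ^ 2)) < 1 := by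
          rw [← hAB2]
          refine lt_of_le_of_lt (Valuation.map_sub w _ _) (max_lt ?_ hB1)
          rw [map_pow]
          exact pow_lt_one₀ zero_le hA1 (by norm_num)
        rw [map_mul, h3, one_mul] at h5
        have h6 : w (1 + x * r ^ 2) = 1 := by
          rw [Valuation.map_add_eq_of_lt_left w (by rw [map_one]; exact h5), map_one]
        exact hA1.ne h6
      · rw [hA1]; exact ⟨1, by simp⟩
    · rw [hB1, mul_one] at hwAB
      rw [hwAB]
      exact ⟨_, sq _⟩

section Unram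

variable {K : Type} [Field K] [NumberField K] (m : ℕ) [NeZero m] (L : Type) [Field L]
  [NumberField L] [Algebra K L] [IsCyclotomicExtension {m} K L]

theorem m_mem_of_dvd_different (P : Ideal (𝓞 L)) [P.IsPrime]
    (hP : P ∣ differentIdeal (𝓞 K) (𝓞 L)) : (m : 𝓞 L) ∈ P := by
  set ζ := IsCyclotomicExtension.zeta m K L
  have hζ : IsPrimitiveRoot ζ m := IsCyclotomicExtension.zeta_spec m K L
  set z : 𝓞 L := hζ.toInteger with hz
  have hzc : algebraMap (𝓞 L) L z = ζ := rfl
  have hadj : Algebra.adjoin K {algebraMap (𝓞 L) L z} = ⊤ := by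
    rw [hzc]
    exact IsCyclotomicExtension.adjoin_primitive_root_eq_top hζ
  have hmem := aeval_derivative_mem_differentIdeal (𝓞 K) K L z hadj
  have hmem2 : aeval z (derivative (minpoly (𝓞 K) z)) ∈ P := Ideal.dvd_iff_le.1 hP hmem
  have hzm : z ^ m = 1 := by
    apply RingOfIntegers.ext
    have h1 : ζ ^ m = 1 := hζ.pow_eq_one
    change algebraMap (𝓞 L) L (z ^ m) = algebraMap (𝓞 L) L 1
    rw [map_pow, map_one, hzc, h1]
  have hint : IsIntegral (𝓞 K) z := Algebra.IsIntegral.isIntegral z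
  have hdvd : minpoly (𝓞 K) z ∣ X ^ m - 1 := by
    apply minpoly.isIntegrallyClosed_dvd hint
    simp [hzm]
  obtain ⟨g, hg⟩ := hdvd
  have hd := congrArg (fun p => aeval z (derivative p)) hg
  simp only [derivative_sub, derivative_X_pow, derivative_one, sub_zero, derivative_mul, map_add,
    map_mul, minpoly.aeval, zero_mul, add_zero, map_natCast, map_pow, aeval_X] at hd
  have h3 : (m : 𝓞 L) * z ^ (m - 1) ∈ P := by
    rw [hd]
    exact Ideal.mul_mem_right _ _ hmem2
  have h4 : (m : 𝓞 L) * z ^ (m - 1) * z = m := by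
    rw [mul_assoc, ← pow_succ, Nat.sub_add_cancel (Nat.one_le_iff_ne_zero.2 (NeZero.ne m)), hzm,
      mul_one]
  rw [← h4]
  exact Ideal.mul_mem_right _ _ h3

theorem cyc_ram_one (v : HeightOneSpectrum (𝓞 K)) (hv : (m : 𝓞 K) ∉ v.asIdeal)
    (w : HeightOneSpectrum (𝓞 L)) [hw : w.asIdeal.LiesOver v.asIdeal] :
    v.asIdeal.ramificationIdx' w.asIdeal = 1 := by
  by_contra hne
  have hle : v.asIdeal.map (algebraMap (𝓞 K) (𝓞 L)) ≤ w.asIdeal :=
    Ideal.map_le_iff_le_comap.2 (by rw [hw.over])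
  have h2 := (Ideal.ramificationIdx'_ne_one_iff hle).1 hne
  have := v.isMaximal
  have h3 := pow_sub_one_dvd_differentIdeal (𝓞 K) (p := v.asIdeal) w.asIdeal 2 v.ne_bot
    (Ideal.dvd_iff_le.2 h2)
  rw [show 2 - 1 = 1 from rfl, pow_one] at h3
  have h4 := m_mem_of_dvd_different (K := K) m L w.asIdeal h3
  apply hv
  rw [hw.over, Ideal.mem_comap, map_natCast]
  exact h4

end Unram


theorem exists_embedding (m : ℕ) [NeZero m] (M : Type) [Field M] [NumberField M]
    [IsCyclotomicExtension {m} ℚ M] (F : IntermediateField ℚ M) [Fact (Irreducible (cubPoly F))]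
    (L : Type) [Field L] [CharZero L] [Algebra (R ℚ) L] [IsCyclotomicExtension {m} (R ℚ) L] :
    ∃ φ : R F →+* L, ∀ z : R ℚ, φ (mapR (algebraMap ℚ F) z) = algebraMap (R ℚ) L z := by
  have hζM : IsPrimitiveRoot (IsCyclotomicExtension.zeta m ℚ M) m :=
    IsCyclotomicExtension.zeta_spec m ℚ M
  have hζL : IsPrimitiveRoot (IsCyclotomicExtension.zeta m (R ℚ) L) m :=
    IsCyclotomicExtension.zeta_spec m (R ℚ) L
  have hm : 0 < m := Nat.pos_of_ne_zero (NeZero.ne m)
  let f : M →ₐ[ℚ] L := (hζM.powerBasis ℚ).lift (IsCyclotomicExtension.zeta m (R ℚ) L) (by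
    rw [IsPrimitiveRoot.powerBasis_gen, ← cyclotomic_eq_minpoly_rat hζM hm,
      cyclotomic_eq_minpoly_rat hζL hm, minpoly.aeval])
  let ψ : F →+* L := f.toRingHom.comp (algebraMap F M)
  let φ : R F →+* L := AdjoinRoot.lift ψ (algebraMap (R ℚ) L (pr ℚ)) (by
    rw [eval₂_cubPoly, ← map_pow, pr_pow, map_ofNat, sub_self])
  refine ⟨φ, fun z => ?_⟩
  have : φ.comp (mapR (algebraMap ℚ F)) = algebraMap (R ℚ) L := by
    apply AdjoinRoot.ringHom_ext
    · exact Subsingleton.elim _ _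
    · change φ (mapR (algebraMap ℚ F) (pr ℚ)) = algebraMap (R ℚ) L (pr ℚ)
      rw [mapR_pr]
      exact AdjoinRoot.lift_root _
  exact congrArg (fun g : R ℚ →+* L => g z) this

theorem val_natCast_eq_one {K : Type} [Field K] [NumberField K] (w : HeightOneSpectrum (𝓞 K))
    (n : ℕ) (h : (n : 𝓞 K) ∉ w.asIdeal) : w.valuation K (n : K) = 1 := by
  have h1 : w.valuation K (algebraMap (𝓞 K) K (n : 𝓞 K)) = 1 := by
    rw [HeightOneSpectrum.valuation_of_algebraMap]
    exact (w.intValuation_eq_one_iff).2 h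
  rwa [map_natCast] at h1

/-- At the primes of `ℚ(∛2)` which do not divide `6 m`, an element whose image in `F(∛2)` is
`(1 + x π²) t²` has an even valuation. -/
theorem even_unram (m : ℕ) [NeZero m] (M : Type) [Field M] [NumberField M]
    [IsCyclotomicExtension {m} ℚ M] (F : IntermediateField ℚ M) [Fact (Irreducible (cubPoly F))]
    (x y : F) (hxy : y ^ 2 + y = x ^ 3) (z0 : R ℚ) (t : R F) (ht : t ≠ 0)
    (h : mapR (algebraMap ℚ F) z0 = trip 1 0 x * t ^ 2)
    (v : HeightOneSpectrum (𝓞 (R ℚ))) (hv : ((6 * m : ℕ) : 𝓞 (R ℚ)) ∉ v.asIdeal) :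
    IsSquare (v.valuation (R ℚ) z0) := by
  have _ := ht
  let L := CyclotomicField m (R ℚ)
  obtain ⟨φ, hφ⟩ := exists_embedding m M F L
  have hvm : (m : 𝓞 (R ℚ)) ∉ v.asIdeal := fun h1 => hv (by
    rw [Nat.cast_mul]; exact Ideal.mul_mem_left _ _ h1)
  have hv2 : ((2 : ℕ) : 𝓞 (R ℚ)) ∉ v.asIdeal := fun h1 => hv (by
    rw [show 6 * m = 3 * m * 2 by ring, Nat.cast_mul]; exact Ideal.mul_mem_left _ _ h1)
  have hv3 : ((3 : ℕ) : 𝓞 (R ℚ)) ∉ v.asIdeal := fun h1 => hv (by
    rw [show 6 * m = 2 * m * 3 by ring, Nat.cast_mul]; exact Ideal.mul_mem_left _ _ h1)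
  have := v.isMaximal
  obtain ⟨Q, hQm, hQ⟩ := Ideal.exists_maximal_ideal_liesOver_of_isIntegral
    (S := 𝓞 L) v.asIdeal
  have hQ0 : Q ≠ ⊥ := Ideal.ne_bot_of_liesOver_of_ne_bot v.ne_bot Q
  let w : HeightOneSpectrum (𝓞 L) := ⟨Q, hQm.isPrime, hQ0⟩
  have hw : w.asIdeal.LiesOver v.asIdeal := hQ
  have hram := cyc_ram_one m L v hvm w
  have hval := HeightOneSpectrum.valuation_liesOver (K := R ℚ) L v w z0
  rw [hram, pow_one] at hval
  rw [hval, ← hφ, h, map_mul, map_pow, map_mul, map_pow]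
  have hnot : ∀ n : ℕ, (n : 𝓞 (R ℚ)) ∉ v.asIdeal → (n : 𝓞 L) ∉ w.asIdeal := by
    intro n hn h1
    apply hn
    rw [hw.over, Ideal.mem_comap, map_natCast]
    exact h1
  have hw2 : w.valuation L 2 = 1 := by
    simpa using val_natCast_eq_one w 2 (hnot 2 hv2)
  have hw3 : w.valuation L 3 = 1 := by
    simpa using val_natCast_eq_one w 3 (hnot 3 hv3)
  refine IsSquare.mul ?_ ⟨_, sq _⟩
  have htrip : φ (trip 1 0 x) = 1 + φ (algebraMap F (R F) x) * φ (pr F) ^ 2 := by
    simp [trip]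
  rw [htrip]
  apply even_val_trip (w.valuation L) hw2 hw3 _ (φ (algebraMap F (R F) y))
  · rw [← map_pow, pr_pow, map_ofNat]
  · rw [← map_pow, ← map_pow, ← map_pow, ← map_pow, ← hxy, map_add, map_add]

end CM27
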