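import Pool.Agent.MP_ae0bd0_nt.CM.R1

set_option autoImplicit false

open Polynomial NumberField IsDedekindDomain
open scoped Classical

namespace CM27

/-! ## [CM-R5] exclusion of the unit `π - 1` at `2` (file R5.lean) -/

private theorem r5_val_two {F : Type} [Field F] [NumberField F] (v : HeightOneSpectrum (𝓞 F))
    (h2 : (2 : 𝓞 F) ∈ v.asIdeal) (h4 : (2 : 𝓞 F) ∉ v.asIdeal ^ 2) :
    v.valuation F (2 : F) = WithZero.exp (-1 : ℤ) := by
  have e : (2 : F) = algebraMap (𝓞 F) F 2 := (map_ofNat (algebraMap (𝓞 F) F) 2).symm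
  rw [e, HeightOneSpectrum.valuation_of_algebraMap]
  have h1 : v.intValuation (2 : 𝓞 F) ≤ WithZero.exp (-((1 : ℕ) : ℤ)) := by
    rw [v.intValuation_le_pow_iff_mem, pow_one]; exact h2
  have h3 : ¬ v.intValuation (2 : 𝓞 F) ≤ WithZero.exp (-((2 : ℕ) : ℤ)) := by
    rw [v.intValuation_le_pow_iff_mem]; exact h4
  have hne : v.intValuation (2 : 𝓞 F) ≠ 0 := by
    intro h0
    rw [h0] at h3
    exact h3 zero_le
  obtain ⟨n, hn⟩ : ∃ n : ℤ, v.intValuation (2 : 𝓞 F) = WithZero.exp n :=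
    ⟨_, (WithZero.exp_log hne).symm⟩
  rw [hn] at h1 h3 ⊢
  rw [WithZero.exp_le_exp] at h1 h3
  have : n = -1 := by push_cast at h1 h3; omega
  rw [this]

private theorem r5_half {F : Type} [Field F] [NumberField F] (v : HeightOneSpectrum (𝓞 F))
    (hv2 : v.valuation F (2 : F) = WithZero.exp (-1 : ℤ)) (x y : F)
    (h : x ^ 2 = 2 * y) (hy : v.valuation F y ≤ 1) :
    v.valuation F (x / 2) ≤ 1 := by
  rcases eq_or_ne x 0 with rfl | hx
  · simp
  have hxne : v.valuation F x ≠ 0 := (Valuation.ne_zero_iff _).2 hx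
  obtain ⟨n, hn⟩ : ∃ n : ℤ, v.valuation F x = WithZero.exp n :=
    ⟨_, (WithZero.exp_log hxne).symm⟩
  have h1 : v.valuation F x ^ 2 ≤ WithZero.exp (-1 : ℤ) := by
    rw [← map_pow, h, map_mul, hv2]
    calc WithZero.exp (-1 : ℤ) * v.valuation F y ≤ WithZero.exp (-1 : ℤ) * 1 := by gcongr
      _ = _ := mul_one _
  rw [map_div₀, hv2, hn, ← WithZero.exp_sub]
  rw [hn, ← WithZero.exp_nsmul, WithZero.exp_le_exp] at h1
  rw [← WithZero.exp_zero, WithZero.exp_le_exp]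
  simp only [nsmul_eq_mul, Nat.cast_ofNat] at h1
  omega

theorem not_eps {F : Type} [Field F] [NumberField F] (v : HeightOneSpectrum (𝓞 F))
    (h2 : (2 : 𝓞 F) ∈ v.asIdeal) (h4 : (2 : 𝓞 F) ∉ v.asIdeal ^ 2) (x : F) (s : R F) :
    trip 1 0 x ≠ (pr F - 1) * s ^ 2 := by
  intro hs
  obtain ⟨a, b, c, rfl⟩ := trip_surj s
  have hexp : (pr F - 1) * trip a b c ^ 2 =
      trip (-(a ^ 2 + 4 * b * c) + 2 * (b ^ 2 + 2 * a * c))
        ((a ^ 2 + 4 * b * c) - (2 * a * b + 2 * c ^ 2))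
        ((2 * a * b + 2 * c ^ 2) - (b ^ 2 + 2 * a * c)) := by
    have h := pr_pow F
    simp only [trip, map_add, map_sub, map_mul, map_pow, map_neg, map_ofNat]
    generalize algebraMap F (R F) a = a'
    generalize algebraMap F (R F) b = b'
    generalize algebraMap F (R F) c = c'
    generalize pr F = p at h ⊢
    linear_combination (b' ^ 2 + 2 * a' * c' + c' ^ 2 * p ^ 2 + 2 * b' * c' * p
      - 2 * b' * c' - c' ^ 2 * p) * h
  rw [hexp] at hs
  obtain ⟨e1, e2, -⟩ := trip_inj hs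
  have hv2 := r5_val_two v h2 h4
  set w := v.valuation F with hw
  have w2 : w 2 ≤ 1 := by
    rw [hv2, ← WithZero.exp_zero, WithZero.exp_le_exp]; norm_num
  -- there is `k` with `2 ^ k a`, `2 ^ k b`, `2 ^ k c` integral
  have hex : ∀ y : F, ∃ k : ℕ, w (2 ^ k * y) ≤ 1 := by
    intro y
    rcases eq_or_ne y 0 with rfl | hy
    · exact ⟨0, by simp⟩
    have hyne : w y ≠ 0 := (Valuation.ne_zero_iff _).2 hy
    obtain ⟨n, hn⟩ : ∃ n : ℤ, w y = WithZero.exp n := ⟨_, (WithZero.exp_log hyne).symm⟩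
    refine ⟨n.toNat, ?_⟩
    rw [map_mul, map_pow, hv2, hn, ← WithZero.exp_nsmul, ← WithZero.exp_add,
      ← WithZero.exp_zero, WithZero.exp_le_exp]
    simp only [nsmul_eq_mul]
    omega
  have hmono : ∀ (y : F) (k l : ℕ), k ≤ l → w (2 ^ k * y) ≤ 1 → w (2 ^ l * y) ≤ 1 := by
    intro y k l hkl h
    obtain ⟨m, rfl⟩ := Nat.exists_eq_add_of_le hkl
    have : (2 : F) ^ (k + m) * y = 2 ^ m * (2 ^ k * y) := by ring
    rw [this, map_mul, map_pow]
    exact mul_le_one' (pow_le_one' w2 m) h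
  have hexall : ∃ k : ℕ, w (2 ^ k * a) ≤ 1 ∧ w (2 ^ k * b) ≤ 1 ∧ w (2 ^ k * c) ≤ 1 := by
    obtain ⟨k1, h1⟩ := hex a
    obtain ⟨k2, h2⟩ := hex b
    obtain ⟨k3, h3⟩ := hex c
    exact ⟨max k1 (max k2 k3), hmono a _ _ (by omega) h1, hmono b _ _ (by omega) h2,
      hmono c _ _ (by omega) h3⟩
  have wm : ∀ y z : F, w y ≤ 1 → w z ≤ 1 → w (y * z) ≤ 1 := by
    intro y z hy hz
    rw [map_mul]; exact mul_le_one' hy hz
  have wa : ∀ y z : F, w y ≤ 1 → w z ≤ 1 → w (y + z) ≤ 1 := by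
    intro y z hy hz
    exact w.map_add_le hy hz
  have ws : ∀ y z : F, w y ≤ 1 → w z ≤ 1 → w (y - z) ≤ 1 := by
    intro y z hy hz
    exact w.map_sub_le hy hz
  have w2' : w (2 : F) ≤ 1 := w2
  -- descent
  have hstep : ∀ k : ℕ, ¬ (w (2 ^ k * a) ≤ 1 ∧ w (2 ^ k * b) ≤ 1 ∧ w (2 ^ k * c) ≤ 1) := by
    intro k
    induction k with
    | zero =>
      rintro ⟨ha, hb, hc⟩
      rw [pow_zero, one_mul] at ha hb hc
      have ha2 : a ^ 2 = 2 * (a * b + c * c - 2 * (b * c)) := by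
        linear_combination -e2
      have h1 : w (a * b + c * c - 2 * (b * c)) ≤ 1 :=
        ws _ _ (wa _ _ (wm _ _ ha hb) (wm _ _ hc hc)) (wm _ _ w2' (wm _ _ hb hc))
      have ha' := r5_half v hv2 a _ ha2 h1
      have h3 : (1 : F) = 2 * (-(2 * ((a / 2) * (a / 2))) - 2 * (b * c) + b * b
          + 2 * (a * c)) := by
        linear_combination e1
      have h4 : w (-(2 * ((a / 2) * (a / 2))) - 2 * (b * c) + b * b + 2 * (a * c)) ≤ 1 := by
        refine wa _ _ (wa _ _ (ws _ _ ?_ (wm _ _ w2' (wm _ _ hb hc))) (wm _ _ hb hb))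
          (wm _ _ w2' (wm _ _ ha hc))
        rw [Valuation.map_neg]
        exact wm _ _ w2' (wm _ _ ha' ha')
      have h5 := congrArg w h3
      rw [map_one, map_mul, hv2] at h5
      have h6 : (1 : WithZero (Multiplicative ℤ)) ≤ WithZero.exp (-1 : ℤ) := by
        rw [h5]
        calc _ ≤ WithZero.exp (-1 : ℤ) * 1 := by gcongr
          _ = _ := mul_one _
      rw [← WithZero.exp_zero, WithZero.exp_le_exp] at h6
      norm_num at h6
    | succ k ih =>
      rintro ⟨ha, hb, hc⟩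
      apply ih
      set a' := 2 ^ (k + 1) * a with ha'
      set b' := 2 ^ (k + 1) * b with hb'
      set c' := 2 ^ (k + 1) * c with hc'
      have ea : (2 : F) ^ k * a = a' / 2 := by rw [ha', pow_succ]; ring
      have eb : (2 : F) ^ k * b = b' / 2 := by rw [hb', pow_succ]; ring
      have ec : (2 : F) ^ k * c = c' / 2 := by rw [hc', pow_succ]; ring
      rw [ea, eb, ec]
      have f1 : a' ^ 2 = 2 * (a' * b' + c' * c' - 2 * (b' * c')) := by
        rw [ha', hb', hc']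
        linear_combination (-(2 ^ (k + 1)) ^ 2) * e2
      have f2 : ((2 : F) ^ (k + 1)) ^ 2 = -(a' ^ 2 + 4 * b' * c') + 2 * (b' ^ 2 + 2 * a' * c') := by
        rw [ha', hb', hc']
        linear_combination ((2 ^ (k + 1)) ^ 2) * e1
      have h1 : w (a' * b' + c' * c' - 2 * (b' * c')) ≤ 1 :=
        ws _ _ (wa _ _ (wm _ _ ha hb) (wm _ _ hc hc)) (wm _ _ w2' (wm _ _ hb hc))
      have hA := r5_half v hv2 a' _ f1 h1
      have f3 : c' ^ 2 = 2 * ((a' / 2) * (a' / 2) + b' * c' - (a' / 2) * b') := by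
        linear_combination (-1 / 2 : F) * f1
      have hC := r5_half v hv2 c' _ f3
        (ws _ _ (wa _ _ (wm _ _ hA hA) (wm _ _ hb hc)) (wm _ _ hA hb))
      have f4 : b' ^ 2 = 2 * (2 ^ k * 2 ^ k + (a' / 2) * (a' / 2) + b' * c' - a' * c') := by
        have : ((2 : F) ^ (k + 1)) ^ 2 = 4 * (2 ^ k * 2 ^ k) := by rw [pow_succ]; ring
        rw [this] at f2
        linear_combination (-1 / 2 : F) * f2
      have w2k : w ((2 : F) ^ k) ≤ 1 := by rw [map_pow]; exact pow_le_one' w2 k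
      have hB := r5_half v hv2 b' _ f4
        (ws _ _ (wa _ _ (wa _ _ (wm _ _ w2k w2k) (wm _ _ hA hA)) (wm _ _ hb hc)) (wm _ _ ha hc))
      exact ⟨hA, hB, hC⟩
  obtain ⟨k, hk⟩ := hexall
  exact hstep k hk

end CM27
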