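import Pool.Agent.MP_ae0bd0_nt.CM.CDefs

set_option autoImplicit false

open Polynomial NumberField IsDedekindDomain
open scoped Classical

namespace CM27

/-! ## [CM-D1] unramified primes in subfields of cyclotomic fields (file D1.lean) -/

theorem m_mem_of_dvd_differentZ (m : ℕ) [NeZero m] (L : Type) [Field L]
    [NumberField L] [IsCyclotomicExtension {m} ℚ L] (P : Ideal (𝓞 L)) [P.IsPrime]
    (hP : P ∣ differentIdeal ℤ (𝓞 L)) : (m : 𝓞 L) ∈ P := by
  set ζ := IsCyclotomicExtension.zeta m ℚ L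
  have hζ : IsPrimitiveRoot ζ m := IsCyclotomicExtension.zeta_spec m ℚ L
  set z : 𝓞 L := hζ.toInteger with hz
  have hzc : algebraMap (𝓞 L) L z = ζ := rfl
  have hadj : Algebra.adjoin ℚ {algebraMap (𝓞 L) L z} = ⊤ := by
    rw [hzc]
    exact IsCyclotomicExtension.adjoin_primitive_root_eq_top hζ
  have hmem := aeval_derivative_mem_differentIdeal ℤ ℚ L z hadj
  have hmem2 : aeval z (derivative (minpoly ℤ z)) ∈ P := Ideal.dvd_iff_le.1 hP hmem
  have hzm : z ^ m = 1 := by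
    apply RingOfIntegers.ext
    have h1 : ζ ^ m = 1 := hζ.pow_eq_one
    change algebraMap (𝓞 L) L (z ^ m) = algebraMap (𝓞 L) L 1
    rw [map_pow, map_one, hzc, h1]
  have hint : IsIntegral ℤ z := Algebra.IsIntegral.isIntegral z
  have hdvd : minpoly ℤ z ∣ X ^ m - 1 := by
    apply minpoly.isIntegrallyClosed_dvd hint
    simp [hzm]
  obtain ⟨g, hg⟩ := hdvd
  have hd := congrArg (fun p => aeval z (derivative p)) hg
  simp only [derivative_sub, derivative_X_pow, derivative_one, sub_zero, derivative_mul, map_add,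
    map_mul, minpoly.aeval, zero_mul, add_zero, map_natCast, map_pow, aeval_X] at hd
  have h3 : (m : 𝓞 L) * z ^ (m - 1) ∈ P := by
    rw [hd]
    exact Ideal.mul_mem_right _ _ hmem2
  have h4 : (m : 𝓞 L) * z ^ (m - 1) * z = m := by
    rw [mul_assoc, ← pow_succ, Nat.sub_add_cancel (Nat.one_le_iff_ne_zero.2 (NeZero.ne m)), hzm,
      mul_one]
  rw [← h4]
  exact Ideal.mul_mem_right _ _ h3

theorem unram_top (m : ℕ) [NeZero m] (M : Type) [Field M] [NumberField M]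
    [IsCyclotomicExtension {m} ℚ M] (p : ℕ) (hp : p.Prime) (h : ¬ p ∣ m) (P : Ideal (𝓞 M))
    [P.IsPrime] (hpP : (p : 𝓞 M) ∈ P) :
    (p : 𝓞 M) ∉ P ^ 2 := by
  intro h2
  have hpf : Fact p.Prime := ⟨hp⟩
  have hmax : (Ideal.span {(p : ℤ)}).IsMaximal := Int.ideal_span_isMaximal_of_prime p
  have hne : Ideal.span {(p : ℤ)} ≠ ⊥ := by
    rw [Ne, Ideal.span_singleton_eq_bot]
    exact_mod_cast hp.ne_zero
  have hdvd : P ^ 2 ∣ (Ideal.span {(p : ℤ)}).map (algebraMap ℤ (𝓞 M)) := by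
    rw [Ideal.dvd_iff_le, Ideal.map_span, Set.image_singleton, Ideal.span_singleton_le_iff_mem]
    simpa using h2
  have h3 := pow_sub_one_dvd_differentIdeal ℤ (p := Ideal.span {(p : ℤ)}) P 2 hne hdvd
  rw [show 2 - 1 = 1 from rfl, pow_one] at h3
  have h4 := m_mem_of_dvd_differentZ m M P h3
  have hcop : IsCoprime (p : ℤ) (m : ℤ) := by
    rw [Nat.isCoprime_iff_coprime]
    exact (Nat.Prime.coprime_iff_not_dvd hp).2 h
  obtain ⟨a, b, hab⟩ := hcop
  have h5 : (a : 𝓞 M) * (p : 𝓞 M) + (b : 𝓞 M) * (m : 𝓞 M) = 1 := by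
    exact_mod_cast congrArg (fun t : ℤ => (t : 𝓞 M)) hab
  apply (inferInstance : P.IsPrime).ne_top
  rw [Ideal.eq_top_iff_one, ← h5]
  exact P.add_mem (P.mul_mem_left _ hpP) (P.mul_mem_left _ h4)

theorem unram (m : ℕ) [NeZero m] (M : Type) [Field M] [NumberField M]
    [IsCyclotomicExtension {m} ℚ M] (F : IntermediateField ℚ M) (p : ℕ)
    (hp : p.Prime) (h : ¬ p ∣ m) (v : HeightOneSpectrum (𝓞 F)) (hv : (p : 𝓞 F) ∈ v.asIdeal) :
    (p : 𝓞 F) ∉ v.asIdeal ^ 2 := by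
  intro h2
  have := v.isMaximal
  obtain ⟨Q, hQm, hQ⟩ := Ideal.exists_maximal_ideal_liesOver_of_isIntegral
    (S := 𝓞 M) v.asIdeal
  have hle : v.asIdeal.map (algebraMap (𝓞 F) (𝓞 M)) ≤ Q :=
    Ideal.map_le_iff_le_comap.2 (by rw [hQ.over])
  have h3 : algebraMap (𝓞 F) (𝓞 M) (p : 𝓞 F) ∈ Q := hle (Ideal.mem_map_of_mem _ hv)
  have h4 : algebraMap (𝓞 F) (𝓞 M) (p : 𝓞 F) ∈ Q ^ 2 := by
    have h5 := Ideal.mem_map_of_mem (algebraMap (𝓞 F) (𝓞 M)) h2
    rw [Ideal.map_pow] at h5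
    exact Ideal.pow_right_mono hle 2 h5
  rw [map_natCast] at h3 h4
  have := hQm.isPrime
  exact unram_top m M p hp h Q h3 h4

end CM27
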