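import Pool.Agent.MP_ae0bd0_nt.CM.RDefs
import Pool.Agent.MP_ae0bd0_nt.CM.D1

set_option autoImplicit false

open Polynomial NumberField IsDedekindDomain
open scoped Classical

namespace CM27

/-! ## [CM-R8] subfields of cyclotomic fields (file R8.lean) -/

theorem irreducible_of_two_pow {F : Type} [Field F] [NumberField F] (n : ℕ)
    (h : Module.finrank ℚ F = 2 ^ n) : Irreducible (cubPoly F) := by
  apply irreducible_of_no_root
  intro x hx
  have hirr : Irreducible (cubPoly ℚ) := factQ.out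
  have hroot : Polynomial.aeval x (cubPoly ℚ) = 0 := by
    rw [Polynomial.aeval_def, eval₂_cubPoly, hx, sub_self]
  have hmin : minpoly ℚ x = cubPoly ℚ :=
    (minpoly.eq_of_irreducible_of_monic hirr hroot (cubPoly_monic ℚ)).symm
  have hint : IsIntegral ℚ x := Algebra.IsIntegral.isIntegral x
  have hdeg : Module.finrank ℚ (IntermediateField.adjoin ℚ {x}) = 3 := by
    rw [IntermediateField.adjoin.finrank hint, hmin, cubPoly_natDegree]
  have hdvd : (3 : ℕ) ∣ 2 ^ n := by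
    rw [← h, ← hdeg]
    exact ⟨_, (Module.finrank_mul_finrank ℚ (IntermediateField.adjoin ℚ {x}) F).symm⟩
  have h3 : (3 : ℕ) ∣ 2 := Nat.Prime.dvd_of_dvd_pow (by norm_num) hdvd
  omega

theorem exists_two (m : ℕ) [NeZero m] (hm : Odd m) (M : Type) [Field M] [NumberField M]
    [IsCyclotomicExtension {m} ℚ M] (F : IntermediateField ℚ M) :
    ∃ v : HeightOneSpectrum (𝓞 F), (2 : 𝓞 F) ∈ v.asIdeal ∧ (2 : 𝓞 F) ∉ v.asIdeal ^ 2 := by
  have h2 : ¬ IsUnit (2 : 𝓞 F) := by
    intro h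
    have h3 := (NumberField.isUnit_iff_norm (K := F) (x := (2 : 𝓞 F))).1 h
    have h4 : ((RingOfIntegers.norm ℚ (2 : 𝓞 F) : 𝓞 ℚ) : ℚ) = 2 ^ Module.finrank ℚ F := by
      rw [RingOfIntegers.coe_norm]
      have h5 : ((2 : 𝓞 F) : F) = algebraMap ℚ F 2 := by
        rw [map_ofNat (algebraMap ℚ F) 2]; exact map_ofNat (algebraMap (𝓞 F) F) 2
      rw [h5, Algebra.norm_algebraMap]
    rw [h4, abs_of_pos (by positivity)] at h3
    have h6 : 1 < (2 : ℚ) ^ Module.finrank ℚ F :=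
      one_lt_pow₀ (by norm_num) (Module.finrank_pos).ne'
    exact h6.ne' h3
  obtain ⟨P, hP, hle⟩ := Ideal.exists_le_maximal (Ideal.span {(2 : 𝓞 F)}) (by
    rwa [Ne, Ideal.span_singleton_eq_top])
  have h2P : (2 : 𝓞 F) ∈ P := hle (Ideal.mem_span_singleton_self _)
  have hne : P ≠ ⊥ := by
    rintro rfl
    rw [Ideal.mem_bot] at h2P
    exact two_ne_zero h2P
  refine ⟨⟨P, hP.isPrime, hne⟩, h2P, ?_⟩
  have := unram m M F 2 Nat.prime_two (by
    intro hd
    exact (Nat.not_even_iff_odd.2 hm) (even_iff_two_dvd.2 hd)) ⟨P, hP.isPrime, hne⟩ (by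
    exact_mod_cast h2P)
  exact_mod_cast this

end CM27
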