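import Pool.Agent.MP_ae0bd0_nt.CM.R2a
import Pool.Agent.MP_ae0bd0_nt.CM.R2b
import Pool.Agent.MP_ae0bd0_nt.CM.R3
import Pool.Agent.MP_ae0bd0_nt.CM.R4c
import Pool.Agent.MP_ae0bd0_nt.CM.R4d
import Pool.Agent.MP_ae0bd0_nt.CM.R4e
import Pool.Agent.MP_ae0bd0_nt.CM.R5
import Pool.Agent.MP_ae0bd0_nt.CM.R6
import Pool.Agent.MP_ae0bd0_nt.CM.R7
import Pool.Agent.MP_ae0bd0_nt.CM.R8

set_option autoImplicit false

open Polynomial NumberField IsDedekindDomain
open scoped Classical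

namespace CM27

/-! ## [CM-R9] finiteness of `E(F)` -/

/-- The action of the Galois group on the points. -/
noncomputable abbrev galAct (F : Type) [Field F] [Algebra ℚ F] :
    DistribMulAction (F ≃ₐ[ℚ] F) (E F).toAffine.Point where
  smul σ P := ptMap (σ : F →+* F) P
  one_smul P := ptMap_id P
  mul_smul σ τ P := (ptMap_comp (τ : F →+* F) (σ : F →+* F) P).symm
  smul_zero σ := rfl
  smul_add σ P Q := ptMap_add (σ : F →+* F) P Q

theorem divisible (m : ℕ) (hm : GoodLevel m) {F : Type} [Field F] [NumberField F]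
    [IsGalois ℚ F] (n : ℕ) (h : Module.finrank ℚ F = 2 ^ n)
    (h2 : ∃ v : HeightOneSpectrum (𝓞 F), (2 : 𝓞 F) ∈ v.asIdeal ∧ (2 : 𝓞 F) ∉ v.asIdeal ^ 2)
    (hun : ∀ (x y : F) (_ : y ^ 2 + y = x ^ 3) (z0 : R ℚ) (t : R F) (_ : t ≠ 0)
      (_ : mapR (algebraMap ℚ F) z0 = trip 1 0 x * t ^ 2)
      (v : HeightOneSpectrum (𝓞 (R ℚ))) (_ : ((6 * m : ℕ) : 𝓞 (R ℚ)) ∉ v.asIdeal),
      IsSquare (v.valuation (R ℚ) z0)) (P0 : (E F).toAffine.Point) : ∃ Q, P0 = 2 • Q := by
  by_contra hP0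
  have hirr : Fact (Irreducible (cubPoly F)) := ⟨irreducible_of_two_pow n h⟩
  letI := galAct F
  have hG : Nat.card (F ≃ₐ[ℚ] F) = 2 ^ n := by
    rw [← h]
    exact IsGalois.card_aut_eq_finrank ℚ F
  obtain ⟨P, hP, hfix⟩ := exists_fixed_class (G := F ≃ₐ[ℚ] F) n hG P0 hP0
  obtain ⟨v2, hv2, hv4⟩ := h2
  -- the point is affine
  rcases P with _ | ⟨x, y, hxy⟩
  · exact hP ⟨0, by rw [smul_zero]; rfl⟩
  set P : (E F).toAffine.Point := .some x y hxy with hPdef
  have hz : zOf P ≠ 0 := zOf_ne_zero P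
  have hN : Algebra.norm F (zOf P) = (2 * y + 1) ^ 2 := norm_zOf hxy
  have hinv : ∀ σ : F ≃ₐ[ℚ] F, ∃ u : R F, mapR (σ : F →+* F) (zOf P) = zOf P * u ^ 2 := by
    intro σ
    obtain ⟨Q, hQ⟩ := hfix σ
    have h1 : ptMap (σ : F →+* F) P = P + 2 • Q := hQ
    obtain ⟨u, hu, h2⟩ := zOf_add P (2 • Q)
    obtain ⟨u', hu', h3⟩ := zOf_add Q Q
    refine ⟨zOf Q * u' * u, ?_⟩
    rw [← zOf_ptMap, h1, h2, two_smul, h3]
    ring
  obtain ⟨t, ht, z0, hz0⟩ := descend_class (zOf P) hz (2 * y + 1) hN hinv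
  have hz0ne : z0 ≠ 0 := by
    rintro rfl
    rw [map_zero] at hz0
    exact mul_ne_zero hz (pow_ne_zero 2 ht) hz0.symm
  set c : ℚ := Algebra.norm ℚ z0 with hc
  have hc0 : c ≠ 0 := by rw [hc]; exact Algebra.norm_ne_zero_iff.2 hz0ne
  have hcs : algebraMap ℚ F c = ((2 * y + 1) * Algebra.norm F t) ^ 2 := by
    have h1 := norm_mapR (algebraMap ℚ F) z0
    rw [hz0, map_mul, hN, map_pow] at h1
    rw [hc]
    exact h1.symm.trans (by ring)
  set d : F := (2 * y + 1) * Algebra.norm F t with hd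
  have hd0 : d ≠ 0 := by
    intro h0
    rw [h0] at hcs
    apply hc0
    have : algebraMap ℚ F c = 0 := by rw [hcs]; ring
    exact (map_eq_zero _).1 this
  have htc : ∀ (L : Type) [Field L] (a : L), trip a 0 0 = algebraMap L (R L) a := by
    intro L _ a
    simp [trip]
  set z1 : R ℚ := trip c 0 0 * z0 with hz1
  have htc0 : (trip c 0 0 : R ℚ) ≠ 0 := by
    rw [htc]
    exact (_root_.map_ne_zero _).2 hc0
  have hz1ne : z1 ≠ 0 := mul_ne_zero htc0 hz0ne
  have hN1 : Algebra.norm ℚ z1 = (c ^ 2) ^ 2 := by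
    have h3 : Algebra.norm ℚ (trip c 0 0 : R ℚ) = c ^ 3 := by
      have := norm_trip c 0 0
      simp only [mul_zero, zero_mul, add_zero, sub_zero, ne_eq, OfNat.ofNat_ne_zero,
        not_false_eq_true, zero_pow] at this
      have hsub : ∀ (i1 i2 : Algebra ℚ (R ℚ)), @Algebra.norm ℚ (R ℚ) _ _ i1 = @Algebra.norm ℚ (R ℚ) _ _ i2 := by
        intro i1 i2
        rw [Subsingleton.elim i1 i2]
      rw [← this]
      exact DFunLike.congr_fun (hsub _ _) _
    rw [hz1, map_mul, h3, ← hc]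
    ring
  set s1 : R F := algebraMap F (R F) d * t with hs1
  have hs1ne : s1 ≠ 0 := mul_ne_zero ((_root_.map_ne_zero _).2 hd0) ht
  have hmap : mapR (algebraMap ℚ F) z1 = trip 1 0 x * s1 ^ 2 := by
    have hzx : zOf P = trip 1 0 x := rfl
    rw [hz1, map_mul, mapR_trip, map_zero, htc, hcs, hz0, hs1, hzx, map_pow]
    ring
  have heven : ∀ v : HeightOneSpectrum (𝓞 (R ℚ)), IsSquare (v.valuation (R ℚ) z1) := by
    intro v
    by_cases hv : ((6 * m : ℕ) : 𝓞 (R ℚ)) ∈ v.asIdeal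
    · have h1 : ∃ p : ℕ, (p = 2 ∨ p = 3 ∨ GoodPrime p) ∧ (p : 𝓞 (R ℚ)) ∈ v.asIdeal := by
        have h6 : ((6 * m : ℕ) : 𝓞 (R ℚ)) = ((2 : ℕ) : 𝓞 (R ℚ)) * (((3 : ℕ) : 𝓞 (R ℚ)) * (m : 𝓞 (R ℚ))) := by
          push_cast; ring
        rw [h6] at hv
        rcases v.isPrime.mem_or_mem hv with h2 | h3
        · exact ⟨2, Or.inl rfl, h2⟩
        rcases v.isPrime.mem_or_mem h3 with h3 | h4
        · exact ⟨3, Or.inr (Or.inl rfl), h3⟩
        · have h5 : (∏ p ∈ m.primeFactors, (p : 𝓞 (R ℚ))) ∈ v.asIdeal := by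
            have h5 := Nat.prod_primeFactors_of_squarefree hm.1
            have h6 : ((m : ℕ) : 𝓞 (R ℚ)) = ∏ p ∈ m.primeFactors, (p : 𝓞 (R ℚ)) := by
              conv_lhs => rw [← h5]
              push_cast
              rfl
            rwa [← h6]
          obtain ⟨p, hp, hpv⟩ := (Ideal.IsPrime.prod_mem_iff (hp := v.isPrime)).1 h5
          exact ⟨p, Or.inr (Or.inr (hm.2 p (Nat.prime_of_mem_primeFactors hp)
            (Nat.dvd_of_mem_primeFactors hp))), hpv⟩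
      obtain ⟨p, hp, hpv⟩ := h1
      exact even_ram z1 hz1ne (c ^ 2) hN1 p hp v hpv
    · have hxy' : y ^ 2 + y = x ^ 3 := by
        have := (WeierstrassCurve.Affine.nonsingular_iff _ _).1 hxy
        have h1 := (WeierstrassCurve.Affine.equation_iff _ _).1 hxy.1
        simp only [E, WeierstrassCurve.toAffine] at h1
        linear_combination h1
      exact hun x y hxy' z1 s1 hs1ne hmap v hv
  have hpos : 0 < Algebra.norm ℚ z1 := by rw [hN1]; positivity
  obtain ⟨j, s, hj, hs, hzs⟩ := cub_even z1 hz1ne heven hpos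
  have hzP : zOf P = mapR (algebraMap ℚ F) z1 * (s1⁻¹) ^ 2 := by
    rw [hmap]
    have : zOf P = trip 1 0 x := rfl
    rw [this]
    field_simp
  rcases (by omega : j = 0 ∨ j = 1) with rfl | rfl
  · rw [pow_zero, one_mul] at hzs
    apply hP
    apply exists_half P (mapR (algebraMap ℚ F) s * s1⁻¹)
    rw [hzP, hzs, map_pow]
    ring
  · rw [pow_one] at hzs
    apply not_eps v2 hv2 hv4 x (mapR (algebraMap ℚ F) s * s1⁻¹)
    have : zOf P = trip 1 0 x := rfl
    rw [← this, hzP, hzs, map_mul, map_sub, mapR_pr, map_one, map_pow]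
    ring

theorem finite_points (m : ℕ) [NeZero m] (hm : GoodLevel m) (hodd : Odd m) (M : Type) [Field M]
    [NumberField M] [IsCyclotomicExtension {m} ℚ M] (F : IntermediateField ℚ M) (n : ℕ)
    (h : Module.finrank ℚ F = 2 ^ n) : Finite (E F).toAffine.Point := by
  have h2 := exists_two m hodd M F
  have hirr : Fact (Irreducible (cubPoly F)) := ⟨irreducible_of_two_pow n h⟩
  have hM : IsGalois ℚ M := IsCyclotomicExtension.isGalois {m} ℚ M
  have hab : IsMulCommutative Gal(M/ℚ) := IsCyclotomicExtension.isMulCommutative {m} ℚ M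
  have hF : IsGalois ℚ F := by
    have := IsGalois.of_fixedField_normal_subgroup (F.fixingSubgroup)
    rwa [IsGalois.fixedField_fixingSubgroup] at this
  obtain ⟨v2, hv2, hv4⟩ := h2
  exact finite_of_divisible v2 hv2 hv4 (divisible m hm n h ⟨v2, hv2, hv4⟩
    fun x y hxy z0 t ht hz v hv => even_unram m M F x y hxy z0 t ht hz v hv)

end CM27
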