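import Pool.Agent.MP_ae0bd0_nt.CM.G2b

set_option autoImplicit false

open scoped ComplexConjugate
open Filter Topology

namespace CM27

/-! ## [CM-G6] distribution relation, periodicity (file G6.lean; uses G1, G2) -/

private theorem g6_HP_open : IsOpen HP := isOpen_lt continuous_const Complex.continuous_re

private theorem g6_HP_conv : Convex ℝ HP := convex_halfSpace_re_gt _

private theorem g6_ident (Φ Ψ : ℂ → ℂ) (h1 : DifferentiableOn ℂ Φ HP)
    (h2 : DifferentiableOn ℂ Ψ HP) (h : ∀ s : ℂ, 3 / 2 < s.re → Φ s = Ψ s) : Φ 1 = Ψ 1 := by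
  have a1 : AnalyticOnNhd ℂ Φ HP := h1.analyticOnNhd g6_HP_open
  have a2 : AnalyticOnNhd ℂ Ψ HP := h2.analyticOnNhd g6_HP_open
  have h3 : (2 : ℂ) ∈ HP := by
    change (1:ℝ) / 2 < (2:ℂ).re
    norm_num
  have h4 : Φ =ᶠ[𝓝 2] Ψ := by
    have h5 : {s : ℂ | 3 / 2 < s.re} ∈ 𝓝 (2 : ℂ) :=
      (isOpen_lt continuous_const Complex.continuous_re).mem_nhds (by
        change (3:ℝ) / 2 < (2:ℂ).re
        norm_num)
    exact Filter.eventually_of_mem h5 fun s hs => h s hs
  have h6 := a1.eqOn_of_preconnected_of_eventuallyEq a2 g6_HP_conv.isPreconnected h3 h4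
  exact h6 (show (1 : ℂ) ∈ HP by
    change (1:ℝ) / 2 < (1:ℂ).re
    norm_num)

theorem lam_add (z : ℂ) (hz : Off z) (a : Eis) : lam (z + emb a) = lam z := by
  have hz' : Off (z + emb a) := by
    rintro ⟨c, hc⟩
    apply hz
    refine ⟨c - 2 * a, ?_⟩
    rw [map_sub, map_mul, hc, map_ofNat]
    ring
  obtain ⟨Φ, h1, h2, h3⟩ := exists_Phi z hz
  obtain ⟨Ψ, k1, k2, k3⟩ := exists_Phi (z + emb a) hz'
  rw [← h3, ← k3]
  refine g6_ident Ψ Φ k1 h1 fun s hs => ?_
  rw [h2 s hs, k2 s hs, Hs_add, show 2 * (z + emb a) = 2 * z + emb (2 * a) by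
    rw [map_mul, map_ofNat]; ring, Hs_add]

theorem lam_neg (z : ℂ) : lam (-z) = - lam z := by
  unfold lam
  rw [neg_add, ← tsum_neg, ← (Equiv.neg Eis).tsum_eq]
  congr 1
  · rw [mul_neg, div_neg]
  · refine tsum_congr fun a => ?_
    have h : -emb a * (-z + -emb a) * (2 * -z + -emb a) =
        -(emb a * (z + emb a) * (2 * z + emb a)) := by ring
    rw [Equiv.neg_apply, map_neg, h, div_neg, neg_sq]

/-! ### residues modulo a prime of norm `p` -/

section

variable {p : ℕ} (hp : p.Prime) {b : Eis} (hb : b.norm = p)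

include hp hb

private theorem g6_b_ne : b ≠ 0 := by
  rintro rfl
  rw [norm_eq] at hb
  simp at hb
  exact hp.ne_zero (by exact_mod_cast hb.symm)

private theorem g6_emb_ne : emb b ≠ 0 := by
  intro h
  apply g6_b_ne hp hb
  apply emb_injective
  rw [h, map_zero]

omit hp in
private theorem g6_p_eq : (p : Eis) = b * star b := by
  have h := QuadraticAlgebra.algebraMap_norm_eq_mul_star b
  rw [hb] at h
  rw [← h]
  simp

private theorem g6_dvd_int (t : ℤ) (h : b ∣ (t : Eis)) : (p : ℤ) ∣ t := by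
  obtain ⟨c, hc⟩ := h
  have h1 := congrArg QuadraticAlgebra.norm hc
  rw [map_mul, hb] at h1
  have h2 : QuadraticAlgebra.norm ((t : ℤ) : Eis) = t ^ 2 := by
    rw [norm_eq]
    simp
  rw [h2] at h1
  exact (Nat.prime_iff_prime_int.1 hp).dvd_of_dvd_pow ⟨_, h1⟩

private theorem g6_surj (c : Eis) : ∃ t : ℕ, t < p ∧ b ∣ c - (t : Eis) := by
  have hpz : Prime (p : ℤ) := Nat.prime_iff_prime_int.1 hp
  have hy : ¬ (p : ℤ) ∣ b.im := by
    intro hy
    have h1 := hb
    rw [norm_eq] at h1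
    have h2 : (p : ℤ) ∣ b.re ^ 2 := by
      have : b.re ^ 2 = p + b.im * (b.re - b.im) := by linarith
      rw [this]
      exact dvd_add dvd_rfl (Dvd.dvd.mul_right hy _)
    have h3 := hpz.dvd_of_dvd_pow h2
    obtain ⟨x, hx⟩ := h3
    obtain ⟨y, hy⟩ := hy
    rw [hx, hy] at h1
    have h4 : (p : ℤ) * (p * (x ^ 2 - x * y + y ^ 2)) = p * 1 := by linarith
    have h5 := mul_left_cancel₀ hpz.ne_zero h4
    exact hpz.not_isUnit (IsUnit.of_mul_eq_one _ h5)
  have hcop : IsCoprime (b.im) (p : ℤ) := ((hpz.coprime_iff_not_dvd).2 hy).symm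
  obtain ⟨y', k, hyk⟩ := hcop
  -- y' * b.im + k * p = 1
  let t0 : ℤ := c.re - c.im * b.re * y'
  have hp0 : (0:ℤ) < p := by exact_mod_cast hp.pos
  refine ⟨(t0 % p).toNat, ?_, ?_⟩
  · have := Int.emod_lt_of_pos t0 hp0
    have h0 := Int.emod_nonneg t0 hp0.ne'
    omega
  · have h0 := Int.emod_nonneg t0 hp0.ne'
    have h1 : (((t0 % p).toNat : ℕ) : Eis) = ((t0 % p : ℤ) : Eis) := by
      rw [← Int.cast_natCast, Int.toNat_of_nonneg h0]
    rw [h1]
    have h2 : t0 % p = t0 - p * (t0 / p) := by rw [Int.emod_def]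
    have h3 : b ∣ (p : Eis) := ⟨star b, g6_p_eq hb⟩
    have h4 : c - ((t0 % p : ℤ) : Eis) = b * ((y' * c.im : ℤ) : Eis) +
        (p : Eis) * ((t0 / p : ℤ) + (⟨0, 1⟩ : Eis) * ((k * c.im : ℤ) : Eis)) := by
      rw [h2]
      have hyk' : c.im = c.im * (y' * b.im + k * p) := by rw [hyk, mul_one]
      ext
      · simp [t0]
        ring
      · simp [t0]
        linear_combination hyk'
    rw [h4]
    exact dvd_add (Dvd.intro _ rfl) (Dvd.dvd.mul_right h3 _)

/-- the bijection -/
private theorem g6_bij : Function.Bijective (fun q : Fin p × Eis => ((q.1 : ℕ) : Eis) + b * q.2) := by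
  constructor
  · rintro ⟨t, a⟩ ⟨t', a'⟩ h
    simp only at h
    have h1 : b ∣ (((t : ℕ) - (t' : ℕ) : ℤ) : Eis) := by
      refine ⟨a' - a, ?_⟩
      push_cast
      linear_combination h
    have h2 := g6_dvd_int hp hb _ h1
    have h3 : ((t : ℕ) : ℤ) = ((t' : ℕ) : ℤ) := by
      have ht := t.2
      have ht' := t'.2
      obtain ⟨k, hk⟩ := h2
      have hk0 : k = 0 := by
        by_contra hk0
        rcases lt_or_gt_of_ne hk0 with hk1 | hk1
        · nlinarith
        · nlinarith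
      rw [hk0] at hk
      linarith
    have h4 : t = t' := Fin.ext (by exact_mod_cast h3)
    subst h4
    have h5 : b * a = b * a' := by linear_combination h
    have h6 : emb b * emb a = emb b * emb a' := by rw [← map_mul, ← map_mul, h5]
    have h7 := mul_left_cancel₀ (g6_emb_ne hp hb) h6
    rw [emb_injective h7]
  · intro c
    obtain ⟨t, ht, a, ha⟩ := g6_surj hp hb c
    refine ⟨(⟨t, ht⟩, a), ?_⟩
    simp only
    rw [← ha]
    ring

private theorem g6_dist (s z : ℂ) (hs : 3 / 2 < s.re) :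
    ∑ t ∈ Finset.range p, Hs s (z + t / emb b) = gs s (emb b)⁻¹ * Hs s (emb b * z) := by
  have hb0 := g6_emb_ne hp hb
  let e := Equiv.ofBijective _ (g6_bij hp hb)
  have h1 : ∀ q : Fin p × Eis, gs s (emb b)⁻¹ * gs s (emb b * z + emb (e q)) =
      gs s (z + ((q.1 : ℕ) : ℂ) / emb b + emb q.2) := by
    intro q
    rw [← gs_mul]
    congr 1
    change (emb b)⁻¹ * (emb b * z + emb (((q.1 : ℕ) : Eis) + b * q.2)) = _
    rw [map_add, map_mul, map_natCast]
    field_simp
    ring
  have h2 : Summable fun c : Eis => gs s (emb b)⁻¹ * gs s (emb b * z + emb c) :=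
    (summable_gs s (emb b * z) hs).mul_left _
  have h3 : ∑' c : Eis, gs s (emb b)⁻¹ * gs s (emb b * z + emb c) =
      ∑' t : Fin p, ∑' a : Eis, gs s (emb b)⁻¹ * gs s (emb b * z + emb (e (t, a))) := by
    have h4 : Summable fun q : Fin p × Eis => gs s (emb b)⁻¹ * gs s (emb b * z + emb (e q)) :=
      h2.comp_injective e.injective
    rw [← e.tsum_eq, h4.tsum_prod]
  unfold Hs
  rw [← tsum_mul_left, h3, tsum_fintype, Finset.sum_range]
  refine Finset.sum_congr rfl fun t _ => ?_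
  refine tsum_congr fun a => ?_
  exact (h1 (t, a)).symm

private theorem g6_two (hp2 : p ≠ 2) (s z : ℂ) :
    ∑ t ∈ Finset.range p, Hs s (2 * (z + t / emb b)) =
      ∑ t ∈ Finset.range p, Hs s (2 * z + t / emb b) := by
  have hb0 := g6_emb_ne hp hb
  have hodd : p.Coprime 2 := by
    rw [Nat.coprime_primes hp Nat.prime_two]; exact hp2
  refine Finset.sum_bij (fun t _ => (2 * t) % p) ?_ ?_ ?_ ?_
  · intro t _
    exact Finset.mem_range.2 (Nat.mod_lt _ hp.pos)
  · intro t ht t' ht' h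
    rw [Finset.mem_range] at ht ht'
    have h1 : 2 * t ≡ 2 * t' [MOD p] := h
    have h2 : t ≡ t' [MOD p] := Nat.ModEq.cancel_left_of_coprime hodd h1
    exact Nat.ModEq.eq_of_lt_of_lt h2 ht ht'
  · intro u hu
    rw [Finset.mem_range] at hu
    obtain ⟨v, -, hv⟩ := Nat.exists_mul_mod_eq_one_of_coprime hodd.symm hp.one_lt
    refine ⟨(v * u) % p, Finset.mem_range.2 (Nat.mod_lt _ hp.pos), ?_⟩
    have h1 : 2 * ((v * u) % p) ≡ 2 * (v * u) [MOD p] := (Nat.mod_modEq _ _).mul_left 2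
    have h2 : 2 * (v * u) ≡ u [MOD p] := by
      have h3 : 2 * v ≡ 1 [MOD p] := by
        change (2 * v) % p = 1 % p
        rw [hv, Nat.mod_eq_of_lt hp.one_lt]
      calc 2 * (v * u) = (2 * v) * u := by ring
        _ ≡ 1 * u [MOD p] := h3.mul_right u
        _ = u := one_mul u
    have h4 := h1.trans h2
    change (2 * ((v * u) % p)) % p = u
    rw [h4]
    exact Nat.mod_eq_of_lt hu
  · intro t _
    have h1 : (2 * t : ℂ) / emb b = (((2 * t) % p : ℕ) : ℂ) / emb b +
        emb (star b * ((2 * t / p : ℕ) : Eis)) := by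
      have h2 : emb b * emb (star b) = (p : ℂ) := by
        rw [← map_mul, ← g6_p_eq hb, map_natCast]
      have h3 : (((2 * t) % p : ℕ) : ℂ) = 2 * t - p * ((2 * t / p : ℕ) : ℂ) := by
        have h4 := Nat.mod_add_div (2 * t) p
        have h5 : (((2 * t) % p + p * (2 * t / p) : ℕ) : ℂ) = ((2 * t : ℕ) : ℂ) := by rw [h4]
        push_cast at h5
        linear_combination h5
      rw [map_mul, map_natCast, h3, ← h2]
      field_simp
      ring
    rw [mul_add, ← mul_div_assoc, h1, ← add_assoc, Hs_add]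

end

theorem lam_dist (p : ℕ) (hp : p.Prime) (hp2 : p ≠ 2) (b : Eis) (hb : b.norm = p) (z : ℂ)
    (hz : Off (emb b * z)) :
    ∑ t ∈ Finset.range p, lam (z + t / emb b) = emb b * lam (emb b * z) := by
  have hb0 := g6_emb_ne hp hb
  have hzt : ∀ t : ℕ, Off (z + t / emb b) := by
    rintro t ⟨c, hc⟩
    apply hz
    refine ⟨b * c - 2 * (t : Eis), ?_⟩
    rw [map_sub, map_mul, map_mul, hc, map_natCast, map_ofNat]
    field_simp
    ring
  choose Φ h1 h2 h3 using fun t : ℕ => exists_Phi (z + t / emb b) (hzt t)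
  obtain ⟨Ψ, k1, k2, k3⟩ := exists_Phi (emb b * z) hz
  have hg : DifferentiableOn ℂ (fun s : ℂ => gs s (emb b)⁻¹) HP := by
    apply Differentiable.differentiableOn
    unfold gs
    refine (differentiable_const _).mul ?_
    intro s
    refine DifferentiableAt.const_cpow (by fun_prop) (Or.inl ?_)
    rw [Ne, Complex.ofReal_eq_zero, norm_eq_zero]
    exact inv_ne_zero hb0
  have key := g6_ident (fun s => ∑ t ∈ Finset.range p, Φ t s)
    (fun s => gs s (emb b)⁻¹ * Ψ s) (DifferentiableOn.fun_sum fun t _ => h1 t) (hg.mul k1) (by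
      intro s hs
      rw [k2 s hs, Finset.sum_congr rfl (fun t _ => h2 t s hs), Finset.sum_sub_distrib,
        ← Finset.mul_sum, g6_dist hp hb s z hs, g6_two hp hb hp2, g6_dist hp hb s (2 * z) hs]
      rw [show emb b * (2 * z) = 2 * (emb b * z) by ring]
      ring)
  rw [Finset.sum_congr rfl (fun t _ => h3 t), k3, gs_one, inv_inv] at key
  exact key

end CM27
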