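import Pool.Agent.MP_ae0bd0_nt.CM.H3
import Pool.Agent.MP_ae0bd0_nt.CM.G6

set_option autoImplicit false

open scoped ComplexConjugate
open Filter Topology

namespace CM27

/-! ## [CM-H4] the identity `λ ℘' = 3 ℘²` by Liouville's theorem (file H4.lean; uses H2, H3, G6) -/

/-- the difference of the two sides -/
noncomputable def h4_F (z : ℂ) : ℂ :=
  lam z * L0.derivWeierstrassP z - 3 * L0.weierstrassP z ^ 2

/-- the extension over the removable singularities -/
noncomputable def h4_Ft (t : ℂ) : ℂ := limUnder (𝓝[≠] t) h4_F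

theorem h4_isOpen_off : IsOpen {z : ℂ | Off z} := by
  have h : {z : ℂ | Off z} = (fun z : ℂ => 2 * z) ⁻¹' ((L0.lattice : Set ℂ)ᶜ) := by
    ext z
    change Off z ↔ ¬ (2 * z ∈ L0.lattice)
    rw [mem_L0]
    exact Iff.rfl
  rw [h]
  exact L0.isClosed_lattice.isOpen_compl.preimage (by fun_prop)

theorem h4_off_near (t : ℂ) : ∀ᶠ z in 𝓝[≠] t, Off z := by
  have h1 := L0.compl_lattice_sdiff_singleton_mem_nhds (2 * t)
  have h2 : Tendsto (fun z : ℂ => 2 * z) (𝓝 t) (𝓝 (2 * t)) :=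
    (Continuous.tendsto (by fun_prop) t)
  have h3 := h2.eventually h1
  filter_upwards [nhdsWithin_le_nhds h3, self_mem_nhdsWithin] with z hz hz1
  intro h
  apply hz
  refine ⟨(mem_L0 _).2 h, ?_⟩
  intro h4
  apply hz1
  have h5 : 2 * z = 2 * t := h4
  exact mul_left_cancel₀ two_ne_zero h5

theorem h4_mul_two (z : ℂ) (h : Off z) : z ∉ L0.lattice := by
  intro hz
  rw [mem_L0] at hz
  obtain ⟨a, ha⟩ := hz
  apply h
  refine ⟨a + a, ?_⟩
  rw [map_add, ha]
  ring

theorem h4_lam_analytic (z : ℂ) (h : Off z) : AnalyticAt ℂ lam z := by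
  have h1 : DifferentiableOn ℂ lam {z : ℂ | Off z} := fun y hy =>
    (lam_deriv y hy).differentiableAt.differentiableWithinAt
  exact h1.analyticAt (h4_isOpen_off.mem_nhds h)

theorem h4_local_off (t : ℂ) (ht : Off t) : AnalyticAt ℂ h4_F t := by
  have h1 := h4_lam_analytic t ht
  have h2 := L0.analyticOnNhd_weierstrassP t (h4_mul_two t ht)
  have h3 := L0.analyticOnNhd_derivWeierstrassP t (h4_mul_two t ht)
  unfold h4_F
  fun_prop

theorem h4_pow_factor {f : ℂ → ℂ} {t : ℂ} (hf : AnalyticAt ℂ f t) (n : ℕ)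
    (h : ∀ i < n, iteratedDeriv i f t = 0) :
    ∃ k : ℂ → ℂ, AnalyticAt ℂ k t ∧ ∀ᶠ z in 𝓝 t, f z = (z - t) ^ n * k z := by
  have h1 := (natCast_le_analyticOrderAt_iff_iteratedDeriv_eq_zero (n := n) hf).2 h
  obtain ⟨k, hk, hk2⟩ := (natCast_le_analyticOrderAt hf).1 h1
  exact ⟨k, hk, by simpa using hk2⟩

theorem h4_G4 : L0.G 4 = 0 := by
  have h := g2_eq
  rw [PeriodPair.g₂] at h
  rcases mul_eq_zero.1 h with h | h
  · norm_num at h
  · exact h

theorem h4_local_zero : ∃ h : ℂ → ℂ, AnalyticAt ℂ h 0 ∧ h 0 = 0 ∧ ∀ᶠ z in 𝓝[≠] (0 : ℂ), h4_F z = h z := by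
  obtain ⟨h, hh, hl⟩ := lam_near_zero
  have ha := L0.analyticAt_weierstrassPExcept 0
  have hb := L0.analyticAt_derivWeierstrassPExcept 0
  obtain ⟨k, hk, hk2⟩ := h4_pow_factor ha 3 (by
    intro i hi
    rw [L0.iteratedDeriv_weierstrassPExcept_self]
    split_ifs with h0
    · simp
    · have : i = 1 ∨ i = 2 := by omega
      rcases this with rfl | rfl
      · rw [L0.sumInvPow_zero, L0.G_eq_zero_of_odd _ (by decide), mul_zero]
      · rw [L0.sumInvPow_zero, h4_G4, mul_zero])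
  obtain ⟨l, hl1, hl2⟩ := h4_pow_factor hb 2 (by
    intro i hi
    rw [L0.iteratedDeriv_derivWeierstrassPExcept_self]
    have : i = 0 ∨ i = 1 := by omega
    rcases this with rfl | rfl
    · rw [L0.sumInvPow_zero, L0.G_eq_zero_of_odd _ (by decide), mul_zero]
    · rw [L0.sumInvPow_zero, h4_G4, mul_zero])
  refine ⟨fun z => -(3 / 2) * z * l z - 6 * z * k z - 2 * z ^ 2 * h z + z ^ 7 * h z * l z
    - 3 * z ^ 6 * k z ^ 2, by fun_prop, by simp, ?_⟩
  filter_upwards [hl, nhdsWithin_le_nhds hk2, nhdsWithin_le_nhds hl2, self_mem_nhdsWithin] with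
    z h1 h2 h3 h4
  have hz : z ≠ 0 := h4
  have h5 := L0.weierstrassPExcept_def 0 z
  have h6 := L0.derivWeierstrassPExcept_def 0 z
  simp only [ZeroMemClass.coe_zero, sub_zero] at h5 h6 h2 h3
  have h7 : L0.weierstrassP z = z ^ 3 * k z + 1 / z ^ 2 := by
    rw [← h2, h5]; simp
  have h8 : L0.derivWeierstrassP z = z ^ 2 * l z - 2 / z ^ 3 := by
    rw [← h3, h6]; ring
  rw [h4_F, h1, h7, h8]
  field_simp
  ring

theorem h4_off_add (z : ℂ) (a : Eis) (h : Off z) : Off (z + emb a) := by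
  rintro ⟨b, hb⟩
  apply h
  refine ⟨b - a - a, ?_⟩
  rw [map_sub, map_sub, hb]
  ring

theorem h4_F_add (z : ℂ) (h : Off z) (a : Eis) : h4_F (z + emb a) = h4_F z := by
  have h1 := L0.weierstrassP_add_coe z ⟨emb a, (mem_L0 _).2 ⟨a, rfl⟩⟩
  have h2 := L0.derivWeierstrassP_add_coe z ⟨emb a, (mem_L0 _).2 ⟨a, rfl⟩⟩
  simp only at h1 h2
  rw [h4_F, h4_F, lam_add z h a, h1, h2]

theorem h4_F_sub (z : ℂ) (h : Off z) (a : Eis) : h4_F (z - emb a) = h4_F z := by
  have h1 := h4_F_add z h (-a)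
  rwa [map_neg, ← sub_eq_add_neg] at h1

/-- local analytic extension at every point -/
theorem h4_local (t : ℂ) : ∃ h : ℂ → ℂ, AnalyticAt ℂ h t ∧ ∀ᶠ z in 𝓝[≠] t, h4_F z = h z := by
  by_cases ht : Off t
  · exact ⟨h4_F, h4_local_off t ht, Eventually.of_forall fun _ => rfl⟩
  by_cases ht2 : t ∈ Set.range emb
  · obtain ⟨a, rfl⟩ := ht2
    obtain ⟨h, hh, -, hl⟩ := h4_local_zero
    refine ⟨fun z => h (z - emb a), ?_, ?_⟩
    · have : AnalyticAt ℂ h (emb a - emb a) := by simpa using hh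
      exact this.comp (f := fun z => z - emb a) (by fun_prop)
    · have h1 : Tendsto (fun z : ℂ => z - emb a) (𝓝[≠] (emb a)) (𝓝[≠] 0) := by
        apply tendsto_nhdsWithin_of_tendsto_nhds_of_eventually_within
        · have : Tendsto (fun z : ℂ => z - emb a) (𝓝 (emb a)) (𝓝 (emb a - emb a)) :=
            (Continuous.tendsto (by fun_prop) _)
          rw [sub_self] at this
          exact this.mono_left nhdsWithin_le_nhds
        · filter_upwards [self_mem_nhdsWithin] with z hz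
          exact sub_ne_zero.2 hz
      filter_upwards [h1.eventually hl, h4_off_near (emb a)] with z h2 h3
      rw [← h2, h4_F_sub z h3 a]
  · have h2 : 2 * t ∈ Set.range emb := not_not.1 ht
    obtain ⟨h, hh, hl⟩ := lam_near_half t ht2 h2
    have ht3 : t ∉ L0.lattice := fun h => ht2 ((mem_L0 t).1 h)
    have ha := L0.analyticOnNhd_weierstrassP t ht3
    have hb := L0.analyticOnNhd_derivWeierstrassP t ht3
    have hv : L0.derivWeierstrassP t = 0 := by
      have e1 := L0.derivWeierstrassP_add_coe (-t) ⟨2 * t, (mem_L0 _).2 h2⟩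
      have e2 := L0.derivWeierstrassP_neg t
      simp only at e1
      rw [show -t + 2 * t = t by ring, e2] at e1
      have e3 : 2 * L0.derivWeierstrassP t = 0 := by linear_combination e1
      simpa using e3
    obtain ⟨k, hk, hk2⟩ := h4_pow_factor hb 1 (by
      intro i hi
      have : i = 0 := by omega
      subst this
      simpa using hv)
    refine ⟨fun z => k z / 2 + h z * L0.derivWeierstrassP z - 3 * L0.weierstrassP z ^ 2,
      by fun_prop, ?_⟩
    filter_upwards [hl, nhdsWithin_le_nhds hk2, self_mem_nhdsWithin] with z h1 h2 h3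
    have h4 : z - t ≠ 0 := sub_ne_zero.2 h3
    rw [h4_F, h1, h2]
    field_simp

theorem h4_Ft_of {h : ℂ → ℂ} {t : ℂ} (hh : ContinuousAt h t) (hl : ∀ᶠ z in 𝓝[≠] t, h4_F z = h z) :
    h4_Ft t = h t := by
  apply Tendsto.limUnder_eq
  have h1 : Tendsto h (𝓝[≠] t) (𝓝 (h t)) := hh.tendsto.mono_left nhdsWithin_le_nhds
  exact h1.congr' (hl.mono fun z hz => hz.symm)

theorem h4_Ft_analytic (t : ℂ) : AnalyticAt ℂ h4_Ft t := by
  obtain ⟨h, hh, hl⟩ := h4_local t
  refine hh.congr ?_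
  rw [eventually_nhdsWithin_iff] at hl
  filter_upwards [hh.eventually_analyticAt, hl.eventually_nhds] with z h1 h2
  symm
  by_cases hz : z = t
  · subst hz
    exact h4_Ft_of h1.continuousAt (eventually_nhdsWithin_iff.2 hl)
  · apply h4_Ft_of h1.continuousAt
    apply Filter.Eventually.filter_mono nhdsWithin_le_nhds
    filter_upwards [h2, (isOpen_compl_singleton.mem_nhds hz : ({t}ᶜ : Set ℂ) ∈ 𝓝 z)] with y h3 h4
    exact h3 h4

theorem h4_Ft_eq (z : ℂ) (h : Off z) : h4_Ft z = h4_F z :=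
  h4_Ft_of (h4_local_off z h).continuousAt (Eventually.of_forall fun _ => rfl)

theorem h4_Ft_add (z : ℂ) (a : Eis) : h4_Ft (z + emb a) = h4_Ft z := by
  have h1 : Continuous h4_Ft := continuous_iff_continuousAt.2 fun t => (h4_Ft_analytic t).continuousAt
  have h2 : Tendsto (fun y => h4_Ft (y + emb a)) (𝓝[≠] z) (𝓝 (h4_Ft (z + emb a))) :=
    (Continuous.tendsto (by fun_prop) z).mono_left nhdsWithin_le_nhds
  have h3 : Tendsto h4_Ft (𝓝[≠] z) (𝓝 (h4_Ft z)) :=
    (h1.tendsto z).mono_left nhdsWithin_le_nhds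
  refine tendsto_nhds_unique h2 (h3.congr' ?_)
  filter_upwards [h4_off_near z] with y hy
  rw [h4_Ft_eq y hy, h4_Ft_eq _ (h4_off_add y a hy), h4_F_add y hy]

theorem h4_Ft_zero : h4_Ft 0 = 0 := by
  obtain ⟨h, hh, h0, hl⟩ := h4_local_zero
  rw [h4_Ft_of hh.continuousAt hl, h0]

theorem h4_Ft_eq_zero (z : ℂ) : h4_Ft z = 0 := by
  have hd : Differentiable ℂ h4_Ft := fun x => (h4_Ft_analytic x).differentiableAt
  rw [← h4_Ft_zero]
  refine hd.apply_eq_apply_of_bounded (IsZLattice.isCompact_range_of_periodic L0.lattice _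
    hd.continuous fun z w hw => ?_).isBounded z 0
  obtain ⟨a, rfl⟩ := (mem_L0 w).1 hw
  exact h4_Ft_add z a

theorem lam_mul_deriv (z : ℂ) (hz : Off z) :
    lam z * L0.derivWeierstrassP z = 3 * L0.weierstrassP z ^ 2 := by
  have h1 := h4_Ft_eq_zero z
  rw [h4_Ft_eq z hz, h4_F] at h1
  exact sub_eq_zero.1 h1

end CM27
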