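import Pool.Agent.MP_ae0bd0_nt.CM.B5

set_option autoImplicit false

open scoped ComplexConjugate

namespace CM27

/-! ## [CM-B6] good primes and odd norms (file B6.lean; uses B1-B5, A3) -/

theorem b6_even {α : Type} (s : Finset α) (g : α → α) (hg : ∀ x ∈ s, g x ∈ s)
    (hgg : ∀ x ∈ s, g (g x) = x) (hne : ∀ x ∈ s, g x ≠ x) : Even s.card := by
  have h : ∑ x ∈ s, (1 : ZMod 2) = 0 := by
    refine Finset.sum_involution (fun x _ => g x) ?_ ?_ (fun x hx => hg x hx)
      (fun x hx => hgg x hx)
    · intro x _
      decide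
    · intro x hx _
      exact hne x hx
  rw [Finset.sum_const, nsmul_eq_mul, mul_one] at h
  exact (ZMod.natCast_eq_zero_iff_even).1 h

/-- The parity of the number of points of `E` over a finite field of characteristic not `2`, `3`. -/
theorem b6_parity (F : Type) [Field F] [Fintype F] [DecidableEq F] (h2 : (2 : F) ≠ 0)
    (h3 : (3 : F) ≠ 0) :
    Odd (Nat.card (E F).toAffine.Point) ↔ ¬ ∃ x : F, x ^ 3 = 2 := by
  classical
  -- the affine solutions
  let S : Finset (F × F) := Finset.univ.filter fun p => p.2 ^ 2 + p.2 = p.1 ^ 3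
  have hS : ∀ p : F × F, p ∈ S ↔ p.2 ^ 2 + p.2 = p.1 ^ 3 := fun p => by
    simp [S]
  have e : {xy : F × F // (E F).toAffine.Nonsingular xy.1 xy.2} ≃ S :=
    Equiv.subtypeEquivRight fun p => by
      rw [b1_nonsingular_iff F h3, hS]
  have hcard : Nat.card (E F).toAffine.Point = S.card + 1 := by
    have h1 : Nat.card (E F).toAffine.Point = Nat.card (Option S) :=
      Nat.card_congr ((WeierstrassCurve.Affine.nonsingularPointEquiv (E F).toAffine).trans
        (Equiv.optionCongr e))
    rw [h1, Finite.card_option, Nat.card_eq_fintype_card, Fintype.card_coe]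
  -- the fixed points of the involution
  let A : Finset (F × F) := S.filter fun p => 2 * p.2 + 1 = 0
  let B : Finset (F × F) := S.filter fun p => ¬ 2 * p.2 + 1 = 0
  have hAB : S.card = A.card + B.card := by
    have := Finset.card_filter_add_card_filter_not (s := S) (fun p : F × F => 2 * p.2 + 1 = 0)
    rw [← this]
  have hB : Even B.card := by
    refine b6_even B (fun p => (p.1, -1 - p.2)) ?_ ?_ ?_
    · intro p hp
      rw [Finset.mem_filter, hS] at hp ⊢
      refine ⟨by linear_combination hp.1, ?_⟩
      intro h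
      apply hp.2
      simp only at h
      linear_combination -h
    · intro p _
      ext
      · rfl
      · simp
    · intro p hp h
      rw [Finset.mem_filter, hS] at hp
      apply hp.2
      have h' := congrArg Prod.snd h
      simp only at h'
      linear_combination -h'
  -- the cube roots of 2
  let Z : Finset F := Finset.univ.filter fun z => z ^ 3 = 2
  have hZ : ∀ z : F, z ∈ Z ↔ z ^ 3 = 2 := fun z => by simp [Z]
  have hAZ : A.card = Z.card := by
    refine Finset.card_bij' (fun p _ => -2 * p.1) (fun z _ => (-z / 2, -1 / 2)) ?_ ?_ ?_ ?_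
    · intro p hp
      rw [Finset.mem_filter, hS] at hp
      rw [hZ]
      have h1 := hp.1
      have h4 : 2 * p.2 + 1 = 0 := hp.2
      linear_combination 8 * h1 - (4 * p.2 + 2) * h4
    · intro z hz
      rw [hZ] at hz
      rw [Finset.mem_filter, hS]
      constructor
      · simp only
        field_simp
        linear_combination 1 * hz
      · simp only
        field_simp
        ring
    · intro p hp
      rw [Finset.mem_filter, hS] at hp
      have h4 : 2 * p.2 + 1 = 0 := hp.2
      ext
      · simp only
        field_simp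
      · simp only
        rw [div_eq_iff h2]
        linear_combination -h4
    · intro z _
      simp only
      field_simp
  have hZodd : (∃ x : F, x ^ 3 = 2) → Odd Z.card := by
    rintro ⟨x0, hx0⟩
    have hx0' : x0 ≠ 0 := by
      rintro rfl
      apply h2
      rw [← hx0]
      norm_num
    let U : Finset F := Finset.univ.filter fun w => w ^ 3 = 1
    have hU : ∀ w : F, w ∈ U ↔ w ^ 3 = 1 := fun w => by simp [U]
    have hZU : Z.card = U.card := by
      refine Finset.card_bij' (fun z _ => z / x0) (fun w _ => w * x0) ?_ ?_ ?_ ?_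
      · intro z hz
        rw [hZ] at hz
        rw [hU, div_pow, hz, hx0, div_self h2]
      · intro w hw
        rw [hU] at hw
        rw [hZ, mul_pow, hw, hx0, one_mul]
      · intro z _
        exact div_mul_cancel₀ _ hx0'
      · intro w _
        exact mul_div_cancel_right₀ _ hx0'
    have h1U : (1 : F) ∈ U := by rw [hU]; norm_num
    have hev : Even (U.erase 1).card := by
      have hne0 : ∀ w : F, w ^ 3 = 1 → w ≠ 0 := by
        rintro w hw rfl
        norm_num at hw
      refine b6_even (U.erase 1) (fun w => w⁻¹) ?_ ?_ ?_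
      · intro w hw
        rw [Finset.mem_erase, hU] at hw ⊢
        refine ⟨?_, by rw [inv_pow, hw.2, inv_one]⟩
        intro h
        exact hw.1 (inv_eq_one.1 h)
      · intro w _
        exact inv_inv w
      · intro w hw h
        rw [Finset.mem_erase, hU] at hw
        have hw0 := hne0 w hw.2
        apply hw.1
        have h5 : w * w = 1 := by
          nth_rewrite 1 [← h]
          exact inv_mul_cancel₀ hw0
        have h6 : w ^ 3 = w * w * w := by ring
        rw [← hw.2, h6, h5, one_mul]
    rw [hZU, ← Finset.card_erase_add_one h1U]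
    exact hev.add_one
  have hZeven : (¬ ∃ x : F, x ^ 3 = 2) → Z.card = 0 := by
    intro h
    rw [Finset.card_eq_zero, Finset.eq_empty_iff_forall_notMem]
    intro z hz
    exact h ⟨z, (hZ z).1 hz⟩
  rw [hcard, hAB, hAZ]
  constructor
  · intro h h'
    have h5 := hZodd h'
    have h6 : Even (Z.card + B.card + 1) := (h5.add_even hB).add_one
    exact (Nat.not_even_iff_odd.2 h) h6
  · intro h
    rw [hZeven h, zero_add]
    exact hB.add_one

/-- The number of points `N(π - 1)` of `E` over `𝔽_p` is odd iff there is no point of order `2`,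
i.e. iff `2` is not a cube modulo `p`. -/
theorem norm_odd_iff (p : ℕ) (hp : p.Prime) (h : p % 3 = 1) (a : Eis) (ha : Primary a)
    (hn : a.norm = p) : Odd (a - 1).norm ↔ ¬ ∃ x : ZMod p, x ^ 3 = 2 := by
  have : Fact p.Prime := ⟨hp⟩
  have hc : Nat.card (ZMod p) % 3 = 1 := by rw [Nat.card_zmod]; exact h
  have h2 : (2 : ZMod p) ≠ 0 := by
    intro h0
    have h1 : p ∣ 2 := (CharP.cast_eq_zero_iff (ZMod p) p 2).1 (by exact_mod_cast h0)
    have := (Nat.prime_dvd_prime_iff_eq hp Nat.prime_two).1 h1
    subst this
    norm_num at h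
  have h3 : (3 : ZMod p) ≠ 0 := b1_three_ne_zero (ZMod p) (by rw [hc]; norm_num)
  obtain ⟨χ, hχ⟩ := exists_chi (ZMod p) hc
  obtain ⟨b, hb1, hb2, hb3⟩ := jacobi_primary (ZMod p) hc χ hχ
  have hJ := card_jacobi (ZMod p) hc χ hχ
  rw [Nat.card_zmod] at hb2 hJ
  obtain ⟨i, hi, hbi⟩ := eq_pow_mul_pow p hp a ha hn 1 b hb1 (by rw [hb2]; simp)
  have hab : emb b + conj (emb b) = emb a + conj (emb a) := by
    interval_cases i
    · rw [hbi]
      simp only [pow_zero, one_mul, Nat.sub_zero, pow_one, emb_star, Complex.conj_conj]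
      ring
    · rw [hbi]
      simp
  have hre : emb a + conj (emb a) = ((2 * a.re - a.im : ℤ) : ℂ) := by
    rw [Complex.add_conj, emb_re]
    push_cast
    ring
  have hnorm : (a - 1).norm = p + 1 - (2 * a.re - a.im) := by
    have h4 := hn
    rw [norm_eq] at h4
    rw [norm_eq]
    simp only [QuadraticAlgebra.re_sub, QuadraticAlgebra.im_sub, QuadraticAlgebra.re_one,
      QuadraticAlgebra.im_one]
    linear_combination h4
  have hcount : (Nat.card (E (ZMod p)).toAffine.Point : ℤ) = (a - 1).norm := by
    have h5 : (Nat.card (E (ZMod p)).toAffine.Point : ℂ) = ((a - 1).norm : ℂ) := by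
      rw [hJ, hb3, hnorm]
      have h6 : (-emb b + conj (-emb b) : ℂ) = -((2 * a.re - a.im : ℤ) : ℂ) := by
        rw [← hre, ← hab, map_neg]
        ring
      rw [h6]
      push_cast
      ring
    exact_mod_cast h5
  rw [← hcount, Int.odd_coe_nat]
  exact b6_parity (ZMod p) h2 h3

theorem good_norm (p : ℕ) (hp : GoodPrime p) (a : Eis) (ha : Primary a) (hn : a.norm = p) :
    Odd (a - 1).norm :=
  (norm_odd_iff p hp.1 hp.2.1 a ha hn).2 hp.2.2

end CM27
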