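import Pool.Agent.MP_ae0bd0_nt.CM.Defs

set_option autoImplicit false

open scoped ComplexConjugate

namespace CM27

/-! ## [CM-A1] Eisenstein integers form a principal ideal domain (file A1.lean) -/

theorem eis_isDomain : IsDomain Eis := emb_injective.isDomain emb

theorem a1_norm_pos {a : Eis} (ha : a ≠ 0) : 0 < a.norm := by
  have h := norm_nonneg' a
  rcases h.lt_or_eq with h | h
  · exact h
  · exfalso
    apply ha
    have h1 : a.re ^ 2 - a.re * a.im + a.im ^ 2 = 0 := by rw [← norm_eq]; exact h.symm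
    have h2 : a.im = 0 := by
      have h4 : 3 * a.im ^ 2 ≤ 0 := by
        have h5 := sq_nonneg (2 * a.re - a.im)
        linarith
      exact pow_eq_zero_iff two_ne_zero |>.1 (le_antisymm (by linarith) (sq_nonneg _))
    have h3 : a.re = 0 := by
      rw [h2] at h1
      exact pow_eq_zero_iff two_ne_zero |>.1 (by linarith)
    ext
    · simpa using h3
    · simpa using h2

private theorem a1_int {n r1 r2 ρ σ N : ℤ} (hn : 0 < n) (hρ0 : 0 ≤ ρ) (hρ1 : ρ < 2 * n)
    (hσ0 : 0 ≤ σ) (hσ1 : σ < 2 * n) (e1 : 2 * r1 = ρ - n) (e2 : 2 * r2 = σ - n)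
    (h : r1 ^ 2 - r1 * r2 + r2 ^ 2 = N * n) : N < n := by
  have b1 : (2 * r1) ^ 2 ≤ n ^ 2 := by
    rw [e1]; exact sq_le_sq' (by linarith) (by linarith)
  have b2 : (2 * r2) ^ 2 ≤ n ^ 2 := by
    rw [e2]; exact sq_le_sq' (by linarith) (by linarith)
  have b3 : (4 * N) * n ≤ (3 * n) * n := by
    have h5 := sq_nonneg (2 * r1 + 2 * r2)
    linarith
  have b4 : 4 * N ≤ 3 * n := le_of_mul_le_mul_right b3 hn
  linarith

/-- division with remainder -/
theorem a1_div (a b : Eis) (hb : b ≠ 0) : ∃ q : Eis, (a - b * q).norm < b.norm := by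
  have hn := a1_norm_pos hb
  set n := b.norm with hndef
  set c := a * star b with hc
  let x : ℤ := (2 * c.re + n) / (2 * n)
  let y : ℤ := (2 * c.im + n) / (2 * n)
  let ρ : ℤ := (2 * c.re + n) % (2 * n)
  let σ : ℤ := (2 * c.im + n) % (2 * n)
  have hx : 2 * n * x + ρ = 2 * c.re + n := Int.mul_ediv_add_emod _ _
  have hy : 2 * n * y + σ = 2 * c.im + n := Int.mul_ediv_add_emod _ _
  have hρ0 : 0 ≤ ρ := Int.emod_nonneg _ (by omega)
  have hσ0 : 0 ≤ σ := Int.emod_nonneg _ (by omega)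
  have hρ1 : ρ < 2 * n := Int.emod_lt_of_pos _ (by omega)
  have hσ1 : σ < 2 * n := Int.emod_lt_of_pos _ (by omega)
  refine ⟨⟨x, y⟩, ?_⟩
  set q : Eis := ⟨x, y⟩ with hq
  have h1 : (a - b * q) * star b = c - algebraMap ℤ Eis n * q := by
    rw [hndef, QuadraticAlgebra.algebraMap_norm_eq_mul_star, hc]
    ring
  have h2 : ((a - b * q) * star b).norm = (a - b * q).norm * n := by
    rw [map_mul, QuadraticAlgebra.norm_star]
  have hre : (c - algebraMap ℤ Eis n * q).re = c.re - n * x := by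
    simp [hq]
  have him : (c - algebraMap ℤ Eis n * q).im = c.im - n * y := by
    simp [hq]
  have h3 : (c - algebraMap ℤ Eis n * q).norm =
      (c.re - n * x) ^ 2 - (c.re - n * x) * (c.im - n * y) + (c.im - n * y) ^ 2 := by
    rw [norm_eq, hre, him]
  rw [h1, h3] at h2
  have e1 : 2 * (c.re - n * x) = ρ - n := by linarith
  have e2 : 2 * (c.im - n * y) = σ - n := by linarith
  set r1 := c.re - n * x with hr1
  set r2 := c.im - n * y with hr2
  exact a1_int hn hρ0 hρ1 hσ0 hσ1 e1 e2 h2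

theorem eis_pid : IsPrincipalIdealRing Eis := by
  constructor
  intro I
  by_cases hI : I = ⊥
  · rw [hI]; exact bot_isPrincipal
  · obtain ⟨b0, hb0, hb0'⟩ := Submodule.exists_mem_ne_zero_of_ne_bot hI
    have hex : ∃ k : ℕ, ∃ b ∈ I, b ≠ 0 ∧ b.norm = k :=
      ⟨b0.norm.toNat, b0, hb0, hb0', by rw [Int.toNat_of_nonneg (norm_nonneg' b0)]⟩
    classical
    obtain ⟨b, hbI, hb0, hbn⟩ := Nat.find_spec hex
    refine ⟨⟨b, ?_⟩⟩
    apply le_antisymm
    · intro a ha
      obtain ⟨q, hq⟩ := a1_div a b hb0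
      have hr : a - b * q ∈ I := I.sub_mem ha (I.mul_mem_right q hbI)
      have h0 : a - b * q = 0 := by
        by_contra hne
        have hlt : (a - b * q).norm.toNat < Nat.find hex := by
          have h5 := norm_nonneg' (a - b * q)
          omega
        apply Nat.find_min hex hlt
        exact ⟨a - b * q, hr, hne, by rw [Int.toNat_of_nonneg (norm_nonneg' _)]⟩
      rw [sub_eq_zero] at h0
      rw [h0]
      exact Ideal.mem_span_singleton.mpr (dvd_mul_right b q)
    · rw [Submodule.span_le]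
      simpa using hbI

theorem eis_isUnit_iff (a : Eis) : IsUnit a ↔ a.norm = 1 := by
  rw [QuadraticAlgebra.isUnit_iff_norm_isUnit, Int.isUnit_iff]
  have := norm_nonneg' a
  constructor
  · rintro (h | h)
    · exact h
    · omega
  · intro h; exact Or.inl h

/-- every Eisenstein integer whose norm is prime to `3` has exactly one primary associate -/
theorem exists_primary (a : Eis) (h : ¬ (3 : ℤ) ∣ a.norm) : ∃ u : Eis, IsUnit u ∧ Primary (u * a) := by
  rw [norm_eq] at h
  have key : ∀ x y : ℤ, x ^ 2 - x * y + y ^ 2 = 1 →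
      (x * a.re - y * a.im) % 3 = 1 → (x * a.im + y * a.re - y * a.im) % 3 = 0 →
      ∃ u : Eis, IsUnit u ∧ Primary (u * a) := by
    intro x y h1 h2 h3
    refine ⟨⟨x, y⟩, ?_, ?_⟩
    · rw [eis_isUnit_iff, norm_eq]; exact h1
    · rw [primary_iff]
      simp only [QuadraticAlgebra.re_mul, QuadraticAlgebra.im_mul]
      constructor
      · refine Eq.trans ?_ h2
        congr 1; ring
      · refine Eq.trans ?_ h3
        congr 1; ring
  have hr : a.re % 3 = 0 ∨ a.re % 3 = 1 ∨ a.re % 3 = 2 := by omega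
  have hs : a.im % 3 = 0 ∨ a.im % 3 = 1 ∨ a.im % 3 = 2 := by omega
  obtain ⟨k, hk⟩ : ∃ k, a.re = 3 * k + a.re % 3 := ⟨a.re / 3, by omega⟩
  obtain ⟨l, hl⟩ : ∃ l, a.im = 3 * l + a.im % 3 := ⟨a.im / 3, by omega⟩
  rcases hr with hr | hr | hr <;> rcases hs with hs | hs | hs <;> rw [hr] at hk <;> rw [hs] at hl
  · exfalso; apply h; rw [hk, hl]
    exact ⟨3 * k ^ 2 - 3 * k * l + 3 * l ^ 2, by ring⟩
  · -- a ≡ ω, u = ω² = (-1,-1)
    exact key (-1) (-1) (by norm_num) (by rw [hk, hl]; omega) (by rw [hk, hl]; omega)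
  · exact key 1 1 (by norm_num) (by rw [hk, hl]; omega) (by rw [hk, hl]; omega)
  · exact key 1 0 (by norm_num) (by rw [hk, hl]; omega) (by rw [hk, hl]; omega)
  · exact key 0 (-1) (by norm_num) (by rw [hk, hl]; omega) (by rw [hk, hl]; omega)
  · exfalso; apply h; rw [hk, hl]
    exact ⟨3 * k ^ 2 - 3 * k * l + 3 * l ^ 2 + 3 * l + 1, by ring⟩
  · exact key (-1) 0 (by norm_num) (by rw [hk, hl]; omega) (by rw [hk, hl]; omega)
  · exfalso; apply h; rw [hk, hl]
    exact ⟨3 * k ^ 2 - 3 * k * l + 3 * l ^ 2 + 3 * k + 1, by ring⟩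
  · exact key 0 1 (by norm_num) (by rw [hk, hl]; omega) (by rw [hk, hl]; omega)

theorem primary_unique (a u : Eis) (ha : Primary a) (hu : IsUnit u) (h : Primary (u * a)) : u = 1 := by
  rw [primary_iff] at ha h
  rw [eis_isUnit_iff, norm_eq] at hu
  simp only [QuadraticAlgebra.re_mul, QuadraticAlgebra.im_mul] at h
  obtain ⟨h1, h2⟩ := ha
  obtain ⟨h3, h4⟩ := h
  obtain ⟨k, hk⟩ : ∃ k, a.re = 3 * k + 1 := ⟨a.re / 3, by omega⟩
  obtain ⟨l, hl⟩ : ∃ l, a.im = 3 * l := ⟨a.im / 3, by omega⟩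
  rw [hk, hl] at h3 h4
  have e3 : u.re % 3 = 1 := by
    have : u.re * (3 * k + 1) + -1 * u.im * (3 * l) = u.re + 3 * (u.re * k - u.im * l) := by ring
    rw [this] at h3; omega
  have e4 : u.im % 3 = 0 := by
    have : u.re * (3 * l) + u.im * (3 * k + 1) + -1 * u.im * (3 * l) =
      u.im + 3 * (u.re * l + u.im * k - u.im * l) := by ring
    rw [this] at h4; omega
  have b1 : u.im ^ 2 ≤ 1 := by nlinarith [sq_nonneg (2 * u.re - u.im)]
  have b2 : u.re ^ 2 ≤ 1 := by nlinarith [sq_nonneg (2 * u.im - u.re)]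
  have b3 : u.im ≤ 1 := by nlinarith
  have b4 : -1 ≤ u.im := by nlinarith
  have b5 : u.re ≤ 1 := by nlinarith
  have b6 : -1 ≤ u.re := by nlinarith
  ext
  · rw [QuadraticAlgebra.re_one]; omega
  · rw [QuadraticAlgebra.im_one]; omega

theorem Primary.mul {a b : Eis} (ha : Primary a) (hb : Primary b) : Primary (a * b) := by
  obtain ⟨x, hx⟩ := ha
  obtain ⟨y, hy⟩ := hb
  refine ⟨x * b + y, ?_⟩
  have h1 : a = 3 * x + 1 := by rw [← hx]; ring
  have h2 : b = 3 * y + 1 := by rw [← hy]; ring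
  rw [h1, h2]; ring

theorem Primary.star {a : Eis} (ha : Primary a) : Primary (star a) := by
  rw [primary_iff] at ha ⊢
  simp only [QuadraticAlgebra.re_star, QuadraticAlgebra.im_star]
  omega

end CM27
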