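import Pool.Agent.MP_ae0bd0_nt.CM.Defs

/-!
# [CM27] the characters of a subfield of a cyclotomic field
-/

set_option autoImplicit false

open Polynomial NumberField IsDedekindDomain

namespace CM27

open Classical in
/-- The Dirichlet characters of level `m` which belong to the subfield `F` of `ℚ(ζ_m)`. -/
noncomputable def chars (m : ℕ) [NeZero m] {M : Type} [Field M] [NumberField M]
    [IsCyclotomicExtension {m} ℚ M] (F : IntermediateField ℚ M) :
    Finset (DirichletCharacter ℂ m) :=
  (Set.toFinite {χ : DirichletCharacter ℂ m | ∀ σ : Gal(M/ℚ), σ ∈ F.fixingSubgroup →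
    χ (IsCyclotomicExtension.Rat.galEquivZMod m M σ : (ZMod m)ˣ) = 1}).toFinset

/-- The value of the primitive character of `χ` at `n`. -/
noncomputable def pval {m : ℕ} (χ : DirichletCharacter ℂ m) (n : ℕ) : ℂ :=
  χ.primitiveCharacter (n : ZMod χ.conductor)

end CM27
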