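import Pool.Agent.MP_ae0bd0_nt.CM.Defs

/-!
# [CM27] rank part: definitions

`R K = K[π]/(π³ - 2)`; a point `(x, y)` of `E : y² + y = x³` is mapped to `1 + x π²` (the 2-descent
map: `4 x + 2 π = π⁴ (1 + π² x)` and `(8 y + 4)² = (4 x)³ + 16`).
-/

set_option autoImplicit false

open Polynomial

namespace CM27

/-- The polynomial `X³ - 2`. -/
noncomputable def cubPoly (K : Type) [Field K] : K[X] := X ^ 3 - C 2

theorem eval₂_cubPoly {K : Type} [Field K] {S : Type*} [CommRing S] (f : K →+* S) (x : S) :
    (cubPoly K).eval₂ f x = x ^ 3 - 2 := by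
  have h : f 2 = 2 := map_ofNat f 2
  simp only [cubPoly, eval₂_sub, eval₂_pow, eval₂_X, eval₂_C, h]

/-- `K[π]/(π³ - 2)` -/
abbrev R (K : Type) [Field K] := AdjoinRoot (cubPoly K)

section
variable (K : Type) [Field K]

/-- The cube root of `2` in `R K`. -/
noncomputable def pr : R K := AdjoinRoot.root (cubPoly K)

/-- The element `a + b π + c π²`. -/
noncomputable def trip {K : Type} [Field K] (a b c : K) : R K :=
  algebraMap K (R K) a + algebraMap K (R K) b * pr K + algebraMap K (R K) c * pr K ^ 2

theorem pr_pow : pr K ^ 3 = 2 := by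
  have h := AdjoinRoot.eval₂_root (cubPoly K)
  rw [eval₂_cubPoly] at h
  exact sub_eq_zero.1 h

end

open Classical in
/-- The descent map: `1 + x π²` for the point `(x, y)`, and `1` for the point at infinity. -/
noncomputable def zOf {K : Type} [Field K] : (E K).toAffine.Point → R K
  | .zero => 1
  | .some x _ _ => trip 1 0 x

/-- The map `R K → R L` induced by a homomorphism `K → L`. -/
noncomputable def mapR {K L : Type} [Field K] [Field L] (f : K →+* L) : R K →+* R L :=
  AdjoinRoot.lift ((algebraMap L (R L)).comp f) (pr L) (by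
    rw [eval₂_cubPoly, pr_pow, sub_self])

theorem mapR_pr {K L : Type} [Field K] [Field L] (f : K →+* L) : mapR f (pr K) = pr L :=
  AdjoinRoot.lift_root _

theorem mapR_algebraMap {K L : Type} [Field K] [Field L] (f : K →+* L) (a : K) :
    mapR f (algebraMap K (R K) a) = algebraMap L (R L) (f a) :=
  AdjoinRoot.lift_of _

theorem mapR_trip {K L : Type} [Field K] [Field L] (f : K →+* L) (a b c : K) :
    mapR f (trip a b c) = trip (f a) (f b) (f c) := by
  simp only [trip, map_add, map_mul, map_pow, mapR_pr, mapR_algebraMap]

theorem E_map {K L : Type*} [CommRing K] [CommRing L] (f : K →+* L) : (E K).map f = E L := by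
  simp [E, WeierstrassCurve.map]

/-- The map on points induced by a homomorphism of fields. -/
noncomputable def ptMap {K L : Type} [Field K] [Field L] (f : K →+* L) :
    (E K).toAffine.Point → (E L).toAffine.Point
  | .zero => .zero
  | .some x y h => .some (f x) (f y) (by
      have h1 := (WeierstrassCurve.Affine.map_nonsingular (E K).toAffine f.injective x y).2 h
      have h2 : ((E K).toAffine.map f) = (E L).toAffine := E_map f
      rwa [h2] at h1)

theorem cubPoly_monic (K : Type) [Field K] : (cubPoly K).Monic := by
  rw [cubPoly]; monicity!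

theorem cubPoly_natDegree (K : Type) [Field K] : (cubPoly K).natDegree = 3 := by
  rw [cubPoly]; compute_degree!

theorem irreducible_of_no_root {K : Type} [Field K] (h : ∀ x : K, x ^ 3 ≠ 2) :
    Irreducible (cubPoly K) := by
  rw [Polynomial.irreducible_iff_roots_eq_zero_of_degree_le_three]
  · rw [Multiset.eq_zero_iff_forall_notMem]
    intro x hx
    have h1 := (Polynomial.mem_roots'.1 hx).2
    rw [Polynomial.IsRoot.def, ← Polynomial.eval₂_id, eval₂_cubPoly] at h1
    exact h x (sub_eq_zero.1 h1)
  · rw [cubPoly_natDegree]; norm_num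
  · rw [cubPoly_natDegree]

instance factQ : Fact (Irreducible (cubPoly ℚ)) := ⟨by
  apply irreducible_of_no_root
  intro x hx
  have h1 : (3 : ℤ) ∣ padicValRat 2 (x ^ 3) := by
    rw [padicValRat.pow]
    exact ⟨padicValRat 2 x, by push_cast; ring⟩
  rw [hx] at h1
  have h2 : padicValRat 2 (2 : ℚ) = 1 := by
    have := padicValRat.self (p := 2) (by norm_num)
    exact_mod_cast this
  rw [h2] at h1
  norm_num at h1⟩

instance charZeroR {K : Type} [Field K] [CharZero K] [Fact (Irreducible (cubPoly K))] :
    CharZero (R K) := charZero_of_injective_algebraMap (algebraMap K (R K)).injective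

instance finiteR {K : Type} [Field K] : FiniteDimensional K (R K) :=
  (AdjoinRoot.powerBasis' (cubPoly_monic K)).finite

instance numberFieldR : NumberField (R ℚ) where
  to_charZero := charZeroR
  to_finiteDimensional := finiteR

end CM27
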