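import Pool.Agent.MP_ae0bd0_nt.CM.G2a

set_option autoImplicit false

open scoped ComplexConjugate
open Filter Topology

namespace CM27

/-! ## [CM-G2b] analytic continuation (file G2b.lean; uses G1, G2a) -/

/-- The terms of the regularised series. -/
noncomputable def g2b_T (z s : ℂ) (a : Eis) : ℂ :=
  gs s (2 * z + emb a) - 2 * gs s (z + emb a) + gs s (emb a)

theorem g2b_gs_zero (s : ℂ) : gs s 0 = 0 := by
  simp [gs]

theorem g2b_gs_differentiable (u : ℂ) : Differentiable ℂ fun s => gs s u := by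
  by_cases hu : u = 0
  · subst hu
    have : (fun s => gs s 0) = fun _ => (0 : ℂ) := by
      funext s
      exact g2b_gs_zero s
    rw [this]
    exact differentiable_const 0
  · unfold gs
    apply Differentiable.const_mul
    intro s
    apply DifferentiableAt.const_cpow
    · fun_prop
    · left
      simpa using hu

theorem g2b_T_differentiable (z : ℂ) (a : Eis) : Differentiable ℂ fun s => g2b_T z s a := by
  unfold g2b_T
  exact ((g2b_gs_differentiable _).sub ((g2b_gs_differentiable _).const_mul 2)).add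
    (g2b_gs_differentiable _)

/-- A crude bound for `gs s u` when `‖s‖ ≤ r`. -/
noncomputable def g2b_m (r : ℝ) (u : ℂ) : ℝ := ‖u‖ * (‖u‖ ^ (2 * r) + ‖u‖ ^ (-(2 * r)))

theorem g2b_gs_le (r : ℝ) (s u : ℂ) (hs : ‖s‖ ≤ r) : ‖gs s u‖ ≤ g2b_m r u := by
  by_cases hu : u = 0
  · subst hu
    simp [g2b_gs_zero, g2b_m]
  · have hpos : 0 < ‖u‖ := norm_pos_iff.2 hu
    unfold gs g2b_m
    rw [norm_mul, RCLike.norm_conj, Complex.norm_cpow_eq_rpow_re_of_pos hpos]
    apply mul_le_mul_of_nonneg_left _ hpos.le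
    have h1 : (-2 * s).re = -2 * s.re := by simp
    rw [h1]
    have h2 : |s.re| ≤ r := (Complex.abs_re_le_norm s).trans hs
    have h3 := abs_le.1 h2
    rcases le_total 1 ‖u‖ with h | h
    · have h4 : ‖u‖ ^ (-2 * s.re) ≤ ‖u‖ ^ (2 * r) :=
        Real.rpow_le_rpow_of_exponent_le h (by linarith)
      have h5 : 0 ≤ ‖u‖ ^ (-(2 * r)) := Real.rpow_nonneg hpos.le _
      linarith
    · have h4 : ‖u‖ ^ (-2 * s.re) ≤ ‖u‖ ^ (-(2 * r)) :=
        Real.rpow_le_rpow_of_exponent_ge hpos h (by linarith)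
      have h5 : 0 ≤ ‖u‖ ^ (2 * r) := Real.rpow_nonneg hpos.le _
      linarith

theorem g2b_T_le (r : ℝ) (z s : ℂ) (hs : ‖s‖ ≤ r) (a : Eis) :
    ‖g2b_T z s a‖ ≤ g2b_m r (2 * z + emb a) + 2 * g2b_m r (z + emb a) + g2b_m r (emb a) := by
  unfold g2b_T
  have h1 := g2b_gs_le r s (2 * z + emb a) hs
  have h2 := g2b_gs_le r s (z + emb a) hs
  have h3 := g2b_gs_le r s (emb a) hs
  calc ‖gs s (2 * z + emb a) - 2 * gs s (z + emb a) + gs s (emb a)‖
      ≤ ‖gs s (2 * z + emb a) - 2 * gs s (z + emb a)‖ + ‖gs s (emb a)‖ := norm_add_le _ _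
    _ ≤ (‖gs s (2 * z + emb a)‖ + ‖2 * gs s (z + emb a)‖) + ‖gs s (emb a)‖ := by
        gcongr
        exact norm_sub_le _ _
    _ ≤ _ := by
        rw [norm_mul]
        simp only [Complex.norm_ofNat]
        linarith

/-- All but finitely many lattice points are large. -/
theorem g2b_eventually_large (R : ℝ) : ∀ᶠ a : Eis in cofinite, R ≤ ‖emb a‖ := by
  have h1 : Tendsto (fun a : Eis => ‖emb a‖ ^ (-(3 : ℝ))) cofinite (𝓝 0) :=
    (summable_norm 3 (by norm_num)).tendsto_cofinite_zero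
  have hR : 0 < max R 1 := lt_of_lt_of_le one_pos (le_max_right _ _)
  have h2 : ∀ᶠ a : Eis in cofinite, ‖emb a‖ ^ (-(3 : ℝ)) < (max R 1) ^ (-(3 : ℝ)) :=
    h1.eventually (gt_mem_nhds (Real.rpow_pos_of_pos hR _))
  have h3 : ∀ᶠ a : Eis in cofinite, a ≠ 0 := by
    rw [eventually_cofinite]
    simp
  filter_upwards [h2, h3] with a ha ha0
  by_contra hlt
  push Not at hlt
  have hpos : 0 < ‖emb a‖ := by
    rw [norm_pos_iff]
    intro h
    exact ha0 (emb_injective (by rw [h, map_zero]))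
  have h4 : (max R 1) ^ (-(3 : ℝ)) ≤ ‖emb a‖ ^ (-(3 : ℝ)) :=
    Real.rpow_le_rpow_of_nonpos hpos (hlt.le.trans (le_max_left _ _)) (by norm_num)
  linarith

/-- Summable majorant of the terms on `{σ < re s, ‖s‖ < r}`. -/
theorem g2b_majorant (z : ℂ) (σ r : ℝ) (hσ : 1 / 2 < σ) (hr : 0 < r) :
    ∃ b : Eis → ℝ, Summable b ∧ ∀ (a : Eis) (s : ℂ), σ < s.re → ‖s‖ < r →
      ‖g2b_T z s a‖ ≤ b a := by
  obtain ⟨C, hC⟩ := second_diff z r hr
  classical
  set R : ℝ := max (2 * ‖z‖ + 2 * ‖z‖) 1 with hR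
  refine ⟨fun a => if R ≤ ‖emb a‖ then |C| * ‖emb a‖ ^ (-(2 * σ + 1))
    else g2b_m r (2 * z + emb a) + 2 * g2b_m r (z + emb a) + g2b_m r (emb a), ?_, ?_⟩
  · have h1 : Summable fun a : Eis => |C| * ‖emb a‖ ^ (-(2 * σ + 1)) :=
      (summable_norm (2 * σ + 1) (by linarith)).mul_left _
    refine h1.congr_cofinite ?_
    filter_upwards [g2b_eventually_large R] with a ha
    rw [if_pos ha]
  · intro a s hs1 hs2
    by_cases h : R ≤ ‖emb a‖
    · simp only [if_pos h]
      have ha1 : 1 ≤ ‖emb a‖ := (le_max_right _ _).trans h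
      have ha2 : 2 * ‖z‖ + 2 * ‖z‖ ≤ ‖emb a‖ := (le_max_left _ _).trans h
      have h2 := hC s (emb a) hs2.le ha2 ha1 (by linarith)
      calc ‖g2b_T z s a‖ ≤ C * ‖emb a‖ ^ (-2 * s.re - 1) := h2
        _ ≤ |C| * ‖emb a‖ ^ (-2 * s.re - 1) :=
            mul_le_mul_of_nonneg_right (le_abs_self C) (Real.rpow_nonneg (by linarith) _)
        _ ≤ |C| * ‖emb a‖ ^ (-(2 * σ + 1)) := by
            apply mul_le_mul_of_nonneg_left _ (abs_nonneg C)
            exact Real.rpow_le_rpow_of_exponent_le ha1 (by linarith)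
    · simp only [if_neg h]
      exact g2b_T_le r z s hs2.le a

theorem g2b_summable_T (z s : ℂ) (hs : 1 / 2 < s.re) : Summable fun a : Eis => g2b_T z s a := by
  obtain ⟨b, hb, hle⟩ := g2b_majorant z ((1 / 2 + s.re) / 2) (‖s‖ + 1) (by linarith)
    (by positivity)
  exact Summable.of_norm_bounded hb (fun a => hle a s (by linarith) (by linarith))

theorem exists_Phi (z : ℂ) (hz : Off z) : ∃ Φ : ℂ → ℂ, DifferentiableOn ℂ Φ HP ∧
    (∀ s : ℂ, 3 / 2 < s.re → Φ s = Hs s (2 * z) - 2 * Hs s z) ∧ Φ 1 = lam z := by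
  refine ⟨fun s => ∑' a : Eis, g2b_T z s a, ?_, ?_, ?_⟩
  · intro s0 hs0
    have hs0' : 1 / 2 < s0.re := hs0
    obtain ⟨b, hb, hle⟩ := g2b_majorant z ((1 / 2 + s0.re) / 2) (‖s0‖ + 1) (by linarith)
      (by positivity)
    have hopen : IsOpen ({s : ℂ | (1 / 2 + s0.re) / 2 < s.re} ∩ {s : ℂ | ‖s‖ < ‖s0‖ + 1}) :=
      (isOpen_lt continuous_const Complex.continuous_re).inter
        (isOpen_lt continuous_norm continuous_const)
    have h1 : DifferentiableOn ℂ (fun s => ∑' a : Eis, g2b_T z s a)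
        ({s : ℂ | (1 / 2 + s0.re) / 2 < s.re} ∩ {s : ℂ | ‖s‖ < ‖s0‖ + 1}) :=
      Complex.differentiableOn_tsum_of_summable_norm hb
        (fun a => (g2b_T_differentiable z a).differentiableOn) hopen
        (fun a s hs => hle a s hs.1 hs.2)
    have hmem : s0 ∈ {s : ℂ | (1 / 2 + s0.re) / 2 < s.re} ∩ {s : ℂ | ‖s‖ < ‖s0‖ + 1} := by
      constructor
      · show (1 / 2 + s0.re) / 2 < s0.re
        linarith
      · show ‖s0‖ < ‖s0‖ + 1
        linarith
    exact ((h1 s0 hmem).differentiableAt (hopen.mem_nhds hmem)).differentiableWithinAt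
  · intro s hs
    have e1 := summable_gs s (2 * z) hs
    have e2 := summable_gs s z hs
    have e3 : Summable fun a : Eis => gs s (emb a) := by
      have := summable_gs s 0 hs
      simpa using this
    have e4 : ∑' a : Eis, gs s (emb a) = 0 := by
      have := Hs_zero s
      simpa [Hs] using this
    show ∑' a : Eis, g2b_T z s a = _
    unfold g2b_T
    rw [(e1.sub (e2.mul_left 2)).tsum_add e3, e1.tsum_sub (e2.mul_left 2), tsum_mul_left, e4]
    simp [Hs]
  · show ∑' a : Eis, g2b_T z 1 a = _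
    classical
    have hz0 : z ≠ 0 := by
      rintro rfl
      exact hz ⟨0, by simp⟩
    have hne1 : ∀ a : Eis, 2 * z + emb a ≠ 0 := by
      intro a h
      exact hz ⟨-a, by rw [map_neg]; linear_combination -h⟩
    have hne2 : ∀ a : Eis, z + emb a ≠ 0 := by
      intro a h
      refine hz ⟨-(2 * a), ?_⟩
      rw [map_neg, map_mul, map_ofNat]
      linear_combination -2 * h
    have key : ∀ a : Eis, g2b_T z 1 a = (if a = 0 then -3 / (2 * z) else 0) +
        2 * z ^ 2 / (emb a * (z + emb a) * (2 * z + emb a)) := by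
      intro a
      unfold g2b_T
      rw [gs_one, gs_one, gs_one]
      by_cases ha : a = 0
      · subst ha
        simp only [map_zero, add_zero, inv_zero, if_true, zero_mul, div_zero]
        field_simp
        norm_num
      · have hea : emb a ≠ 0 := fun h => ha (emb_injective (by rw [h, map_zero]))
        rw [if_neg ha, zero_add]
        have h1 := hne1 a
        have h2 := hne2 a
        field_simp
        ring
    have hsum := g2b_summable_T z 1 (by norm_num)
    have hf : Summable fun a : Eis => (if a = 0 then -3 / (2 * z) else 0 : ℂ) :=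
      summable_of_finite_support ((Set.finite_singleton (0 : Eis)).subset (by
        intro a ha
        by_contra h
        simp only [Set.mem_singleton_iff] at h
        simp [h] at ha))
    have hg : Summable fun a : Eis => 2 * z ^ 2 / (emb a * (z + emb a) * (2 * z + emb a)) := by
      have := hsum.sub hf
      refine this.congr (fun a => ?_)
      rw [key a]
      ring
    rw [show (fun a : Eis => g2b_T z 1 a) = fun a => (if a = 0 then -3 / (2 * z) else 0) +
        2 * z ^ 2 / (emb a * (z + emb a) * (2 * z + emb a)) from funext key, hf.tsum_add hg,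
        tsum_ite_eq]
    rfl

end CM27
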