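import Pool.Agent.MP_ae0bd0_nt.CM.GDefs

set_option autoImplicit false

open scoped ComplexConjugate
open Filter Topology

namespace CM27

/-! ## [CM-G1] basic properties of `Hs` (file G1.lean) -/

/-- coordinates of an Eisenstein integer -/
private def g1_equiv : Eis ≃ (Fin 2 → ℤ) where
  toFun a := ![a.re, a.im]
  invFun v := ⟨v 0, v 1⟩
  left_inv a := by ext <;> simp
  right_inv v := by
    ext i
    fin_cases i <;> simp

private theorem g1_norm_ge (a : Eis) : (1 / 2 : ℝ) * ‖g1_equiv a‖ ≤ ‖emb a‖ := by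
  have h1 : ‖g1_equiv a‖ = max |(a.re : ℝ)| |(a.im : ℝ)| := by
    rw [EisensteinSeries.norm_eq_max_natAbs]
    simp only [g1_equiv, Equiv.coe_fn_mk, Matrix.cons_val_zero, Matrix.cons_val_one]
    push_cast [Nat.cast_natAbs]
    rfl
  have h2 := norm_emb_sq a
  rw [norm_eq] at h2
  push_cast at h2
  have h3 : 0 ≤ ‖emb a‖ := norm_nonneg _
  have h4 : (1 / 2 * |(a.re : ℝ)|) ^ 2 ≤ ‖emb a‖ ^ 2 := by
    rw [h2, mul_pow, sq_abs]
    nlinarith [sq_nonneg ((a.re : ℝ) - 2 * a.im), sq_nonneg (a.re : ℝ)]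
  have h5 : (1 / 2 * |(a.im : ℝ)|) ^ 2 ≤ ‖emb a‖ ^ 2 := by
    rw [h2, mul_pow, sq_abs]
    nlinarith [sq_nonneg (2 * (a.re : ℝ) - a.im), sq_nonneg (a.im : ℝ)]
  have h6 : 1 / 2 * |(a.re : ℝ)| ≤ ‖emb a‖ := le_of_sq_le_sq h4 h3
  have h7 : 1 / 2 * |(a.im : ℝ)| ≤ ‖emb a‖ := le_of_sq_le_sq h5 h3
  rw [h1]
  rcases max_cases |(a.re : ℝ)| |(a.im : ℝ)| with ⟨h, _⟩ | ⟨h, _⟩
  · rw [h]; exact h6
  · rw [h]; exact h7

theorem summable_norm (r : ℝ) (hr : 2 < r) : Summable fun a : Eis => ‖emb a‖ ^ (-r) := by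
  have h1 : Summable fun a : Eis => ‖g1_equiv a‖ ^ (-r) :=
    (g1_equiv.summable_iff (f := fun v : Fin 2 → ℤ => ‖v‖ ^ (-r))).2
      (EisensteinSeries.summable_one_div_norm_rpow hr)
  refine Summable.of_nonneg_of_le (fun a => Real.rpow_nonneg (norm_nonneg _) _) (fun a => ?_)
    (h1.mul_left ((1 / 2 : ℝ) ^ (-r)))
  rcases eq_or_ne a 0 with rfl | ha
  · rw [map_zero, norm_zero, Real.zero_rpow (by linarith)]
    positivity
  · have h2 : g1_equiv a ≠ 0 := by
      intro h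
      apply ha
      have h3 : a = g1_equiv.symm 0 := by rw [← h, Equiv.symm_apply_apply]
      rw [h3]
      rfl
    have h4 : 0 < ‖g1_equiv a‖ := norm_pos_iff.2 h2
    rw [← Real.mul_rpow (by norm_num) h4.le]
    exact Real.rpow_le_rpow_of_nonpos (by positivity) (g1_norm_ge a) (by linarith)

private theorem g1_eventually (R : ℝ) : ∀ᶠ a : Eis in cofinite, R ≤ ‖emb a‖ := by
  have h1 := (summable_norm 3 (by norm_num)).tendsto_cofinite_zero
  have h2 : (0 : ℝ) < (|R| + 1) ^ (-(3 : ℝ)) := by positivity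
  have h3 : ∀ᶠ a : Eis in cofinite, a ≠ 0 := by
    rw [eventually_cofinite]
    simp only [ne_eq, not_not]
    exact Set.finite_singleton 0
  filter_upwards [h1.eventually_lt_const h2, h3] with a ha ha0
  have h4 : 0 < ‖emb a‖ := by
    rw [norm_pos_iff]
    intro h
    exact ha0 (emb_injective (by rw [h, map_zero]))
  by_contra hcon
  push Not at hcon
  have h5 : ‖emb a‖ ≤ |R| + 1 := by
    have := le_abs_self R
    linarith
  have h6 := Real.rpow_le_rpow_of_nonpos h4 h5 (show (-(3 : ℝ)) ≤ 0 by norm_num)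
  linarith

theorem summable_norm_shift (z : ℂ) (r : ℝ) (hr : 2 < r) :
    Summable fun a : Eis => ‖z + emb a‖ ^ (-r) := by
  refine Summable.of_norm_bounded_eventually (g := fun a : Eis => (2 : ℝ) ^ r * ‖emb a‖ ^ (-r))
    ((summable_norm r hr).mul_left _) ?_
  filter_upwards [g1_eventually (2 * ‖z‖ + 1)] with a ha
  have h1 : ‖emb a‖ / 2 ≤ ‖z + emb a‖ := by
    have h2 : ‖emb a‖ ≤ ‖z + emb a‖ + ‖z‖ := by
      calc ‖emb a‖ = ‖(z + emb a) - z‖ := by congr 1; ring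
        _ ≤ _ := norm_sub_le _ _
    linarith
  have h3 : 0 < ‖emb a‖ := by
    have := norm_nonneg z
    linarith
  rw [Real.norm_of_nonneg (Real.rpow_nonneg (norm_nonneg _) _)]
  calc ‖z + emb a‖ ^ (-r) ≤ (‖emb a‖ / 2) ^ (-r) :=
        Real.rpow_le_rpow_of_nonpos (by positivity) h1 (by linarith)
    _ = (2 : ℝ) ^ r * ‖emb a‖ ^ (-r) := by
        rw [Real.div_rpow h3.le (by norm_num), Real.rpow_neg (by norm_num : (0 : ℝ) ≤ 2)]
        field_simp

theorem norm_gs (s z : ℂ) (hs : 1 / 2 < s.re) : ‖gs s z‖ = ‖z‖ ^ (1 - 2 * s.re) := by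
  rcases eq_or_ne z 0 with rfl | hz
  · rw [gs, map_zero, zero_mul, norm_zero, Real.zero_rpow (by linarith)]
  · have h1 : 0 < ‖z‖ := norm_pos_iff.2 hz
    rw [gs, norm_mul, Complex.norm_conj, Complex.norm_cpow_eq_rpow_re_of_pos h1]
    have h2 : (-2 * s).re = -2 * s.re := by
      rw [show (-2 : ℂ) = ((-2 : ℝ) : ℂ) by push_cast; ring, Complex.re_ofReal_mul]
    rw [h2]
    calc ‖z‖ * ‖z‖ ^ (-2 * s.re) = ‖z‖ ^ (1 : ℝ) * ‖z‖ ^ (-2 * s.re) := by rw [Real.rpow_one]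
      _ = ‖z‖ ^ (1 - 2 * s.re) := by
          rw [← Real.rpow_add h1]
          congr 1
          ring

theorem summable_gs (s z : ℂ) (hs : 3 / 2 < s.re) : Summable fun a : Eis => gs s (z + emb a) := by
  apply Summable.of_norm
  have h1 := summable_norm_shift z (2 * s.re - 1) (by linarith)
  refine h1.congr (fun a => ?_)
  rw [norm_gs s _ (by linarith)]
  congr 1
  ring

theorem Hs_add (s z : ℂ) (a : Eis) : Hs s (z + emb a) = Hs s z := by
  unfold Hs
  rw [← (Equiv.addLeft a).tsum_eq (fun b : Eis => gs s (z + emb b))]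
  congr 1
  funext b
  simp only [Equiv.coe_addLeft, map_add]
  congr 1
  ring

private theorem g1_gs_neg (s z : ℂ) : gs s (-z) = - gs s z := by
  rw [gs, gs, map_neg, norm_neg]
  ring

theorem Hs_neg (s z : ℂ) : Hs s (-z) = - Hs s z := by
  unfold Hs
  rw [← tsum_neg, ← (Equiv.neg Eis).tsum_eq (fun b : Eis => gs s (-z + emb b))]
  congr 1
  funext b
  rw [← g1_gs_neg]
  simp only [Equiv.neg_apply, map_neg]
  congr 1
  ring

theorem Hs_zero (s : ℂ) : Hs s 0 = 0 := by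
  have h := Hs_neg s 0
  rw [neg_zero] at h
  linear_combination h / 2

theorem gs_mul (s u z : ℂ) : gs s (u * z) = gs s u * gs s z := by
  rw [gs, gs, gs, map_mul, norm_mul, Complex.ofReal_mul,
    Complex.mul_cpow_ofReal_nonneg (norm_nonneg _) (norm_nonneg _)]
  ring

theorem gs_one (z : ℂ) : gs 1 z = z⁻¹ := by
  rw [gs, Complex.inv_def, mul_one]
  congr 1
  rw [show (-2 : ℂ) = ((-2 : ℤ) : ℂ) by push_cast; ring, Complex.cpow_intCast,
    Complex.normSq_eq_norm_sq, zpow_neg]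
  push_cast
  norm_cast

end CM27
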