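import Pool.Agent.MP_ae0bd0_nt.CM.H4

set_option autoImplicit false

open scoped ComplexConjugate
open Filter Topology

namespace CM27

/-! ## [CM-H5] the normalised functions (file H5.lean; uses H2, H3, H4) -/

theorem h5_off_notMem {z : ℂ} (hz : Off z) : z ∉ L0.lattice := by
  rw [mem_L0]
  rintro ⟨a, rfl⟩
  apply hz
  refine ⟨2 * a, ?_⟩
  rw [map_mul, map_ofNat]

theorem h5_off_open : IsOpen {z : ℂ | Off z} := by
  have h1 : {z : ℂ | Off z} = (fun z : ℂ => 2 * z) ⁻¹' ((L0.lattice : Set ℂ)ᶜ) := by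
    ext z
    simp only [Set.mem_ofPred_eq, Set.mem_preimage, Set.mem_compl_iff, SetLike.mem_coe, mem_L0, Off]
  rw [h1]
  apply IsOpen.preimage (by fun_prop)
  exact L0.isClosed_lattice.isOpen_compl

theorem h5_sq {z : ℂ} (hz : z ∉ L0.lattice) :
    L0.derivWeierstrassP z ^ 2 = 4 * L0.weierstrassP z ^ 3 - L0.g₃ := by
  rw [L0.derivWeierstrassP_sq z hz, g2_eq]
  ring

theorem h5_deriv_ne {z : ℂ} (hz : Off z) : L0.derivWeierstrassP z ≠ 0 := by
  intro h
  have h1 := lam_mul_deriv z hz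
  have h2 := h5_sq (h5_off_notMem hz)
  rw [h, mul_zero] at h1
  have h3 : L0.weierstrassP z = 0 := by
    have : L0.weierstrassP z ^ 2 = 0 := by linear_combination (-1 / 3 : ℂ) * h1
    exact pow_eq_zero_iff (two_ne_zero) |>.1 this
  rw [h, h3] at h2
  apply g3_ne
  linear_combination h2

theorem h5_hasDerivAt {z : ℂ} (hz : z ∉ L0.lattice) :
    HasDerivAt L0.weierstrassP (L0.derivWeierstrassP z) z := by
  have h1 : DifferentiableAt ℂ L0.weierstrassP z :=
    (L0.differentiableOn_weierstrassP z hz).differentiableAt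
      (L0.isClosed_lattice.isOpen_compl.mem_nhds hz)
  have h2 := h1.hasDerivAt
  rwa [L0.deriv_weierstrassP] at h2

theorem h5_second {z : ℂ} (hz : Off z) :
    HasDerivAt L0.derivWeierstrassP (6 * L0.weierstrassP z ^ 2) z := by
  have hz' := h5_off_notMem hz
  have h1 : DifferentiableAt ℂ L0.derivWeierstrassP z :=
    (L0.differentiableOn_derivWeierstrassP z hz').differentiableAt
      (L0.isClosed_lattice.isOpen_compl.mem_nhds hz')
  have h2 := h1.hasDerivAt
  have h3 : HasDerivAt (fun z => L0.derivWeierstrassP z ^ 2)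
      (2 * L0.derivWeierstrassP z * deriv L0.derivWeierstrassP z) z := by
    have := h2.fun_pow 2
    simpa using this
  have h4 : HasDerivAt (fun z => 4 * L0.weierstrassP z ^ 3 - L0.g₃)
      (4 * (3 * L0.weierstrassP z ^ 2 * L0.derivWeierstrassP z)) z := by
    have := (((h5_hasDerivAt hz').pow 3).const_mul 4).sub_const L0.g₃
    simpa using this
  have h5 : (fun z => L0.derivWeierstrassP z ^ 2) =ᶠ[𝓝 z]
      (fun z => 4 * L0.weierstrassP z ^ 3 - L0.g₃) := by
    filter_upwards [L0.isClosed_lattice.isOpen_compl.mem_nhds hz'] with u hu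
    exact h5_sq hu
  have h6 := (h4.congr_of_eventuallyEq h5).unique h3
  have h7 : deriv L0.derivWeierstrassP z = 6 * L0.weierstrassP z ^ 2 := by
    have h8 := h5_deriv_ne hz
    have h9 : 2 * L0.derivWeierstrassP z * (deriv L0.derivWeierstrassP z -
        6 * L0.weierstrassP z ^ 2) = 0 := by linear_combination -h6
    rcases mul_eq_zero.1 h9 with h | h
    · exact absurd (by simpa using h) h8
    · linear_combination h
  rwa [h7] at h2

theorem h5_dup {z : ℂ} (hz : Off z) :
    L0.weierstrassP (2 * z) * (4 * L0.weierstrassP z ^ 3 - L0.g₃) =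
      L0.weierstrassP z ^ 4 + 2 * L0.g₃ * L0.weierstrassP z := by
  have hz' := h5_off_notMem hz
  have h1 : HasDerivAt (fun z => lam z * L0.derivWeierstrassP z)
      ((2 * L0.weierstrassP z - 2 * L0.weierstrassP (2 * z)) * L0.derivWeierstrassP z +
        lam z * (6 * L0.weierstrassP z ^ 2)) z :=
    (lam_deriv z hz).mul (h5_second hz)
  have h2 : HasDerivAt (fun z => 3 * L0.weierstrassP z ^ 2)
      (3 * (2 * L0.weierstrassP z * L0.derivWeierstrassP z)) z := by
    have := ((h5_hasDerivAt hz').pow 2).const_mul 3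
    simpa using this
  have h3 : (fun z => lam z * L0.derivWeierstrassP z) =ᶠ[𝓝 z]
      (fun z => 3 * L0.weierstrassP z ^ 2) := by
    filter_upwards [h5_off_open.mem_nhds hz] with u hu
    exact lam_mul_deriv u hu
  have h4 := (h2.congr_of_eventuallyEq h3).unique h1
  have h5 := lam_mul_deriv z hz
  have h6 := h5_sq hz'
  linear_combination (1 / 2 * L0.derivWeierstrassP z) * h4 + 3 * L0.weierstrassP z ^ 2 * h5 +
    (- L0.weierstrassP (2 * z) - 2 * L0.weierstrassP z) * h6

theorem exists_weier : ∃ Ω : ℂ, Ω ≠ 0 ∧ ∃ x y : ℂ → ℂ,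
    (∀ z a, x (z + emb a) = x z) ∧ (∀ z a, y (z + emb a) = y z) ∧ (∀ z, x (-z) = x z) ∧
    ∀ z, Off z → y z ^ 2 = 4 * x z ^ 3 + 1 ∧ lam z * y z = 3 * Ω * x z ^ 2 ∧
      x (2 * z) * (4 * x z ^ 3 + 1) = x z * (x z ^ 3 - 2) := by
  obtain ⟨Ω, hΩ⟩ := IsAlgClosed.exists_pow_nat_eq (-L0.g₃) (n := 6) (by norm_num)
  have hΩ0 : Ω ≠ 0 := by
    intro h
    rw [h] at hΩ
    apply g3_ne
    have hΩ' : (0 : ℂ) ^ 6 = -L0.g₃ := hΩ
    linear_combination hΩ'
  have hmem : ∀ a : Eis, emb a ∈ L0.lattice := fun a => (mem_L0 _).2 ⟨a, rfl⟩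
  refine ⟨Ω, hΩ0, fun z => L0.weierstrassP z / Ω ^ 2, fun z => L0.derivWeierstrassP z / Ω ^ 3,
    ?_, ?_, ?_, ?_⟩
  · intro z a
    have := L0.weierstrassP_add_coe z ⟨emb a, hmem a⟩
    simp only at this ⊢
    rw [this]
  · intro z a
    have := L0.derivWeierstrassP_add_coe z ⟨emb a, hmem a⟩
    simp only at this ⊢
    rw [this]
  · intro z
    simp only [L0.weierstrassP_neg]
  · intro z hz
    have h1 := h5_sq (h5_off_notMem hz)
    have h2 := lam_mul_deriv z hz
    have h3 := h5_dup hz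
    have hg : L0.g₃ = -Ω ^ 6 := by rw [hΩ, neg_neg]
    rw [hg] at h1 h3
    refine ⟨?_, ?_, ?_⟩
    · simp only
      field_simp
      linear_combination h1
    · simp only
      field_simp
      linear_combination h2
    · simp only
      field_simp
      linear_combination h3

end CM27
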