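import Pool.Agent.MP_ae0bd0_nt.CM.Defs

set_option autoImplicit false

open scoped ComplexConjugate
open scoped Classical

namespace CM27

/-! ## [CM-I1] a valuation ring of the complex numbers above `2`; roots of unity (file I1.lean) -/

theorem exists_val : ∃ A : ValuationSubring ℂ, A.valuation 2 < 1 := by
  set R : Subring ℂ := (Int.castRingHom ℂ).range with hR
  let two : R := ⟨2, ⟨2, by simp⟩⟩
  have hI : (Ideal.span {two} : Ideal R) ≠ ⊤ := by
    rw [Ne, Ideal.eq_top_iff_one, Ideal.mem_span_singleton']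
    rintro ⟨⟨a, n, hn⟩, ha⟩
    have h1 := congrArg Subtype.val ha
    simp only [Subring.coe_mul, Subring.coe_one, two] at h1
    rw [← hn] at h1
    simp only [eq_intCast] at h1
    have h2 : n * 2 = 1 := by exact_mod_cast h1
    omega
  obtain ⟨B, -, hB⟩ := Ideal.image_subset_nonunits_valuationSubring _ hI
  refine ⟨B, ?_⟩
  have h2 : (2 : ℂ) ∈ B.nonunits := hB ⟨two, Ideal.mem_span_singleton_self two, rfl⟩
  exact (ValuationSubring.mem_nonunits_iff B).1 h2

theorem i1_val_int (A : ValuationSubring ℂ) (n : ℤ) : A.valuation (n : ℂ) ≤ 1 := by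
  rw [ValuationSubring.valuation_le_one_iff]
  exact intCast_mem A n

theorem i1_val_w (A : ValuationSubring ℂ) : A.valuation w ≤ 1 := by
  by_contra h
  push Not at h
  have h1 := congrArg A.valuation w_sq
  have hw2 : w * w + w = -1 := by rw [w_sq]; ring
  have h2 : A.valuation (w * w) = A.valuation (-1 - w) := h1
  have h3 : A.valuation (-1 - w) ≤ max (A.valuation (-1)) (A.valuation w) :=
    Valuation.map_sub _ _ _
  rw [Valuation.map_neg, Valuation.map_one, max_eq_right h.le] at h3
  rw [map_mul] at h2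
  rw [← h2] at h3
  have h4 : A.valuation w * 1 < A.valuation w * A.valuation w := by
    have h0 : (0 : A.ValueGroup) < A.valuation w := lt_trans zero_lt_one h
    exact mul_lt_mul_of_pos_left h h0
  rw [mul_one] at h4
  exact absurd h3 (not_le.2 h4)

theorem val_emb (A : ValuationSubring ℂ) (a : Eis) : A.valuation (emb a) ≤ 1 := by
  rw [emb_apply, ValuationSubring.valuation_le_one_iff]
  exact add_mem (intCast_mem A _) (mul_mem (intCast_mem A _)
    ((ValuationSubring.valuation_le_one_iff A w).1 (i1_val_w A)))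

theorem val_odd (A : ValuationSubring ℂ) (h2 : A.valuation 2 < 1) (n : ℤ) (hn : Odd n) :
    A.valuation (n : ℂ) = 1 := by
  refine le_antisymm (i1_val_int A n) ?_
  by_contra h
  push Not at h
  obtain ⟨k, hk⟩ := hn
  have h3 : (1 : ℂ) = n - 2 * k := by
    rw [hk]; push_cast; ring
  have h4 : A.valuation (1 : ℂ) < 1 := by
    rw [h3]
    refine Valuation.map_sub_lt _ h ?_
    rw [map_mul]
    calc A.valuation 2 * A.valuation (k : ℂ) ≤ A.valuation 2 * 1 :=
          mul_le_mul_right (i1_val_int A k) _
      _ < 1 := by rw [mul_one]; exact h2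
  rw [map_one] at h4
  exact lt_irrefl _ h4

theorem val_odd_norm (A : ValuationSubring ℂ) (h2 : A.valuation 2 < 1) (a : Eis)
    (ha : Odd a.norm) : A.valuation (emb a) = 1 := by
  refine le_antisymm (val_emb A a) ?_
  have h3 : emb a * emb (star a) = ((a.norm : ℤ) : ℂ) := by
    rw [emb_star, Complex.mul_conj, normSq_emb]
    push_cast
    rfl
  have h4 := val_odd A h2 a.norm ha
  rw [← h3, map_mul] at h4
  by_contra h
  push Not at h
  have h5 : A.valuation (emb a) * A.valuation (emb (star a)) ≤ A.valuation (emb a) * 1 :=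
    mul_le_mul_right (val_emb A _) _
  rw [h4, mul_one] at h5
  exact absurd h5 (not_le.2 h)

theorem i1_sq_sub (A : ValuationSubring ℂ) (h2 : A.valuation 2 < 1) (x : ℂ)
    (hx : A.valuation x ≤ 1) (h : A.valuation (x ^ 2 - 1) < 1) : A.valuation (x - 1) < 1 := by
  have h3 : A.valuation (2 * (x - 1)) < 1 := by
    rw [map_mul]
    have : A.valuation (x - 1) ≤ 1 := by
      refine (Valuation.map_sub _ _ _).trans ?_
      rw [map_one]
      exact max_le hx le_rfl
    calc A.valuation 2 * A.valuation (x - 1) ≤ A.valuation 2 * 1 := mul_le_mul_right this _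
      _ < 1 := by rw [mul_one]; exact h2
  have h4 : A.valuation ((x - 1) ^ 2) < 1 := by
    have e : (x - 1) ^ 2 = (x ^ 2 - 1) - 2 * (x - 1) := by ring
    rw [e]
    exact Valuation.map_sub_lt _ h h3
  rw [map_pow] at h4
  by_contra h5
  push Not at h5
  exact absurd h4 (not_lt.2 (one_le_pow₀ h5))

theorem val_root (A : ValuationSubring ℂ) (h2 : A.valuation 2 < 1) (ζ : ℂ) (n : ℕ)
    (h : ζ ^ 2 ^ n = 1) : A.valuation ζ = 1 ∧ A.valuation (ζ - 1) < 1 := by
  have h1 : A.valuation ζ = 1 := by
    have h3 := congrArg A.valuation h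
    rw [map_pow, map_one] at h3
    exact (pow_eq_one_iff.1 h3).resolve_right (by positivity)
  refine ⟨h1, ?_⟩
  have key : ∀ n : ℕ, ∀ x : ℂ, A.valuation x = 1 → x ^ 2 ^ n = 1 → A.valuation (x - 1) < 1 := by
    intro n
    induction n with
    | zero =>
      intro x _ hx
      simp only [pow_zero, pow_one] at hx
      rw [hx, sub_self, map_zero]
      exact zero_lt_one
    | succ n ih =>
      intro x hx1 hx
      refine i1_sq_sub A h2 x hx1.le (ih (x ^ 2) (by rw [map_pow, hx1, one_pow]) ?_)
      rw [← pow_mul, ← pow_succ']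
      exact hx
  exact key n ζ h1 h

end CM27
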