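import Pool.Agent.MP_ae0bd0_nt.CM.G1

/-! ### part G7 -/

section

set_option autoImplicit false

open scoped ComplexConjugate
open Filter Topology

namespace CM27

/-! ## [CM-G7] the six-fold symmetrisation (file G7.lean; uses G1) -/

theorem g7_large (R : ℝ) : ∀ᶠ a : Eis in cofinite, a ≠ 0 ∧ R < ‖emb a‖ := by
  have h1 := (summable_norm 3 (by norm_num)).tendsto_cofinite_zero
  have h0 : ∀ᶠ a : Eis in cofinite, a ≠ 0 := by
    have : {a : Eis | ¬ a ≠ 0} = {0} := by ext a; simp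
    rw [Filter.eventually_cofinite, this]
    exact Set.finite_singleton 0
  set R' : ℝ := max R 1 with hR'
  have hR1 : 1 ≤ R' := le_max_right _ _
  have hR'0 : 0 < R' := by linarith
  have hpos : 0 < R' ^ (-3 : ℝ) := Real.rpow_pos_of_pos hR'0 _
  have h2 : ∀ᶠ a : Eis in cofinite, ‖emb a‖ ^ (-3 : ℝ) < R' ^ (-3 : ℝ) :=
    h1.eventually (gt_mem_nhds hpos)
  filter_upwards [h0, h2] with a ha hb
  refine ⟨ha, ?_⟩
  have hne : 0 < ‖emb a‖ := by
    rw [norm_pos_iff]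
    intro h
    exact ha (emb_injective (by rw [h, map_zero]))
  have h3 : R' < ‖emb a‖ := by
    by_contra hcon
    push Not at hcon
    have := Real.rpow_le_rpow_of_nonpos hne hcon (by norm_num : (-3 : ℝ) ≤ 0)
    linarith
  exact lt_of_le_of_lt (le_max_left _ _) h3

theorem g7_pow (a : Eis) (k : ℕ) : ‖emb a‖ ^ (-(k : ℝ)) = (‖emb a‖ ^ k)⁻¹ := by
  rw [Real.rpow_neg (norm_nonneg _), Real.rpow_natCast]

theorem g7_bound (X c : ℂ) (h : 2 * ‖X‖ ≤ ‖c‖) (hc : 0 < ‖c‖) : ‖(X - c)⁻¹‖ ≤ 2 * ‖c‖⁻¹ := by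
  have h1 : ‖c‖ / 2 ≤ ‖X - c‖ := by
    have := norm_sub_norm_le c X
    rw [norm_sub_rev] at this
    linarith
  rw [norm_inv]
  have h2 : 0 < ‖c‖ / 2 := by positivity
  calc ‖X - c‖⁻¹ ≤ (‖c‖ / 2)⁻¹ := inv_anti₀ h2 h1
    _ = 2 * ‖c‖⁻¹ := by field_simp

theorem summable_six (z : ℂ) : Summable fun a : Eis =>
    (32 / (64 * z ^ 6 - (emb a) ^ 6) - 2 / (z ^ 6 - (emb a) ^ 6)) := by
  have hs : Summable fun a : Eis => 68 * ‖emb a‖ ^ (-(6 : ℝ)) :=
    (summable_norm 6 (by norm_num)).mul_left _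
  refine Summable.of_norm_bounded_eventually hs ?_
  filter_upwards [g7_large (max 1 (128 * ‖z‖ ^ 6))] with a ha
  obtain ⟨-, ha⟩ := ha
  have h1 : 1 < ‖emb a‖ := lt_of_le_of_lt (le_max_left _ _) ha
  have h2 : 128 * ‖z‖ ^ 6 < ‖emb a‖ := lt_of_le_of_lt (le_max_right _ _) ha
  have h3 : ‖emb a‖ ≤ ‖emb a‖ ^ 6 := le_self_pow₀ h1.le (by norm_num)
  have h6 : ‖emb a ^ 6‖ = ‖emb a‖ ^ 6 := norm_pow _ _
  have hp : 0 < ‖emb a ^ 6‖ := by rw [h6]; positivity
  have b1 : ‖(64 * z ^ 6 - emb a ^ 6)⁻¹‖ ≤ 2 * ‖emb a ^ 6‖⁻¹ := by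
    apply g7_bound _ _ _ hp
    rw [h6, norm_mul, norm_pow]
    have : ‖(64 : ℂ)‖ = 64 := by norm_num
    rw [this]; linarith
  have b2 : ‖(z ^ 6 - emb a ^ 6)⁻¹‖ ≤ 2 * ‖emb a ^ 6‖⁻¹ := by
    apply g7_bound _ _ _ hp
    rw [h6, norm_pow]
    have : 0 ≤ ‖z‖ ^ 6 := by positivity
    linarith
  have e6 : ‖emb a‖ ^ (-(6 : ℝ)) = ‖emb a ^ 6‖⁻¹ := by
    have := g7_pow a 6
    rw [h6, ← this]; norm_num
  rw [e6]
  calc ‖32 / (64 * z ^ 6 - emb a ^ 6) - 2 / (z ^ 6 - emb a ^ 6)‖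
      ≤ ‖32 / (64 * z ^ 6 - emb a ^ 6)‖ + ‖2 / (z ^ 6 - emb a ^ 6)‖ := norm_sub_le _ _
    _ = 32 * ‖(64 * z ^ 6 - emb a ^ 6)⁻¹‖ + 2 * ‖(z ^ 6 - emb a ^ 6)⁻¹‖ := by
        rw [div_eq_mul_inv, div_eq_mul_inv, norm_mul, norm_mul]
        norm_num
    _ ≤ 32 * (2 * ‖emb a ^ 6‖⁻¹) + 2 * (2 * ‖emb a ^ 6‖⁻¹) := by gcongr
    _ = 68 * ‖emb a ^ 6‖⁻¹ := by ring

/-- the term of `lam` -/
noncomputable def g7_T (z : ℂ) (b : ℂ) : ℂ := 2 * z ^ 2 / (b * (z + b) * (2 * z + b))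

theorem g7_summable_T (z : ℂ) : Summable fun a : Eis => g7_T z (emb a) := by
  have hs : Summable fun a : Eis => (8 * ‖z‖ ^ 2) * ‖emb a‖ ^ (-(3 : ℝ)) :=
    (summable_norm 3 (by norm_num)).mul_left _
  refine Summable.of_norm_bounded_eventually hs ?_
  filter_upwards [g7_large (4 * ‖z‖)] with a ha
  obtain ⟨ha0, ha⟩ := ha
  have hp : 0 < ‖emb a‖ := by
    rw [norm_pos_iff]; intro h; exact ha0 (emb_injective (by rw [h, map_zero]))
  have b1 : ‖(z + emb a)⁻¹‖ ≤ 2 * ‖emb a‖⁻¹ := by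
    have := g7_bound (-z) (emb a) (by rw [norm_neg]; linarith [norm_nonneg z]) hp
    rw [show -z - emb a = -(z + emb a) by ring, inv_neg, norm_neg] at this
    exact this
  have b2 : ‖(2 * z + emb a)⁻¹‖ ≤ 2 * ‖emb a‖⁻¹ := by
    have := g7_bound (-(2 * z)) (emb a) (by
      rw [norm_neg, norm_mul]
      have : ‖(2 : ℂ)‖ = 2 := by norm_num
      rw [this]; linarith) hp
    rw [show -(2 * z) - emb a = -(2 * z + emb a) by ring, inv_neg, norm_neg] at this
    exact this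
  have e3 : ‖emb a‖ ^ (-(3 : ℝ)) = (‖emb a‖ ^ 3)⁻¹ := by
    have := g7_pow a 3
    rw [← this]; norm_num
  rw [e3]
  calc ‖g7_T z (emb a)‖ = 2 * ‖z‖ ^ 2 * (‖emb a‖⁻¹ * ‖(z + emb a)⁻¹‖ * ‖(2 * z + emb a)⁻¹‖) := by
        unfold g7_T
        rw [div_eq_mul_inv, mul_inv, mul_inv, norm_mul, norm_mul, norm_mul, norm_mul, norm_pow,
          norm_inv (emb a)]
        norm_num
    _ ≤ 2 * ‖z‖ ^ 2 * (‖emb a‖⁻¹ * (2 * ‖emb a‖⁻¹) * (2 * ‖emb a‖⁻¹)) := by gcongr
    _ = 8 * ‖z‖ ^ 2 * (‖emb a‖ ^ 3)⁻¹ := by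
        rw [← inv_pow]; ring

theorem g7_pair (X b : ℂ) (h1 : X + b ≠ 0) (h2 : X - b ≠ 0) :
    (X + b)⁻¹ + (X - b)⁻¹ = 2 * X / (X ^ 2 - b ^ 2) := by
  rw [show X ^ 2 - b ^ 2 = (X + b) * (X - b) by ring]
  field_simp
  ring

theorem g7_three (Y A : ℂ) (h1 : Y - A ≠ 0) (h2 : Y - w * A ≠ 0) (h3 : Y - w ^ 2 * A ≠ 0) :
    (Y - A)⁻¹ + (Y - w * A)⁻¹ + (Y - w ^ 2 * A)⁻¹ = 3 * Y ^ 2 / (Y ^ 3 - A ^ 3) := by
  have hw : w ^ 2 = -1 - w := by rw [sq]; exact w_sq
  have hw3 : w ^ 3 = 1 := by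
    have : w ^ 3 = w * w ^ 2 := by ring
    rw [this, hw]; linear_combination -hw
  have e : Y ^ 3 - A ^ 3 = (Y - A) * (Y - w * A) * (Y - w ^ 2 * A) := by
    linear_combination (Y ^ 2 * A - Y * A ^ 2) * hw + (A ^ 3 - Y * A ^ 2) * hw3
  rw [e, eq_div_iff (mul_ne_zero (mul_ne_zero h1 h2) h3)]
  have gen : ∀ p q r : ℂ, p ≠ 0 → q ≠ 0 → r ≠ 0 →
      (p⁻¹ + q⁻¹ + r⁻¹) * (p * q * r) = q * r + p * r + p * q := by
    intro p q r hp hq hr
    field_simp
  rw [gen _ _ _ h1 h2 h3]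
  linear_combination (-2 * Y * A + A ^ 2) * hw + A ^ 2 * hw3

theorem g7_six (X b : ℂ) (h1 : X + b ≠ 0) (h2 : X - b ≠ 0) (h3 : X + w * b ≠ 0) (h4 : X - w * b ≠ 0)
    (h5 : X + w ^ 2 * b ≠ 0) (h6 : X - w ^ 2 * b ≠ 0) :
    ((X + b)⁻¹ + (X - b)⁻¹) + ((X + w * b)⁻¹ + (X - w * b)⁻¹) +
      ((X + w ^ 2 * b)⁻¹ + (X - w ^ 2 * b)⁻¹) = 6 * X ^ 5 / (X ^ 6 - b ^ 6) := by
  have hw : w ^ 2 = -1 - w := by rw [sq]; exact w_sq
  have hw3 : w ^ 3 = 1 := by
    have : w ^ 3 = w * w ^ 2 := by ring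
    rw [this, hw]; linear_combination -hw
  have hw4 : w ^ 4 = w := by
    have : w ^ 4 = w * w ^ 3 := by ring
    rw [this, hw3, mul_one]
  rw [g7_pair X b h1 h2, g7_pair X (w * b) h3 h4, g7_pair X (w ^ 2 * b) h5 h6]
  have e1 : X ^ 2 - b ^ 2 ≠ 0 := by
    rw [show X ^ 2 - b ^ 2 = (X + b) * (X - b) by ring]; exact mul_ne_zero h1 h2
  have e2 : X ^ 2 - w ^ 2 * b ^ 2 ≠ 0 := by
    rw [show X ^ 2 - w ^ 2 * b ^ 2 = (X + w * b) * (X - w * b) by ring]; exact mul_ne_zero h3 h4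
  have e3 : X ^ 2 - w * b ^ 2 ≠ 0 := by
    rw [show X ^ 2 - w * b ^ 2 = (X + w ^ 2 * b) * (X - w ^ 2 * b) by
      linear_combination b ^ 2 * hw4]
    exact mul_ne_zero h5 h6
  have h := g7_three (X ^ 2) (b ^ 2) e1 e3 e2
  have f2 : X ^ 2 - (w * b) ^ 2 = X ^ 2 - w ^ 2 * b ^ 2 := by ring
  have f3 : X ^ 2 - (w ^ 2 * b) ^ 2 = X ^ 2 - w * b ^ 2 := by linear_combination (-b ^ 2) * hw4
  rw [f2, f3]
  have f4 : (X ^ 2) ^ 3 - (b ^ 2) ^ 3 = X ^ 6 - b ^ 6 := by ring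
  rw [f4] at h
  calc 2 * X / (X ^ 2 - b ^ 2) + 2 * X / (X ^ 2 - w ^ 2 * b ^ 2) + 2 * X / (X ^ 2 - w * b ^ 2)
      = 2 * X * ((X ^ 2 - b ^ 2)⁻¹ + (X ^ 2 - w * b ^ 2)⁻¹ + (X ^ 2 - w ^ 2 * b ^ 2)⁻¹) := by
        ring
    _ = 2 * X * (3 * (X ^ 2) ^ 2 / (X ^ 6 - b ^ 6)) := by rw [h]
    _ = _ := by ring

theorem g7_T_eq (z b : ℂ) (h0 : b ≠ 0) (h1 : z + b ≠ 0) (h2 : 2 * z + b ≠ 0) :
    g7_T z b = (2 * z + b)⁻¹ - 2 * (z + b)⁻¹ + b⁻¹ := by
  unfold g7_T
  field_simp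
  ring

theorem g7_tsum_mul (f : Eis → ℂ) (u v : Eis) (h : u * v = 1) :
    ∑' a, f (u * a) = ∑' a, f a := by
  let e : Eis ≃ Eis :=
    { toFun := fun a => u * a
      invFun := fun a => v * a
      left_inv := fun a => by
        show v * (u * a) = a
        rw [← mul_assoc, mul_comm v u, h, one_mul]
      right_inv := fun a => by
        show u * (v * a) = a
        rw [← mul_assoc, h, one_mul] }
  exact e.tsum_eq f

theorem g7_summable_mul (f : Eis → ℂ) (u v : Eis) (h : u * v = 1) (hf : Summable f) :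
    Summable fun a => f (u * a) := by
  let e : Eis ≃ Eis :=
    { toFun := fun a => u * a
      invFun := fun a => v * a
      left_inv := fun a => by
        show v * (u * a) = a
        rw [← mul_assoc, mul_comm v u, h, one_mul]
      right_inv := fun a => by
        show u * (v * a) = a
        rw [← mul_assoc, h, one_mul] }
  exact e.summable_iff.2 hf

/-- Average the sum over the six units. (The term with `a = 0` gives `-3 / (2 z)`.) -/
theorem lam_six (z : ℂ) (hz : Off z) :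
    lam z = z ^ 5 * ∑' a : Eis, (32 / (64 * z ^ 6 - (emb a) ^ 6) - 2 / (z ^ 6 - (emb a) ^ 6)) := by
  have hw : w ^ 2 = -1 - w := by rw [sq]; exact w_sq
  have hw3 : w ^ 3 = 1 := by
    have : w ^ 3 = w * w ^ 2 := by ring
    rw [this, hw]; linear_combination -hw
  -- non-vanishing
  have n2 : ∀ a : Eis, 2 * z + emb a ≠ 0 := by
    intro a h
    apply hz
    exact ⟨-a, by rw [map_neg]; linear_combination -h⟩
  have n1 : ∀ a : Eis, z + emb a ≠ 0 := by
    intro a h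
    apply n2 (2 * a)
    rw [map_mul]
    have : emb 2 = 2 := map_ofNat emb 2
    rw [this]; linear_combination 2 * h
  have hz0 : z ≠ 0 := by
    have := n1 0
    simpa using this
  let om : Eis := ⟨0, 1⟩
  let om2 : Eis := ⟨-1, -1⟩
  have eom : emb om = w := by simp [om, emb_apply]
  have eom2 : emb om2 = w ^ 2 := by rw [hw]; simp [om2, emb_apply]; ring
  have m1 : om * om2 = 1 := by
    apply emb_injective
    rw [map_mul, eom, eom2, map_one]; rw [← hw3]; ring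
  have m2 : om2 * om = 1 := by rw [mul_comm]; exact m1
  have m3 : (-1 : Eis) * (-1) = 1 := by ring
  have m4 : (-om) * (-om2) = 1 := by rw [neg_mul_neg]; exact m1
  have m5 : (-om2) * (-om) = 1 := by rw [neg_mul_neg]; exact m2
  set T : Eis → ℂ := fun a => g7_T z (emb a) with hT
  have sT : Summable T := g7_summable_T z
  set S : Eis → ℂ := fun a => (32 / (64 * z ^ 6 - (emb a) ^ 6) - 2 / (z ^ 6 - (emb a) ^ 6)) with hS
  have sS : Summable S := summable_six z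
  have hlam : lam z = -3 / (2 * z) + ∑' a, T a := rfl
  have s1 := sT
  have s2 := g7_summable_mul T (-1) (-1) m3 sT
  have s3 := g7_summable_mul T om om2 m1 sT
  have s4 := g7_summable_mul T (-om) (-om2) m4 sT
  have s5 := g7_summable_mul T om2 om m2 sT
  have s6 := g7_summable_mul T (-om2) (-om) m5 sT
  have t2 := g7_tsum_mul T (-1) (-1) m3
  have t3 := g7_tsum_mul T om om2 m1
  have t4 := g7_tsum_mul T (-om) (-om2) m4
  have t5 := g7_tsum_mul T om2 om m2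
  have t6 := g7_tsum_mul T (-om2) (-om) m5
  have key : ∀ a : Eis, T a + T (-1 * a) + (T (om * a) + T (-om * a)) +
      (T (om2 * a) + T (-om2 * a)) = if a = 0 then 0 else 6 * z ^ 5 * S a := by
    intro a
    by_cases ha : a = 0
    · subst ha
      simp [hT, g7_T]
    · rw [if_neg ha]
      have hb : emb a ≠ 0 := by
        intro h; exact ha (emb_injective (by rw [h, map_zero]))
      have hw0 : w ≠ 0 := by
        intro h; rw [h] at hw3; norm_num at hw3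
      set b := emb a with hbdef
      have q1 : emb (-1 * a) = -b := by rw [map_mul, map_neg, map_one]; ring
      have q2 : emb (om * a) = w * b := by rw [map_mul, eom]
      have q3 : emb (-om * a) = -(w * b) := by rw [map_mul, map_neg, eom]; ring
      have q4 : emb (om2 * a) = w ^ 2 * b := by rw [map_mul, eom2]
      have q5 : emb (-om2 * a) = -(w ^ 2 * b) := by rw [map_mul, map_neg, eom2]; ring
      have r0a := n1 a
      have r0b := n2 a
      have r1a := n1 (-1 * a)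
      have r1b := n2 (-1 * a)
      have r2a := n1 (om * a)
      have r2b := n2 (om * a)
      have r3a := n1 (-om * a)
      have r3b := n2 (-om * a)
      have r4a := n1 (om2 * a)
      have r4b := n2 (om2 * a)
      have r5a := n1 (-om2 * a)
      have r5b := n2 (-om2 * a)
      rw [q1] at r1a r1b
      rw [q2] at r2a r2b
      rw [q3] at r3a r3b
      rw [q4] at r4a r4b
      rw [q5] at r5a r5b
      have wb : w * b ≠ 0 := mul_ne_zero hw0 hb
      have wwb : w ^ 2 * b ≠ 0 := mul_ne_zero (pow_ne_zero _ hw0) hb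
      show g7_T z (emb a) + g7_T z (emb (-1 * a)) + (g7_T z (emb (om * a)) + g7_T z (emb (-om * a))) +
        (g7_T z (emb (om2 * a)) + g7_T z (emb (-om2 * a))) = _
      rw [q1, q2, q3, q4, q5, ← hbdef, g7_T_eq z b hb r0a r0b, g7_T_eq z (-b) (neg_ne_zero.2 hb) r1a r1b,
        g7_T_eq z (w * b) wb r2a r2b, g7_T_eq z (-(w * b)) (neg_ne_zero.2 wb) r3a r3b,
        g7_T_eq z (w ^ 2 * b) wwb r4a r4b, g7_T_eq z (-(w ^ 2 * b)) (neg_ne_zero.2 wwb) r5a r5b]
      have f1 := g7_six (2 * z) b r0b (by rw [sub_eq_add_neg]; exact r1b) r2b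
        (by rw [sub_eq_add_neg]; exact r3b) r4b (by rw [sub_eq_add_neg]; exact r5b)
      have f2 := g7_six z b r0a (by rw [sub_eq_add_neg]; exact r1a) r2a
        (by rw [sub_eq_add_neg]; exact r3a) r4a (by rw [sub_eq_add_neg]; exact r5a)
      simp only [sub_eq_add_neg] at f1 f2
      have g : 6 * z ^ 5 * S a = 6 * (2 * z) ^ 5 / ((2 * z) ^ 6 + -b ^ 6) -
          2 * (6 * z ^ 5 / (z ^ 6 + -b ^ 6)) := by
        simp only [hS]
        rw [← hbdef, show (2 * z) ^ 6 + -b ^ 6 = 64 * z ^ 6 - b ^ 6 by ring,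
          show z ^ 6 + -b ^ 6 = z ^ 6 - b ^ 6 by ring]
        ring
      rw [g, ← f1, ← f2, inv_neg, inv_neg, inv_neg]
      ring
  have hsum : 6 * ∑' a, T a = ∑' a, (if a = 0 then 0 else 6 * z ^ 5 * S a) := by
    have e0 : ∑' a, (if a = 0 then 0 else 6 * z ^ 5 * S a) =
        ∑' a, (T a + T (-1 * a) + (T (om * a) + T (-om * a)) + (T (om2 * a) + T (-om2 * a))) :=
      tsum_congr fun a => (key a).symm
    rw [e0, ((s1.add s2).add (s3.add s4)).tsum_add (s5.add s6), (s1.add s2).tsum_add (s3.add s4),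
      s1.tsum_add s2, s3.tsum_add s4, s5.tsum_add s6, t2, t3, t4, t5, t6]
    ring
  have hS' : ∑' a, S a = S 0 + ∑' a, (if a = 0 then 0 else S a) := sS.tsum_eq_add_tsum_ite 0
  have e5 : ∑' a, (if a = 0 then 0 else 6 * z ^ 5 * S a) = 6 * z ^ 5 * ∑' a, (if a = 0 then 0 else S a) := by
    rw [← tsum_mul_left]
    apply tsum_congr
    intro a
    split_ifs <;> simp
  have hS0 : z ^ 5 * S 0 = -3 / (2 * z) := by
    simp only [hS, map_zero]
    field_simp
    ring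
  rw [hlam, hS', mul_add, hS0]
  congr 1
  have h6 : (6 : ℂ) ≠ 0 := by norm_num
  apply mul_left_cancel₀ h6
  rw [hsum, e5]
  ring

end CM27

end

/-! ### part H1 -/

section

set_option autoImplicit false

open scoped ComplexConjugate
open Filter Topology

namespace CM27

/-! ## [CM-H1] numerical bounds (file H1.lean; uses G1, G7) -/

/-- a majorant of `|x| ^ (-3)` (value `1` at `0`), with a telescoping sum -/
noncomputable def h1_v (x : ℤ) : ℝ :=
  if x.natAbs ≤ 1 then 1 else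
    1 / (((x.natAbs : ℝ) - 1) * (x.natAbs : ℝ) * ((x.natAbs : ℝ) + 1))

theorem h1_v_neg (x : ℤ) : h1_v (-x) = h1_v x := by simp [h1_v]

theorem h1_v_nonneg (x : ℤ) : 0 ≤ h1_v x := by
  unfold h1_v
  split_ifs with h
  · norm_num
  · have h1 : (2 : ℝ) ≤ (x.natAbs : ℝ) := by
      have : 2 ≤ x.natAbs := by omega
      exact_mod_cast this
    have h2 : 0 ≤ (x.natAbs : ℝ) - 1 := by linarith
    positivity

theorem h1_v_nat (n : ℕ) : h1_v ((n + 2 : ℕ) : ℤ) = 1 / (((n : ℝ) + 1) * (n + 2) * (n + 3)) := by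
  have h : ¬ ((((n + 2 : ℕ) : ℤ)).natAbs ≤ 1) := by omega
  rw [h1_v, if_neg h, Int.natAbs_natCast]
  push_cast
  congr 1
  ring

theorem h1_tele : HasSum (fun n : ℕ => 1 / (((n : ℝ) + 1) * (n + 2) * (n + 3))) (1 / 4) := by
  rw [hasSum_iff_tendsto_nat_of_nonneg (fun n => by positivity)]
  have h : ∀ n : ℕ, ∑ i ∈ Finset.range n, 1 / (((i : ℝ) + 1) * (i + 2) * (i + 3)) =
      1 / 4 - (1 / 2) * (1 / ((n : ℝ) + 1)) * (1 / ((n : ℝ) + 2)) := by
    intro n
    induction n with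
    | zero => norm_num
    | succ n ih =>
      rw [Finset.sum_range_succ, ih]
      push_cast
      field_simp
      ring
  simp_rw [h]
  have h1 : Tendsto (fun n : ℕ => 1 / ((n : ℝ) + 1)) atTop (𝓝 0) :=
    tendsto_one_div_add_atTop_nhds_zero_nat
  have h2 : Tendsto (fun n : ℕ => 1 / ((n : ℝ) + 2)) atTop (𝓝 0) := by
    have := (tendsto_add_atTop_iff_nat 1).2 h1
    refine this.congr fun n => ?_
    push_cast
    congr 1
    ring
  have h3 := (((tendsto_const_nhds (x := (1 / 2 : ℝ))).mul h1).mul h2)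
  have h4 := (tendsto_const_nhds (x := (1 / 4 : ℝ))).sub h3
  simpa using h4

theorem h1_hasSum_nat : HasSum (fun n : ℕ => h1_v (n : ℤ)) (9 / 4) := by
  rw [← hasSum_nat_add_iff' 2]
  have h := h1_tele
  have e1 : (fun n : ℕ => h1_v ((n + 2 : ℕ) : ℤ)) =
      fun n : ℕ => 1 / (((n : ℝ) + 1) * (n + 2) * (n + 3)) := by
    funext n
    rw [h1_v_nat n]
  have e2 : (9 / 4 : ℝ) - ∑ i ∈ Finset.range 2, h1_v (i : ℤ) = 1 / 4 := by
    have f0 : h1_v ((0 : ℕ) : ℤ) = 1 := by simp [h1_v]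
    have f1 : h1_v ((1 : ℕ) : ℤ) = 1 := by simp [h1_v]
    rw [Finset.sum_range_succ, Finset.sum_range_one, f0, f1]
    norm_num
  rw [e1, e2]
  exact h

theorem h1_hasSum_int : HasSum h1_v (7 / 2) := by
  have h1 := h1_hasSum_nat
  have h2 : HasSum (fun n : ℕ => h1_v (-((n : ℤ) + 1))) (5 / 4) := by
    have h3 : HasSum (fun n : ℕ => h1_v ((n + 1 : ℕ) : ℤ)) (5 / 4) := by
      have h4 := (hasSum_nat_add_iff' (f := fun n : ℕ => h1_v (n : ℤ)) 1).2 h1
      have e2 : (9 / 4 : ℝ) - ∑ i ∈ Finset.range 1, h1_v (i : ℤ) = 5 / 4 := by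
        have f0 : h1_v ((0 : ℕ) : ℤ) = 1 := by simp [h1_v]
        rw [Finset.sum_range_one, f0]
        norm_num
      rw [e2] at h4
      exact h4
    have e3 : (fun n : ℕ => h1_v (-((n : ℤ) + 1))) = fun n : ℕ => h1_v ((n + 1 : ℕ) : ℤ) := by
      funext n
      rw [h1_v_neg]
      push_cast
      rfl
    rw [e3]
    exact h3
  have h5 := HasSum.of_nat_of_neg_add_one h1 h2
  have e : (9 / 4 : ℝ) + 5 / 4 = 7 / 2 := by norm_num
  rw [e] at h5
  exact h5

theorem h1_hasSum_prod : HasSum (fun p : ℤ × ℤ => h1_v p.1 * h1_v p.2) (49 / 4) := by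
  have h1 := h1_hasSum_int
  have h2 := Summable.mul_of_nonneg h1.summable h1.summable h1_v_nonneg h1_v_nonneg
  have h3 := HasSum.mul h1 h1 h2
  have e : (7 / 2 : ℝ) * (7 / 2) = 49 / 4 := by norm_num
  rw [e] at h3
  exact h3

/-- the majorant on the Eisenstein integers -/
noncomputable def h1_V (a : Eis) : ℝ := h1_v a.re * h1_v a.im

theorem h1_hasSum : HasSum h1_V (49 / 4) := by
  have h := (QuadraticAlgebra.equivProd (R := ℤ) (-1) (-1)).hasSum_iff
    (f := fun p : ℤ × ℤ => h1_v p.1 * h1_v p.2) (a := 49 / 4)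
  exact h.2 h1_hasSum_prod

theorem h1_v_le (x : ℤ) (hx : x ≠ 0) : 1 / (x.natAbs : ℝ) ^ 3 ≤ h1_v x := by
  have h0 : 1 ≤ x.natAbs := by omega
  unfold h1_v
  split_ifs with h
  · have : x.natAbs = 1 := by omega
    rw [this]; norm_num
  · have h1 : (2 : ℝ) ≤ (x.natAbs : ℝ) := by
      have : 2 ≤ x.natAbs := by omega
      exact_mod_cast this
    set t := (x.natAbs : ℝ)
    apply one_div_le_one_div_of_le
    · have : 0 < t - 1 := by linarith
      positivity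
    · nlinarith

theorem h1_one_le_norm (a : Eis) (ha : a ≠ 0) : 1 ≤ a.norm := by
  have h1 := norm_nonneg' a
  rcases h1.lt_or_eq with h | h
  · exact h
  · exfalso
    apply ha
    have h2 := norm_emb_sq a
    rw [← h] at h2
    apply emb_injective
    simpa using h2

theorem h1_V_bound (a : Eis) (ha : a ≠ 0) : 1 / (a.norm : ℝ) ^ 3 ≤ h1_V a := by
  have h1 := h1_one_le_norm a ha
  have h1' : (1 : ℝ) ≤ (a.norm : ℝ) := by exact_mod_cast h1
  have h2 := norm_eq a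
  have h2' : (a.norm : ℝ) = (a.re : ℝ) ^ 2 - a.re * a.im + (a.im : ℝ) ^ 2 := by
    rw [h2]; push_cast; ring
  unfold h1_V
  have key : ∀ x y : ℤ, x ≠ 0 → y ≠ 0 → 1 / ((x : ℝ) ^ 2 - x * y + (y : ℝ) ^ 2) ^ 3 ≤
      h1_v x * h1_v y := by
    intro x y hx hy
    have e1 := h1_v_le x hx
    have e2 := h1_v_le y hy
    have e3 : (1 : ℝ) ≤ (x.natAbs : ℝ) := by
      have : 1 ≤ x.natAbs := by omega
      exact_mod_cast this
    have e4 : (1 : ℝ) ≤ (y.natAbs : ℝ) := by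
      have : 1 ≤ y.natAbs := by omega
      exact_mod_cast this
    have e5 : (x.natAbs : ℝ) = |(x : ℝ)| := by
      rw [Nat.cast_natAbs, Int.cast_abs]
    have e6 : (y.natAbs : ℝ) = |(y : ℝ)| := by
      rw [Nat.cast_natAbs, Int.cast_abs]
    have e7 : (x.natAbs : ℝ) * (y.natAbs : ℝ) ≤ (x : ℝ) ^ 2 - x * y + (y : ℝ) ^ 2 := by
      rw [e5, e6]
      have f1 : (x : ℝ) * y ≤ |(x : ℝ)| * |(y : ℝ)| := by
        rw [← abs_mul]; exact le_abs_self _
      nlinarith [sq_abs (x : ℝ), sq_abs (y : ℝ), sq_nonneg (|(x : ℝ)| - |(y : ℝ)|)]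
    calc 1 / ((x : ℝ) ^ 2 - x * y + (y : ℝ) ^ 2) ^ 3
        ≤ 1 / ((x.natAbs : ℝ) * (y.natAbs : ℝ)) ^ 3 := by
          apply one_div_le_one_div_of_le (by positivity)
          gcongr
      _ = (1 / (x.natAbs : ℝ) ^ 3) * (1 / (y.natAbs : ℝ) ^ 3) := by
          field_simp
      _ ≤ h1_v x * h1_v y := mul_le_mul e1 e2 (by positivity) (h1_v_nonneg x)
  have key0 : ∀ x : ℤ, x ≠ 0 → 1 / ((x : ℝ) ^ 2) ^ 3 ≤ h1_v x := by
    intro x hx
    refine le_trans ?_ (h1_v_le x hx)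
    have e3 : (1 : ℝ) ≤ (x.natAbs : ℝ) := by
      have : 1 ≤ x.natAbs := by omega
      exact_mod_cast this
    have e5 : (x.natAbs : ℝ) = |(x : ℝ)| := by
      rw [Nat.cast_natAbs, Int.cast_abs]
    have e6 : (x : ℝ) ^ 2 = (x.natAbs : ℝ) ^ 2 := by rw [e5, sq_abs]
    rw [e6]
    apply one_div_le_one_div_of_le (by positivity)
    have : (1 : ℝ) ≤ (x.natAbs : ℝ) ^ 3 := one_le_pow₀ e3
    calc (x.natAbs : ℝ) ^ 3 = (x.natAbs : ℝ) ^ 3 * 1 := by ring
      _ ≤ (x.natAbs : ℝ) ^ 3 * (x.natAbs : ℝ) ^ 3 := by gcongr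
      _ = ((x.natAbs : ℝ) ^ 2) ^ 3 := by ring
  have hv0 : h1_v 0 = 1 := by simp [h1_v]
  rw [h2']
  by_cases hx : a.re = 0
  · by_cases hy : a.im = 0
    · exfalso
      apply ha
      ext
      · exact hx
      · exact hy
    · rw [hx, hv0, one_mul]
      have := key0 a.im hy
      simpa using this
  · by_cases hy : a.im = 0
    · rw [hy, hv0, mul_one]
      have := key0 a.re hx
      simpa using this
    · exact key a.re a.im hx hy

theorem h1_norm_pow (a : Eis) : ‖emb a‖ ^ 6 = (a.norm : ℝ) ^ 3 := by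
  rw [← norm_emb_sq]; ring

/-- zero and the units -/
def h1_U : Finset Eis := {⟨0, 0⟩, ⟨1, 0⟩, ⟨-1, 0⟩, ⟨0, 1⟩, ⟨0, -1⟩, ⟨1, 1⟩, ⟨-1, -1⟩}

theorem h1_card : h1_U.card = 7 := by decide

theorem h1_w_six : w ^ 6 = 1 := by
  have h := w_sq
  have h3 : w ^ 3 = 1 := by
    linear_combination (w - 1) * h
  calc w ^ 6 = (w ^ 3) ^ 2 := by ring
    _ = 1 := by rw [h3]; norm_num

theorem h1_w_six' : (1 + w) ^ 6 = 1 := by
  have h := w_sq
  have h1 : 1 + w = -(w * w) := by rw [h]; ring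
  rw [h1]
  calc (-(w * w)) ^ 6 = (w ^ 6) ^ 2 := by ring
    _ = 1 := by rw [h1_w_six]; norm_num

theorem h1_sum_U : ∑ a ∈ h1_U, ((emb a) ^ 6)⁻¹ = 6 := by
  have e1 : emb ⟨0, 0⟩ = 0 := by simp [emb_apply]
  have e2 : emb ⟨1, 0⟩ = 1 := by simp [emb_apply]
  have e3 : emb ⟨-1, 0⟩ = -1 := by simp [emb_apply]
  have e4 : emb ⟨0, 1⟩ = w := by simp [emb_apply]
  have e5 : emb ⟨0, -1⟩ = -w := by simp [emb_apply]
  have e6 : emb ⟨1, 1⟩ = 1 + w := by simp [emb_apply]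
  have e7 : emb ⟨-1, -1⟩ = -(1 + w) := by simp [emb_apply]; ring
  have h8 : (-w) ^ 6 = 1 := by rw [Even.neg_pow (by decide), h1_w_six]
  have h9 : (-(1 + w)) ^ 6 = 1 := by rw [Even.neg_pow (by decide), h1_w_six']
  have h10 : ((-1 : ℂ)) ^ 6 = 1 := by norm_num
  rw [h1_U, Finset.sum_insert (by decide), Finset.sum_insert (by decide),
    Finset.sum_insert (by decide), Finset.sum_insert (by decide), Finset.sum_insert (by decide),
    Finset.sum_insert (by decide), Finset.sum_singleton, e1, e2, e3, e4, e5, e6, e7, h1_w_six,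
    h1_w_six', h8, h9, h10]
  norm_num

theorem h1_V_U (a : Eis) (ha : a ∈ h1_U) : h1_V a = 1 := by
  have h1 : h1_v 1 = 1 := by simp [h1_v]
  have h0 : h1_v 0 = 1 := by simp [h1_v]
  have h2 : h1_v (-1) = 1 := by simp [h1_v]
  simp only [h1_U, Finset.mem_insert, Finset.mem_singleton] at ha
  rcases ha with h | h | h | h | h | h | h <;> simp [h, h1_V, h1, h0, h2]

theorem h1_V_nonneg (a : Eis) : 0 ≤ h1_V a := mul_nonneg (h1_v_nonneg _) (h1_v_nonneg _)

theorem h1_inv_bound (a : Eis) : ‖((emb a) ^ 6)⁻¹‖ ≤ h1_V a := by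
  by_cases ha : a = 0
  · rw [ha]
    simpa using h1_V_nonneg 0
  · rw [norm_inv, norm_pow, h1_norm_pow, ← one_div]
    exact h1_V_bound a ha

theorem sum_six_ne_zero : ∑' a : Eis, ((emb a) ^ 6)⁻¹ ≠ 0 := by
  classical
  set f : Eis → ℂ := fun a => ((emb a) ^ 6)⁻¹ with hf
  set f1 : Eis → ℂ := fun a => if a ∈ h1_U then f a else 0 with hf1
  set f2 : Eis → ℂ := fun a => if a ∈ h1_U then 0 else f a with hf2
  have s1 : HasSum f1 6 := by
    have h : HasSum f1 (∑ a ∈ h1_U, f1 a) := hasSum_sum_of_ne_finset_zero (by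
      intro a ha
      simp only [hf1]
      rw [if_neg ha])
    have e : ∑ a ∈ h1_U, f1 a = 6 := by
      rw [← h1_sum_U]
      apply Finset.sum_congr rfl
      intro a ha
      simp only [hf1, hf]
      rw [if_pos ha]
    rw [e] at h
    exact h
  set W : Eis → ℝ := fun a => h1_V a - (if a ∈ h1_U then 1 else 0) with hW
  have sW : HasSum W (49 / 4 - 7) := by
    have h : HasSum (fun a : Eis => if a ∈ h1_U then (1 : ℝ) else 0)
        (∑ a ∈ h1_U, (if a ∈ h1_U then (1 : ℝ) else 0)) := hasSum_sum_of_ne_finset_zero (by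
      intro a ha
      rw [if_neg ha])
    have e : ∑ a ∈ h1_U, (if a ∈ h1_U then (1 : ℝ) else 0) = 7 := by
      rw [Finset.sum_congr rfl (g := fun _ => (1 : ℝ)) (fun a ha => if_pos ha), Finset.sum_const,
        h1_card]
      norm_num
    rw [e] at h
    exact h1_hasSum.sub h
  have hb : ∀ a, ‖f2 a‖ ≤ W a := by
    intro a
    simp only [hf2, hW]
    split_ifs with h
    · rw [h1_V_U a h]; simp
    · rw [sub_zero]; exact h1_inv_bound a
  have s2 : Summable f2 := Summable.of_norm_bounded sW.summable hb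
  have hn : ‖∑' a, f2 a‖ ≤ 49 / 4 - 7 := tsum_of_norm_bounded sW hb
  have s3 := s1.add s2.hasSum
  have e3 : (fun a => f1 a + f2 a) = f := by
    funext a
    simp only [hf1, hf2]
    split_ifs <;> simp
  rw [e3] at s3
  rw [s3.tsum_eq]
  intro h0
  have h4 : ∑' a, f2 a = -6 := by linear_combination h0
  rw [h4] at hn
  norm_num at hn

theorem h1_off_third : Off (1 / 3) := by
  rintro ⟨a, ha⟩
  have h1 := emb_re a
  have h2 := emb_im a
  rw [ha] at h1 h2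
  have h3 : (0 : ℝ) < √3 / 2 := by positivity
  have e1 : (2 * (1 / 3) : ℂ).re = 2 / 3 := by norm_num
  have e2 : (2 * (1 / 3) : ℂ).im = 0 := by norm_num
  rw [e1] at h1
  rw [e2] at h2
  have h4 : (a.im : ℝ) = 0 := by
    rcases mul_eq_zero.1 h2.symm with h | h
    · exact h
    · exact absurd h h3.ne'
  rw [h4] at h1
  have h5 : (3 * a.re : ℝ) = 2 := by linarith
  have h6 : 3 * a.re = 2 := by exact_mod_cast h5
  omega

theorem h1_term_bound (a : Eis) (ha : a ≠ 0) :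
    ‖(32 / (64 * (1 / 3 : ℂ) ^ 6 - (emb a) ^ 6) - 2 / ((1 / 3 : ℂ) ^ 6 - (emb a) ^ 6))‖ ≤
      38 * h1_V a := by
  have h1 : (1 : ℝ) ≤ (a.norm : ℝ) ^ 3 := by
    have h1' : (1 : ℝ) ≤ (a.norm : ℝ) := by exact_mod_cast h1_one_le_norm a ha
    exact one_le_pow₀ h1'
  have h2 : ‖(emb a) ^ 6‖ = (a.norm : ℝ) ^ 3 := by rw [norm_pow, h1_norm_pow]
  set N := (a.norm : ℝ) ^ 3
  set e := (emb a) ^ 6
  have h3 : (665 / 729) * N ≤ ‖64 * (1 / 3 : ℂ) ^ 6 - e‖ := by
    have h4 := norm_sub_norm_le e (64 * (1 / 3 : ℂ) ^ 6)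
    rw [norm_sub_rev, h2] at h4
    have h5 : ‖64 * (1 / 3 : ℂ) ^ 6‖ = 64 / 729 := by
      rw [norm_mul, norm_pow]; norm_num
    rw [h5] at h4
    linarith
  have h6 : (728 / 729) * N ≤ ‖(1 / 3 : ℂ) ^ 6 - e‖ := by
    have h4 := norm_sub_norm_le e ((1 / 3 : ℂ) ^ 6)
    rw [norm_sub_rev, h2] at h4
    have h5 : ‖(1 / 3 : ℂ) ^ 6‖ = 1 / 729 := by
      rw [norm_pow]; norm_num
    rw [h5] at h4
    linarith
  have h7 : 1 / N ≤ h1_V a := h1_V_bound a ha
  have hN : 0 < N := by linarith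
  have h8 : ‖32 / (64 * (1 / 3 : ℂ) ^ 6 - e)‖ ≤ (32 * 729 / 665) * (1 / N) := by
    rw [norm_div]
    have : ‖(32 : ℂ)‖ = 32 := by norm_num
    rw [this]
    calc 32 / ‖64 * (1 / 3 : ℂ) ^ 6 - e‖ ≤ 32 / ((665 / 729) * N) := by
          apply div_le_div_of_nonneg_left (by norm_num) (by positivity) h3
      _ = (32 * 729 / 665) * (1 / N) := by field_simp
  have h9 : ‖2 / ((1 / 3 : ℂ) ^ 6 - e)‖ ≤ (2 * 729 / 728) * (1 / N) := by
    rw [norm_div]
    have : ‖(2 : ℂ)‖ = 2 := by norm_num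
    rw [this]
    calc 2 / ‖(1 / 3 : ℂ) ^ 6 - e‖ ≤ 2 / ((728 / 729) * N) := by
          apply div_le_div_of_nonneg_left (by norm_num) (by positivity) h6
      _ = (2 * 729 / 728) * (1 / N) := by field_simp
  have h10 : 0 < 1 / N := by positivity
  calc ‖(32 / (64 * (1 / 3 : ℂ) ^ 6 - e) - 2 / ((1 / 3 : ℂ) ^ 6 - e))‖
      ≤ (32 * 729 / 665) * (1 / N) + (2 * 729 / 728) * (1 / N) :=
        (norm_sub_le _ _).trans (add_le_add h8 h9)
    _ ≤ 38 * (1 / N) := by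
        rw [← add_mul]
        apply mul_le_mul_of_nonneg_right (by norm_num) h10.le
    _ ≤ 38 * h1_V a := by linarith

theorem lam_third_ne_zero : lam (1 / 3) ≠ 0 := by
  classical
  rw [lam_six _ h1_off_third]
  have hs := summable_six (1 / 3)
  set F : Eis → ℂ := fun a =>
    (32 / (64 * (1 / 3 : ℂ) ^ 6 - (emb a) ^ 6) - 2 / ((1 / 3 : ℂ) ^ 6 - (emb a) ^ 6)) with hF
  apply mul_ne_zero (by norm_num)
  set f1 : Eis → ℂ := fun a => if a = 0 then F 0 else 0 with hf1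
  set f2 : Eis → ℂ := fun a => if a = 0 then 0 else F a with hf2
  have s1 : HasSum f1 (F 0) := hasSum_ite_eq 0 (F 0)
  set W : Eis → ℝ := fun a => 38 * (h1_V a - (if a = 0 then 1 else 0)) with hW
  have sW : HasSum W (38 * (49 / 4 - 1)) :=
    (h1_hasSum.sub (hasSum_ite_eq (0 : Eis) (1 : ℝ))).mul_left 38
  have hb : ∀ a, ‖f2 a‖ ≤ W a := by
    intro a
    simp only [hf2, hW]
    split_ifs with h
    · rw [h, h1_V_U 0 (by decide)]; simp
    · rw [sub_zero]; exact h1_term_bound a h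
  have s2 : Summable f2 := Summable.of_norm_bounded sW.summable hb
  have hn : ‖∑' a, f2 a‖ ≤ 38 * (49 / 4 - 1) := tsum_of_norm_bounded sW hb
  have s3 := s1.add s2.hasSum
  have e3 : (fun a => f1 a + f2 a) = F := by
    funext a
    simp only [hf1, hf2]
    split_ifs with h
    · rw [h]; simp
    · simp
  rw [e3] at s3
  rw [s3.tsum_eq]
  intro h0
  have hF0 : F 0 = -(2187 / 2) := by
    simp only [hF, map_zero]
    norm_num
  rw [hF0] at h0
  have h4 : ∑' a, f2 a = 2187 / 2 := by linear_combination h0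
  rw [h4] at hn
  norm_num at hn

end CM27

end

/-! ### part H2 -/

section

set_option autoImplicit false

open scoped ComplexConjugate
open Filter Topology

namespace CM27

/-! ## [CM-H2] the lattice, `g₂ = 0`, `g₃ ≠ 0` (file H2.lean; uses H1) -/

theorem mem_L0 (z : ℂ) : z ∈ L0.lattice ↔ z ∈ Set.range emb := by
  rw [PeriodPair.mem_lattice, Set.mem_range]
  constructor
  · rintro ⟨m, n, h⟩
    refine ⟨⟨m, n⟩, ?_⟩
    rw [emb_apply, ← h]
    simp [L0]
  · rintro ⟨a, h⟩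
    refine ⟨a.re, a.im, ?_⟩
    rw [← h, emb_apply]
    simp [L0]

/-- the Eisenstein integers and the lattice -/
noncomputable def h2_equiv : Eis ≃ L0.lattice :=
  Equiv.ofBijective (fun a => ⟨emb a, (mem_L0 _).2 ⟨a, rfl⟩⟩) (by
    constructor
    · intro a b h
      exact emb_injective (congrArg Subtype.val h)
    · rintro ⟨z, hz⟩
      obtain ⟨a, ha⟩ := (mem_L0 z).1 hz
      exact ⟨a, Subtype.ext ha⟩)

theorem h2_G (n : ℕ) : L0.G n = ∑' a : Eis, ((emb a) ^ n)⁻¹ := by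
  unfold PeriodPair.G
  rw [← h2_equiv.tsum_eq]
  rfl

theorem g2_eq : L0.g₂ = 0 := by
  unfold PeriodPair.g₂
  rw [h2_G]
  set s := ∑' a : Eis, ((emb a) ^ 4)⁻¹ with hs
  have hw : w ^ 2 = -1 - w := by rw [sq]; exact w_sq
  have hw3 : w ^ 3 = 1 := by
    have : w ^ 3 = w * w ^ 2 := by ring
    rw [this, hw]; linear_combination -hw
  have hw4 : w ^ 4 = w := by
    have : w ^ 4 = w * w ^ 3 := by ring
    rw [this, hw3, mul_one]
  have hw0 : w ≠ 0 := by
    intro h; rw [h] at hw3; norm_num at hw3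
  have hw1 : w ≠ 1 := by
    intro h; rw [h] at hw; norm_num at hw
  let om : Eis := ⟨0, 1⟩
  let om2 : Eis := ⟨-1, -1⟩
  have eom : emb om = w := by simp [om, emb_apply]
  have eom2 : emb om2 = w ^ 2 := by rw [hw]; simp [om2, emb_apply]; ring
  have m1 : om * om2 = 1 := by
    apply emb_injective
    rw [map_mul, eom, eom2, map_one]; rw [← hw3]; ring
  let e : Eis ≃ Eis :=
    { toFun := fun a => om * a
      invFun := fun a => om2 * a
      left_inv := fun a => by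
        show om2 * (om * a) = a
        rw [← mul_assoc, mul_comm om2 om, m1, one_mul]
      right_inv := fun a => by
        show om * (om2 * a) = a
        rw [← mul_assoc, m1, one_mul] }
  have h1 : s = ∑' a : Eis, ((emb (om * a)) ^ 4)⁻¹ := by
    rw [hs, ← e.tsum_eq]
    rfl
  have h2 : ∑' a : Eis, ((emb (om * a)) ^ 4)⁻¹ = w⁻¹ * s := by
    rw [hs, ← tsum_mul_left]
    apply tsum_congr
    intro a
    rw [map_mul, eom, mul_pow, hw4, mul_inv]
  rw [h2] at h1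
  have h3 : (w - 1) * s = 0 := by
    have : w * s = w * (w⁻¹ * s) := by rw [← h1]
    rw [← mul_assoc, mul_inv_cancel₀ hw0, one_mul] at this
    linear_combination this
  rcases mul_eq_zero.1 h3 with h | h
  · exact absurd (sub_eq_zero.1 h) hw1
  · rw [h, mul_zero]

theorem g3_ne : L0.g₃ ≠ 0 := by
  unfold PeriodPair.g₃
  rw [h2_G]
  exact mul_ne_zero (by norm_num) sum_six_ne_zero

end CM27

end

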