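import Pool.Agent.MP_ae0bd0_nt.CM.G6
import Pool.Agent.MP_ae0bd0_nt.CM.I1
import Pool.Agent.MP_ae0bd0_nt.CM.A1

set_option autoImplicit false

open scoped ComplexConjugate
open scoped Classical

namespace CM27

/-! ## [CM-I3] the sum over the residue classes prime to `m` (file I3.lean; uses G6, B6, I1) -/

namespace I3

/-- `2 (1 + 3 x)` is never a multiple of `3 g` -/
theorem off_aux (g x : Eis) (hg0 : g ≠ 0) : Off (emb (1 + 3 * x) / (3 * emb g)) := by
  rintro ⟨a, ha⟩
  have hg : emb g ≠ 0 := by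
    intro h
    exact hg0 (emb_injective (by rw [h, map_zero]))
  have h1 : emb (3 * g * a) = emb (2 * (1 + 3 * x)) := by
    rw [map_mul, map_mul, map_mul, ha, map_ofNat, map_ofNat]
    field_simp
  have h2 := emb_injective h1
  have h3 : (3 : Eis).re = 3 := rfl
  have h4 : (3 : Eis).im = 0 := rfl
  have h5 : (2 : Eis).re = 2 := rfl
  have h6 : (2 : Eis).im = 0 := rfl
  have h7 := congrArg QuadraticAlgebra.re h2
  simp only [QuadraticAlgebra.re_mul, QuadraticAlgebra.re_add, QuadraticAlgebra.im_mul,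
    QuadraticAlgebra.im_add, QuadraticAlgebra.re_one, QuadraticAlgebra.im_one, h3, h4, h5, h6] at h7
  ring_nf at h7
  omega

/-- the summand of `TT` -/
noncomputable def FF (g x : Eis) : ℂ :=
  if IsCoprime (1 + 3 * x) g then lam (emb (1 + 3 * x) / (3 * emb g)) else 0

theorem FF_add (g x k : Eis) (hg0 : g ≠ 0) : FF g (x + g * k) = FF g x := by
  have hg : emb g ≠ 0 := by
    intro h
    exact hg0 (emb_injective (by rw [h, map_zero]))
  have e : 1 + 3 * (x + g * k) = 1 + 3 * x + g * (3 * k) := by ring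
  unfold FF
  rw [e]
  have hc : IsCoprime (1 + 3 * x + g * (3 * k)) g ↔ IsCoprime (1 + 3 * x) g :=
    IsCoprime.add_mul_left_left_iff
  simp only [hc]
  split_ifs with h
  · have e2 : emb (1 + 3 * x + g * (3 * k)) / (3 * emb g) =
        emb (1 + 3 * x) / (3 * emb g) + emb k := by
      rw [map_add _ (1 + 3 * x), map_mul, map_mul _ 3, map_ofNat]
      field_simp
    rw [e2, lam_add _ (off_aux g x hg0)]
  · rfl

theorem out_spec (g x : Eis) : ∃ k : Eis,
    (Ideal.Quotient.mk (Ideal.span {g}) x).out = x + g * k := by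
  have h : Ideal.Quotient.mk (Ideal.span {g}) ((Ideal.Quotient.mk (Ideal.span {g}) x).out) =
      Ideal.Quotient.mk (Ideal.span {g}) x := Ideal.Quotient.mk_out _
  rw [Ideal.Quotient.mk_eq_mk_iff_sub_mem, Ideal.mem_span_singleton] at h
  obtain ⟨k, hk⟩ := h
  exact ⟨k, by rw [← hk]; ring⟩

theorem FF_out (g x : Eis) (hg0 : g ≠ 0) :
    FF g (Ideal.Quotient.mk (Ideal.span {g}) x).out = FF g x := by
  obtain ⟨k, hk⟩ := out_spec g x
  rw [hk, FF_add g x k hg0]

theorem TT_eq (g : Eis) : TT g = ∑ᶠ d : Eis ⧸ Ideal.span {g}, FF g d.out := rfl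

theorem quot_finite (g : Eis) (hg0 : g ≠ 0) : Finite (Eis ⧸ Ideal.span {g}) := by
  have := eis_isDomain
  apply Ideal.finiteQuotientOfFreeOfNeBot
  rwa [Ne, Ideal.span_singleton_eq_bot]

theorem ne_zero_of_norm (g : Eis) (h : g.norm ≠ 0) : g ≠ 0 := by
  rintro rfl
  apply h
  rw [norm_eq]
  simp

theorem norm_mul' (a b : Eis) : (a * b).norm = a.norm * b.norm := by
  simp only [norm_eq, QuadraticAlgebra.re_mul, QuadraticAlgebra.im_mul]
  ring

theorem norm_natCast' (n : ℕ) : ((n : Eis)).norm = (n : ℤ) ^ 2 := by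
  rw [norm_eq]
  simp

/-- a natural number that is divisible by an element of prime norm `p` is divisible by `p` -/
theorem dvd_of_dvd (b : Eis) (p : ℕ) (hp : p.Prime) (hb : b.norm = p) (n : ℤ)
    (h : b ∣ (n : Eis)) : (p : ℤ) ∣ n := by
  obtain ⟨k, hk⟩ := h
  have h1 : ((n : Eis)).norm = p * k.norm := by rw [hk, norm_mul', hb]
  have h2 : ((n : Eis)).norm = n ^ 2 := by
    rw [norm_eq]; simp
  rw [h2] at h1
  exact (Nat.prime_iff_prime_int.1 hp).dvd_of_dvd_pow (Dvd.intro _ h1.symm)

/-- the residue classes of an element of prime norm -/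
theorem exists_rep (b : Eis) (p : ℕ) (hp : p.Prime) (hb : b.norm = p) (y : Eis) :
    ∃ t ∈ Finset.range p, b ∣ y - (t : Eis) := by
  have hn := norm_eq b
  rw [hb] at hn
  have hpi : Prime (p : ℤ) := Nat.prime_iff_prime_int.1 hp
  have hco : IsCoprime b.im (p : ℤ) := by
    rw [isCoprime_comm, hpi.coprime_iff_not_dvd]
    intro h
    have h1 : (p : ℤ) ∣ b.re ^ 2 := by
      have : b.re ^ 2 = p + b.im * (b.re - b.im) := by rw [hn]; ring
      rw [this]
      exact dvd_add (dvd_refl _) (h.mul_right _)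
    have h2 := hpi.dvd_of_dvd_pow h1
    obtain ⟨u, hu⟩ := h
    obtain ⟨v, hv⟩ := h2
    rw [hu, hv] at hn
    have h3 : (1 : ℤ) = p * (v ^ 2 - v * u + u ^ 2) := by
      have hp0 : (p : ℤ) ≠ 0 := by exact_mod_cast hp.ne_zero
      apply mul_left_cancel₀ hp0
      linear_combination hn
    exact hpi.not_isUnit (IsUnit.of_mul_eq_one _ h3.symm)
  obtain ⟨c, d, hcd⟩ := hco
  -- `b` divides `p`
  have hbp : b ∣ ((p : ℤ) : Eis) := by
    refine ⟨star b, ?_⟩
    rw [← hb]
    ext
    · rw [QuadraticAlgebra.re_intCast, norm_eq]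
      simp only [QuadraticAlgebra.re_mul, QuadraticAlgebra.re_star, QuadraticAlgebra.im_star,
        Int.cast_id]
      ring
    · rw [QuadraticAlgebra.im_intCast]
      simp only [QuadraticAlgebra.im_mul, QuadraticAlgebra.re_star, QuadraticAlgebra.im_star]
      ring
  set s : ℤ := y.re - y.im * c * b.re with hs
  refine ⟨(s % p).toNat, ?_, ?_⟩
  · have h1 := Int.emod_nonneg s (b := (p : ℤ)) (by exact_mod_cast hp.ne_zero)
    have h2 := Int.emod_lt_of_pos s (b := (p : ℤ)) (by exact_mod_cast hp.pos)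
    rw [Finset.mem_range]
    omega
  · have h1 := Int.emod_nonneg s (b := (p : ℤ)) (by exact_mod_cast hp.ne_zero)
    have h2 : (((s % p).toNat : ℕ) : Eis) = ((s % p : ℤ) : Eis) := by
      have h3 : (((s % p).toNat : ℕ) : ℤ) = s % p := Int.toNat_of_nonneg h1
      calc (((s % p).toNat : ℕ) : Eis) = ((((s % p).toNat : ℕ) : ℤ) : Eis) := by
            rw [Int.cast_natCast]
        _ = ((s % p : ℤ) : Eis) := by rw [h3]
    rw [h2]
    have h3 : y - ((s % p : ℤ) : Eis) = (y - ((s : ℤ) : Eis)) + ((p : ℤ) : Eis) * ((s / p : ℤ) : Eis) := by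
      have := Int.emod_add_mul_ediv s p
      have h4 : ((s : ℤ) : Eis) = ((s % p : ℤ) : Eis) + ((p : ℤ) : Eis) * ((s / p : ℤ) : Eis) := by
        rw [← Int.cast_mul, ← Int.cast_add, this]
      rw [h4]; ring
    rw [h3]
    apply dvd_add _ (hbp.mul_right _)
    -- `y - s = y.im (ω + c b.re) ` and `b c = c b.re + c b.im ω = c b.re + (1 - d p) ω`
    have h5 : y - ((s : ℤ) : Eis) = b * (((y.im * c : ℤ)) : Eis) + ((p : ℤ) : Eis) * (⟨0, d * y.im⟩ : Eis) := by
      ext
      · simp [hs]; ring
      · simp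
        linear_combination (-y.im) * hcd
    rw [h5]
    exact dvd_add (Dvd.intro _ rfl) (hbp.mul_right _)

end I3

theorem TT_one : TT 1 = lam (1 / 3) := by
  have h1 : (1 : Eis) ≠ 0 := by
    intro h
    have h2 := congrArg QuadraticAlgebra.re h
    rw [QuadraticAlgebra.re_one, QuadraticAlgebra.re_zero] at h2
    exact one_ne_zero h2
  have : Subsingleton (Eis ⧸ Ideal.span {(1 : Eis)}) := by
    rw [Ideal.Quotient.subsingleton_iff, Ideal.span_singleton_one]
  rw [I3.TT_eq]
  rw [finsum_eq_single _ (Ideal.Quotient.mk (Ideal.span {(1 : Eis)}) 0)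
    (fun x hx => absurd (Subsingleton.elim _ _) hx)]
  rw [I3.FF_out _ _ h1, I3.FF, if_pos isCoprime_one_right]
  simp

namespace I3

variable (g b : Eis)

/-- the summand before removing the multiples of `b` -/
noncomputable def GG (x : Eis) : ℂ :=
  if IsCoprime (1 + 3 * x) g then lam (emb (1 + 3 * x) / (3 * emb (g * b))) else 0

theorem FF_eq (p : ℕ) (hp : p.Prime) (hbn : b.norm = p) (x : Eis) :
    FF (g * b) x = GG g b x - if b ∣ 1 + 3 * x then GG g b x else 0 := by
  have := eis_isDomain
  have := eis_pid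
  have hirr : Irreducible b := by
    refine ⟨?_, ?_⟩
    · rw [eis_isUnit_iff, hbn]
      intro h
      exact hp.one_lt.ne' (by exact_mod_cast h)
    · intro a c hac
      have h1 : (p : ℤ) = a.norm * c.norm := by rw [← hbn, hac, norm_mul']
      have ha := norm_nonneg' a
      have hc := norm_nonneg' c
      rw [eis_isUnit_iff, eis_isUnit_iff]
      have h2 : p = a.norm.toNat * c.norm.toNat := by
        zify
        rw [Int.toNat_of_nonneg ha, Int.toNat_of_nonneg hc]
        exact h1
      rcases Nat.prime_mul_iff.1 (h2 ▸ hp) with h | h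
      · right; omega
      · left; omega
  unfold FF GG
  by_cases h1 : IsCoprime (1 + 3 * x) g
  · by_cases h2 : b ∣ 1 + 3 * x
    · have h3 : ¬ IsCoprime (1 + 3 * x) (g * b) := by
        intro h
        have h4 : IsCoprime (1 + 3 * x) b := h.of_mul_right_right
        exact hirr.not_isUnit (h4.isUnit_of_dvd' h2 dvd_rfl)
      rw [if_neg h3, if_pos h2]; ring
    · have h3 : IsCoprime (1 + 3 * x) (g * b) := by
        apply IsCoprime.mul_right h1
        rw [isCoprime_comm, hirr.coprime_iff_not_dvd]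
        exact h2
      rw [if_pos h3, if_pos h1, if_neg h2]; ring
  · have h3 : ¬ IsCoprime (1 + 3 * x) (g * b) := fun h => h1 h.of_mul_right_left
    rw [if_neg h3, if_neg h1]; simp

theorem GG_add (x k : Eis) (hg0 : g * b ≠ 0) : GG g b (x + g * b * k) = GG g b x := by
  have hg : emb (g * b) ≠ 0 := by
    intro h
    exact hg0 (emb_injective (by rw [h, map_zero]))
  have e : 1 + 3 * (x + g * b * k) = 1 + 3 * x + g * (3 * b * k) := by ring
  unfold GG
  have hc : IsCoprime (1 + 3 * x + g * (3 * b * k)) g ↔ IsCoprime (1 + 3 * x) g :=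
    IsCoprime.add_mul_left_left_iff
  rw [e]
  simp only [hc]
  split_ifs with h
  · have e2 : emb (1 + 3 * x + g * (3 * b * k)) / (3 * emb (g * b)) =
        emb (1 + 3 * x) / (3 * emb (g * b)) + emb k := by
      have e3 : 1 + 3 * x + g * (3 * b * k) = 1 + 3 * x + 3 * (g * b) * k := by ring
      rw [e3, map_add _ (1 + 3 * x), map_mul, map_mul _ 3, map_ofNat]
      field_simp
    rw [e2, lam_add _ (off_aux (g * b) x hg0)]
  · rfl

theorem GG_out (x : Eis) (hg0 : g * b ≠ 0) :
    GG g b (Ideal.Quotient.mk (Ideal.span {g * b}) x).out = GG g b x := by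
  obtain ⟨k, hk⟩ := out_spec (g * b) x
  rw [hk, GG_add g b x k hg0]

theorem dvd_add_iff' (x k : Eis) : b ∣ 1 + 3 * (x + g * b * k) ↔ b ∣ 1 + 3 * x := by
  have e : 1 + 3 * (x + g * b * k) = 1 + 3 * x + b * (3 * g * k) := by ring
  rw [e]
  exact dvd_add_left (Dvd.intro _ rfl)

theorem dvd_out (x : Eis) :
    b ∣ 1 + 3 * (Ideal.Quotient.mk (Ideal.span {g * b}) x).out ↔ b ∣ 1 + 3 * x := by
  obtain ⟨k, hk⟩ := out_spec (g * b) x
  rw [hk, dvd_add_iff']

end I3

open I3 in
/-- `T(g b) = (b - 1) T(g)` -/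
theorem TT_mul (g b : Eis) (hg : Primary g) (hg2 : Odd g.norm) (hb : Primary b) (p : ℕ)
    (hp : p.Prime) (hp2 : p ≠ 2) (hbn : b.norm = p) (hgb : IsCoprime g b) :
    TT (g * b) = (emb b - 1) * TT g := by
  have := eis_isDomain
  have hg0 : g ≠ 0 := by
    apply ne_zero_of_norm
    intro h
    rw [h] at hg2
    exact absurd hg2 (by decide)
  have hb0 : b ≠ 0 := by
    apply ne_zero_of_norm
    rw [hbn]
    exact_mod_cast hp.ne_zero
  have hgb0 : g * b ≠ 0 := mul_ne_zero hg0 hb0
  have hge : emb g ≠ 0 := by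
    intro h
    exact hg0 (emb_injective (by rw [h, map_zero]))
  have hbe : emb b ≠ 0 := by
    intro h
    exact hb0 (emb_injective (by rw [h, map_zero]))
  have := quot_finite g hg0
  have := quot_finite (g * b) hgb0
  have : Fintype (Eis ⧸ Ideal.span {g}) := Fintype.ofFinite _
  have : Fintype (Eis ⧸ Ideal.span {g * b}) := Fintype.ofFinite _
  rw [TT_eq, TT_eq, finsum_eq_sum_of_fintype, finsum_eq_sum_of_fintype]
  simp_rw [FF_eq g b p hp hbn]
  rw [Finset.sum_sub_distrib]
  -- the full sum
  have S1 : ∑ d : Eis ⧸ Ideal.span {g * b}, GG g b d.out =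
      ∑ e : Eis ⧸ Ideal.span {g}, ∑ t ∈ Finset.range p, GG g b (e.out + g * (t : Eis)) := by
    rw [← Finset.sum_product']
    symm
    refine Finset.sum_bij (fun x _ => Ideal.Quotient.mk (Ideal.span {g * b}) (x.1.out + g * (x.2 : Eis)))
      (fun _ _ => Finset.mem_univ _) ?_ ?_ ?_
    · rintro ⟨e, t⟩ he ⟨e', t'⟩ he' h
      simp only [Finset.mem_product, Finset.mem_univ, true_and, Finset.mem_range] at he he'
      simp only at h
      rw [Ideal.Quotient.mk_eq_mk_iff_sub_mem, Ideal.mem_span_singleton] at h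
      have h1 : e = e' := by
        have h2 : g ∣ e.out - e'.out := by
          have h3 : e.out - e'.out = (e.out + g * (t : Eis) - (e'.out + g * (t' : Eis))) +
            g * ((t' : Eis) - (t : Eis)) := by ring
          rw [h3]
          exact dvd_add ((Dvd.intro _ rfl).trans h) (Dvd.intro _ rfl)
        rw [← Ideal.mem_span_singleton, ← Ideal.Quotient.mk_eq_mk_iff_sub_mem] at h2
        rwa [Ideal.Quotient.mk_out, Ideal.Quotient.mk_out] at h2
      subst h1
      have h4 : g * b ∣ g * ((t : Eis) - (t' : Eis)) := by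
        have h5 : g * ((t : Eis) - (t' : Eis)) = e.out + g * (t : Eis) - (e.out + g * (t' : Eis)) := by
          ring
        rw [h5]; exact h
      have h6 : b ∣ (((t : ℤ) - (t' : ℤ) : ℤ) : Eis) := by
        have := (mul_dvd_mul_iff_left hg0).1 h4
        simpa using this
      have h7 := dvd_of_dvd b p hp hbn _ h6
      have h8 : (t : ℤ) = t' := by
        have h9 : (t : ℤ) - t' = 0 := by
          apply Int.eq_zero_of_abs_lt_dvd h7
          rw [abs_lt]
          constructor <;> omega
        omega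
      have h10 : t = t' := by exact_mod_cast h8
      rw [h10]
    · intro d _
      obtain ⟨y, rfl⟩ := Ideal.Quotient.mk_surjective d
      obtain ⟨k, hk⟩ := out_spec g y
      obtain ⟨t, ht, c, hc⟩ := exists_rep b p hp hbn (-k)
      refine ⟨(Ideal.Quotient.mk (Ideal.span {g}) y, t), ?_, ?_⟩
      · simp only [Finset.mem_product, Finset.mem_univ, true_and]
        exact ht
      · simp only
        rw [Ideal.Quotient.mk_eq_mk_iff_sub_mem, Ideal.mem_span_singleton, hk]
        refine ⟨-c, ?_⟩
        linear_combination (-g) * hc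
    · rintro ⟨e, t⟩ _
      simp only
      rw [GG_out g b _ hgb0]
  have S2 : ∀ e : Eis ⧸ Ideal.span {g},
      ∑ t ∈ Finset.range p, GG g b (e.out + g * (t : Eis)) = emb b * FF g e.out := by
    intro e
    have hc : ∀ t : ℕ, IsCoprime (1 + 3 * (e.out + g * (t : Eis))) g ↔ IsCoprime (1 + 3 * e.out) g := by
      intro t
      have e1 : 1 + 3 * (e.out + g * (t : Eis)) = 1 + 3 * e.out + g * (3 * t) := by ring
      rw [e1]
      exact IsCoprime.add_mul_left_left_iff
    unfold GG FF
    simp only [hc]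
    by_cases h : IsCoprime (1 + 3 * e.out) g
    · simp only [h, if_true]
      have hz : Off (emb b * (emb (1 + 3 * e.out) / (3 * emb (g * b)))) := by
        have := off_aux g e.out hg0
        have e2 : emb b * (emb (1 + 3 * e.out) / (3 * emb (g * b))) =
            emb (1 + 3 * e.out) / (3 * emb g) := by
          rw [map_mul emb g b]
          field_simp
        rwa [e2]
      have h1 := lam_dist p hp hp2 b hbn (emb (1 + 3 * e.out) / (3 * emb (g * b))) hz
      have e2 : emb b * (emb (1 + 3 * e.out) / (3 * emb (g * b))) =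
            emb (1 + 3 * e.out) / (3 * emb g) := by
          rw [map_mul emb g b]
          field_simp
      rw [e2] at h1
      rw [← h1]
      apply Finset.sum_congr rfl
      intro t _
      congr 1
      have e1 : 1 + 3 * (e.out + g * (t : Eis)) = (1 + 3 * e.out) + 3 * g * t := by ring
      rw [e1, map_add _ (1 + 3 * e.out), map_mul _ (3 * g), map_mul _ 3, map_mul emb g b, map_ofNat,
        map_natCast]
      field_simp
    · simp only [h, if_false]
      simp
  -- the classes divisible by `b`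
  obtain ⟨β, hβ⟩ := hb
  have hβ' : b = 1 + 3 * β := by rw [← hβ]; ring
  have S3 : ∑ d : Eis ⧸ Ideal.span {g * b},
      (if b ∣ 1 + 3 * d.out then GG g b d.out else 0) =
      ∑ e : Eis ⧸ Ideal.span {g}, FF g e.out := by
    rw [← Finset.sum_filter]
    symm
    refine Finset.sum_bij (fun e _ => Ideal.Quotient.mk (Ideal.span {g * b}) (β + b * e.out))
      ?_ ?_ ?_ ?_
    · intro e _
      rw [Finset.mem_filter]
      refine ⟨Finset.mem_univ _, ?_⟩
      rw [dvd_out]
      refine ⟨1 + 3 * e.out, ?_⟩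
      linear_combination (-1 : Eis) * hβ'
    · intro e _ e' _ h
      rw [Ideal.Quotient.mk_eq_mk_iff_sub_mem, Ideal.mem_span_singleton] at h
      have h1 : b * g ∣ b * (e.out - e'.out) := by
        have h2 : b * (e.out - e'.out) = β + b * e.out - (β + b * e'.out) := by ring
        rw [h2, mul_comm b g]; exact h
      have h3 := (mul_dvd_mul_iff_left hb0).1 h1
      rw [← Ideal.mem_span_singleton, ← Ideal.Quotient.mk_eq_mk_iff_sub_mem] at h3
      rwa [Ideal.Quotient.mk_out, Ideal.Quotient.mk_out] at h3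
    · intro d hd
      obtain ⟨y, rfl⟩ := Ideal.Quotient.mk_surjective d
      rw [Finset.mem_filter, dvd_out] at hd
      obtain ⟨z, hz⟩ := hd.2
      obtain ⟨k, hk⟩ := out_spec g (y - β * z)
      refine ⟨Ideal.Quotient.mk (Ideal.span {g}) (y - β * z), Finset.mem_univ _, ?_⟩
      rw [Ideal.Quotient.mk_eq_mk_iff_sub_mem, Ideal.mem_span_singleton, hk]
      refine ⟨k, ?_⟩
      linear_combination y * hβ' + β * hz
    · intro e _
      rw [GG_out g b _ hgb0]
      unfold FF GG
      have e1 : 1 + 3 * (β + b * e.out) = b * (1 + 3 * e.out) := by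
        linear_combination (-1 : Eis) * hβ'
      rw [e1]
      have hc : IsCoprime (b * (1 + 3 * e.out)) g ↔ IsCoprime (1 + 3 * e.out) g :=
        ⟨fun h => h.of_mul_left_right, fun h => IsCoprime.mul_left hgb.symm h⟩
      simp only [hc]
      split_ifs with h
      · congr 1
        rw [map_mul emb b, map_mul emb g b]
        field_simp
      · rfl
  rw [S1, S3, Finset.sum_congr rfl (fun e _ => S2 e), ← Finset.mul_sum]
  ring

end CM27
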