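import Pool.Agent.MP_ae0bd0_nt.CM.Defs

/-!
# [CM27] analytic part: definitions
-/

set_option autoImplicit false

open scoped ComplexConjugate

namespace CM27

/-- `conj z / |z| ^ (2 s)` -/
noncomputable def gs (s z : ℂ) : ℂ := conj z * (‖z‖ : ℂ) ^ (-2 * s)

/-- The Eisenstein–Kronecker series `H(z, s) = ∑ conj (z + a) / |z + a| ^ (2 s)`. -/
noncomputable def Hs (s z : ℂ) : ℂ := ∑' a : Eis, gs s (z + emb a)

/-- The half plane `Re s > 1/2`. -/
def HP : Set ℂ := {s | 1 / 2 < s.re}

/-- The representative `1 + 3 (i + j ω)`. -/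
def cc (i j : ℕ) : Eis := 1 + 3 * ⟨i, j⟩

/-- The value of a Dirichlet character at the norm of an Eisenstein integer. -/
noncomputable def chiN {m : ℕ} (χ : DirichletCharacter ℂ m) (a : Eis) : ℂ := χ ((a.norm : ℤ) : ZMod m)

/-- The period pair `(1, ω)`. -/
noncomputable def L0 : PeriodPair where
  ω₁ := 1
  ω₂ := w
  indep := by
    rw [LinearIndependent.pair_iff]
    intro s t h
    have h1 := congrArg Complex.im h
    have h2 := congrArg Complex.re h
    simp [w_im, w_re] at h1 h2
    subst h1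
    simp at h2
    exact ⟨h2, rfl⟩

open Classical in
/-- The sum over the classes `c ≡ 1 mod 3` modulo `3 g` prime to `g`. -/
noncomputable def TT (g : Eis) : ℂ :=
  ∑ᶠ d : Eis ⧸ Ideal.span {g},
    if IsCoprime (1 + 3 * d.out) g then lam (emb (1 + 3 * d.out) / (3 * emb g)) else 0

end CM27
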