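import Mathlib

/-!
# MP_ae0bd0_nt (Birch and Swinnerton-Dyer), project [CM27]: definitions

The elliptic curve `E : y² + y = x³` (27a, complex multiplication by `ℤ[ω]`).
-/

set_option autoImplicit false

open scoped ComplexConjugate

namespace CM27

/-- The Weierstrass curve `y² + y = x³`. -/
def E (K : Type*) [CommRing K] : WeierstrassCurve K := ⟨0, 0, 1, 0, 0⟩

/-- Good primes: `p ≡ 1 mod 3` and `2` is not a cube modulo `p`. -/
def GoodPrime (p : ℕ) : Prop := p.Prime ∧ p % 3 = 1 ∧ ¬ ∃ x : ZMod p, x ^ 3 = 2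

/-- Good levels: squarefree products of good primes (including the empty product). -/
def GoodLevel (m : ℕ) : Prop := Squarefree m ∧ ∀ p, p.Prime → p ∣ m → GoodPrime p

/-- The Eisenstein integers `ℤ[ω]`, `ω² = -1 - ω`. -/
abbrev Eis := QuadraticAlgebra ℤ (-1) (-1)

/-- The primitive cube root of unity `(-1 + √3 i) / 2`. -/
noncomputable def w : ℂ := ⟨-1 / 2, √3 / 2⟩

theorem w_sq : w * w = -1 - w := by
  have h3 : √3 * √3 = 3 := Real.mul_self_sqrt (by norm_num)
  apply Complex.ext
  · simp only [w, Complex.mul_re, Complex.sub_re, Complex.neg_re, Complex.one_re]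
    nlinarith [h3]
  · simp only [w, Complex.mul_im, Complex.sub_im, Complex.neg_im, Complex.one_im]
    ring

/-- The embedding of the Eisenstein integers into the complex numbers. -/
noncomputable def emb : Eis →+* ℂ where
  toFun a := (a.re : ℂ) + (a.im : ℂ) * w
  map_one' := by simp [QuadraticAlgebra.re_one, QuadraticAlgebra.im_one]
  map_mul' a b := by
    have h := w_sq
    simp only [QuadraticAlgebra.re_mul, QuadraticAlgebra.im_mul]
    push_cast
    linear_combination (-(a.im : ℂ) * b.im) * h
  map_zero' := by simp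
  map_add' a b := by
    simp only [QuadraticAlgebra.re_add, QuadraticAlgebra.im_add]
    push_cast
    ring

theorem emb_apply (a : Eis) : emb a = (a.re : ℂ) + (a.im : ℂ) * w := rfl

theorem w_re : w.re = -1 / 2 := rfl

theorem w_im : w.im = √3 / 2 := rfl

theorem emb_re (a : Eis) : (emb a).re = (a.re : ℝ) - a.im / 2 := by
  simp [emb_apply, w_re]; ring

theorem emb_im (a : Eis) : (emb a).im = a.im * (√3 / 2) := by
  simp [emb_apply, w_im]

theorem norm_eq (a : Eis) : a.norm = a.re ^ 2 - a.re * a.im + a.im ^ 2 := by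
  rw [QuadraticAlgebra.norm_def]; ring

theorem normSq_emb (a : Eis) : Complex.normSq (emb a) = (a.norm : ℝ) := by
  have h3 : √3 * √3 = 3 := Real.mul_self_sqrt (by norm_num)
  rw [Complex.normSq_apply, emb_re, emb_im, norm_eq]
  push_cast
  nlinarith [h3]

theorem norm_emb_sq (a : Eis) : ‖emb a‖ ^ 2 = (a.norm : ℝ) := by
  rw [← Complex.normSq_eq_norm_sq, normSq_emb]

theorem norm_nonneg' (a : Eis) : 0 ≤ a.norm := by
  have := Complex.normSq_nonneg (emb a)
  rw [normSq_emb] at this
  exact_mod_cast this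

theorem emb_injective : Function.Injective emb := by
  rw [injective_iff_map_eq_zero]
  intro a ha
  have h1 := emb_im a
  have h2 := emb_re a
  rw [ha] at h1 h2
  have h3 : (0 : ℝ) < √3 / 2 := by positivity
  have h4 : (a.im : ℝ) = 0 := by
    simp only [Complex.zero_im] at h1
    rcases mul_eq_zero.1 h1.symm with h | h
    · exact h
    · exact absurd h h3.ne'
  have h5 : (a.re : ℝ) = 0 := by
    simp only [Complex.zero_re] at h2
    rw [h4] at h2
    linarith
  ext
  · exact_mod_cast h5
  · exact_mod_cast h4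

theorem emb_star (a : Eis) : emb (star a) = conj (emb a) := by
  apply Complex.ext
  · rw [emb_re, Complex.conj_re, emb_re]
    simp only [QuadraticAlgebra.re_star, QuadraticAlgebra.im_star]
    push_cast
    ring
  · rw [emb_im, Complex.conj_im, emb_im]
    simp only [QuadraticAlgebra.im_star]
    push_cast
    ring

/-- Primary Eisenstein integers: `a ≡ 1 mod 3`. -/
def Primary (a : Eis) : Prop := (3 : Eis) ∣ a - 1

theorem primary_iff (a : Eis) : Primary a ↔ a.re % 3 = 1 ∧ a.im % 3 = 0 := by
  constructor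
  · rintro ⟨b, hb⟩
    have h1 := congrArg QuadraticAlgebra.re hb
    have h2 := congrArg QuadraticAlgebra.im hb
    simp only [QuadraticAlgebra.re_sub, QuadraticAlgebra.im_sub, QuadraticAlgebra.re_mul,
      QuadraticAlgebra.im_mul, QuadraticAlgebra.re_one, QuadraticAlgebra.im_one] at h1 h2
    have h3 : (3 : Eis).re = 3 := rfl
    have h4 : (3 : Eis).im = 0 := rfl
    rw [h3, h4] at h1 h2
    constructor <;> omega
  · rintro ⟨h1, h2⟩
    refine ⟨⟨a.re / 3, a.im / 3⟩, ?_⟩
    have h3 : (3 : Eis).re = 3 := rfl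
    have h4 : (3 : Eis).im = 0 := rfl
    ext
    · simp [h3, h4, QuadraticAlgebra.re_one]; omega
    · simp [h3, h4, QuadraticAlgebra.im_one]; omega

/-- The primary Eisenstein integers of norm `n`. -/
noncomputable def primSet (n : ℕ) : Finset Eis :=
  (((Finset.Icc (-(2 * n : ℤ)) (2 * n)) ×ˢ (Finset.Icc (-(2 * n : ℤ)) (2 * n))).image
    (fun p : ℤ × ℤ => (⟨p.1, p.2⟩ : Eis))).filter
      (fun a => a.norm = n ∧ a.re % 3 = 1 ∧ a.im % 3 = 0)

theorem mem_primSet (n : ℕ) (a : Eis) : a ∈ primSet n ↔ a.norm = n ∧ Primary a := by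
  rw [primary_iff, primSet, Finset.mem_filter, Finset.mem_image]
  constructor
  · rintro ⟨-, h⟩
    exact h
  · intro h
    refine ⟨⟨(a.re, a.im), ?_, rfl⟩, h⟩
    have h1 := h.1
    rw [norm_eq] at h1
    have h2 : (0 : ℤ) ≤ n := by positivity
    rw [Finset.mem_product, Finset.mem_Icc, Finset.mem_Icc]
    have h3 : a.re ^ 2 ≤ 2 * n := by nlinarith [sq_nonneg (a.re - 2 * a.im), sq_nonneg (a.re)]
    have h4 : a.im ^ 2 ≤ 2 * n := by nlinarith [sq_nonneg (2 * a.re - a.im), sq_nonneg (a.im)]
    refine ⟨⟨?_, ?_⟩, ⟨?_, ?_⟩⟩ <;> nlinarith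

/-- The coefficients of the `L`-function of `E`: the sum of the primary Eisenstein integers of
norm `n`. -/
noncomputable def psi (n : ℕ) : ℂ := ∑ a ∈ primSet n, emb a

/-- The function `λ` on the complex plane: an elliptic function for the lattice `ℤ[ω]`, with simple
poles at the half lattice points (the summand for `a = 0` is `0`). -/
noncomputable def lam (z : ℂ) : ℂ :=
  -3 / (2 * z) + ∑' a : Eis, 2 * z ^ 2 / (emb a * (z + emb a) * (2 * z + emb a))

/-- The point `z` is not a half lattice point. -/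
def Off (z : ℂ) : Prop := 2 * z ∉ Set.range emb

/-- The twisted Dirichlet coefficients. -/
noncomputable def coef {m : ℕ} (χ : DirichletCharacter ℂ m) (n : ℕ) : ℂ := χ n * psi n

end CM27
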