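import Pool.Agent.MP_ae0bd0_nt.CM.CDefs

set_option autoImplicit false

open ArithmeticFunction

namespace CM27

/-! ## [CM-F1] local series of arithmetic functions -/

section
variable {R : Type*} [CommRing R]

/-- The power series of the values at the powers of `p`. -/
noncomputable def loc (p : ℕ) (f : ArithmeticFunction R) : PowerSeries R :=
  PowerSeries.mk fun k => f (p ^ k)

theorem coeff_loc (p : ℕ) (f : ArithmeticFunction R) (k : ℕ) :
    (loc p f).coeff k = f (p ^ k) := PowerSeries.coeff_mk _ _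

theorem loc_one {p : ℕ} (hp : p.Prime) : loc p (1 : ArithmeticFunction R) = 1 := by
  ext k
  rw [coeff_loc, PowerSeries.coeff_one, ArithmeticFunction.one_apply]
  by_cases hk : k = 0
  · simp [hk]
  · have : p ^ k ≠ 1 := by
      intro h
      rcases Nat.pow_eq_one.1 h with h | h
      · exact hp.one_lt.ne' h
      · exact hk h
    rw [if_neg this, if_neg hk]

theorem loc_mul {p : ℕ} (hp : p.Prime) (f g : ArithmeticFunction R) :
    loc p (f * g) = loc p f * loc p g := by
  ext k
  rw [coeff_loc, PowerSeries.coeff_mul, ArithmeticFunction.mul_apply]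
  symm
  refine Finset.sum_bij (fun (x : ℕ × ℕ) _ => (p ^ x.1, p ^ x.2)) ?_ ?_ ?_ ?_
  · intro x hx
    rw [Finset.HasAntidiagonal.mem_antidiagonal] at hx
    rw [Nat.mem_divisorsAntidiagonal]
    refine ⟨?_, pow_ne_zero _ hp.ne_zero⟩
    rw [← pow_add, hx]
  · intro x _ y _ h
    rw [Prod.mk.injEq] at h
    exact Prod.ext (Nat.pow_right_injective hp.two_le h.1) (Nat.pow_right_injective hp.two_le h.2)
  · intro y hy
    rw [Nat.mem_divisorsAntidiagonal] at hy
    obtain ⟨i, hi, h1⟩ := (Nat.dvd_prime_pow hp).1 (Dvd.intro _ hy.1)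
    obtain ⟨j, hj, h2⟩ := (Nat.dvd_prime_pow hp).1 (Dvd.intro_left _ hy.1)
    refine ⟨(i, j), ?_, ?_⟩
    · rw [Finset.HasAntidiagonal.mem_antidiagonal]
      have h3 := hy.1
      rw [h1, h2, ← pow_add] at h3
      exact Nat.pow_right_injective hp.two_le h3
    · exact Prod.ext h1.symm h2.symm
  · intro x _
    rw [coeff_loc, coeff_loc]

theorem loc_prod {p : ℕ} (hp : p.Prime) {ι : Type*} (s : Finset ι) (f : ι → ArithmeticFunction R) :
    loc p (∏ i ∈ s, f i) = ∏ i ∈ s, loc p (f i) := by
  classical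
  induction s using Finset.induction_on with
  | empty => simp [loc_one hp]
  | insert a s ha ih => rw [Finset.prod_insert ha, Finset.prod_insert ha, loc_mul hp, ih]

theorem loc_ofPowerSeries_coprime {p q : ℕ} (hp : p.Prime) (hq : 1 < q) (hpq : p.Coprime q)
    (f : PowerSeries R) (hf : f.constantCoeff = 1) : loc p (ofPowerSeries q f) = 1 := by
  ext k
  rw [coeff_loc, PowerSeries.coeff_one]
  by_cases hk : k = 0
  · rw [hk, pow_zero, ofPowerSeries_apply_one, hf, if_pos rfl]
  · rw [if_neg hk, ofPowerSeries_apply hq, Function.extend_apply', Pi.zero_apply]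
    rintro ⟨j, hj⟩
    have h1 : (p ^ k).Coprime (q ^ j) := Nat.Coprime.pow _ _ hpq
    rw [hj] at h1
    have h2 : p ^ k = 1 := by simpa using h1
    rcases Nat.pow_eq_one.1 h2 with h | h
    · exact hp.one_lt.ne' h
    · exact hk h

theorem loc_ofPowerSeries_X {p : ℕ} (hp : p.Prime) {f : ℕ} (hf : 0 < f) :
    loc p (ofPowerSeries (p ^ f) (PowerSeries.X : PowerSeries R)) = PowerSeries.X ^ f := by
  have hq : 1 < p ^ f := Nat.one_lt_pow hf.ne' hp.one_lt
  ext k
  rw [coeff_loc, PowerSeries.coeff_X_pow]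
  by_cases hk : f ∣ k
  · obtain ⟨j, rfl⟩ := hk
    rw [pow_mul, ofPowerSeries_apply_pow hq, PowerSeries.coeff_X]
    by_cases hj : j = 1
    · simp [hj]
    · rw [if_neg hj, if_neg]
      intro h
      apply hj
      have : f * j = f * 1 := by rw [h, mul_one]
      exact Nat.eq_of_mul_eq_mul_left hf this
  · rw [if_neg (fun h : k = f => hk (h ▸ dvd_rfl)), ofPowerSeries_apply hq, Function.extend_apply',
      Pi.zero_apply]
    rintro ⟨j, hj⟩
    change (p ^ f) ^ j = p ^ k at hj
    rw [← pow_mul] at hj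
    have := Nat.pow_right_injective hp.two_le hj
    exact hk ⟨j, this.symm⟩

theorem loc_smul {p : ℕ} (c : R) (f : ArithmeticFunction R) : loc p (c • f) = c • loc p f := by
  ext k
  rw [coeff_loc, PowerSeries.coeff_smul, coeff_loc, ArithmeticFunction.smul_map, smul_eq_mul]

theorem loc_add {p : ℕ} (f g : ArithmeticFunction R) : loc p (f + g) = loc p f + loc p g := by
  ext k
  rw [coeff_loc, map_add, coeff_loc, coeff_loc, ArithmeticFunction.add_apply]

theorem loc_quad {p f : ℕ} (hp : p.Prime) (hf : 0 < f) (a b : R) :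
    loc p (ofPowerSeries (p ^ f)
      (1 - PowerSeries.C a * PowerSeries.X + PowerSeries.C b * PowerSeries.X ^ 2)) =
    1 - PowerSeries.C a * PowerSeries.X ^ f +
      PowerSeries.C b * (PowerSeries.X ^ f * PowerSeries.X ^ f) := by
  rw [sub_eq_add_neg, ← neg_mul, ← map_neg, ← PowerSeries.smul_eq_C_mul,
    ← PowerSeries.smul_eq_C_mul, map_add, map_add, map_one, map_smul, map_smul, map_pow,
    loc_add, loc_add, loc_smul, loc_smul, sq, loc_mul hp, loc_one hp, loc_ofPowerSeries_X hp hf,
    PowerSeries.smul_eq_C_mul, PowerSeries.smul_eq_C_mul, map_neg]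
  ring

end

end CM27
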