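import Pool.Agent.MP_ae0bd0_nt.CM.G1

set_option autoImplicit false

open scoped ComplexConjugate
open Filter Topology

namespace CM27

/-! ## [CM-G2a] second differences (file G2a.lean) -/

/-- A second difference is bounded by the second derivative. -/
theorem g2a_mvt {f f' f'' : ℝ → ℂ} {K : ℝ}
    (h1 : ∀ t ∈ Set.Icc (0 : ℝ) 2, HasDerivAt f (f' t) t)
    (h2 : ∀ t ∈ Set.Icc (0 : ℝ) 2, HasDerivAt f' (f'' t) t)
    (h3 : ∀ t ∈ Set.Icc (0 : ℝ) 2, ‖f'' t‖ ≤ K) :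
    ‖f 2 - 2 * f 1 + f 0‖ ≤ K := by
  have hb : ∀ t ∈ Set.Icc (0 : ℝ) 1, ‖f' (t + 1) - f' t‖ ≤ K := by
    intro t ht
    have := Convex.norm_image_sub_le_of_norm_hasDerivWithin_le (f := f') (f' := f'') (C := K)
      (s := Set.Icc (0 : ℝ) 2) (x := t) (y := t + 1)
      (fun x hx => (h2 x hx).hasDerivWithinAt) h3 (convex_Icc _ _)
      ⟨ht.1, by linarith [ht.2]⟩ ⟨by linarith [ht.1], by linarith [ht.2]⟩
    simpa using this
  have hg : ∀ t ∈ Set.Icc (0 : ℝ) 1, HasDerivWithinAt (fun t => f (t + 1) - f t)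
      (f' (t + 1) - f' t) (Set.Icc (0 : ℝ) 1) t := by
    intro t ht
    have e1 := h1 (t + 1) ⟨by linarith [ht.1], by linarith [ht.2]⟩
    have e2 := h1 t ⟨ht.1, by linarith [ht.2]⟩
    have e3 : HasDerivAt (fun t => f (t + 1)) (f' (t + 1)) t := e1.comp_add_const t 1
    exact (e3.sub e2).hasDerivWithinAt
  have := Convex.norm_image_sub_le_of_norm_hasDerivWithin_le (f := fun t => f (t + 1) - f t)
    (C := K) (s := Set.Icc (0 : ℝ) 1) (x := 0) (y := 1) hg hb (convex_Icc _ _)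
    ⟨le_rfl, zero_le_one⟩ ⟨zero_le_one, le_rfl⟩
  have e : f 2 - 2 * f 1 + f 0 = (f (1 + 1) - f 1) - (f (0 + 1) - f 0) := by
    norm_num
    ring
  rw [e]
  simpa using this

theorem g2a_core (r : ℝ) (hr : 0 < r) : ∃ C : ℝ, 0 ≤ C ∧ ∀ s x : ℂ, ‖s‖ ≤ r → ‖x‖ ≤ 1 / 4 →
    ‖gs s (1 + 2 * x) - 2 * gs s (1 + x) + 1‖ ≤ C * ‖x‖ ^ 2 := by
  refine ⟨(252 * r + 216 * r ^ 2) * Real.exp (r * 2), by positivity, fun s x hs hx => ?_⟩
  set N : ℝ := Complex.normSq x with hN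
  have hNx : N = ‖x‖ ^ 2 := by rw [hN, Complex.normSq_eq_norm_sq]
  have hx0 : 0 ≤ ‖x‖ := norm_nonneg x
  let q : ℝ → ℝ := fun t => 1 + 2 * t * x.re + t ^ 2 * N
  let q1 : ℝ → ℝ := fun t => 2 * x.re + 2 * t * N
  let e : ℝ → ℂ := fun t => Complex.exp (-s * (Real.log (q t) : ℝ))
  let vc : ℝ → ℂ := fun t => 1 + (t : ℂ) * conj x
  let p : ℝ → ℝ := fun t => q1 t / q t
  let p1 : ℝ → ℝ := fun t => (2 * N * q t - q1 t * q1 t) / (q t) ^ 2
  have hqn : ∀ t : ℝ, q t = ‖1 + (t : ℂ) * x‖ ^ 2 := by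
    intro t
    rw [← Complex.normSq_eq_norm_sq, Complex.normSq_apply]
    simp only [q, hN, Complex.normSq_apply, Complex.add_re, Complex.one_re, Complex.mul_re,
      Complex.ofReal_re, Complex.ofReal_im, Complex.add_im, Complex.one_im, Complex.mul_im]
    ring
  have hlow : ∀ t ∈ Set.Icc (0 : ℝ) 2, 1 / 2 ≤ ‖1 + (t : ℂ) * x‖ := by
    intro t ht
    have h1 : ‖(t : ℂ) * x‖ ≤ 1 / 2 := by
      rw [norm_mul, Complex.norm_real, Real.norm_eq_abs, abs_of_nonneg ht.1]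
      calc t * ‖x‖ ≤ 2 * (1 / 4) := mul_le_mul ht.2 hx hx0 (by norm_num)
        _ = 1 / 2 := by norm_num
    have h2 : ‖(1 : ℂ)‖ ≤ ‖1 + (t : ℂ) * x‖ + ‖(t : ℂ) * x‖ := by
      calc ‖(1 : ℂ)‖ = ‖(1 + (t : ℂ) * x) - (t : ℂ) * x‖ := by ring_nf
        _ ≤ _ := norm_sub_le _ _
    rw [norm_one] at h2
    linarith
  have hupp : ∀ t ∈ Set.Icc (0 : ℝ) 2, ‖1 + (t : ℂ) * x‖ ≤ 3 / 2 := by
    intro t ht
    have h1 : ‖(t : ℂ) * x‖ ≤ 1 / 2 := by
      rw [norm_mul, Complex.norm_real, Real.norm_eq_abs, abs_of_nonneg ht.1]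
      calc t * ‖x‖ ≤ 2 * (1 / 4) := mul_le_mul ht.2 hx hx0 (by norm_num)
        _ = 1 / 2 := by norm_num
    calc _ ≤ ‖(1 : ℂ)‖ + ‖(t : ℂ) * x‖ := norm_add_le _ _
      _ ≤ _ := by rw [norm_one]; linarith
  have hq4 : ∀ t ∈ Set.Icc (0 : ℝ) 2, 1 / 4 ≤ q t := by
    intro t ht
    rw [hqn]
    nlinarith [hlow t ht]
  have hq3 : ∀ t ∈ Set.Icc (0 : ℝ) 2, q t ≤ 9 / 4 := by
    intro t ht
    rw [hqn]
    nlinarith [hupp t ht, norm_nonneg (1 + (t : ℂ) * x)]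
  have hq0 : ∀ t ∈ Set.Icc (0 : ℝ) 2, 0 < q t := fun t ht => by linarith [hq4 t ht]
  have hqd : ∀ t : ℝ, HasDerivAt q (q1 t) t := by
    intro t
    have h1 : HasDerivAt (fun t : ℝ => 1 + 2 * t * x.re + t ^ 2 * N)
        (0 + 2 * 1 * x.re + (((2 : ℕ) : ℝ) * t ^ (2 - 1)) * N) t :=
      ((hasDerivAt_const t (1 : ℝ)).add (((hasDerivAt_id t).const_mul 2).mul_const x.re)).add
        ((hasDerivAt_pow 2 t).mul_const N)
    convert h1 using 1
    simp only [q1]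
    push_cast
    ring
  have hq1d : ∀ t : ℝ, HasDerivAt q1 (2 * N) t := by
    intro t
    have h1 : HasDerivAt (fun t : ℝ => 2 * x.re + 2 * t * N) (0 + 2 * 1 * N) t :=
      (hasDerivAt_const t (2 * x.re)).add (((hasDerivAt_id t).const_mul 2).mul_const N)
    convert h1 using 1
    ring
  have hpd : ∀ t ∈ Set.Icc (0 : ℝ) 2, HasDerivAt p (p1 t) t := by
    intro t ht
    exact (hq1d t).div (hqd t) (hq0 t ht).ne'
  have hed : ∀ t ∈ Set.Icc (0 : ℝ) 2, HasDerivAt e (e t * (-s * (p t : ℝ))) t := by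
    intro t ht
    have h1 : HasDerivAt (fun t => Real.log (q t)) (q1 t / q t) t := (hqd t).log (hq0 t ht).ne'
    have h2 : HasDerivAt (fun t => ((Real.log (q t) : ℝ) : ℂ)) ((q1 t / q t : ℝ) : ℂ) t :=
      h1.ofReal_comp
    exact (h2.const_mul (-s)).cexp
  have hvd : ∀ t : ℝ, HasDerivAt vc (conj x) t := by
    intro t
    have h1 : HasDerivAt (fun t : ℝ => (t : ℂ)) 1 t := (hasDerivAt_id t).ofReal_comp
    have h2 : HasDerivAt (fun t : ℝ => 1 + (t : ℂ) * conj x) (0 + 1 * conj x) t :=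
      (hasDerivAt_const t (1 : ℂ)).add (h1.mul_const (conj x))
    rw [zero_add, one_mul] at h2
    exact h2
  let f : ℝ → ℂ := fun t => vc t * e t
  let f1 : ℝ → ℂ := fun t => conj x * e t + vc t * (e t * (-s * (p t : ℝ)))
  let f2 : ℝ → ℂ := fun t => conj x * (e t * (-s * (p t : ℝ))) +
    (conj x * (e t * (-s * (p t : ℝ))) + vc t * ((e t * (-s * (p t : ℝ))) * (-s * (p t : ℝ)) +
      e t * (-s * (p1 t : ℝ))))
  have hf1 : ∀ t ∈ Set.Icc (0 : ℝ) 2, HasDerivAt f (f1 t) t := fun t ht =>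
    (hvd t).mul (hed t ht)
  have hf2 : ∀ t ∈ Set.Icc (0 : ℝ) 2, HasDerivAt f1 (f2 t) t := by
    intro t ht
    have h1 : HasDerivAt (fun t => -s * ((p t : ℝ) : ℂ)) (-s * (p1 t : ℝ)) t :=
      ((hpd t ht).ofReal_comp).const_mul (-s)
    exact ((hed t ht).const_mul (conj x)).add ((hvd t).mul ((hed t ht).mul h1))
  -- bounds
  have hqq : ∀ t ∈ Set.Icc (0 : ℝ) 2, |q1 t| ≤ 3 * ‖x‖ := by
    intro t ht
    have h1 : |x.re| ≤ ‖x‖ := Complex.abs_re_le_norm x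
    have h2 : t * N ≤ ‖x‖ / 2 := by
      rw [hNx]
      have : t * ‖x‖ ≤ 1 / 2 := by nlinarith [ht.1, ht.2]
      nlinarith
    have h3 : 0 ≤ t * N := mul_nonneg ht.1 (Complex.normSq_nonneg x)
    have h4 := abs_le.1 h1
    simp only [q1]
    rw [abs_le]
    constructor <;> nlinarith
  have hp : ∀ t ∈ Set.Icc (0 : ℝ) 2, |p t| ≤ 12 * ‖x‖ := by
    intro t ht
    simp only [p]
    rw [abs_div, abs_of_pos (hq0 t ht), div_le_iff₀ (hq0 t ht)]
    nlinarith [hqq t ht, hq4 t ht, mul_le_mul_of_nonneg_left (hq4 t ht) hx0]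
  have hp1 : ∀ t ∈ Set.Icc (0 : ℝ) 2, |p1 t| ≤ 152 * ‖x‖ ^ 2 := by
    intro t ht
    have e1 : p1 t = 2 * N / q t - p t * p t := by
      simp only [p1, p]
      have := (hq0 t ht).ne'
      field_simp
    rw [e1]
    have h1 : |2 * N / q t| ≤ 8 * ‖x‖ ^ 2 := by
      rw [abs_div, abs_of_pos (hq0 t ht), abs_of_nonneg (by rw [hNx]; positivity),
        div_le_iff₀ (hq0 t ht), hNx]
      nlinarith [mul_le_mul_of_nonneg_left (hq4 t ht) (sq_nonneg ‖x‖)]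
    have h2 : |p t * p t| ≤ 144 * ‖x‖ ^ 2 := by
      rw [abs_mul]
      nlinarith [hp t ht, abs_nonneg (p t)]
    calc |2 * N / q t - p t * p t| ≤ |2 * N / q t| + |p t * p t| := abs_sub _ _
      _ ≤ _ := by linarith
  have he : ∀ t ∈ Set.Icc (0 : ℝ) 2, ‖e t‖ ≤ Real.exp (r * 2) := by
    intro t ht
    simp only [e]
    rw [Complex.norm_exp]
    refine Real.exp_le_exp.2 ?_
    have h1 : (-s * ((Real.log (q t) : ℝ) : ℂ)).re ≤ ‖s‖ * |Real.log (q t)| := by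
      refine (Complex.re_le_norm _).trans ?_
      rw [norm_mul, norm_neg, Complex.norm_real, Real.norm_eq_abs]
    have h2 : |Real.log (q t)| ≤ 2 := by
      rw [abs_le]
      have ha : Real.log (q t) ≤ q t - 1 := Real.log_le_sub_one_of_pos (hq0 t ht)
      have hb : Real.log (1 / 4) ≤ Real.log (q t) := Real.log_le_log (by norm_num) (hq4 t ht)
      have hc : Real.log (1 / 4) = - (2 * Real.log 2) := by
        rw [one_div, Real.log_inv, show (4 : ℝ) = 2 ^ 2 by norm_num, Real.log_pow]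
        push_cast; ring
      have hd : Real.log 2 < 1 := by
        have := Real.log_two_lt_d9
        linarith
      constructor <;> linarith [hq3 t ht]
    calc _ ≤ ‖s‖ * |Real.log (q t)| := h1
      _ ≤ r * 2 := mul_le_mul hs h2 (abs_nonneg _) hr.le
  have hv : ∀ t ∈ Set.Icc (0 : ℝ) 2, ‖vc t‖ ≤ 3 / 2 := by
    intro t ht
    have e1 : vc t = conj (1 + (t : ℂ) * x) := by
      simp only [vc, map_add, map_mul, map_one, Complex.conj_ofReal]
    rw [e1, RCLike.norm_conj]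
    exact hupp t ht
  have hK : ∀ t ∈ Set.Icc (0 : ℝ) 2,
      ‖f2 t‖ ≤ (252 * r + 216 * r ^ 2) * Real.exp (r * 2) * ‖x‖ ^ 2 := by
    intro t ht
    set X := ‖x‖
    set EE := Real.exp (r * 2) with hEE
    have hE0 : 0 < EE := Real.exp_pos _
    have hsp : ‖-s * ((p t : ℝ) : ℂ)‖ ≤ r * (12 * X) := by
      rw [norm_mul, norm_neg, Complex.norm_real, Real.norm_eq_abs]
      exact mul_le_mul hs (hp t ht) (abs_nonneg _) hr.le
    have hsp1 : ‖-s * ((p1 t : ℝ) : ℂ)‖ ≤ r * (152 * X ^ 2) := by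
      rw [norm_mul, norm_neg, Complex.norm_real, Real.norm_eq_abs]
      exact mul_le_mul hs (hp1 t ht) (abs_nonneg _) hr.le
    have ha : ‖e t * (-s * ((p t : ℝ) : ℂ))‖ ≤ EE * (r * (12 * X)) := by
      rw [norm_mul]
      exact mul_le_mul (he t ht) hsp (norm_nonneg _) hE0.le
    have hb : ‖conj x * (e t * (-s * ((p t : ℝ) : ℂ)))‖ ≤ X * (EE * (r * (12 * X))) := by
      rw [norm_mul, RCLike.norm_conj]
      exact mul_le_mul_of_nonneg_left ha hx0
    have hc : ‖(e t * (-s * ((p t : ℝ) : ℂ))) * (-s * ((p t : ℝ) : ℂ)) +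
        e t * (-s * ((p1 t : ℝ) : ℂ))‖ ≤ EE * (r * (12 * X)) * (r * (12 * X)) +
          EE * (r * (152 * X ^ 2)) := by
      refine (norm_add_le _ _).trans (add_le_add ?_ ?_)
      · rw [norm_mul]
        exact mul_le_mul ha hsp (norm_nonneg _) (by positivity)
      · rw [norm_mul]
        exact mul_le_mul (he t ht) hsp1 (norm_nonneg _) hE0.le
    have hd : ‖vc t * ((e t * (-s * ((p t : ℝ) : ℂ))) * (-s * ((p t : ℝ) : ℂ)) +
        e t * (-s * ((p1 t : ℝ) : ℂ)))‖ ≤ 3 / 2 * (EE * (r * (12 * X)) * (r * (12 * X)) +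
          EE * (r * (152 * X ^ 2))) := by
      rw [norm_mul]
      exact mul_le_mul (hv t ht) hc (norm_nonneg _) (by norm_num)
    have hfin : ‖f2 t‖ ≤ X * (EE * (r * (12 * X))) + (X * (EE * (r * (12 * X))) +
        3 / 2 * (EE * (r * (12 * X)) * (r * (12 * X)) + EE * (r * (152 * X ^ 2)))) := by
      refine (norm_add_le _ _).trans (add_le_add hb ?_)
      exact (norm_add_le _ _).trans (add_le_add hb hd)
    refine hfin.trans (le_of_eq ?_)
    ring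
  have hmain := g2a_mvt hf1 hf2 hK
  have hgs : ∀ t ∈ Set.Icc (0 : ℝ) 2, gs s (1 + (t : ℂ) * x) = f t := by
    intro t ht
    have hpos : 0 < ‖1 + (t : ℂ) * x‖ := by linarith [hlow t ht]
    simp only [gs, f]
    congr 1
    · simp only [vc, map_add, map_mul, map_one, Complex.conj_ofReal]
    · simp only [e]
      rw [Complex.cpow_def_of_ne_zero (by exact_mod_cast hpos.ne'), hqn, Real.log_pow,
        ← Complex.ofReal_log hpos.le]
      congr 1
      push_cast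
      ring
  have h2' := hgs 2 ⟨by norm_num, le_rfl⟩
  have h1' := hgs 1 ⟨by norm_num, by norm_num⟩
  have h0' := hgs 0 ⟨le_rfl, by norm_num⟩
  have hone : gs s 1 = 1 := by simp [gs]
  simp only [Complex.ofReal_ofNat, Complex.ofReal_one, one_mul, Complex.ofReal_zero, zero_mul,
    add_zero] at h2' h1' h0'
  rw [h2', h1', ← hone, h0']
  exact hmain

/-- Second differences of `gs s` are of order `|a| ^ (- 2 Re s - 1)`. -/
theorem second_diff (z : ℂ) (r : ℝ) (hr : 0 < r) : ∃ C : ℝ, ∀ (s u : ℂ), ‖s‖ ≤ r →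
    2 * ‖z‖ + 2 * ‖z‖ ≤ ‖u‖ → 1 ≤ ‖u‖ → 0 ≤ s.re →
      ‖gs s (2 * z + u) - 2 * gs s (z + u) + gs s u‖ ≤ C * ‖u‖ ^ (-2 * s.re - 1) := by
  obtain ⟨C, hC, h⟩ := g2a_core r hr
  refine ⟨C * ‖z‖ ^ 2, fun s u hs hzu hu _ => ?_⟩
  have hu0 : 0 < ‖u‖ := by linarith
  have hune : u ≠ 0 := norm_pos_iff.1 hu0
  have hx : ‖z / u‖ ≤ 1 / 4 := by
    rw [norm_div, div_le_iff₀ hu0]
    linarith
  have key := h s (z / u) hs hx
  have e1 : gs s (2 * z + u) = gs s u * gs s (1 + 2 * (z / u)) := by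
    rw [← gs_mul]
    congr 1
    field_simp
    ring
  have e2 : gs s (z + u) = gs s u * gs s (1 + z / u) := by
    rw [← gs_mul]
    congr 1
    field_simp
    ring
  have e3 : gs s (2 * z + u) - 2 * gs s (z + u) + gs s u =
      gs s u * (gs s (1 + 2 * (z / u)) - 2 * gs s (1 + z / u) + 1) := by
    rw [e1, e2]; ring
  have e4 : ‖gs s u‖ = ‖u‖ * ‖u‖ ^ (-2 * s.re) := by
    unfold gs
    rw [norm_mul, RCLike.norm_conj, Complex.norm_cpow_eq_rpow_re_of_pos hu0]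
    congr 2
    simp
  rw [e3, norm_mul, e4]
  calc ‖u‖ * ‖u‖ ^ (-2 * s.re) * ‖gs s (1 + 2 * (z / u)) - 2 * gs s (1 + z / u) + 1‖
      ≤ ‖u‖ * ‖u‖ ^ (-2 * s.re) * (C * ‖z / u‖ ^ 2) :=
        mul_le_mul_of_nonneg_left key (by positivity)
    _ = C * ‖z‖ ^ 2 * ‖u‖ ^ (-2 * s.re - 1) := by
        rw [Real.rpow_sub_one hu0.ne', norm_div]
        field_simp

end CM27
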