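import Pool.Agent.MP_ae0bd0_nt.CM.H2

set_option autoImplicit false

open scoped ComplexConjugate
open Filter Topology

namespace CM27

/-! ## [CM-H3] the derivative of `lam` and its behaviour at the half lattice points
(file H3.lean; uses H2) -/

/-- the summand of `lam` -/
private noncomputable def h3_T (a : Eis) (z : ℂ) : ℂ :=
  2 * z ^ 2 / (emb a * (z + emb a) * (2 * z + emb a))

private theorem h3_one_le (a : Eis) (ha : a ≠ 0) : 1 ≤ ‖emb a‖ := by
  have h0 : emb a ≠ 0 := fun h => ha (emb_injective (by rw [h, map_zero]))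
  have h1 : 0 < ‖emb a‖ ^ 2 := by positivity
  rw [norm_emb_sq] at h1
  have h2 : (1 : ℤ) ≤ a.norm := by
    have : (0 : ℤ) < a.norm := by exact_mod_cast h1
    omega
  have h3 : (1 : ℝ) ≤ ‖emb a‖ ^ 2 := by
    rw [norm_emb_sq]; exact_mod_cast h2
  nlinarith [norm_nonneg (emb a)]

private theorem h3_finite (R : ℝ) : {a : Eis | ‖emb a‖ < R}.Finite := by
  obtain ⟨N, hN⟩ := exists_nat_gt (2 * R ^ 2)
  have hsub : {a : Eis | ‖emb a‖ < R} ⊆
      (fun p : ℤ × ℤ => (⟨p.1, p.2⟩ : Eis)) '' (((Finset.Icc (-(N : ℤ)) N) ×ˢ (Finset.Icc (-(N : ℤ)) N) : Finset (ℤ × ℤ)) : Set (ℤ × ℤ)) := by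
    intro a ha
    refine ⟨(a.re, a.im), ?_, rfl⟩
    have ha' : ‖emb a‖ < R := ha
    have hR : 0 < R := lt_of_le_of_lt (norm_nonneg _) ha'
    have h1 : ‖emb a‖ ^ 2 < R ^ 2 := by
      have := norm_nonneg (emb a)
      nlinarith
    rw [norm_emb_sq, norm_eq] at h1
    have h2 : 2 * (a.re ^ 2 - a.re * a.im + a.im ^ 2) < N := by
      have : (2 * ((a.re : ℝ) ^ 2 - a.re * a.im + a.im ^ 2)) < N := by
        push_cast at h1
        linarith
      exact_mod_cast this
    rw [Finset.mem_coe, Finset.mem_product, Finset.mem_Icc, Finset.mem_Icc]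
    have h3 : a.re ^ 2 ≤ 2 * (a.re ^ 2 - a.re * a.im + a.im ^ 2) := by
      nlinarith [sq_nonneg (a.re - a.im), sq_nonneg a.im]
    have h4 : a.im ^ 2 ≤ 2 * (a.re ^ 2 - a.re * a.im + a.im ^ 2) := by
      nlinarith [sq_nonneg (a.re - a.im), sq_nonneg a.re]
    refine ⟨⟨?_, ?_⟩, ⟨?_, ?_⟩⟩ <;> nlinarith
  exact (Finset.finite_toSet _).image _ |>.subset hsub

private theorem h3_rpow (x : ℝ) (hx : 0 < x) : x ^ (-(3 : ℝ)) = (x ^ 3)⁻¹ := by
  rw [Real.rpow_neg hx.le]
  congr 1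
  exact_mod_cast Real.rpow_natCast x 3

private theorem h3_hasDeriv (a : Eis) (z : ℂ) (ha : a ≠ 0) (h1 : z + emb a ≠ 0)
    (h2 : 2 * z + emb a ≠ 0) :
    HasDerivAt (h3_T a) (2 / (z + emb a) ^ 2 - 2 / (2 * z + emb a) ^ 2) z := by
  have h0 : emb a ≠ 0 := fun h => ha (emb_injective (by rw [h, map_zero]))
  have hev : h3_T a =ᶠ[𝓝 z] fun y => (2 * y + emb a)⁻¹ - 2 * (y + emb a)⁻¹ + (emb a)⁻¹ := by
    have e1 : ∀ᶠ y in 𝓝 z, y + emb a ≠ 0 :=
      (continuous_id.add continuous_const).continuousAt.eventually_ne h1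
    have e2 : ∀ᶠ y in 𝓝 z, 2 * y + emb a ≠ 0 :=
      ((continuous_const.mul continuous_id).add continuous_const).continuousAt.eventually_ne h2
    filter_upwards [e1, e2] with y hy1 hy2
    unfold h3_T
    field_simp
    ring
  refine HasDerivAt.congr_of_eventuallyEq ?_ hev
  have d1 : HasDerivAt (fun y : ℂ => (2 * y + emb a)⁻¹) (-(2 * 1) / (2 * z + emb a) ^ 2) z :=
    (((hasDerivAt_id z).const_mul 2).add_const (emb a)).inv h2
  have d2 : HasDerivAt (fun y : ℂ => (y + emb a)⁻¹) (-1 / (z + emb a) ^ 2) z :=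
    ((hasDerivAt_id z).add_const (emb a)).inv h1
  have d3 := (d1.sub (d2.const_mul 2)).add_const ((emb a)⁻¹)
  have d4 : -(2 * 1) / (2 * z + emb a) ^ 2 - 2 * (-1 / (z + emb a) ^ 2) =
      2 / (z + emb a) ^ 2 - 2 / (2 * z + emb a) ^ 2 := by ring
  rw [d4] at d3
  exact d3

/-- tails of the series -/
private theorem h3_tail (R : ℝ) (hR : 0 < R) : ∃ F : Finset Eis, ∃ S : ℂ → ℂ,
    (∀ a, a ∉ F → 4 * R ≤ ‖emb a‖) ∧ DifferentiableOn ℂ S (Metric.ball 0 R) ∧
    (∀ z ∈ Metric.ball (0 : ℂ) R, ∑' a, h3_T a z = ∑ a ∈ F, h3_T a z + S z) ∧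
    (∀ z ∈ Metric.ball (0 : ℂ) R, HasSum (fun a => if a ∈ F then 0 else
      (2 / (z + emb a) ^ 2 - 2 / (2 * z + emb a) ^ 2)) (deriv S z)) := by
  classical
  set F : Finset Eis := (h3_finite (4 * R)).toFinset with hF
  have hF1 : ∀ a, a ∉ F → 4 * R ≤ ‖emb a‖ := by
    intro a ha
    rw [hF, Set.Finite.mem_toFinset] at ha
    simpa using ha
  set g : Eis → ℂ → ℂ := fun a z => if a ∈ F then 0 else h3_T a z with hg
  have hne : ∀ a, a ∉ F → ∀ z ∈ Metric.ball (0 : ℂ) R, a ≠ 0 ∧ z + emb a ≠ 0 ∧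
      2 * z + emb a ≠ 0 ∧ 3 / 4 * ‖emb a‖ ≤ ‖z + emb a‖ ∧ 1 / 2 * ‖emb a‖ ≤ ‖2 * z + emb a‖ := by
    intro a ha z hz
    have h4 := hF1 a ha
    rw [mem_ball_zero_iff] at hz
    have hpos : 0 < ‖emb a‖ := by linarith
    have ha0 : a ≠ 0 := by
      rintro rfl
      rw [map_zero, norm_zero] at hpos
      exact lt_irrefl _ hpos
    have h5 : 3 / 4 * ‖emb a‖ ≤ ‖z + emb a‖ := by
      have := norm_sub_le (z + emb a) z
      rw [add_sub_cancel_left] at this
      linarith
    have h6 : 1 / 2 * ‖emb a‖ ≤ ‖2 * z + emb a‖ := by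
      have := norm_sub_le (2 * z + emb a) (2 * z)
      rw [add_sub_cancel_left, norm_mul, Complex.norm_ofNat] at this
      linarith
    refine ⟨ha0, ?_, ?_, h5, h6⟩
    · rw [← norm_pos_iff]; linarith
    · rw [← norm_pos_iff]; linarith
  have hbound : ∀ a, ∀ z ∈ Metric.ball (0 : ℂ) R, ‖g a z‖ ≤ 6 * R ^ 2 * ‖emb a‖ ^ (-(3 : ℝ)) := by
    intro a z hz
    by_cases ha : a ∈ F
    · simp only [hg, ha, if_true, norm_zero]
      positivity
    · obtain ⟨ha0, h1, h2, h5, h6⟩ := hne a ha z hz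
      have hpos : 0 < ‖emb a‖ := by linarith [hF1 a ha]
      simp only [hg, ha, if_false, h3_T]
      rw [norm_div, norm_mul, norm_mul, norm_mul, norm_pow, Complex.norm_ofNat, h3_rpow _ hpos,
        div_le_iff₀ (by positivity)]
      rw [mem_ball_zero_iff] at hz
      have h7 : ‖z‖ ^ 2 ≤ R ^ 2 := by
        have := norm_nonneg z
        nlinarith
      have h8 : 3 / 8 * ‖emb a‖ ^ 3 ≤ ‖emb a‖ * ‖z + emb a‖ * ‖2 * z + emb a‖ := by
        have h9 : (3 / 4 * ‖emb a‖) * (1 / 2 * ‖emb a‖) ≤ ‖z + emb a‖ * ‖2 * z + emb a‖ :=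
          mul_le_mul h5 h6 (by positivity) (by positivity)
        nlinarith
      have h10 : 6 * R ^ 2 * (‖emb a‖ ^ 3)⁻¹ * (3 / 8 * ‖emb a‖ ^ 3) ≤
          6 * R ^ 2 * (‖emb a‖ ^ 3)⁻¹ * (‖emb a‖ * ‖z + emb a‖ * ‖2 * z + emb a‖) :=
        mul_le_mul_of_nonneg_left h8 (by positivity)
      have h11 : 6 * R ^ 2 * (‖emb a‖ ^ 3)⁻¹ * (3 / 8 * ‖emb a‖ ^ 3) = 9 / 4 * R ^ 2 := by
        field_simp
        ring
      rw [h11] at h10
      nlinarith [sq_nonneg R]
  have hsum : Summable fun a : Eis => 6 * R ^ 2 * ‖emb a‖ ^ (-(3 : ℝ)) :=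
    (summable_norm 3 (by norm_num)).mul_left _
  have hdg : ∀ a, ∀ z ∈ Metric.ball (0 : ℂ) R, HasDerivAt (g a) (if a ∈ F then 0 else
      (2 / (z + emb a) ^ 2 - 2 / (2 * z + emb a) ^ 2)) z := by
    intro a z hz
    by_cases ha : a ∈ F
    · simp only [hg, ha, if_true]
      exact hasDerivAt_const z 0
    · obtain ⟨ha0, h1, h2, -, -⟩ := hne a ha z hz
      simp only [hg, ha, if_false]
      exact h3_hasDeriv a z ha0 h1 h2
  have hdo : ∀ a, DifferentiableOn ℂ (g a) (Metric.ball 0 R) := fun a z hz =>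
    (hdg a z hz).differentiableAt.differentiableWithinAt
  refine ⟨F, fun z => ∑' a, g a z, hF1, ?_, ?_, ?_⟩
  · exact Complex.differentiableOn_tsum_of_summable_norm hsum hdo Metric.isOpen_ball hbound
  · intro z hz
    have hs : Summable fun a => g a z :=
      Summable.of_norm_bounded hsum (fun a => hbound a z hz)
    have hT : (fun a => h3_T a z) = fun a => (if a ∈ F then h3_T a z else 0) + g a z := by
      funext a
      by_cases ha : a ∈ F
      · simp [hg, ha]
      · simp [hg, ha]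
    have hs2 : Summable fun a => (if a ∈ F then h3_T a z else 0) :=
      summable_of_ne_finset_zero (s := F) (fun a ha => by simp [ha])
    have hs3 : ∑' a, (if a ∈ F then h3_T a z else 0) = ∑ a ∈ F, h3_T a z := by
      rw [tsum_eq_sum (s := F) (fun a ha => by simp [ha])]
      exact Finset.sum_congr rfl (fun a ha => by simp [ha])
    have hs4 : ∑' a, h3_T a z = ∑' a, ((if a ∈ F then h3_T a z else 0) + g a z) :=
      congrArg tsum hT
    rw [hs4, hs2.tsum_add hs, hs3]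
  · intro z hz
    have := Complex.hasSum_deriv_of_summable_norm hsum hdo Metric.isOpen_ball hbound hz
    have h3 : (fun a => deriv (g a) z) = fun a => (if a ∈ F then 0 else
        (2 / (z + emb a) ^ 2 - 2 / (2 * z + emb a) ^ 2)) := by
      funext a
      exact (hdg a z hz).deriv
    rw [h3] at this
    exact this

private noncomputable def h3_equiv : Eis ≃ L0.lattice :=
  Equiv.ofBijective (fun a => ⟨-emb a, (mem_L0 _).2 ⟨-a, by rw [map_neg]⟩⟩) (by
    constructor
    · intro a b hab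
      have h := congrArg Subtype.val hab
      simp only [neg_inj] at h
      exact emb_injective h
    · rintro ⟨x, hx⟩
      obtain ⟨a, ha⟩ := (mem_L0 x).1 hx
      exact ⟨-a, Subtype.ext (by simp [ha])⟩)

private theorem h3_equiv_apply (a : Eis) : ((h3_equiv a : L0.lattice) : ℂ) = -emb a := rfl

private theorem h3_wp (z : ℂ) : HasSum (fun a : Eis => (2 / (z + emb a) ^ 2 - 2 / (2 * z + emb a) ^ 2))
    (2 * L0.weierstrassP z - 2 * L0.weierstrassP (2 * z)) := by
  have h1 := (h3_equiv.hasSum_iff).2 (L0.hasSum_weierstrassP z)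
  have h2 := (h3_equiv.hasSum_iff).2 (L0.hasSum_weierstrassP (2 * z))
  have h3 := (h1.mul_left 2).sub (h2.mul_left 2)
  have h4 : (fun a : Eis => (2 / (z + emb a) ^ 2 - 2 / (2 * z + emb a) ^ 2)) =
      fun a => 2 * ((fun l : L0.lattice => 1 / (z - l) ^ 2 - 1 / (l : ℂ) ^ 2) ∘ h3_equiv) a -
        2 * ((fun l : L0.lattice => 1 / (2 * z - l) ^ 2 - 1 / (l : ℂ) ^ 2) ∘ h3_equiv) a := by
    funext a
    simp only [Function.comp_apply, h3_equiv_apply, sub_neg_eq_add]
    ring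
  rw [h4]
  exact h3

theorem lam_deriv (z : ℂ) (hz : Off z) :
    HasDerivAt lam (2 * L0.weierstrassP z - 2 * L0.weierstrassP (2 * z)) z := by
  classical
  have hz2 : ∀ a, 2 * z + emb a ≠ 0 := by
    intro a h
    exact hz ⟨-a, by rw [map_neg]; linear_combination -h⟩
  have hz1 : ∀ a, z + emb a ≠ 0 := by
    intro a h
    refine hz2 (2 * a) ?_
    rw [map_mul]
    simp only [map_ofNat]
    linear_combination 2 * h
  have hz0 : z ≠ 0 := by
    have := hz1 0
    rwa [map_zero, add_zero] at this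
  obtain ⟨F, S, hF, hS, hsum, hder⟩ := h3_tail (‖z‖ + 1) (by positivity)
  have hzb : z ∈ Metric.ball (0 : ℂ) (‖z‖ + 1) := by
    rw [mem_ball_zero_iff]; linarith
  have h0F : (0 : Eis) ∈ F := by
    by_contra h
    have := hF 0 h
    rw [map_zero, norm_zero] at this
    have := norm_nonneg z
    linarith
  have hev : lam =ᶠ[𝓝 z] fun y => -3 / (2 * y) + (∑ a ∈ F, h3_T a y + S y) := by
    filter_upwards [Metric.isOpen_ball.mem_nhds hzb] with y hy
    rw [← hsum y hy]
    rfl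
  refine HasDerivAt.congr_of_eventuallyEq ?_ hev
  have hS' : HasDerivAt S (deriv S z) z :=
    ((hS z hzb).differentiableAt (Metric.isOpen_ball.mem_nhds hzb)).hasDerivAt
  have e1 : HasDerivAt (fun y : ℂ => -3 / (2 * y)) (3 / (2 * z ^ 2)) z := by
    have q1 : HasDerivAt (fun y : ℂ => (2 * y)⁻¹) (-(2 * 1) / (2 * z) ^ 2) z :=
      ((hasDerivAt_id z).const_mul 2).inv (by simpa using hz0)
    have q2 := q1.const_mul (-3)
    have q3 : -3 * (-(2 * 1) / (2 * z) ^ 2) = 3 / (2 * z ^ 2) := by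
      field_simp
    rw [q3] at q2
    exact q2
  have e2 : HasDerivAt (fun y => ∑ a ∈ F, h3_T a y)
      (∑ a ∈ F, if a = 0 then 0 else (2 / (z + emb a) ^ 2 - 2 / (2 * z + emb a) ^ 2)) z := by
    refine HasDerivAt.fun_sum (fun a ha => ?_)
    by_cases h0 : a = 0
    · subst h0
      rw [if_pos rfl]
      have : h3_T 0 = fun _ => 0 := by
        funext y
        simp [h3_T]
      rw [this]
      exact hasDerivAt_const z 0
    · rw [if_neg h0]
      exact h3_hasDeriv a z h0 (hz1 a) (hz2 a)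
  have e3 := e1.add (e2.add hS')
  have hval : 3 / (2 * z ^ 2) + ((∑ a ∈ F, if a = 0 then 0 else
      (2 / (z + emb a) ^ 2 - 2 / (2 * z + emb a) ^ 2)) + deriv S z) =
      2 * L0.weierstrassP z - 2 * L0.weierstrassP (2 * z) := by
    have k1 := h3_wp z
    have k2 : HasSum (fun a => if a ∈ F then (2 / (z + emb a) ^ 2 - 2 / (2 * z + emb a) ^ 2) else 0)
        (∑ a ∈ F, (2 / (z + emb a) ^ 2 - 2 / (2 * z + emb a) ^ 2)) := by
      have q : HasSum (fun a => if a ∈ F then (2 / (z + emb a) ^ 2 - 2 / (2 * z + emb a) ^ 2) else 0)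
          (∑ a ∈ F, if a ∈ F then (2 / (z + emb a) ^ 2 - 2 / (2 * z + emb a) ^ 2) else 0) :=
        hasSum_sum_of_ne_finset_zero (fun a ha => by simp [ha])
      have q' : (∑ a ∈ F, if a ∈ F then (2 / (z + emb a) ^ 2 - 2 / (2 * z + emb a) ^ 2) else 0) =
          ∑ a ∈ F, (2 / (z + emb a) ^ 2 - 2 / (2 * z + emb a) ^ 2) :=
        Finset.sum_congr rfl (fun a ha => by simp [ha])
      rw [q'] at q
      exact q
    have k3 := k2.add (hder z hzb)
    have k4 : (fun a => (if a ∈ F then (2 / (z + emb a) ^ 2 - 2 / (2 * z + emb a) ^ 2) else 0) +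
        (if a ∈ F then 0 else (2 / (z + emb a) ^ 2 - 2 / (2 * z + emb a) ^ 2))) =
        fun a : Eis => (2 / (z + emb a) ^ 2 - 2 / (2 * z + emb a) ^ 2) := by
      funext a
      by_cases ha : a ∈ F <;> simp [ha]
    rw [k4] at k3
    have k5 := k3.unique k1
    rw [← k5, ← add_assoc]
    congr 1
    rw [← Finset.add_sum_erase F _ h0F, ← Finset.add_sum_erase F (fun a => (2 / (z + emb a) ^ 2 - 2 / (2 * z + emb a) ^ 2)) h0F]
    rw [if_pos rfl, zero_add]
    congr 1
    · rw [map_zero, add_zero, add_zero]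
      field_simp
      norm_num
    · refine Finset.sum_congr rfl (fun a ha => ?_)
      rw [if_neg (Finset.ne_of_mem_erase ha)]
  rw [← hval]
  exact e3

/-- `lam z + 3/(2 z)` is `z ^ 5` times an analytic function near `0` (use G7). -/
theorem lam_near_zero : ∃ h : ℂ → ℂ, AnalyticAt ℂ h 0 ∧
    ∀ᶠ z in 𝓝[≠] (0 : ℂ), lam z = -3 / (2 * z) + z ^ 5 * h z := by
  classical
  set g : Eis → ℂ → ℂ := fun a z => if a = 0 then 0 else
    (32 / (64 * z ^ 6 - (emb a) ^ 6) - 2 / (z ^ 6 - (emb a) ^ 6)) with hg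
  have hB : ∀ z ∈ Metric.ball (0 : ℂ) (1 / 4), ‖z‖ ^ 6 ≤ 1 / 4096 := by
    intro z hz
    rw [mem_ball_zero_iff] at hz
    calc ‖z‖ ^ 6 ≤ (1 / 4 : ℝ) ^ 6 := pow_le_pow_left₀ (norm_nonneg z) hz.le 6
      _ = 1 / 4096 := by norm_num
  have hlow : ∀ a, a ≠ 0 → ∀ z ∈ Metric.ball (0 : ℂ) (1 / 4),
      ‖emb a‖ ^ 6 / 2 ≤ ‖64 * z ^ 6 - (emb a) ^ 6‖ ∧ ‖emb a‖ ^ 6 / 2 ≤ ‖z ^ 6 - (emb a) ^ 6‖ := by
    intro a ha z hz
    have h1 := h3_one_le a ha
    have h2 : (1 : ℝ) ≤ ‖emb a‖ ^ 6 := one_le_pow₀ h1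
    have h3 := hB z hz
    constructor
    · have := norm_sub_norm_le ((emb a) ^ 6) (64 * z ^ 6)
      rw [norm_sub_rev, norm_mul, norm_pow, norm_pow, Complex.norm_ofNat] at this
      linarith
    · have := norm_sub_norm_le ((emb a) ^ 6) (z ^ 6)
      rw [norm_sub_rev, norm_pow, norm_pow] at this
      linarith
  have hpos6 : ∀ a, a ≠ 0 → 0 < ‖emb a‖ ^ 6 := fun a ha => by
    have h1 := h3_one_le a ha
    positivity
  have hne : ∀ a, a ≠ 0 → ∀ z ∈ Metric.ball (0 : ℂ) (1 / 4),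
      64 * z ^ 6 - (emb a) ^ 6 ≠ 0 ∧ z ^ 6 - (emb a) ^ 6 ≠ 0 := by
    intro a ha z hz
    obtain ⟨h1, h2⟩ := hlow a ha z hz
    have h3 := hpos6 a ha
    constructor
    · rw [← norm_pos_iff]; linarith
    · rw [← norm_pos_iff]; linarith
  have hbound : ∀ a, ∀ z ∈ Metric.ball (0 : ℂ) (1 / 4), ‖g a z‖ ≤ 68 * ‖emb a‖ ^ (-(6 : ℝ)) := by
    intro a z hz
    by_cases ha : a = 0
    · simp only [hg, ha, if_true, norm_zero]
      positivity
    · simp only [hg, ha, if_false]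
      obtain ⟨h1, h2⟩ := hlow a ha z hz
      have h3 := hpos6 a ha
      have h4 : 0 < ‖emb a‖ := by linarith [h3_one_le a ha]
      have h5 : ‖emb a‖ ^ (-(6 : ℝ)) = (‖emb a‖ ^ 6)⁻¹ := by
        rw [Real.rpow_neg h4.le]
        congr 1
        exact_mod_cast Real.rpow_natCast ‖emb a‖ 6
      rw [h5]
      refine (norm_sub_le _ _).trans ?_
      rw [norm_div, norm_div, Complex.norm_ofNat, Complex.norm_ofNat]
      have h6 : (32 : ℝ) / ‖64 * z ^ 6 - (emb a) ^ 6‖ ≤ 32 / (‖emb a‖ ^ 6 / 2) :=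
        div_le_div_of_nonneg_left (by norm_num) (by positivity) h1
      have h7 : (2 : ℝ) / ‖z ^ 6 - (emb a) ^ 6‖ ≤ 2 / (‖emb a‖ ^ 6 / 2) :=
        div_le_div_of_nonneg_left (by norm_num) (by positivity) h2
      have h8 : (32 : ℝ) / (‖emb a‖ ^ 6 / 2) + 2 / (‖emb a‖ ^ 6 / 2) = 68 * (‖emb a‖ ^ 6)⁻¹ := by
        field_simp
        norm_num
      linarith
  have hsum : Summable fun a : Eis => 68 * ‖emb a‖ ^ (-(6 : ℝ)) :=
    (summable_norm 6 (by norm_num)).mul_left _
  have hdo : ∀ a, DifferentiableOn ℂ (g a) (Metric.ball 0 (1 / 4)) := by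
    intro a
    by_cases ha : a = 0
    · simp only [hg, ha, if_true]
      exact differentiableOn_const _
    · simp only [hg, ha, if_false]
      intro z hz
      obtain ⟨h1, h2⟩ := hne a ha z hz
      refine DifferentiableAt.differentiableWithinAt ?_
      fun_prop (disch := assumption)
  refine ⟨fun z => ∑' a, g a z, ?_, ?_⟩
  · exact (Complex.differentiableOn_tsum_of_summable_norm hsum hdo Metric.isOpen_ball
      hbound).analyticAt (Metric.isOpen_ball.mem_nhds (by simp))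
  · have hb : ∀ᶠ z in 𝓝[≠] (0 : ℂ), z ∈ Metric.ball (0 : ℂ) (1 / 4) :=
      nhdsWithin_le_nhds (Metric.isOpen_ball.mem_nhds (by simp))
    have hz0 : ∀ᶠ z in 𝓝[≠] (0 : ℂ), z ≠ 0 := eventually_mem_nhdsWithin
    filter_upwards [hb, hz0] with z hz hz0
    have hoff : Off z := by
      rintro ⟨a, ha⟩
      by_cases h0 : a = 0
      · rw [h0, map_zero] at ha
        exact hz0 (by simpa using ha.symm)
      · have h1 := h3_one_le a h0
        rw [ha, norm_mul, Complex.norm_ofNat] at h1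
        rw [mem_ball_zero_iff] at hz
        linarith
    rw [lam_six z hoff]
    have hT : (fun a : Eis => (32 / (64 * z ^ 6 - (emb a) ^ 6) - 2 / (z ^ 6 - (emb a) ^ 6))) =
        fun a => (if a = 0 then (32 / (64 * z ^ 6 - (emb a) ^ 6) - 2 / (z ^ 6 - (emb a) ^ 6)) else 0) + g a z := by
      funext a
      by_cases ha : a = 0 <;> simp [hg, ha]
    have hs : Summable fun a => g a z := Summable.of_norm_bounded hsum (fun a => hbound a z hz)
    have hs2 : Summable fun a : Eis => (if a = 0 then (32 / (64 * z ^ 6 - (emb a) ^ 6) - 2 / (z ^ 6 - (emb a) ^ 6)) else 0) :=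
      summable_of_ne_finset_zero (s := {0}) (fun a ha => by
        rw [Finset.mem_singleton] at ha
        simp [ha])
    have hs3 : ∑' a : Eis, (if a = 0 then (32 / (64 * z ^ 6 - (emb a) ^ 6) - 2 / (z ^ 6 - (emb a) ^ 6)) else 0) =
        32 / (64 * z ^ 6) - 2 / z ^ 6 := by
      rw [tsum_eq_single 0 (fun a ha => by simp [ha])]
      simp
    rw [hT, hs2.tsum_add hs, hs3, mul_add]
    congr 1
    field_simp
    ring

/-- simple poles at the half lattice points -/
theorem lam_near_half (t : ℂ) (ht : t ∉ Set.range emb) (h2 : 2 * t ∈ Set.range emb) :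
    ∃ h : ℂ → ℂ, AnalyticAt ℂ h t ∧ ∀ᶠ z in 𝓝[≠] t, lam z = 1 / (2 * (z - t)) + h z := by
  classical
  obtain ⟨b, hb⟩ := h2
  have ht0 : t ≠ 0 := by
    rintro rfl
    exact ht ⟨0, map_zero _⟩
  have hb0 : b ≠ 0 := by
    rintro rfl
    rw [map_zero] at hb
    exact ht0 (by simpa using hb.symm)
  have h1 : ∀ a, t + emb a ≠ 0 := by
    intro a h
    exact ht ⟨-a, by rw [map_neg]; linear_combination -h⟩
  have h2 : ∀ a, a ≠ -b → 2 * t + emb a ≠ 0 := by
    intro a ha h
    rw [← hb, ← map_add] at h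
    have h3 : b + a = 0 := emb_injective (by rw [h, map_zero])
    exact ha (by rw [← neg_eq_of_add_eq_zero_right h3])
  obtain ⟨F, S, hF, hS, hsum, -⟩ := h3_tail (‖t‖ + 1) (by positivity)
  have htb : t ∈ Metric.ball (0 : ℂ) (‖t‖ + 1) := by
    rw [mem_ball_zero_iff]; linarith
  have hbF : -b ∈ F := by
    by_contra h
    have h3 := hF _ h
    rw [map_neg, norm_neg, hb, norm_mul, Complex.norm_ofNat] at h3
    have := norm_nonneg t
    linarith
  refine ⟨fun z => -3 / (2 * z) + ((- 2 / (z + emb (-b)) + (emb (-b))⁻¹) + ∑ a ∈ F.erase (-b), h3_T a z + S z), ?_, ?_⟩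
  · have hS' : AnalyticAt ℂ S t := hS.analyticAt (Metric.isOpen_ball.mem_nhds htb)
    have a1 : AnalyticAt ℂ (fun z : ℂ => -3 / (2 * z)) t := by
      refine analyticAt_const.div (analyticAt_const.mul analyticAt_id) ?_
      simpa using ht0
    have a2 : AnalyticAt ℂ (fun z : ℂ => -2 / (z + emb (-b)) + (emb (-b))⁻¹) t := by
      refine (analyticAt_const.div (analyticAt_id.add analyticAt_const) ?_).add analyticAt_const
      exact h1 _
    have a3 : AnalyticAt ℂ (fun z : ℂ => ∑ a ∈ F.erase (-b), h3_T a z) t := by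
      refine Finset.analyticAt_fun_sum _ (fun a ha => ?_)
      by_cases h0 : a = 0
      · have : h3_T a = fun _ => 0 := by
          funext y
          simp [h3_T, h0]
        rw [this]
        exact analyticAt_const
      · unfold h3_T
        have hea : emb a ≠ 0 := fun h => h0 (emb_injective (by rw [h, map_zero]))
        refine (analyticAt_const.mul (analyticAt_id.pow 2)).div ((analyticAt_const.mul
          (analyticAt_id.add analyticAt_const)).mul ((analyticAt_const.mul analyticAt_id).add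
          analyticAt_const)) ?_
        exact mul_ne_zero (mul_ne_zero hea (h1 a)) (h2 a (Finset.ne_of_mem_erase ha))
    exact a1.add ((a2.add a3).add hS')
  · have c1 : ∀ᶠ z in 𝓝[≠] t, z ∈ Metric.ball (0 : ℂ) (‖t‖ + 1) :=
      nhdsWithin_le_nhds (Metric.isOpen_ball.mem_nhds htb)
    have c2 : ∀ᶠ z in 𝓝[≠] t, z ≠ t := eventually_mem_nhdsWithin
    have c3 : ∀ᶠ z in 𝓝[≠] t, z + emb (-b) ≠ 0 :=
      nhdsWithin_le_nhds ((continuous_id.add continuous_const).continuousAt.eventually_ne (h1 _))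
    filter_upwards [c1, c2, c3] with z hz hzt hz1
    have hl : lam z = -3 / (2 * z) + ∑' a, h3_T a z := rfl
    rw [hl, hsum z hz, ← Finset.add_sum_erase F _ hbF]
    have heb : emb (-b) ≠ 0 := fun h => hb0 (by
      have := emb_injective (h.trans (map_zero _).symm)
      simpa using this)
    have hz2 : 2 * z + emb (-b) ≠ 0 := by
      rw [map_neg, hb]
      intro h
      exact hzt (by linear_combination h / 2)
    have hT : h3_T (-b) z = 1 / (2 * (z - t)) - 2 / (z + emb (-b)) + (emb (-b))⁻¹ := by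
      have h5 : 2 * (z - t) = 2 * z + emb (-b) := by
        rw [map_neg, hb]; ring
      rw [h5]
      unfold h3_T
      field_simp
      ring
    rw [hT]
    ring

end CM27
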