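import Pool.Agent.MP_ae0bd0_nt.CM.R1

set_option autoImplicit false

open Polynomial NumberField IsDedekindDomain
open scoped Classical

namespace CM27

/-! ## [CM-R2a] the descent map is a homomorphism (file R2a.lean) -/

theorem R2a_prod {K : Type} [Field K] (x₁ x₂ x₃ l n : K)
    (h1 : x₁ + x₂ + x₃ = l ^ 2) (h2 : x₁ * x₂ + x₁ * x₃ + x₂ * x₃ = -(2 * n + 1) * l)
    (h3 : x₁ * x₂ * x₃ = n ^ 2 + n) :
    (trip 1 0 x₁ : R K) * trip 1 0 x₂ * trip 1 0 x₃ = (trip (2 * n + 1) (-l) 0) ^ 2 := by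
  have hp := pr_pow K
  have g1 := congrArg (algebraMap K (R K)) h1
  have g2 := congrArg (algebraMap K (R K)) h2
  have g3 := congrArg (algebraMap K (R K)) h3
  simp only [map_add, map_mul, map_neg, map_pow, map_one, map_ofNat] at g1 g2 g3
  simp only [trip, map_add, map_mul, map_neg, map_one, map_ofNat, map_zero, zero_mul, add_zero]
  generalize algebraMap K (R K) x₁ = a at *
  generalize algebraMap K (R K) x₂ = b at *
  generalize algebraMap K (R K) x₃ = c at *
  generalize algebraMap K (R K) l = L at *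
  generalize algebraMap K (R K) n = N at *
  generalize pr K = p at *
  linear_combination (p ^ 2) * g1 + 2 * p * g2 + 4 * g3 +
    ((a * b + a * c + b * c) * p + a * b * c * (p ^ 3 + 2)) * hp

theorem zOf_add {K : Type} [Field K] [CharZero K] [Fact (Irreducible (cubPoly K))]
    (P Q : (E K).toAffine.Point) : ∃ u : R K, u ≠ 0 ∧ zOf (P + Q) = zOf P * zOf Q * u ^ 2 := by
  rcases P with _ | ⟨x₁, y₁, h₁⟩
  · refine ⟨1, one_ne_zero, ?_⟩
    have e : (WeierstrassCurve.Affine.Point.zero : (E K).toAffine.Point) + Q = Q := zero_add Q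
    rw [e]; simp [zOf]
  rcases Q with _ | ⟨x₂, y₂, h₂⟩
  · refine ⟨1, one_ne_zero, ?_⟩
    have e : WeierstrassCurve.Affine.Point.some x₁ y₁ h₁ +
      (WeierstrassCurve.Affine.Point.zero : (E K).toAffine.Point) =
        WeierstrassCurve.Affine.Point.some x₁ y₁ h₁ := add_zero _
    rw [e]; simp [zOf]
  have z1 := zOf_ne_zero (WeierstrassCurve.Affine.Point.some x₁ y₁ h₁)
  have z2 := zOf_ne_zero (WeierstrassCurve.Affine.Point.some x₂ y₂ h₂)
  by_cases hxy : x₁ = x₂ ∧ y₁ = (E K).toAffine.negY x₂ y₂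
  · rw [WeierstrassCurve.Affine.Point.add_of_Y_eq hxy.1 hxy.2]
    have e : zOf (WeierstrassCurve.Affine.Point.some x₂ y₂ h₂) =
        zOf (WeierstrassCurve.Affine.Point.some x₁ y₁ h₁) := by
      simp [zOf, hxy.1]
    have e0 : zOf (0 : (E K).toAffine.Point) = 1 := rfl
    rw [e, e0]
    refine ⟨(zOf (WeierstrassCurve.Affine.Point.some x₁ y₁ h₁))⁻¹, inv_ne_zero z1, ?_⟩
    field_simp
  · have H := WeierstrassCurve.Affine.addPolynomial_slope h₁.1 h₂.1 hxy
    rw [WeierstrassCurve.Affine.addPolynomial_eq, neg_inj, Cubic.prod_X_sub_C_eq,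
      Cubic.toPoly_injective, Cubic.ext_iff] at H
    rw [WeierstrassCurve.Affine.Point.add_some hxy]
    have z3 := zOf_ne_zero (WeierstrassCurve.Affine.Point.some _ _
      (WeierstrassCurve.Affine.nonsingular_add h₁ h₂ hxy))
    simp only [zOf] at z1 z2 z3 ⊢
    generalize (E K).toAffine.slope x₁ x₂ y₁ y₂ = l at H z3 ⊢
    obtain ⟨-, hb, hc, hd⟩ := H
    have a1 : (E K).toAffine.a₁ = 0 := rfl
    have a2 : (E K).toAffine.a₂ = 0 := rfl
    have a3 : (E K).toAffine.a₃ = 1 := rfl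
    have a4 : (E K).toAffine.a₄ = 0 := rfl
    have a6 : (E K).toAffine.a₆ = 0 := rfl
    generalize (E K).toAffine.addX x₁ x₂ l = x₃ at hb hc hd z3 ⊢
    simp only [a1, a2, a3, a4, a6] at hb hc hd
    have P1 : x₁ + x₂ + x₃ = l ^ 2 := by linear_combination hb
    have P2 : x₁ * x₂ + x₁ * x₃ + x₂ * x₃ = -(2 * (y₁ - l * x₁) + 1) * l := by
      linear_combination -hc
    have P3 : x₁ * x₂ * x₃ = (y₁ - l * x₁) ^ 2 + (y₁ - l * x₁) := by
      linear_combination hd
    have hp := R2a_prod x₁ x₂ x₃ l (y₁ - l * x₁) P1 P2 P3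
    set s : R K := trip (2 * (y₁ - l * x₁) + 1) (-l) 0 with hs
    have hs0 : s ≠ 0 := by
      intro h0
      rw [h0] at hp
      have : (trip 1 0 x₁ : R K) * trip 1 0 x₂ * trip 1 0 x₃ ≠ 0 :=
        mul_ne_zero (mul_ne_zero z1 z2) z3
      exact this (by rw [hp]; simp)
    refine ⟨s / (trip 1 0 x₁ * trip 1 0 x₂), div_ne_zero hs0 (mul_ne_zero z1 z2), ?_⟩
    rw [div_pow, ← hp]
    field_simp

end CM27
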