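import Pool.Agent.MP_ae0bd0_nt.CM.RDefs

set_option autoImplicit false

open Polynomial NumberField IsDedekindDomain
open scoped Classical

namespace CM27

/-! ## [CM-R4a] the ring of integers of `ℚ(∛2)` is a principal ideal domain (file R4a.lean) -/

/-- the power basis of `ℚ(∛2)` -/
noncomputable def r4a_pb : PowerBasis ℚ (R ℚ) := AdjoinRoot.powerBasis' (cubPoly_monic ℚ)

theorem r4a_gen : r4a_pb.gen = pr ℚ := AdjoinRoot.powerBasis'_gen _

theorem r4a_dim : r4a_pb.dim = 3 := by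
  rw [r4a_pb, AdjoinRoot.powerBasis'_dim, cubPoly_natDegree]

theorem r4a_minpoly : minpoly ℚ (pr ℚ) = cubPoly ℚ := by
  have h1 : minpoly ℚ (AdjoinRoot.root (cubPoly ℚ)) =
      cubPoly ℚ * C (cubPoly ℚ).leadingCoeff⁻¹ :=
    AdjoinRoot.minpoly_root (cubPoly_monic ℚ).ne_zero
  rw [(cubPoly_monic ℚ).leadingCoeff, inv_one, C_1, mul_one] at h1
  exact h1

theorem r4a_norm : Algebra.norm ℚ (pr ℚ) = 2 := by
  rw [← r4a_gen, Algebra.PowerBasis.norm_gen_eq_coeff_zero_minpoly, r4a_gen, r4a_minpoly, r4a_dim]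
  have h1 : (cubPoly ℚ).coeff 0 = -2 := by simp [cubPoly]
  rw [h1]
  norm_num

theorem r4a_finrank : Module.finrank ℚ (R ℚ) = 3 := by
  rw [r4a_pb.finrank, r4a_dim]

theorem r4a_discr : Algebra.discr ℚ r4a_pb.basis = -108 := by
  rw [Algebra.discr_powerBasis_eq_norm, r4a_finrank, r4a_gen, r4a_minpoly]
  have h1 : (derivative (cubPoly ℚ)) = C 3 * X ^ 2 := by
    rw [cubPoly, derivative_sub, derivative_X_pow, derivative_C, sub_zero]
    norm_num
  rw [h1, map_mul, aeval_C, map_pow, aeval_X, map_mul, map_pow, r4a_norm, Algebra.norm_algebraMap,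
    r4a_finrank]
  norm_num

theorem r4a_int : IsIntegral ℤ (pr ℚ) := by
  refine ⟨X ^ 3 - C 2, by monicity!, ?_⟩
  simp [pr_pow]

theorem r4a_abs_discr : |discr (R ℚ)| ≤ 108 := by
  set b := integralBasis (R ℚ) with hb
  set e := b.indexEquiv r4a_pb.basis with he
  set b' := b.reindex e with hb'
  have h1 : Algebra.discr ℚ r4a_pb.basis =
      (b'.toMatrix r4a_pb.basis).det ^ 2 * Algebra.discr ℚ b' := by
    rw [← Algebra.discr_of_matrix_vecMul, Module.Basis.toMatrix_map_vecMul]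
  have h2 : Algebra.discr ℚ b' = (discr (R ℚ) : ℚ) := by
    rw [coe_discr, hb', Module.Basis.coe_reindex, Algebra.discr_reindex]
  have h3 : ∃ Q : Matrix (Fin r4a_pb.dim) (Fin r4a_pb.dim) ℤ,
      b'.toMatrix r4a_pb.basis = Q.map (Int.castRingHom ℚ) := by
    have hint : ∀ j, IsIntegral ℤ (r4a_pb.basis j) := by
      intro j
      rw [PowerBasis.basis_eq_pow, r4a_gen]
      exact r4a_int.pow _
    have hint' : ∀ j, ∃ x : 𝓞 (R ℚ), algebraMap (𝓞 (R ℚ)) (R ℚ) x = r4a_pb.basis j := fun j =>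
      ⟨⟨r4a_pb.basis j, hint j⟩, rfl⟩
    choose x hx using hint'
    refine ⟨Matrix.of fun i j => (RingOfIntegers.basis (R ℚ)).repr (x j) (e.symm i), ?_⟩
    ext i j
    rw [Module.Basis.toMatrix_apply, Matrix.map_apply, Matrix.of_apply, hb',
      Module.Basis.repr_reindex_apply, ← hx j]
    exact integralBasis_repr_apply (R ℚ) (x j) (e.symm i)
  obtain ⟨Q, hQ⟩ := h3
  rw [r4a_discr, h2, hQ, show (Q.map (Int.castRingHom ℚ)).det = ((Q.det : ℤ) : ℚ) from
    (RingHom.map_det (Int.castRingHom ℚ) Q).symm] at h1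
  have h4 : (-108 : ℤ) = Q.det ^ 2 * discr (R ℚ) := by exact_mod_cast h1
  have h5 : Q.det ≠ 0 := by
    intro h0
    rw [h0] at h4
    norm_num at h4
  have h6 : 1 ≤ Q.det ^ 2 := by
    have := sq_pos_of_pos (abs_pos.2 h5)
    rw [sq_abs] at this
    omega
  have h7 : (108 : ℤ) = Q.det ^ 2 * |discr (R ℚ)| := by
    have := congrArg abs h4
    rw [abs_mul, abs_of_nonneg (sq_nonneg Q.det)] at this
    simpa using this
  rw [h7]
  nlinarith [abs_nonneg (discr (R ℚ))]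

theorem r4a_bound : (4 / Real.pi) ^ InfinitePlace.nrComplexPlaces (R ℚ) *
    ((Module.finrank ℚ (R ℚ)).factorial / (Module.finrank ℚ (R ℚ)) ^ (Module.finrank ℚ (R ℚ)) *
      √|(discr (R ℚ) : ℝ)|) < 3 := by
  have h1 : InfinitePlace.nrComplexPlaces (R ℚ) ≤ 1 := by
    have := InfinitePlace.card_add_two_mul_card_eq_rank (R ℚ)
    rw [r4a_finrank] at this
    omega
  have hpi := Real.pi_gt_d2
  have hpi4 := Real.pi_lt_four
  have h2 : (4 / Real.pi) ^ InfinitePlace.nrComplexPlaces (R ℚ) ≤ 4 / Real.pi := by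
    have h0 : 1 ≤ 4 / Real.pi := by
      rw [le_div_iff₀ Real.pi_pos]; linarith
    calc (4 / Real.pi) ^ InfinitePlace.nrComplexPlaces (R ℚ) ≤ (4 / Real.pi) ^ 1 :=
          pow_le_pow_right₀ h0 h1
      _ = 4 / Real.pi := pow_one _
  have h3 : 4 / Real.pi ≤ 4 / 3.14 := by
    apply div_le_div_of_nonneg_left (by norm_num) (by norm_num) hpi.le
  have h4 : √|(discr (R ℚ) : ℝ)| ≤ 10.4 := by
    rw [Real.sqrt_le_left (by norm_num)]
    have h5 : |(discr (R ℚ) : ℝ)| ≤ 108 := by exact_mod_cast r4a_abs_discr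
    refine h5.trans (by norm_num)
  rw [r4a_finrank]
  have h6 : ((Nat.factorial 3 : ℕ) : ℝ) / ((3 : ℕ) : ℝ) ^ 3 = 6 / 27 := by
    norm_num [Nat.factorial]
  rw [h6]
  calc (4 / Real.pi) ^ InfinitePlace.nrComplexPlaces (R ℚ) * (6 / 27 * √|(discr (R ℚ) : ℝ)|)
      ≤ (4 / 3.14) * (6 / 27 * 10.4) := by
        apply mul_le_mul (h2.trans h3) (by gcongr) (by positivity) (by norm_num)
    _ < 3 := by norm_num

theorem cub_pid : IsPrincipalIdealRing (𝓞 (R ℚ)) := by
  refine RingOfIntegers.isPrincipalIdealRing_of_isPrincipal_of_norm_le fun I hI => ?_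
  have h1 : (Ideal.absNorm (I : Ideal (𝓞 (R ℚ))) : ℝ) < 3 := by
    refine lt_of_le_of_lt hI ?_
    exact_mod_cast r4a_bound
  have h2 : Ideal.absNorm (I : Ideal (𝓞 (R ℚ))) < 3 := by exact_mod_cast h1
  have h0 : Ideal.absNorm (I : Ideal (𝓞 (R ℚ))) ≠ 0 := Ideal.absNorm_ne_zero_of_nonZeroDivisors I
  rcases (show Ideal.absNorm (I : Ideal (𝓞 (R ℚ))) = 1 ∨
      Ideal.absNorm (I : Ideal (𝓞 (R ℚ))) = 2 by omega) with h | h
  · rw [Ideal.absNorm_eq_one_iff] at h
    rw [h]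
    exact top_isPrincipal
  · have hprime : (I : Ideal (𝓞 (R ℚ))).IsPrime :=
      Ideal.isPrime_of_irreducible_absNorm (by rw [h]; exact Nat.prime_two)
    set p : 𝓞 (R ℚ) := ⟨pr ℚ, r4a_int⟩ with hp
    have hp3 : p ^ 3 = 2 := by
      apply RingOfIntegers.ext
      change pr ℚ ^ 3 = _
      rw [pr_pow]
      rfl
    have hpI : p ∈ (I : Ideal (𝓞 (R ℚ))) := by
      have h3 := Ideal.absNorm_mem (I : Ideal (𝓞 (R ℚ)))
      rw [h] at h3
      refine hprime.mem_of_pow_mem 3 ?_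
      rw [hp3]
      exact_mod_cast h3
    have hnorm : Ideal.absNorm (Ideal.span {p}) = 2 := by
      rw [Ideal.absNorm_span_singleton]
      have h4 : Algebra.norm ℤ p = 2 := by
        have h5 : ((Algebra.norm ℤ p : ℤ) : ℚ) = 2 := by
          rw [Algebra.coe_norm_int]
          exact r4a_norm
        exact_mod_cast h5
      rw [h4]; rfl
    obtain ⟨J, hJ⟩ := Ideal.dvd_iff_le.2 ((Ideal.span_singleton_le_iff_mem _).2 hpI)
    have h6 : Ideal.absNorm J = 1 := by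
      have h7 := congrArg Ideal.absNorm hJ
      rw [hnorm, map_mul, h] at h7
      omega
    rw [Ideal.absNorm_eq_one_iff] at h6
    rw [h6, Ideal.mul_top] at hJ
    exact ⟨p, by rw [← hJ]⟩

end CM27
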